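import Pool.Agent.Bc.Stmts2

/-!
# Project BC: analytic sets have the Baire property

`hull B` is a closed set which contains `B` up to a meagre set and is contained, up to a meagre set, in every
Baire measurable set with this property. For an analytic set `A = f [N ^ N]` and `A_s = f [N_s]` the hull of
`A` is contained in `A` up to the meagre set of the points of `hull A_s` outside of all `hull A_(s k)`.
-/

set_option autoImplicit false

open MeasureTheory Topology TopologicalSpace Set

namespace Pool.Bc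

section hull

variable {α : Type*} [TopologicalSpace α] [SecondCountableTopology α]

/-- The union of the basic open sets in which `B` is meagre. -/
def bpG (B : Set α) : Set α := ⋃ U ∈ {U | U ∈ countableBasis α ∧ IsMeagre (U ∩ B)}, U

/-- The hull of a set. -/
def bpH (B : Set α) : Set α := closure B \ bpG B

theorem bpG_open (B : Set α) : IsOpen (bpG B) :=
  isOpen_biUnion fun _ hU => isOpen_of_mem_countableBasis hU.1

theorem bpH_closed (B : Set α) : IsClosed (bpH B) := isClosed_closure.sdiff (bpG_open B)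

theorem bpH_meas (B : Set α) : BaireMeasurableSet (bpH B) := by
  have h := (bpH_closed B).isOpen_compl.baireMeasurableSet
  exact h.of_compl

theorem diff_bpH (B : Set α) : IsMeagre (B \ bpH B) := by
  have h1 : IsMeagre (⋃ U ∈ {U | U ∈ countableBasis α ∧ IsMeagre (U ∩ B)}, U ∩ B) :=
    isMeagre_biUnion ((countable_countableBasis α).mono fun _ h => h.1) fun U hU => hU.2
  refine h1.mono ?_
  rintro x ⟨hx, hn⟩
  have h2 : x ∈ bpG B := by
    by_contra h3
    exact hn ⟨subset_closure hx, h3⟩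
  obtain ⟨U, hU, hxU⟩ := mem_iUnion₂.1 h2
  exact mem_iUnion₂.2 ⟨U, hU, hxU, hx⟩

theorem bpH_min {B C : Set α} (hC : BaireMeasurableSet C) (h : IsMeagre (B \ C)) :
    IsMeagre (bpH B \ C) := by
  obtain ⟨V, hV, hCV⟩ := hC.compl.residualEq_isOpen
  have hVB : IsMeagre (V ∩ B) := by
    rw [IsMeagre] at h ⊢
    filter_upwards [h, hCV] with x h1 h2
    rintro ⟨h3, h4⟩
    have h5 : x ∈ Cᶜ := by
      have h6 : (x ∈ Cᶜ) = (x ∈ V) := h2
      rw [h6]
      exact h3
    exact h1 ⟨h4, h5⟩
  have hVG : V ⊆ bpG B := by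
    intro x hx
    obtain ⟨U, hU, hxU, hUV⟩ := (isBasis_countableBasis α).exists_subset_of_mem_open hx hV
    exact mem_iUnion₂.2 ⟨U, ⟨hU, hVB.mono (inter_subset_inter_left B hUV)⟩, hxU⟩
  rw [IsMeagre]
  filter_upwards [hCV] with x h2
  rintro ⟨h3, h4⟩
  have h6 : (x ∈ Cᶜ) = (x ∈ V) := h2
  have h5 : x ∈ V := by
    rw [← h6]
    exact h4
  exact h3.2 (hVG h5)

end hull

/-- The cylinder of a reversed finite sequence. -/
def bpN (s : List ℕ) : Set (ℕ → ℕ) := {y | PiNat.res y s.length = s}

theorem bpN_nil : bpN [] = univ := by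
  ext y
  simp [bpN]

theorem bpN_split (s : List ℕ) : bpN s = ⋃ k : ℕ, bpN (k :: s) := by
  ext y
  simp only [bpN, mem_setOf_eq, mem_iUnion, List.length_cons, PiNat.res_succ, List.cons.injEq]
  constructor
  · intro h
    exact ⟨y s.length, rfl, h⟩
  · rintro ⟨_, _, h⟩
    exact h

theorem stBP : StBP := by
  intro α _ _ A hA
  have hsc : SecondCountableTopology α := inferInstance
  have hT2 : T2Space α := by
    letI := upgradeIsCompletelyMetrizable α
    infer_instance
  rw [AnalyticSet] at hA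
  rcases hA with rfl | ⟨f, hf, rfl⟩
  · exact IsMeagre.empty.baireMeasurableSet
  have hsplit : ∀ s : List ℕ, f '' bpN s = ⋃ k : ℕ, f '' bpN (k :: s) := by
    intro s
    rw [bpN_split s, image_iUnion]
  have hmeag : ∀ s : List ℕ, IsMeagre (bpH (f '' bpN s) \ ⋃ k : ℕ, bpH (f '' bpN (k :: s))) := by
    intro s
    refine bpH_min (BaireMeasurableSet.iUnion fun k => bpH_meas _) ?_
    have h1 : IsMeagre (⋃ k : ℕ, (f '' bpN (k :: s) \ bpH (f '' bpN (k :: s)))) :=
      isMeagre_iUnion fun k => diff_bpH _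
    refine h1.mono ?_
    rw [hsplit s]
    rintro x ⟨hx, hn⟩
    obtain ⟨k, hk⟩ := mem_iUnion.1 hx
    exact mem_iUnion.2 ⟨k, hk, fun h2 => hn (mem_iUnion.2 ⟨k, h2⟩)⟩
  have hM : IsMeagre (⋃ s : List ℕ, (bpH (f '' bpN s) \ ⋃ k : ℕ, bpH (f '' bpN (k :: s)))) :=
    isMeagre_iUnion hmeag
  have hnil : f '' bpN [] = range f := by
    rw [bpN_nil, image_univ]
  have key : ∀ x ∈ bpH (range f),
      x ∉ (⋃ s : List ℕ, (bpH (f '' bpN s) \ ⋃ k : ℕ, bpH (f '' bpN (k :: s)))) → x ∈ range f := by
    intro x hx hxM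
    have hstep : ∀ s : {s : List ℕ // x ∈ bpH (f '' bpN s)}, ∃ k : ℕ, x ∈ bpH (f '' bpN (k :: s.1)) := by
      intro s
      by_contra hcon
      apply hxM
      refine mem_iUnion.2 ⟨s.1, s.2, fun h2 => ?_⟩
      exact hcon (mem_iUnion.1 h2)
    choose g hg using hstep
    let T : ℕ → {s : List ℕ // x ∈ bpH (f '' bpN s)} := fun n =>
      Nat.rec ⟨[], by rw [hnil]; exact hx⟩ (fun _ s => ⟨g s :: s.1, hg s⟩) n
    let y : ℕ → ℕ := fun n => g (T n)
    have hres : ∀ n, PiNat.res y n = (T n).1 := by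
      intro n
      induction n with
      | zero => rfl
      | succ n ih =>
        rw [PiNat.res_succ, ih]
    refine ⟨y, ?_⟩
    by_contra hne
    obtain ⟨U, W, hU, hW, hyU, hxW, hUW⟩ := t2_separation hne
    obtain ⟨V, hV, hyV, hVU⟩ := (PiNat.isTopologicalBasis_cylinders (fun _ : ℕ => ℕ)).exists_subset_of_mem_open
      (show y ∈ f ⁻¹' U from hyU) (hU.preimage hf)
    obtain ⟨z, n, rfl⟩ := hV
    have hcyl : bpN (T n).1 ⊆ f ⁻¹' U := by
      refine Subset.trans ?_ hVU
      intro w hw
      have h1 : PiNat.res w n = PiNat.res y n := by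
        have h2 : PiNat.res w (T n).1.length = (T n).1 := hw
        rw [← hres n, PiNat.res_length] at h2
        exact h2
      have h3 := PiNat.res_eq_res.1 h1
      rw [PiNat.mem_cylinder_iff] at hyV ⊢
      intro i hi
      rw [h3 hi]
      exact hyV i hi
    have hxc : x ∈ closure (f '' bpN (T n).1) := (T n).2.1
    obtain ⟨v, hvW, hv⟩ := mem_closure_iff.1 hxc W hW hxW
    obtain ⟨w, hw, rfl⟩ := hv
    exact (disjoint_left.1 hUW) (hcyl hw) hvW
  refine (bpH_meas (range f)).congr ?_
  have h1 := diff_bpH (range f)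
  rw [IsMeagre] at h1 hM
  rw [Filter.eventuallyEq_set]
  filter_upwards [h1, hM] with x h2 h3
  constructor
  · intro h4
    exact key x h4 h3
  · intro h4
    by_contra h5
    exact h2 ⟨h4, h5⟩

end Pool.Bc
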