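import Pool.Agent.Bc.Stmts2

/-!
# Project BC: Borel choice of enumerations
-/

set_option autoImplicit false

open MeasureTheory

namespace Pool.Bc

/-! ### Measurable maps to countable sets -/

section meas

variable {X : Type} [MeasurableSpace X] {β γ : Type}

/-- Measurability of a map to a countable set. -/
def be_MC (g : X → β) : Prop := ∀ b, MeasurableSet {x | g x = b}

theorem be_set [Countable β] {g : X → β} (hg : be_MC g) {P : β → X → Prop}
    (hP : ∀ b, MeasurableSet {x | P b x}) : MeasurableSet {x | P (g x) x} := by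
  have h : {x | P (g x) x} = ⋃ b, {x | g x = b} ∩ {x | P b x} := by
    ext x
    simp only [Set.mem_ofPred_eq, Set.mem_iUnion, Set.mem_inter_iff]
    exact ⟨fun h => ⟨g x, rfl, h⟩, fun ⟨b, hb, h⟩ => hb ▸ h⟩
  rw [h]
  exact MeasurableSet.iUnion fun b => (hg b).inter (hP b)

theorem be_comp [Countable β] {g : X → β} (hg : be_MC g) {F : β → X → γ}
    (hF : ∀ b, be_MC (F b)) : be_MC (fun x => F (g x) x) := fun c =>
  be_set (P := fun b x => F b x = c) hg fun b => hF b c

theorem be_const (b : β) : be_MC (fun _ : X => b) := fun c => by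
  by_cases h : b = c
  · simp [h]
  · simp [h]

theorem be_meas {g : X → ℕ} (hg : be_MC g) : Measurable g :=
  measurable_to_countable' fun n => hg n

theorem be_of_meas {g : X → ℕ} (hg : Measurable g) : be_MC g := fun n =>
  hg (measurableSet_singleton n)

theorem be_sInf {Q : X → ℕ → Prop} (hQ : ∀ n, MeasurableSet {x | Q x n}) :
    be_MC (fun x => sInf {n | Q x n}) := by
  intro m
  have h : {x | sInf {n | Q x n} = m} =
      ({x | Q x m} ∩ ⋂ i, ⋂ (_ : i < m), {x | Q x i}ᶜ) ∪
        ({x | m = 0} ∩ ⋂ i, {x | Q x i}ᶜ) := by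
    ext x
    simp only [Set.mem_ofPred_eq, Set.mem_union, Set.mem_inter_iff, Set.mem_iInter,
      Set.mem_compl_iff]
    constructor
    · intro h
      by_cases hne : {n | Q x n}.Nonempty
      · left
        have h1 := Nat.sInf_mem hne
        rw [h] at h1
        refine ⟨h1, fun i hi hq => ?_⟩
        have := Nat.sInf_le (s := {n | Q x n}) hq
        omega
      · right
        rw [Set.not_nonempty_iff_eq_empty] at hne
        rw [hne, Nat.sInf_empty] at h
        refine ⟨h.symm, fun i hi => ?_⟩
        have : i ∈ {n | Q x n} := hi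
        rw [hne] at this
        exact this
    · rintro (⟨h1, h2⟩ | ⟨h1, h2⟩)
      · apply le_antisymm (Nat.sInf_le (s := {n | Q x n}) h1)
        by_contra hlt
        push Not at hlt
        exact h2 _ hlt (Nat.sInf_mem (s := {n | Q x n}) ⟨m, h1⟩)
      · have : {n | Q x n} = ∅ := by
          ext i
          simp only [Set.mem_ofPred_eq, Set.mem_empty_iff_false, iff_false]
          exact h2 i
        rw [this, Nat.sInf_empty, h1]
  rw [h]
  refine MeasurableSet.union ((hQ m).inter ?_) (MeasurableSet.inter ?_ ?_)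
  · exact MeasurableSet.iInter fun i => MeasurableSet.iInter fun _ => (hQ i).compl
  · exact MeasurableSet.const _
  · exact MeasurableSet.iInter fun i => (hQ i).compl

end meas

/-! ### Enumeration of a set of natural numbers -/

open Classical in
/-- The `j`-th element. -/
noncomputable def be_pk (P : ℕ → Prop) (j : ℕ) : ℕ := sInf {n | P n ∧ Nat.count P n = j}

theorem be_pk_spec {P : ℕ → Prop} (h : {n | P n}.Infinite) (j : ℕ) :
    P (be_pk P j) ∧ @Nat.count P (fun _ => Classical.propDecidable _) (be_pk P j) = j := by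
  classical
  have hne : {n | P n ∧ @Nat.count P (fun _ => Classical.propDecidable _) n = j}.Nonempty := by
    refine ⟨Nat.nth P j, Nat.nth_mem_of_infinite h j, ?_⟩
    convert Nat.count_nth_of_infinite h j
  exact Nat.sInf_mem hne

theorem be_pk_inj {P : ℕ → Prop} (h : {n | P n}.Infinite) {i j : ℕ}
    (hij : be_pk P i = be_pk P j) : i = j := by
  rw [← (be_pk_spec h i).2, hij, (be_pk_spec h j).2]

theorem be_pk_sur {P : ℕ → Prop} (h : {n | P n}.Infinite) {n : ℕ} (hn : P n) :
    ∃ j, be_pk P j = n := by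
  classical
  refine ⟨@Nat.count P (fun _ => Classical.propDecidable _) n, ?_⟩
  have h1 := be_pk_spec h (@Nat.count P (fun _ => Classical.propDecidable _) n)
  exact @Nat.count_injective P (fun _ => Classical.propDecidable _) _ _ h1.1 hn h1.2

theorem be_pk_meas {X : Type} [MeasurableSpace X] {P : X → ℕ → Prop}
    (hP : ∀ n, MeasurableSet {x | P x n}) (j : ℕ) : be_MC (fun x => be_pk (P x) j) := by
  classical
  have hc : ∀ n, be_MC (fun x => @Nat.count (P x) (fun _ => Classical.propDecidable _) n) := by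
    intro n
    induction n with
    | zero =>
      simp only [Nat.count_zero]
      exact be_const 0
    | succ n ih =>
      simp only [Nat.count_succ]
      exact be_of_meas ((be_meas ih).add (Measurable.ite (hP n) measurable_const measurable_const))
  exact be_sInf (Q := fun x n => P x n ∧
    @Nat.count (P x) (fun _ => Classical.propDecidable _) n = j) fun n => (hP n).inter (hc n j)

/-! ### Enumeration of classes -/

/-- Least representatives. -/
def be_min {β : Type} (V : ℕ → Prop) (f : ℕ → β) (n : ℕ) : Prop := V n ∧ ∀ m < n, V m → f m ≠ f n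

theorem be_min_ex {β : Type} {V : ℕ → Prop} {f : ℕ → β} {n : ℕ} (hn : V n) :
    ∃ m, be_min V f m ∧ f m = f n := by
  classical
  have hex : ∃ m, V m ∧ f m = f n := ⟨n, hn, rfl⟩
  refine ⟨Nat.find hex, ⟨(Nat.find_spec hex).1, fun m hm hV h => ?_⟩, (Nat.find_spec hex).2⟩
  exact Nat.find_min hex hm ⟨hV, h.trans (Nat.find_spec hex).2⟩

theorem be_min_inj {β : Type} {V : ℕ → Prop} {f : ℕ → β} {m n : ℕ} (hm : be_min V f m)
    (hn : be_min V f n) (h : f m = f n) : m = n := by
  rcases lt_trichotomy m n with h1 | h1 | h1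
  · exact absurd h (hn.2 m h1 hm.1)
  · exact h1
  · exact absurd h.symm (hm.2 n h1 hn.1)

theorem be_min_inf {β : Type} {V : ℕ → Prop} {f : ℕ → β} (h : (f '' {n | V n}).Infinite) :
    {n | be_min V f n}.Infinite := by
  intro hfin
  apply h
  refine (hfin.image f).subset ?_
  rintro _ ⟨n, hn, rfl⟩
  obtain ⟨m, hm, hmn⟩ := be_min_ex (V := V) (f := f) hn
  exact ⟨m, hm, hmn⟩

/-- The `j`-th class. -/
noncomputable def be_en {β : Type} (V : ℕ → Prop) (f : ℕ → β) (j : ℕ) : ℕ := be_pk (be_min V f) j

theorem be_en_mem {β : Type} {V : ℕ → Prop} {f : ℕ → β} (h : (f '' {n | V n}).Infinite) (j : ℕ) :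
    V (be_en V f j) := (be_pk_spec (be_min_inf h) j).1.1

theorem be_en_inj {β : Type} {V : ℕ → Prop} {f : ℕ → β} (h : (f '' {n | V n}).Infinite)
    {i j : ℕ} (hij : f (be_en V f i) = f (be_en V f j)) : i = j :=
  be_pk_inj (be_min_inf h) (be_min_inj (be_pk_spec (be_min_inf h) i).1
    (be_pk_spec (be_min_inf h) j).1 hij)

theorem be_en_sur {β : Type} {V : ℕ → Prop} {f : ℕ → β} (h : (f '' {n | V n}).Infinite)
    {n : ℕ} (hn : V n) : ∃ j, f (be_en V f j) = f n := by
  obtain ⟨m, hm, hmn⟩ := be_min_ex (V := V) (f := f) hn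
  obtain ⟨j, hj⟩ := be_pk_sur (be_min_inf h) hm
  exact ⟨j, by rw [be_en, hj, hmn]⟩

theorem be_en_meas {X : Type} [MeasurableSpace X] {β : Type} {V : X → ℕ → Prop} {f : X → ℕ → β}
    (hV : ∀ n, MeasurableSet {x | V x n}) (hf : ∀ m n, MeasurableSet {x | f x m = f x n})
    (j : ℕ) : be_MC (fun x => be_en (V x) (f x) j) := by
  refine be_pk_meas (fun n => ?_) j
  have h : {x | be_min (V x) (f x) n} =
      {x | V x n} ∩ ⋂ m, ⋂ (_ : m < n), ({x | V x m}ᶜ ∪ {x | f x m = f x n}ᶜ) := by
    ext x
    simp only [be_min, Set.mem_ofPred_eq, Set.mem_inter_iff, Set.mem_iInter, Set.mem_union,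
      Set.mem_compl_iff]
    refine and_congr_right fun _ => forall_congr' fun m => forall_congr' fun _ => ?_
    exact imp_iff_not_or
  rw [h]
  exact (hV n).inter (MeasurableSet.iInter fun m => MeasurableSet.iInter fun _ =>
    (hV m).compl.union (hf m n).compl)

/-! ### Codes of tuples and keys -/

/-- Decoding. -/
def be_dc (n : ℕ) : List ℕ × List (ℕ × ℕ) :=
  (Encodable.decode (α := List ℕ × List (ℕ × ℕ)) n).getD ([], [])

theorem be_dc_enc (c : List ℕ × List (ℕ × ℕ)) : be_dc (Encodable.encode c) = c := by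
  rw [be_dc, Encodable.encodek]
  rfl

section enum

variable {X : Type} (S : TupSys X)

/-- Valid codes of `A`-nodes. -/
def be_VA (n : ℕ) : Prop := KeyOK (be_dc n).2 (be_dc n).1.length ∧ rho (be_dc n).2 ≠ 0

/-- The `A`-node of a code. -/
def be_fA (x : X) (L : Lvl) (n : ℕ) : AN L := (tp S x L (be_dc n).1, (be_dc n).2)

/-- The sequence of a code. -/
def be_sq (x : X) (L : Lvl) (n : ℕ) : TN L := seqOf S x L (be_dc n).1 (be_dc n).2

/-- Valid codes of tree nodes of depth `k` above the node of the code `pc` of depth `k - 1`. -/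
def be_VT (x : X) (L : Lvl) (k pc : ℕ) (n : ℕ) : Prop :=
  (KeyOK (be_dc n).2 (be_dc n).1.length ∧ (be_dc n).2.length = k + 1) ∧
    ∀ k' < k, trunc k' (be_sq S x L n) = trunc k' (be_sq S x L pc)

/-- The tree node of a code. -/
def be_fT (x : X) (L : Lvl) (k : ℕ) (n : ℕ) : TN L := trunc k (be_sq S x L n)

theorem be_A_inf (x : X) (L : Lvl) : (be_fA S x L '' {n | be_VA n}).Infinite := by
  refine Set.infinite_of_injective_forall_mem
    (f := fun n : ℕ => ((tp S x L [], [(0, n + 1)]) : AN L)) ?_ ?_
  · intro m n h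
    have h1 : [((0 : ℕ), m + 1)] = [(0, n + 1)] := congrArg Prod.snd h
    simpa using h1
  · intro n
    refine ⟨Encodable.encode (([] : List ℕ), [((0 : ℕ), n + 1)]), ?_, ?_⟩
    · change be_VA _
      rw [be_VA, be_dc_enc]
      refine ⟨KeyOK.single 0 (n + 1), ?_⟩
      simp [rho]
    · rw [be_fA, be_dc_enc]

theorem be_T_inf (x : X) (L : Lvl) {k pc : ℕ}
    (hpc : ∀ k', k = k' + 1 → KeyOK (be_dc pc).2 (be_dc pc).1.length ∧
      (be_dc pc).2.length = k' + 1) :
    (be_fT S x L k '' {n | be_VT S x L k pc n}).Infinite := by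
  obtain ⟨e0, κ0, h0, hk0, hpar⟩ : ∃ (e0 : List ℕ) (κ0 : List (ℕ × ℕ)),
      (κ0 = [] ∨ KeyOK κ0 e0.length) ∧ κ0.length = k ∧ (∀ k' < k, ∀ n,
        trunc k' (seqOf S x L (e0 ++ []) (κ0 ++ [((e0 ++ ([] : List ℕ)).length, n)])) =
          trunc k' (be_sq S x L pc)) := by
    cases k with
    | zero => exact ⟨[], [], Or.inl rfl, rfl, fun k' hk' => absurd hk' (Nat.not_lt_zero _)⟩
    | succ k0 =>
      obtain ⟨h1, h2⟩ := hpc k0 rfl
      refine ⟨(be_dc pc).1, (be_dc pc).2, Or.inr h1, h2, fun k' hk' n => ?_⟩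
      have h3 := child_trunc (S := S) (x := x) (l := L) (c := []) (n := n) h1 h2
      rw [← trunc_trunc (Nat.lt_succ_iff.1 hk') (seqOf S x L _ _), h3,
        trunc_trunc (Nat.lt_succ_iff.1 hk')]
      rfl
  refine Set.infinite_of_injective_forall_mem
    (f := fun n : ℕ => trunc κ0.length (seqOf S x L (e0 ++ ([] : List ℕ))
      (κ0 ++ [((e0 ++ ([] : List ℕ)).length, n)]))) ?_ ?_
  · intro m n h
    have h1 := congrArg (keyT κ0.length) h
    simp only [child_key] at h1
    have h2 := List.append_cancel_left h1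
    simpa using h2
  · intro n
    refine ⟨Encodable.encode (e0 ++ ([] : List ℕ),
      κ0 ++ [((e0 ++ ([] : List ℕ)).length, n)]), ?_, ?_⟩
    · change be_VT S x L k pc _
      refine ⟨?_, ?_⟩
      · rw [be_dc_enc]
        refine ⟨(child_mem (S := S) (x := x) (l := L) h0).1, ?_⟩
        simp [hk0]
      · intro k' hk'
        rw [be_sq, be_dc_enc]
        exact hpar k' hk' n
    · rw [be_fT, be_sq, be_dc_enc, hk0]

/-- The code of the `i`-th `A`-node. -/
noncomputable def be_ac (x : X) (L : Lvl) (i : ℕ) : ℕ := be_en be_VA (be_fA S x L) i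

/-- The codes of the tree nodes. -/
noncomputable def be_tc (x : X) (L : Lvl) : List ℕ → ℕ
  | [] => 0
  | j :: s => be_en (be_VT S x L s.length (be_tc x L s)) (be_fT S x L s.length) j

theorem be_tc_ok (x : X) (L : Lvl) : ∀ (s : List ℕ) (j : ℕ),
    be_VT S x L s.length (be_tc S x L s) (be_tc S x L (j :: s))
  | [], j => be_en_mem (be_T_inf S x L fun k' h => absurd h (by simp)) j
  | j' :: s, j => by
    refine be_en_mem (be_T_inf S x L fun k' h => ?_) j
    have h1 := (be_tc_ok x L s j').1
    have h2 : s.length = k' := by simpa using h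
    rwa [h2] at h1

theorem be_tc_inf (x : X) (L : Lvl) (s : List ℕ) :
    (be_fT S x L s.length '' {n | be_VT S x L s.length (be_tc S x L s) n}).Infinite := by
  refine be_T_inf S x L fun k' h => ?_
  cases s with
  | nil => exact absurd h (by simp)
  | cons j' s =>
    have h1 := (be_tc_ok S x L s j').1
    have h2 : s.length = k' := by simpa using h
    rwa [h2] at h1

/-- The tree nodes. -/
noncomputable def be_tn (x : X) (L : Lvl) : List ℕ → TN L
  | [] => fun _ => (∅, (0, 0))
  | j :: s => be_fT S x L s.length (be_tc S x L (j :: s))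

/-- The enumeration. -/
noncomputable def be_enum (l : Lvl) (x : X) : Enum S l x where
  a σ i := be_fA S x (lv l σ) (be_ac S x (lv l σ) i)
  t σ s := be_tn S x (lv l σ) s
  a_inj σ i j h := be_en_inj (be_A_inf S x (lv l σ)) h
  a_mem σ i := by
    have h := be_en_mem (be_A_inf S x (lv l σ)) i
    exact ⟨_, _, h.1, h.2, rfl⟩
  a_sur σ y hy := by
    obtain ⟨e, κ, h1, h2, rfl⟩ := hy
    obtain ⟨j, hj⟩ := be_en_sur (be_A_inf S x (lv l σ)) (n := Encodable.encode (e, κ)) (by
      rw [be_VA, be_dc_enc]
      exact ⟨h1, h2⟩)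
    refine ⟨j, hj.trans ?_⟩
    rw [be_fA, be_dc_enc]
  t_mem σ j s := by
    have h := be_tc_ok S x (lv l σ) s j
    exact ⟨_, _, h.1.1, h.1.2, rfl⟩
  t_par σ j j' s := by
    have h := (be_tc_ok S x (lv l σ) (j' :: s) j).2 s.length (by simp)
    change trunc s.length (trunc (s.length + 1) _) = trunc s.length _
    rw [trunc_trunc (Nat.le_succ _)]
    exact h
  t_inj σ s j j' h := be_en_inj (be_tc_inf S x (lv l σ) s) h
  t_sur0 σ u hu := by
    obtain ⟨e, κ, h1, h2, rfl⟩ := hu
    obtain ⟨j, hj⟩ := be_en_sur (be_tc_inf S x (lv l σ) []) (n := Encodable.encode (e, κ)) (by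
      refine ⟨?_, fun k' hk' => absurd hk' (Nat.not_lt_zero _)⟩
      rw [be_dc_enc]
      exact ⟨h1, h2⟩)
    refine ⟨j, hj.trans ?_⟩
    rw [be_fT, be_sq, be_dc_enc]
    rfl
  t_sur σ j s u hu hpar := by
    obtain ⟨e, κ, h1, h2, rfl⟩ := hu
    obtain ⟨j', hj⟩ := be_en_sur (be_tc_inf S x (lv l σ) (j :: s)) (n := Encodable.encode (e, κ))
      (by
        refine ⟨?_, fun k' hk' => ?_⟩
        · rw [be_dc_enc]
          exact ⟨h1, h2⟩
        · have hk2 : k' ≤ s.length := by simpa [Nat.lt_succ_iff] using hk'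
          rw [trunc_trunc (Nat.le_succ _)] at hpar
          have h3 := congrArg (trunc k') hpar
          change trunc k' (trunc s.length _) = trunc k' (trunc s.length _) at h3
          rw [trunc_trunc hk2, trunc_trunc hk2] at h3
          rw [be_sq, be_dc_enc]
          exact h3)
    refine ⟨j', hj.trans ?_⟩
    rw [be_fT, be_sq, be_dc_enc]
    rfl

/-! ### The point of the enumeration -/

/-- Finite parts of the branch of the `i`-th `A`-node, newest entry first. -/
noncomputable def be_br (x : X) (L : Lvl) (i : ℕ) : ℕ → List ℕ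
  | 0 => []
  | k + 1 => sInf {j | be_tn S x L (j :: be_br x L i k) =
      trunc (be_br x L i k).length (be_sq S x L (be_ac S x L i))} :: be_br x L i k

/-- The rows. -/
noncomputable def be_row (ψ : (ℕ → Bool) → ℕ → ℕ) (l : Lvl) (x : X) (σ : List ℕ) (i : ℕ) :
    ℕ → ℕ := fun t =>
  if (lv l σ).isZ = true then lbl ψ σ (lv l σ) (be_fA S x (lv l σ) (be_ac S x (lv l σ) i)) t
  else (be_br S x (lv l σ) i (t + 1)).headD 0

/-- The point of the enumeration. -/
noncomputable def be_E (ψ : (ℕ → Bool) → ℕ → ℕ) (l : Lvl) (x : X) : Z := fun c =>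
  match c with
  | Sum.inl (σ, i, t) => be_row S ψ l x σ i t
  | Sum.inr (σ, j, s, i) => col S ((lv l σ).chd s.length)
      (be_fA S x ((lv l σ).chd s.length) (be_ac S x ((lv l σ).chd s.length) i))
      (jp S x ((lv l σ).chd s.length) (be_dc (be_tc S x (lv l σ) (j :: s))).1)
      (be_dc (be_tc S x (lv l σ) (j :: s))).2

theorem be_br_len (x : X) (L : Lvl) (i : ℕ) : ∀ k, (be_br S x L i k).length = k
  | 0 => rfl
  | k + 1 => by rw [be_br, List.length_cons, be_br_len x L i k]

theorem be_pre (ψ : (ℕ → Bool) → ℕ → ℕ) (l : Lvl) (x : X) (σ : List ℕ) (i : ℕ)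
    (hz : (lv l σ).isZ = false) : ∀ k, pre (be_row S ψ l x σ i) k = be_br S x (lv l σ) i k
  | 0 => rfl
  | k + 1 => by
    rw [pre, be_pre ψ l x σ i hz k, be_row, if_neg (by rw [hz]; decide), be_br]
    rfl

theorem be_isZ (ψ : (ℕ → Bool) → ℕ → ℕ) (l : Lvl) (x : X) :
    IsZ S l ψ (be_enum S l x) (be_E S ψ l x) where
  bit_eq σ j s i := by
    have h := (be_tc_ok S x (lv l σ) s j).1
    change col S ((lv l σ).chd s.length) _ _ _ = col S ((lv l σ).chd s.length) _
      (trunc s.length (seqOf S x (lv l σ) (be_dc (be_tc S x (lv l σ) (j :: s))).1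
        (be_dc (be_tc S x (lv l σ) (j :: s))).2) s.length).1
      (keyT s.length (trunc s.length (seqOf S x (lv l σ)
        (be_dc (be_tc S x (lv l σ) (j :: s))).1 (be_dc (be_tc S x (lv l σ) (j :: s))).2)))
    rw [seqOf_last x _ _ h.1 h.2, keyT_mk x _ _ h.2]
    rfl
  lab_eq σ i hz := by
    funext t
    change be_row S ψ l x σ i t = _
    rw [be_row, if_pos hz]
    rfl
  br_eq σ i hz k := by
    have hA := be_en_mem (be_A_inf S x (lv l σ)) i
    have hpfx : ∀ k, pfx S (lv l σ) k ((be_enum S l x).a σ i) =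
        trunc k (be_sq S x (lv l σ) (be_ac S x (lv l σ) i)) := fun k =>
      pfx_mk hz hA.1 k
    have hmem := fun k => pfx_mem hz ((be_enum S l x).a_mem σ i) k
    have key : ∀ k, be_tn S x (lv l σ) (be_br S x (lv l σ) i (k + 1)) =
        trunc k (be_sq S x (lv l σ) (be_ac S x (lv l σ) i)) := by
      intro k
      induction k with
      | zero =>
        obtain ⟨j, hj⟩ := (be_enum S l x).t_sur0 σ _ (hmem 0)
        rw [hpfx] at hj
        have hne : {j | be_tn S x (lv l σ) (j :: be_br S x (lv l σ) i 0) =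
            trunc (be_br S x (lv l σ) i 0).length
              (be_sq S x (lv l σ) (be_ac S x (lv l σ) i))}.Nonempty := ⟨j, hj⟩
        exact Nat.sInf_mem hne
      | succ k ih =>
        have hk := be_br_len S x (lv l σ) i k
        have hcons : be_br S x (lv l σ) i (k + 1) = sInf {j | be_tn S x (lv l σ)
          (j :: be_br S x (lv l σ) i k) = trunc (be_br S x (lv l σ) i k).length
            (be_sq S x (lv l σ) (be_ac S x (lv l σ) i))} :: be_br S x (lv l σ) i k := rfl
        have hu := hmem (k + 1)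
        have hu2 : pfx S (lv l σ) (k + 1) ((be_enum S l x).a σ i) ∈
            TNset S x (lv l σ) ((be_br S x (lv l σ) i k).length + 1) := by rw [hk]; exact hu
        have hpar : trunc (be_br S x (lv l σ) i k).length
            (pfx S (lv l σ) (k + 1) ((be_enum S l x).a σ i)) =
              (be_enum S l x).t σ (be_br S x (lv l σ) i (k + 1)) := by
          rw [hk, hpfx, trunc_trunc (Nat.le_succ _)]
          exact ih.symm
        rw [hcons] at hpar
        obtain ⟨j, hj⟩ := (be_enum S l x).t_sur σ _ _ _ hu2 hpar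
        rw [← hcons, hpfx] at hj
        have hne : {j | be_tn S x (lv l σ) (j :: be_br S x (lv l σ) i (k + 1)) =
            trunc (be_br S x (lv l σ) i (k + 1)).length
              (be_sq S x (lv l σ) (be_ac S x (lv l σ) i))}.Nonempty := by
          refine ⟨j, ?_⟩
          rw [Set.mem_ofPred_eq, be_br_len]
          exact hj
        have h9 := Nat.sInf_mem hne
        rw [Set.mem_ofPred_eq] at h9
        have hcons2 : be_br S x (lv l σ) i (k + 1 + 1) = sInf {j | be_tn S x (lv l σ)
          (j :: be_br S x (lv l σ) i (k + 1)) = trunc (be_br S x (lv l σ) i (k + 1)).length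
            (be_sq S x (lv l σ) (be_ac S x (lv l σ) i))} :: be_br S x (lv l σ) i (k + 1) := rfl
        rw [hcons2]
        exact h9.trans (by rw [be_br_len])
    rw [hpfx]
    change be_tn S x (lv l σ) (pre (be_row S ψ l x σ i) (k + 1)) = _
    rw [be_pre S ψ l x σ i hz]
    exact key k

end enum

/-! ### Measurability -/

section meas2

variable {X : Type} [MeasurableSpace X] (S : TupSys X)

theorem be_map {β γ : Type} [Countable β] {g : X → β} (hg : be_MC g) (h : β → γ) :
    be_MC (fun x => h (g x)) :=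
  be_comp (F := fun b _ => h b) hg fun b => be_const (h b)

variable (h1 : ∀ (L : Lvl) e e', MeasurableSet {x | tp S x L e = tp S x L e'})
  (h2 : ∀ (L : Lvl) e e', MeasurableSet {x | jp S x L e = jp S x L e'})

include h2 in
theorem be_mT (L : Lvl) (k m n : ℕ) :
    MeasurableSet {x | trunc k (be_sq S x L m) = trunc k (be_sq S x L n)} := by
  have h : {x | trunc k (be_sq S x L m) = trunc k (be_sq S x L n)} =
      ⋂ i, ⋂ (_ : i ≤ k), ({x | jp S x (L.chd i)
        ((be_dc m).1.take ((be_dc m).2.getD i ((be_dc m).1.length, 0)).1) =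
        jp S x (L.chd i) ((be_dc n).1.take ((be_dc n).2.getD i ((be_dc n).1.length, 0)).1)} ∩
        {_x | (be_dc m).2.getD i ((be_dc m).1.length, 0) =
          (be_dc n).2.getD i ((be_dc n).1.length, 0)}) := by
    ext x
    simp only [Set.mem_ofPred_eq, Set.mem_iInter, Set.mem_inter_iff, trunc_eq_iff]
    refine forall_congr' fun i => forall_congr' fun _ => ?_
    exact Prod.mk_inj
  rw [h]
  exact MeasurableSet.iInter fun i => MeasurableSet.iInter fun _ =>
    (h2 _ _ _).inter (MeasurableSet.const _)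

include h1 in
theorem be_mac (L : Lvl) (i : ℕ) : be_MC (fun x => be_ac S x L i) := by
  refine be_en_meas (V := fun _ => be_VA) (f := fun x => be_fA S x L)
    (fun n => MeasurableSet.const _) (fun m n => ?_) i
  have h : {x | be_fA S x L m = be_fA S x L n} =
      {x | tp S x L (be_dc m).1 = tp S x L (be_dc n).1} ∩ {_x | (be_dc m).2 = (be_dc n).2} := by
    ext x
    exact Prod.mk_inj
  rw [h]
  exact (h1 _ _ _).inter (MeasurableSet.const _)

include h2 in
theorem be_mtc (L : Lvl) : ∀ s : List ℕ, be_MC (fun x => be_tc S x L s)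
  | [] => be_const 0
  | j :: s => by
    refine be_comp (F := fun pc x => be_en (be_VT S x L s.length pc) (be_fT S x L s.length) j)
      (be_mtc L s) fun pc => ?_
    refine be_en_meas (V := fun x => be_VT S x L s.length pc)
      (f := fun x => be_fT S x L s.length) (fun n => ?_) (fun m n => be_mT S h2 L _ m n) j
    have h : {x | be_VT S x L s.length pc n} =
        {_x | KeyOK (be_dc n).2 (be_dc n).1.length ∧ (be_dc n).2.length = s.length + 1} ∩
          ⋂ k', ⋂ (_ : k' < s.length),
            {x | trunc k' (be_sq S x L n) = trunc k' (be_sq S x L pc)} := by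
      ext x
      simp only [be_VT, Set.mem_ofPred_eq, Set.mem_inter_iff, Set.mem_iInter]
    rw [h]
    exact (MeasurableSet.const _).inter (MeasurableSet.iInter fun k' =>
      MeasurableSet.iInter fun _ => be_mT S h2 L k' n pc)

include h1 h2 in
theorem be_mbr (L : Lvl) (i : ℕ) : ∀ k, be_MC (fun x => be_br S x L i k)
  | 0 => be_const []
  | k + 1 => by
    refine be_comp (F := fun (s : List ℕ) x => sInf {j | be_tn S x L (j :: s) =
      trunc s.length (be_sq S x L (be_ac S x L i))} :: s) (be_mbr L i k) fun s => ?_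
    refine be_map (be_sInf (Q := fun x j => be_tn S x L (j :: s) =
      trunc s.length (be_sq S x L (be_ac S x L i))) fun j => ?_) (fun j => j :: s)
    exact be_set (P := fun a x => trunc s.length (be_sq S x L (be_tc S x L (j :: s))) =
      trunc s.length (be_sq S x L a)) (be_mac S h1 L i) fun a =>
        be_set (P := fun b x => trunc s.length (be_sq S x L b) = trunc s.length (be_sq S x L a))
          (be_mtc S h2 L (j :: s)) fun b => be_mT S h2 L _ b a

theorem be_mlbl (hbt : ∀ (e : List ℕ) (n : ℕ), MeasurableSet {x | S.bt x e n = true})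
    {ψ : (ℕ → Bool) → ℕ → ℕ} (hψ : Continuous ψ) (σ : List ℕ) (t n : ℕ) :
    ∀ L : Lvl, be_MC (fun x => lbl ψ σ L (be_fA S x L n) t)
  | .node _ => be_const 0
  | .zero => by
    apply be_of_meas
    have hm : Measurable (fun x => S.bt x (be_dc n).1) := by
      rw [measurable_pi_iff]
      intro a
      refine measurable_to_bool ?_
      exact hbt _ _
    have hc : Measurable (fun b : ℕ → Bool => code3 σ (be_dc n).2 b) := by
      rw [measurable_pi_iff]
      intro a
      unfold code3
      by_cases h3 : a < Encodable.encode (σ, (be_dc n).2)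
      · simp only [h3, if_true]
        exact measurable_const
      · by_cases h4 : a = Encodable.encode (σ, (be_dc n).2)
        · simp only [h4, if_true, lt_irrefl, if_false]
          exact measurable_const
        · simp only [h3, h4, if_false]
          exact measurable_pi_apply _
    have hψ' : Measurable ψ := hψ.measurable
    have h5 : Measurable (fun x => ψ (code3 σ (be_dc n).2 (S.bt x (be_dc n).1))) :=
      hψ'.comp (hc.comp hm)
    change Measurable (fun x => appendL (dec (rho (be_dc n).2)).2.2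
      (ψ (code3 σ (be_dc n).2 (S.bt x (be_dc n).1))) t)
    unfold appendL
    by_cases h6 : t < (dec (rho (be_dc n).2)).2.2.length
    · simp only [h6, if_true]
      exact measurable_const
    · simp only [h6, if_false]
      exact (measurable_pi_apply _).comp h5

end meas2

/-- Borel choice of an enumeration. -/
theorem stBorelEnum (h : StColMeas) : StBorelEnum := by
  intro X _ S hbt l _ ψ hψ
  have h1 : ∀ (L : Lvl) e e', MeasurableSet {x | tp S x L e = tp S x L e'} :=
    fun L => (h S hbt L).1
  have h2 : ∀ (L : Lvl) e e', MeasurableSet {x | jp S x L e = jp S x L e'} :=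
    fun L => (h S hbt L).2.1
  refine ⟨be_E S ψ l, ?_, fun x => ⟨be_enum S l x, be_isZ S ψ l x⟩⟩
  rw [measurable_pi_iff]
  rintro (⟨σ, i, t⟩ | ⟨σ, j, s, i⟩)
  · apply be_meas
    change be_MC (fun x => be_row S ψ l x σ i t)
    unfold be_row
    by_cases hz : (lv l σ).isZ = true
    · simp only [hz, if_true]
      exact be_comp (F := fun n x => lbl ψ σ (lv l σ) (be_fA S x (lv l σ) n) t)
        (be_mac S h1 _ i) fun n => be_mlbl S hbt hψ σ t n _
    · simp only [hz]
      exact be_map (be_mbr S h1 h2 _ i (t + 1)) (fun s => s.headD 0)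
  · apply be_meas
    exact be_comp (F := fun n x => col S ((lv l σ).chd s.length)
      (be_fA S x ((lv l σ).chd s.length) n)
      (jp S x ((lv l σ).chd s.length) (be_dc (be_tc S x (lv l σ) (j :: s))).1)
      (be_dc (be_tc S x (lv l σ) (j :: s))).2) (be_mac S h1 _ i) fun n =>
        be_comp (F := fun m x => col S ((lv l σ).chd s.length)
          (be_fA S x ((lv l σ).chd s.length) n)
          (jp S x ((lv l σ).chd s.length) (be_dc m).1) (be_dc m).2)
          (be_mtc S h2 _ (j :: s)) fun m c => (h S hbt _).2.2 _ _ _ _ c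

end Pool.Bc
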