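import Pool.Agent.Bc.Stmts2

/-!
# Project BC: `EqA` is equality of nodes
-/

set_option autoImplicit false

namespace Pool.Bc

variable {X : Type} {S : TupSys X}

theorem ANset_of_jp {x x' : X} {L : Lvl} (h : jp S x L [] = jp S x' L []) {a : AN L}
    (ha : a ∈ ANset S x L) : a ∈ ANset S x' L := by
  obtain ⟨e, κ, hκ, hr, rfl⟩ := ha
  have h1 : tp S x L e ∈ jp S x' L [] := h ▸ tp_mem_jp_nil x L e
  obtain ⟨c, hc⟩ := h1
  rw [List.nil_append] at hc
  exact ⟨c, κ, by rw [← tp_len L hc]; exact hκ, hr, by rw [hc]⟩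

theorem TNset_last_sub {x : X} {L : Lvl} {k : ℕ} {u : TN L} (hu : u ∈ TNset S x L k) :
    (u k).1 ⊆ jp S x (L.chd k) [] := by
  obtain ⟨e, κ, hκ, hk, rfl⟩ := hu
  rw [seqOf_last x L e hκ hk]
  rintro t ⟨c, rfl⟩
  exact tp_mem_jp_nil _ _ _

/-- Tree nodes with the same colours over the `A`-nodes are equal. -/
theorem sepT (hEP : StEP1) {L : Lvl} (hM : MonoAt S L) {k : ℕ} {x x' : X} {u u' : TN L}
    (hu : u ∈ TNset S x L k) (hu' : u' ∈ TNset S x' L k)
    (hj : jp S x (L.chd k) [] = jp S x' (L.chd k) [])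
    (h : ∀ y ∈ ANset S x (L.chd k), colT S L k y u = colT S L k y u') : u = u' := by
  classical
  by_contra hne
  set p : Set (Ty (L.chd k)) × List (ℕ × ℕ) := ((u k).1, keyT k u) with hp
  set p' : Set (Ty (L.chd k)) × List (ℕ × ℕ) := ((u' k).1, keyT k u') with hp'
  have hpp : p ≠ p' := by
    intro hpp
    apply hne
    have e1 : p.1 = p'.1 := by rw [hpp]
    have e2 : p.2 = p'.2 := by rw [hpp]
    exact T_det hM hu hu' e1 e2
  have hsub : ∀ q ∈ ({p, p'} : Set (Set (Ty (L.chd k)) × List (ℕ × ℕ))),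
      q.1 ⊆ jp S x (L.chd k) [] := by
    intro q hq
    rcases hq with rfl | hq
    · exact TNset_last_sub hu
    · rw [Set.mem_singleton_iff] at hq
      rw [hq, hj]
      exact TNset_last_sub hu'
  obtain ⟨c, n, _, hn, _, hcol⟩ := hEP S x (L.chd k) [] [] {p, p'} (Set.toFinite _) hsub
    (fun q => if q = p then 0 else 1) [] 0
  have hmem : (tp S x (L.chd k) ([] ++ c), [] ++ [(([] ++ c).length, n)]) ∈
      ANset S x (L.chd k) := childA_mem hn (Or.inl rfl)
  have h1 := hcol p (Set.mem_insert _ _)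
  have h2 := hcol p' (Set.mem_insert_of_mem _ rfl)
  simp only [if_true] at h1
  rw [if_neg (Ne.symm hpp)] at h2
  have h3 := h _ hmem
  unfold colT at h3
  rw [h1] at h3
  have h4 : (0 : ℕ) = 1 := h3.trans h2
  exact absurd h4 (by decide)

theorem code3_inj {σ : List ℕ} {κ κ' : List (ℕ × ℕ)} {t t' : ℕ → Bool}
    (h : code3 σ κ t = code3 σ κ' t') : κ = κ' ∧ t = t' := by
  have key : ∀ {κ κ' : List (ℕ × ℕ)} {t t' : ℕ → Bool}, code3 σ κ t = code3 σ κ' t' →
      Encodable.encode (σ, κ') ≤ Encodable.encode (σ, κ) := by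
    intro κ κ' t t' h
    by_contra hlt
    push Not at hlt
    have h1 := congrFun h (Encodable.encode (σ, κ))
    unfold code3 at h1
    rw [if_neg (lt_irrefl _), if_pos rfl, if_pos hlt] at h1
    exact absurd h1 (by decide)
  have hN : Encodable.encode (σ, κ) = Encodable.encode (σ, κ') := le_antisymm (key h.symm) (key h)
  have hκ : κ = κ' := congrArg Prod.snd (Encodable.encode_injective hN)
  subst hκ
  refine ⟨rfl, ?_⟩
  funext i
  have h1 := congrFun h (Encodable.encode (σ, κ) + 1 + i)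
  unfold code3 at h1
  rw [if_neg (by omega), if_neg (by omega), if_neg (by omega), if_neg (by omega)] at h1
  have h2 : Encodable.encode (σ, κ) + 1 + i - Encodable.encode (σ, κ) - 1 = i := by omega
  rwa [h2] at h1

theorem lbl_inj {ψ : (ℕ → Bool) → ℕ → ℕ}
    (hψ : ∀ (w w' : List ℕ) (y y' : ℕ → Bool), y ≠ y' → appendL w (ψ y) ≠ appendL w' (ψ y'))
    (σ : List ℕ) {L : Lvl} (hL : L.isZ = true) {a a' : AN L} (h : lbl ψ σ L a = lbl ψ σ L a') :
    a = a' := by
  cases L with
  | node s => exact absurd hL (by simp [Lvl.isZ])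
  | zero =>
    have h1 : code3 σ a.2 a.1 = code3 σ a'.2 a'.1 := by
      by_contra hne
      exact hψ _ _ _ _ hne h
    obtain ⟨h2, h3⟩ := code3_inj h1
    exact Prod.ext h3 h2

private theorem pre_length (t : ℕ → ℕ) (k : ℕ) : (pre t k).length = k := by
  induction k with
  | zero => rfl
  | succ k ih => simp [pre, ih]

theorem IsZ.bit_len {l : Lvl} {ψ : (ℕ → Bool) → ℕ → ℕ} {x : X} {ζ : Enum S l x} {z : Z}
    (h : IsZ S l ψ ζ z) (σ : List ℕ) (j : ℕ) (s : List ℕ) (i : ℕ) {k : ℕ} (hk : s.length = k) :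
    bit z σ j s i = colT S (lv l σ) k (ζ.a (k :: σ) i) (ζ.t σ (j :: s)) := by
  subst hk
  exact h.bit_eq σ j s i

/-- The colours along a branch. -/
theorem IsZ.bit_row {l : Lvl} {ψ : (ℕ → Bool) → ℕ → ℕ} {x : X} {ζ : Enum S l x} {z : Z}
    (h : IsZ S l ψ ζ z) {σ : List ℕ} (hσ : (lv l σ).isZ = false) (i k j : ℕ) :
    bit z σ (row z σ i k) (pre (row z σ i) k) j =
      colT S (lv l σ) k (ζ.a (k :: σ) j) (pfx S (lv l σ) k (ζ.a σ i)) := by
  rw [h.bit_len σ _ _ j (pre_length _ k), ← h.br_eq σ i hσ k]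
  rfl

theorem EqA_zero {L : Lvl} (hL : L.isZ = true) (σ : List ℕ) (z : Z) (i : ℕ) (z' : Z) (i' : ℕ) :
    EqA L σ z i z' i' ↔ row z σ i = row z' σ i' := by
  cases L with
  | node s => exact absurd hL (by simp [Lvl.isZ])
  | zero => exact Iff.rfl

theorem EqA_node {L : Lvl} (hL : L.isZ = false) (σ : List ℕ) (z : Z) (i : ℕ) (z' : Z) (i' : ℕ) :
    EqA L σ z i z' i' ↔ ∀ k j j', EqA (L.chd k) (k :: σ) z j z' j' →
      bit z σ (row z σ i k) (pre (row z σ i) k) j =
        bit z' σ (row z' σ i' k) (pre (row z' σ i') k) j' := by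
  cases L with
  | zero => exact absurd hL (by simp [Lvl.isZ])
  | node s => exact Iff.rfl

theorem stEqA (hEP : StEP1) : StEqA := by
  intro X S l hM ψ hψ x x' ζ ζ' z z' hz hz' τ
  have main : ∀ (L : Lvl) (τ : List ℕ), lv l τ = L →
      (∀ μ, jp S x (lv l (μ ++ τ)) [] = jp S x' (lv l (μ ++ τ)) []) →
      ∀ i i', EqA (lv l τ) τ z i z' i' ↔ ζ.a τ i = ζ'.a τ i' := by
    intro L
    induction L with
    | zero =>
      intro τ hτ _ i i'
      have hL : (lv l τ).isZ = true := by rw [hτ]; rfl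
      rw [EqA_zero hL, hz.lab_eq τ i hL, hz'.lab_eq τ i' hL]
      constructor
      · intro h
        exact lbl_inj hψ τ hL h
      · intro h
        rw [h]
    | node s ih =>
      intro τ hτ hj i i'
      have hL : (lv l τ).isZ = false := by rw [hτ]; rfl
      have ih' : ∀ k j j', EqA (lv l (k :: τ)) (k :: τ) z j z' j' ↔
          ζ.a (k :: τ) j = ζ'.a (k :: τ) j' := by
        intro k j j'
        refine ih k (k :: τ) ?_ ?_ j j'
        · show (lv l τ).chd k = s k
          rw [hτ]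
          rfl
        · intro μ
          have := hj (μ ++ [k])
          rwa [List.append_assoc] at this
      rw [EqA_node hL]
      constructor
      · intro h
        by_contra hne
        obtain ⟨k, hk⟩ := pfx_ne hL (mono_at (mono_lv hM τ)) (ζ.a_mem τ i) (ζ'.a_mem τ i') hne
        apply hk
        have hjk : jp S x ((lv l τ).chd k) [] = jp S x' ((lv l τ).chd k) [] := hj [k]
        refine sepT hEP (mono_at (mono_lv hM τ)) (pfx_mem hL (ζ.a_mem τ i) k)
          (pfx_mem hL (ζ'.a_mem τ i') k) hjk ?_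
        intro y hy
        obtain ⟨j, hjy⟩ := ζ.a_sur (k :: τ) y hy
        obtain ⟨j', hjy'⟩ := ζ'.a_sur (k :: τ) y (ANset_of_jp hjk hy)
        have h1 := h k j j' ((ih' k j j').mpr (hjy.trans hjy'.symm))
        rw [hz.bit_row hL, hz'.bit_row hL, hjy, hjy'] at h1
        exact h1
      · intro h k j j' hjj
        rw [hz.bit_row hL, hz'.bit_row hL, (ih' k j j').mp hjj, h]
  exact main (lv l τ) τ rfl

end Pool.Bc
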