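import Pool.Agent.Bc.Stmts4
import Pool.Agent.Bc.EqA

/-!
# Project BC: the Mycielski property gives a compatible point (stage 2)
-/

set_option autoImplicit false

namespace Pool.Bc

/-- The Mycielski property for finite sets of rows and coordinates. -/
theorem MycOK.exists_point {D : ℕ → Set ((ℕ → ℕ) × Z)} {ψ : (ℕ → Bool) → ℕ → ℕ}
    (h : MycOK D ψ) (n : ℕ) (R : Finset (Option (List ℕ × ℕ)))
    (g : Option (List ℕ × ℕ) → List ℕ) (r : Option (List ℕ × ℕ) → ℕ → Bool)
    (hr : Set.InjOn r R) (C : Finset WC) (val : WC → ℕ)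
    (hC : ∀ c ∈ C, ∀ ρ ∈ R, rowOf c ≠ some ρ) :
    ∃ w ∈ D n, (∀ c ∈ C, wc w c = val c) ∧ ∀ ρ ∈ R, rowW ρ w = appendL (g ρ) (ψ (r ρ)) := by
  classical
  let rows : List (Option (List ℕ × ℕ) × List ℕ) := R.toList.map (fun ρ => (ρ, g ρ))
  let F : List (WC × ℕ) := C.toList.map (fun c => (c, val c))
  have hrows : rows.map Prod.fst = R.toList := by
    simp only [rows, List.map_map]
    exact List.map_id _
  have hF : F.map Prod.fst = C.toList := by
    simp only [F, List.map_map]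
    exact List.map_id _
  have hcfg : CfgOK rows F := by
    refine ⟨by rw [hrows]; exact R.nodup_toList, by rw [hF]; exact C.nodup_toList, ?_⟩
    intro cv hcv ρ hρ
    rw [hrows, Finset.mem_toList] at hρ
    simp only [F, List.mem_map, Finset.mem_toList] at hcv
    obtain ⟨c, hc, rfl⟩ := hcv
    exact hC c hc ρ hρ
  have hget : ∀ i : Fin rows.length, (rows.get i).1 ∈ R ∧ (rows.get i).2 = g (rows.get i).1 := by
    intro i
    have h1 : rows.get i ∈ rows := List.get_mem rows i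
    simp only [rows, List.mem_map, Finset.mem_toList] at h1
    obtain ⟨ρ, hρ, h2⟩ := h1
    rw [← h2]
    exact ⟨hρ, rfl⟩
  have hinj : Function.Injective (fun i : Fin rows.length => r (rows.get i).1) := by
    intro i j hij
    have h1 := hr (hget i).1 (hget j).1 hij
    have hnd : (rows.map Prod.fst).Nodup := hcfg.1
    have hlen : (rows.map Prod.fst).length = rows.length := List.length_map _
    have e1 : ∀ i : Fin rows.length, (rows.map Prod.fst)[i.val]'(by rw [hlen]; exact i.2) =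
        (rows.get i).1 := fun i => List.getElem_map _
    have h2 := (e1 i).trans (h1.trans (e1 j).symm)
    exact Fin.ext ((hnd.getElem_inj_iff).1 h2)
  obtain ⟨w, hw, hw1, hw2⟩ := h n rows F hcfg (fun i => r (rows.get i).1) hinj
  refine ⟨w, hw, ?_, ?_⟩
  · intro c hc
    have h1 : (c, val c) ∈ F := by
      simp only [F, List.mem_map, Finset.mem_toList]
      exact ⟨c, hc, rfl⟩
    exact hw1 _ h1
  · intro ρ hρ
    have h1 : (ρ, g ρ) ∈ rows := by
      simp only [rows, List.mem_map, Finset.mem_toList]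
      exact ⟨ρ, hρ, rfl⟩
    obtain ⟨i, hi⟩ := List.get_of_mem h1
    have h2 : rowW (rows.get i).1 w = appendL (rows.get i).2 (ψ (r (rows.get i).1)) := hw2 i
    rw [hi] at h2
    exact h2

theorem code3_inj_pos {σ σ' : List ℕ} {κ κ' : List (ℕ × ℕ)} {t t' : ℕ → Bool}
    (h : code3 σ κ t = code3 σ' κ' t') : σ = σ' := by
  have key : ∀ {σ σ' : List ℕ} {κ κ' : List (ℕ × ℕ)} {t t' : ℕ → Bool},
      code3 σ κ t = code3 σ' κ' t' →
      Encodable.encode (σ', κ') ≤ Encodable.encode (σ, κ) := by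
    intro σ σ' κ κ' t t' h
    by_contra hlt
    push Not at hlt
    have h1 := congrFun h (Encodable.encode (σ, κ))
    unfold code3 at h1
    rw [if_neg (lt_irrefl _), if_pos rfl, if_pos hlt] at h1
    exact absurd h1 (by decide)
  have hN : Encodable.encode (σ, κ) = Encodable.encode (σ', κ') :=
    le_antisymm (key h.symm) (key h)
  exact congrArg Prod.fst (Encodable.encode_injective hN)

/-- The real of a node of level zero. -/
def realOf (σ : List ℕ) : (L : Lvl) → AN L → ℕ → Bool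
  | .zero, a => code3 σ a.2 a.1
  | .node _, _ => fun _ => false

theorem lbl_eq_realOf (ψ : (ℕ → Bool) → ℕ → ℕ) (σ : List ℕ) {L : Lvl} (hL : L.isZ = true)
    (a : AN L) : lbl ψ σ L a = appendL (dec (rho a.2)).2.2 (ψ (realOf σ L a)) := by
  cases L with
  | node s => exact absurd hL (by simp [Lvl.isZ])
  | zero => rfl

theorem realOf_pos {σ σ' : List ℕ} {L L' : Lvl} (hL : L.isZ = true) (hL' : L'.isZ = true)
    {a : AN L} {a' : AN L'} (h : realOf σ L a = realOf σ' L' a') : σ = σ' := by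
  cases L with
  | node s => exact absurd hL (by simp [Lvl.isZ])
  | zero =>
    cases L' with
    | node s => exact absurd hL' (by simp [Lvl.isZ])
    | zero => exact code3_inj_pos h

theorem realOf_val {σ : List ℕ} {L : Lvl} (hL : L.isZ = true)
    {a a' : AN L} (h : realOf σ L a = realOf σ L a') : a = a' := by
  cases L with
  | node s => exact absurd hL (by simp [Lvl.isZ])
  | zero =>
    obtain ⟨h1, h2⟩ := code3_inj h
    exact Prod.ext h2 h1

theorem pre_eq_of (f : ℕ → ℕ) : ∀ (K : ℕ) (s : List ℕ), s.length = K →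
    (∀ t < K, f t = s.getD (K - 1 - t) 0) → pre f K = s
  | 0, s, hs, _ => (List.length_eq_zero_iff.1 hs).symm
  | K + 1, [], hs, _ => by simp at hs
  | K + 1, a :: s, hs, h => by
      have hs' : s.length = K := by simpa using hs
      have h1 : pre f K = s := by
        refine pre_eq_of f K s hs' (fun t ht => ?_)
        rw [h t (by omega)]
        have e : K + 1 - 1 - t = (K - 1 - t) + 1 := by omega
        rw [e]
        rfl
      have h2 : f K = a := by
        rw [h K (by omega)]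
        have e : K + 1 - 1 - K = 0 := by omega
        rw [e]
        rfl
      rw [pre, h1, h2]

section
variable {X : Type} {S : TupSys X} {l : Lvl} {x : X}

open Classical in
/-- The assigned list of a followed branch. -/
noncomputable def listOf (p : PE S l x) (_ob : Ob l) (K : ℕ) (σ : List ℕ) (a : AN (lv l σ)) :
    List ℕ :=
  if h : ∃ s : List ℕ, s.length = K ∧ (σ, s) ∈ p.dT ∧ p.fT σ s = pfx S (lv l σ) (K - 1) a then
    h.choose else []

theorem listOf_spec {p : PE S l x} {ob : Ob l} {K : ℕ} (h : Ready p ob K) {σ : List ℕ}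
    {a : AN (lv l σ)} (ha : Old p ob σ a) : (listOf p ob K σ a).length = K ∧
      (σ, listOf p ob K σ a) ∈ p.dT ∧
      p.fT σ (listOf p ob K σ a) = pfx S (lv l σ) (K - 1) a := by
  classical
  have hex := h.pT σ a ha
  have e : listOf p ob K σ a = hex.choose := dif_pos hex
  rw [e]
  exact hex.choose_spec

/-- The value of the extra row. -/
noncomputable def valOb (p : PE S l x) (ob : Ob l) (K : ℕ) : Ob l → ℕ → ℕ
  | .lab _ _, _ => 0
  | .col σ k Q κ, t => col S (lv l (k :: σ)) (p.fA (k :: σ) t) Q κ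
  | .br σ a, t => (listOf p ob K σ a).getD (K - 1 - t) 0

/-- The prescribed values. -/
noncomputable def valC (p : PE S l x) (ob : Ob l) (K : ℕ) : WC → ℕ
  | Sum.inl t => valOb p ob K ob t
  | Sum.inr (Sum.inl (σ, i, t)) => (listOf p ob K σ (p.fA σ i)).getD (K - 1 - t) 0
  | Sum.inr (Sum.inr (σ, j, s, i)) =>
      colT S (lv l σ) s.length (p.fA (s.length :: σ) i) (p.fT σ (j :: s))

/-- The real of the extra row. -/
def rOb : Ob l → ℕ → Bool
  | .lab σ a => realOf σ (lv l σ) a
  | _ => fun _ => false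

/-- The initial part of the extra row. -/
def gOb : Ob l → List ℕ
  | .lab _ a => (dec (rho a.2)).2.2
  | _ => []

/-- The extra row is prescribed. -/
def IsLab : Ob l → Prop
  | .lab _ _ => True
  | _ => False

theorem cfgPoint (D : ℕ → Set ((ℕ → ℕ) × Z)) (ψ : (ℕ → Bool) → ℕ → ℕ) (hψ : MycOK D ψ)
    (ob : Ob l) (hob : ObOK S l x ob) (p : PE S l x) (K : ℕ) (hp : Ready p ob K) (n : ℕ) :
    ∃ W ∈ D n, Good ψ p ob K W := by
  classical
  let Rset : Set (Option (List ℕ × ℕ)) :=
    {ρ | (∃ σ i, ρ = some (σ, i) ∧ (σ, i) ∈ p.dA ∧ (lv l σ).isZ = true) ∨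
      (ρ = none ∧ IsLab ob)}
  have hRfin : Rset.Finite := by
    refine ((p.finA.image some).union (Set.finite_singleton none)).subset ?_
    rintro ρ (⟨σ, i, rfl, h1, _⟩ | ⟨rfl, _⟩)
    · exact Or.inl ⟨(σ, i), h1, rfl⟩
    · exact Or.inr rfl
  let C1 : Set WC := {c | ∃ σ j s i, c = Sum.inr (Sum.inr (σ, j, s, i)) ∧
    (σ, j :: s) ∈ p.dT ∧ (s.length :: σ, i) ∈ p.dA}
  let C2 : Set WC := {c | ∃ σ i t, c = Sum.inr (Sum.inl (σ, i, t)) ∧ t < K ∧
    (σ, i) ∈ p.dA ∧ (lv l σ).isZ = false}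
  let C3 : Set WC := {c | ∃ σ k Q κ i, c = Sum.inl i ∧ ob = Ob.col σ k Q κ ∧
    (k :: σ, i) ∈ p.dA}
  let C4 : Set WC := {c | ∃ σ a t, c = Sum.inl t ∧ t < K ∧ ob = Ob.br σ a}
  have hC1 : C1.Finite := by
    refine ((p.finT.prod p.finA).image (fun q : (List ℕ × List ℕ) × (List ℕ × ℕ) =>
      (Sum.inr (Sum.inr (q.1.1, q.1.2.headI, q.1.2.tail, q.2.2)) : WC))).subset ?_
    rintro c ⟨σ, j, s, i, rfl, h1, h2⟩
    exact ⟨((σ, j :: s), (s.length :: σ, i)), ⟨h1, h2⟩, rfl⟩
  have hC2 : C2.Finite := by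
    refine ((p.finA.prod (Set.finite_Iio K)).image (fun q : (List ℕ × ℕ) × ℕ =>
      (Sum.inr (Sum.inl (q.1.1, q.1.2, q.2)) : WC))).subset ?_
    rintro c ⟨σ, i, t, rfl, h1, h2, _⟩
    exact ⟨((σ, i), t), ⟨h2, h1⟩, rfl⟩
  have hC3 : C3.Finite := by
    refine (p.finA.image (fun q : List ℕ × ℕ => (Sum.inl q.2 : WC))).subset ?_
    rintro c ⟨σ, k, Q, κ, i, rfl, _, h2⟩
    exact ⟨(k :: σ, i), h2, rfl⟩
  have hC4 : C4.Finite := by
    refine ((Set.finite_Iio K).image (fun t => (Sum.inl t : WC))).subset ?_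
    rintro c ⟨σ, a, t, rfl, h1, _⟩
    exact ⟨t, h1, rfl⟩
  have hCfin : (C1 ∪ C2 ∪ (C3 ∪ C4)).Finite := (hC1.union hC2).union (hC3.union hC4)
  let r : Option (List ℕ × ℕ) → ℕ → Bool := fun ρ =>
    match ρ with
    | none => rOb ob
    | some q => realOf q.1 (lv l q.1) (p.fA q.1 q.2)
  let g : Option (List ℕ × ℕ) → List ℕ := fun ρ =>
    match ρ with
    | none => gOb ob
    | some q => (dec (rho (p.fA q.1 q.2).2)).2.2
  have hmix : ∀ σ i, (σ, i) ∈ p.dA → (lv l σ).isZ = true → IsLab ob →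
      realOf σ (lv l σ) (p.fA σ i) ≠ rOb ob := by
    intro σ i h1 h2 h3 h4
    cases ob with
    | lab σ' a =>
      have hz : (lv l σ').isZ = true := hob.1
      have h5 : σ = σ' := realOf_pos h2 hz h4
      subst h5
      have h6 := realOf_val h2 h4
      exact hob.2 (h6 ▸ p.A_mem σ i h1)
    | col _ _ _ _ => exact h3
    | br _ _ => exact h3
  have hinj : Set.InjOn r hRfin.toFinset := by
    intro ρ hρ ρ' hρ' h
    rw [Set.Finite.coe_toFinset] at hρ hρ'
    rcases hρ with ⟨σ, i, rfl, h1, h2⟩ | ⟨rfl, h1⟩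
    · rcases hρ' with ⟨σ', i', rfl, h3, h4⟩ | ⟨rfl, h3⟩
      · have h5 : σ = σ' := realOf_pos h2 h4 h
        subst h5
        have h6 := realOf_val h2 h
        rw [p.A_inj σ i i' h1 h3 h6]
      · exact absurd h (hmix σ i h1 h2 h3)
    · rcases hρ' with ⟨σ', i', rfl, h3, h4⟩ | ⟨rfl, h3⟩
      · exact absurd h.symm (hmix σ' i' h3 h4 h1)
      · rfl
  obtain ⟨W, hWD, hW1, hW2⟩ := hψ.exists_point n hRfin.toFinset g r hinj hCfin.toFinset
    (valC p ob K) (by
      intro c hc ρ hρ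
      rw [Set.Finite.mem_toFinset] at hc hρ
      rcases hc with (⟨σ, j, s, i, rfl, _, _⟩ | ⟨σ, i, t, rfl, _, _, h3⟩) |
        (⟨σ, k, Q, κ, i, rfl, h1, _⟩ | ⟨σ, a, t, rfl, _, h1⟩)
      · intro h
        simp [rowOf] at h
      · intro h
        simp only [rowOf, Option.some.injEq] at h
        subst h
        rcases hρ with ⟨σ', i', h4, _, h6⟩ | ⟨h4, _⟩
        · simp only [Option.some.injEq, Prod.mk.injEq] at h4
          rw [h4.1, h6] at h3
          exact absurd h3 (by decide)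
        · exact absurd h4 (by simp)
      · intro h
        simp only [rowOf, Option.some.injEq] at h
        subst h
        rcases hρ with ⟨σ', i', h4, _, h6⟩ | ⟨_, h4⟩
        · exact absurd h4 (by simp)
        · rw [h1] at h4
          exact h4
      · intro h
        simp only [rowOf, Option.some.injEq] at h
        subst h
        rcases hρ with ⟨σ', i', h4, _, h6⟩ | ⟨_, h4⟩
        · exact absurd h4 (by simp)
        · rw [h1] at h4
          exact h4)
  have hv : ∀ c, c ∈ C1 ∪ C2 ∪ (C3 ∪ C4) → wc W c = valC p ob K c := fun c hc =>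
    hW1 c ((Set.Finite.mem_toFinset _).2 hc)
  refine ⟨W, hWD, ⟨?_, ?_⟩, ?_, ?_, ?_, ?_⟩
  · intro σ j s i hT hA
    exact hv (Sum.inr (Sum.inr (σ, j, s, i))) (Or.inl (Or.inl ⟨σ, j, s, i, rfl, hT, hA⟩))
  · intro σ k Q κ ho i hA
    have h1 := hv (Sum.inl i) (Or.inr (Or.inl ⟨σ, k, Q, κ, i, rfl, ho, hA⟩))
    have h2 : valC p ob K (Sum.inl i) = valOb p ob K ob i := rfl
    have h3 : W.1 i = valOb p ob K ob i := h1.trans h2
    rw [h3]
    have h4 : ∀ ob' : Ob l, ob' = Ob.col σ k Q κ →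
        valOb p ob K ob' i = col S (lv l (k :: σ)) (p.fA (k :: σ) i) Q κ := by
      rintro _ rfl
      rfl
    exact h4 ob ho
  · intro σ i hA hz
    have h1 := hW2 (some (σ, i)) ((Set.Finite.mem_toFinset _).2 (Or.inl ⟨σ, i, rfl, hA, hz⟩))
    rw [lbl_eq_realOf ψ σ hz]
    exact h1
  · intro σ a ho
    subst ho
    have h1 := hW2 none ((Set.Finite.mem_toFinset _).2 (Or.inr ⟨rfl, trivial⟩))
    rw [lbl_eq_realOf ψ σ hob.1]
    exact h1
  · intro σ i hA hz
    have hold : Old p ob σ (p.fA σ i) := ⟨hz, Or.inl ⟨i, hA, rfl⟩⟩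
    obtain ⟨h1, h2, h3⟩ := listOf_spec hp hold
    have h4 : pre (row W.2 σ i) K = listOf p ob K σ (p.fA σ i) := by
      refine pre_eq_of _ K _ h1 (fun t ht => ?_)
      exact hv (Sum.inr (Sum.inl (σ, i, t))) (Or.inl (Or.inr ⟨σ, i, t, rfl, ht, hA, hz⟩))
    rw [h4]
    exact ⟨h2, h3⟩
  · intro σ a ho
    have hz : (lv l σ).isZ = false := by
      rw [ho] at hob
      exact hob.1
    have hold : Old p ob σ a := ⟨hz, Or.inr ho⟩
    obtain ⟨h1, h2, h3⟩ := listOf_spec hp hold
    have h4 : pre W.1 K = listOf p ob K σ a := by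
      refine pre_eq_of _ K _ h1 (fun t ht => ?_)
      have h5 := hv (Sum.inl t) (Or.inr (Or.inr ⟨σ, a, t, rfl, ht, ho⟩))
      have h6 : W.1 t = valOb p ob K ob t := h5
      rw [h6]
      have h7 : ∀ ob' : Ob l, ob' = Ob.br σ a →
          valOb p ob K ob' t = (listOf p ob K σ a).getD (K - 1 - t) 0 := by
        rintro _ rfl
        rfl
      exact h7 ob ho
    rw [h4]
    exact ⟨h2, h3⟩

end

theorem stCfg : StCfg := by
  intro X S l _ D ψ hψ x ob hob p K hp n
  exact cfgPoint D ψ hψ ob hob p K hp n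

end Pool.Bc
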