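import Pool.Agent.Bc.Phase

/-!
# Project BC: statements about generic enumerations
-/

set_option autoImplicit false

namespace Pool.Bc

/-- Generic enumerations for countably many dense sets of conditions. -/
def StGeneric : Prop := ∀ {X : Type} (S : TupSys X) (l : Lvl), Mono S l → ∀ (x : X)
  (G : ℕ → Set (PE S l x)), (∀ n p, ∃ q, PE.Le p q ∧ q ∈ G n) →
  ∃ ζ : Enum S l x, ∀ n, ∃ q ∈ G n, PE.In q ζ

/-- Every enumeration has a point, and the extra element has a row. -/
def StHasPoint : Prop := ∀ {X : Type} (S : TupSys X) (l : Lvl), Mono S l →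
  ∀ (ψ : (ℕ → Bool) → ℕ → ℕ) (x : X) (ζ : Enum S l x) (ob : Ob l), ObOK S l x ob →
  ∃ (z : Z) (b : ℕ → ℕ), IsZ S l ψ ζ z ∧ ObRow S l ψ ζ ob b

end Pool.Bc
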