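import Pool.Agent.Bc.Ext
import Pool.Agent.Bc.Stmts3

/-!
# Project BC: density
-/

set_option autoImplicit false

namespace Pool.Bc

theorem stDens (hGen : StGeneric) (hPt : StHasPoint) (hPrep : StPrep) (hCfg : StCfg)
    (hExt : StExt) (hForce : StForce)
    (hOpen : ∀ D : Set ((ℕ → ℕ) × Z), IsOpen D → ∀ W ∈ D, ∃ C : Finset WC,
      ∀ w', (∀ c ∈ C, wc w' c = wc W c) → w' ∈ D) : StDens := by
  intro X S l hM D hD _ ψ hψ x ob hob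
  set G : ℕ → Set (PE S l x) := fun n => {q | ∀ ζ : Enum S l x, PE.In q ζ → ∀ z b,
    IsZ S l ψ ζ z → ObRow S l ψ ζ ob b → (b, z) ∈ D n} with hG
  have hdense : ∀ n (p : PE S l x), ∃ q, PE.Le p q ∧ q ∈ G n := by
    intro n p
    obtain ⟨p1, K, a1, _, _, a4⟩ := hPrep S l hM x p ob hob
    obtain ⟨W, hW, hg⟩ := hCfg S l hM D ψ hψ x ob hob p1 K a4 n
    obtain ⟨C, hC⟩ := hOpen (D n) (hD n) W hW
    obtain ⟨q, b1, b2, b3⟩ := hExt S l hM ψ x ob hob p1 K a4 W hg C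
    refine ⟨q, a1.trans b1, ?_⟩
    intro ζ hζ z b hz hb
    exact hC _ (hForce S l hM ψ x ob hob q W C b2 b3 ζ hζ z b hz hb)
  obtain ⟨ζ, hζ⟩ := hGen S l hM x G hdense
  obtain ⟨z, b, hz, hb⟩ := hPt S l hM ψ x ζ ob hob
  refine ⟨ζ, z, b, hz, hb, ?_⟩
  intro n
  obtain ⟨q, hq, hin⟩ := hζ n
  exact hq ζ hin z b hz hb

end Pool.Bc
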