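import Pool.Agent.Bc.Stmts4

/-!
# Project BC: following the branches one step further
-/

set_option autoImplicit false

namespace Pool.Bc

variable {X : Type} {S : TupSys X} {l : Lvl} {x : X}

/-- Add many tree nodes of one new length. -/
theorem PE.addMany (p : PE S l x) (K : ℕ) (N : Set (List ℕ × List ℕ)) (hN : N.Finite)
    (g : ∀ σ : List ℕ, List ℕ → TN (lv l σ))
    (hlen : ∀ σ s, (σ, s) ∈ p.dT → s.length ≤ K)
    (hl : ∀ σ s, (σ, s) ∈ N → s.length = K + 1)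
    (hmem : ∀ σ s, (σ, s) ∈ N → g σ s ∈ TNset S x (lv l σ) K)
    (hpar : ∀ σ j j' s, (σ, j :: j' :: s) ∈ N → (σ, j' :: s) ∈ p.dT ∧
      trunc s.length (g σ (j :: j' :: s)) = p.fT σ (j' :: s))
    (hinj : ∀ σ s s', (σ, s) ∈ N → (σ, s') ∈ N → g σ s = g σ s' → s = s') :
    ∃ q : PE S l x, PE.Le p q ∧ q.dA = p.dA ∧ q.fA = p.fA ∧ q.dT = p.dT ∪ N ∧
      (∀ σ s, s.length = K + 1 → q.fT σ s = g σ s) ∧
      (∀ σ s, s.length ≤ K → q.fT σ s = p.fT σ s) := by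
  set f : ∀ σ : List ℕ, List ℕ → TN (lv l σ) := fun σ s =>
    if s.length = K + 1 then g σ s else p.fT σ s with hf
  have f1 : ∀ σ s, s.length = K + 1 → f σ s = g σ s := by
    intro σ s h
    rw [hf]
    simp only
    rw [if_pos h]
  have f2 : ∀ σ s, s.length ≤ K → f σ s = p.fT σ s := by
    intro σ s h
    rw [hf]
    simp only
    rw [if_neg (by omega)]
  refine ⟨⟨p.dA, p.dT ∪ N, p.fA, f, p.finA, p.finT.union hN, p.A_mem, p.A_inj, ?_, ?_, ?_, ?_⟩,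
    ⟨fun _ _ h => ⟨h, rfl⟩, ?_⟩, rfl, rfl, rfl, f1, f2⟩
  · rintro σ (h | h)
    · exact p.T_ne σ h
    · have := hl _ _ h
      simp at this
  · rintro σ j s (h | h)
    · rw [f2 _ _ (hlen _ _ h)]
      exact p.T_mem σ j s h
    · have h1 := hl _ _ h
      rw [f1 _ _ h1]
      have h2 : s.length = K := by simpa using h1
      rw [h2]
      exact hmem _ _ h
  · rintro σ j j' s (h | h)
    · obtain ⟨h1, h2⟩ := p.T_par σ j j' s h
      refine ⟨Or.inl h1, ?_⟩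
      rw [f2 _ _ (hlen _ _ h), f2 _ _ (hlen _ _ h1), h2]
    · obtain ⟨h1, h2⟩ := hpar σ j j' s h
      refine ⟨Or.inl h1, ?_⟩
      rw [f1 _ _ (hl _ _ h), f2 _ _ (hlen _ _ h1), h2]
  · rintro σ s s' (h | h) (h' | h') hL he
    · rw [f2 _ _ (hlen _ _ h), f2 _ _ (hlen _ _ h')] at he
      exact p.T_inj σ s s' h h' hL he
    · have h1 := hlen _ _ h
      have h2 := hl _ _ h'
      omega
    · have h1 := hl _ _ h
      have h2 := hlen _ _ h'
      omega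
    · rw [f1 _ _ (hl _ _ h), f1 _ _ (hl _ _ h')] at he
      exact hinj σ s s' h h' he
  · intro σ s h
    exact ⟨Or.inl h, f2 _ _ (hlen _ _ h)⟩

/-- The rows followed by the stages: a node `a` with its row `ρ`. -/
def BRow (p : PE S l x) (ob : Ob l) (W : (ℕ → ℕ) × Z) (σ : List ℕ) (a : AN (lv l σ))
    (ρ : ℕ → ℕ) : Prop :=
  (∃ i, (σ, i) ∈ p.dA ∧ (lv l σ).isZ = false ∧ p.fA σ i = a ∧ ρ = row W.2 σ i) ∨
    (ob = .br σ a ∧ ρ = W.1)

theorem BRow.isZ {p : PE S l x} {ob : Ob l} {W : (ℕ → ℕ) × Z} {σ : List ℕ} {a : AN (lv l σ)}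
    {ρ : ℕ → ℕ} (hob : ObOK S l x ob) (h : BRow p ob W σ a ρ) : (lv l σ).isZ = false := by
  rcases h with ⟨i, _, h, _⟩ | ⟨h, _⟩
  · exact h
  · rw [h] at hob
    exact hob.1

theorem BRow.old {p : PE S l x} {ob : Ob l} {W : (ℕ → ℕ) × Z} {σ : List ℕ} {a : AN (lv l σ)}
    {ρ : ℕ → ℕ} (hob : ObOK S l x ob) (h : BRow p ob W σ a ρ) : Old p ob σ a := by
  refine ⟨h.isZ hob, ?_⟩
  rcases h with ⟨i, h1, _, h2, _⟩ | ⟨h, _⟩
  · exact Or.inl ⟨i, h1, h2⟩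
  · exact Or.inr h

theorem Old.brow {p : PE S l x} {ob : Ob l} (W : (ℕ → ℕ) × Z) {σ : List ℕ} {a : AN (lv l σ)}
    (h : Old p ob σ a) : ∃ ρ, BRow p ob W σ a ρ := by
  obtain ⟨h0, ⟨i, h1, h2⟩ | h⟩ := h
  · exact ⟨_, Or.inl ⟨i, h1, h0, h2, rfl⟩⟩
  · exact ⟨_, Or.inr ⟨h, rfl⟩⟩

theorem Old.an {p : PE S l x} {ob : Ob l} {σ : List ℕ} {a : AN (lv l σ)}
    (hob : ObOK S l x ob) (h : Old p ob σ a) : ∃ x' : X, a ∈ ANset S x' (lv l σ) := by
  obtain ⟨_, ⟨i, h1, h2⟩ | h⟩ := h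
  · exact ⟨x, h2 ▸ p.A_mem σ i h1⟩
  · rw [h] at hob
    exact hob.2.2.1

theorem Old.mem {p : PE S l x} {ob : Ob l} {σ : List ℕ} {a : AN (lv l σ)}
    (hob : ObOK S l x ob) (h : Old p ob σ a) (k : ℕ) :
    pfx S (lv l σ) k a ∈ TNset S x (lv l σ) k := by
  obtain ⟨h0, ⟨i, h1, h2⟩ | h⟩ := h
  · exact pfx_mem h0 (h2 ▸ p.A_mem σ i h1) k
  · rw [h] at hob
    exact hob.2.2.2 k

/-- The node determines the row. -/
theorem BRow.row_eq {p : PE S l x} {ob : Ob l} {W : (ℕ → ℕ) × Z} {σ : List ℕ}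
    {a : AN (lv l σ)} {ρ ρ' : ℕ → ℕ} (hob : ObOK S l x ob) (h : BRow p ob W σ a ρ)
    (h' : BRow p ob W σ a ρ') : ρ = ρ' := by
  have key : ∀ i, (σ, i) ∈ p.dA → p.fA σ i = a → ob = .br σ a → False := by
    intro i h1 h2 h3
    rw [h3] at hob
    exact hob.2.1 (h2 ▸ p.A_mem σ i h1)
  rcases h with ⟨i, h1, _, h2, h3⟩ | ⟨h1, h2⟩
  · rcases h' with ⟨i', h1', _, h2', h3'⟩ | ⟨h1', h2'⟩
    · have : i = i' := p.A_inj σ i i' h1 h1' (h2.trans h2'.symm)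
      rw [h3, h3', this]
    · exact (key i h1 h2 h1').elim
  · rcases h' with ⟨i', h1', _, h2', h3'⟩ | ⟨h1', h2'⟩
    · exact (key i' h1' h2' h1).elim
    · rw [h2, h2']

theorem BRow.good {ψ : (ℕ → Bool) → ℕ → ℕ} {p : PE S l x} {ob : Ob l} {W : (ℕ → ℕ) × Z}
    {K : ℕ} (hG : Good ψ p ob K W) {σ : List ℕ} {a : AN (lv l σ)} {ρ : ℕ → ℕ}
    (h : BRow p ob W σ a ρ) : (σ, pre ρ K) ∈ p.dT ∧
      p.fT σ (pre ρ K) = pfx S (lv l σ) (K - 1) a := by
  rcases h with ⟨i, h1, h0, h2, h3⟩ | ⟨h1, h2⟩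
  · subst h2
    subst h3
    exact hG.br σ i h1 h0
  · subst h2
    exact hG.obr σ a h1

theorem stDetStep : StDetStep := by
  classical
  intro X S l _ ψ x ob hob p K hR W hG
  obtain ⟨m, rfl⟩ : ∃ m, K = m + 1 := ⟨K - 1, by have := hR.pos; omega⟩
  -- nodes with equal restrictions are equal
  have hsep : ∀ σ a a', Old p ob σ a → Old p ob σ a' →
      pfx S (lv l σ) m a = pfx S (lv l σ) m a' → a = a' := by
    intro σ a a' h h' he
    by_contra hne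
    exact hR.sep σ a a' h h' hne he
  have hsep' : ∀ σ a a', Old p ob σ a → Old p ob σ a' → a ≠ a' →
      pfx S (lv l σ) (m + 1) a ≠ pfx S (lv l σ) (m + 1) a' := by
    intro σ a a' h h' hne
    obtain ⟨x1, hx1⟩ := h.an hob
    obtain ⟨x2, hx2⟩ := h'.an hob
    exact pfx_ne_mono h.1 hx1 hx2 (Nat.le_succ m) (hR.sep σ a a' h h' hne)
  -- the row determines the node
  have hdet : ∀ σ a a' ρ ρ', BRow p ob W σ a ρ → BRow p ob W σ a' ρ' →
      pre ρ (m + 1 + 1) = pre ρ' (m + 1 + 1) → a = a' := by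
    intro σ a a' ρ ρ' h h' he
    have he2 : pre ρ (m + 1) = pre ρ' (m + 1) := (List.cons.inj he).2
    apply hsep σ a a' (h.old hob) (h'.old hob)
    have e1 := (h.good hG).2
    have e2 := (h'.good hG).2
    rw [Nat.add_sub_cancel] at e1 e2
    rw [← e1, ← e2, he2]
  set N : Set (List ℕ × List ℕ) :=
    {R | ∃ a ρ, BRow p ob W R.1 a ρ ∧ R.2 = pre ρ (m + 1 + 1)} with hNdef
  have hNfin : N.Finite := by
    have h1 : N ⊆ (fun P : List ℕ × ℕ => (P.1, pre (row W.2 P.1 P.2) (m + 1 + 1))) '' p.dA ∪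
        {R | ∃ a, ob = .br R.1 a ∧ R.2 = pre W.1 (m + 1 + 1)} := by
      rintro ⟨σ, s⟩ ⟨a, ρ, h, hs⟩
      simp only at h hs
      rcases h with ⟨i, h1, _, _, h3⟩ | ⟨h1, h2⟩
      · refine Or.inl ⟨(σ, i), h1, ?_⟩
        rw [hs, h3]
      · refine Or.inr ⟨a, h1, ?_⟩
        rw [hs, h2]
    refine Set.Finite.subset ((p.finA.image _).union ?_) h1
    apply Set.Subsingleton.finite
    rintro ⟨σ, s⟩ ⟨a, h1, h2⟩ ⟨σ', s'⟩ ⟨a', h1', h2'⟩
    simp only at h1 h2 h1' h2'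
    have h3 : Ob.br σ a = Ob.br σ' a' := h1.symm.trans h1'
    have h4 := Ob.br.inj h3
    rw [h2, h2', h4.1]
  set g : ∀ σ : List ℕ, List ℕ → TN (lv l σ) := fun σ s =>
    if h : ∃ a ρ, BRow p ob W σ a ρ ∧ s = pre ρ (m + 1 + 1) then
      pfx S (lv l σ) (m + 1) h.choose else fun _ => (∅, (0, 0)) with hg
  have hgv : ∀ σ a ρ, BRow p ob W σ a ρ →
      g σ (pre ρ (m + 1 + 1)) = pfx S (lv l σ) (m + 1) a := by
    intro σ a ρ h
    have hex : ∃ a' ρ', BRow p ob W σ a' ρ' ∧ pre ρ (m + 1 + 1) = pre ρ' (m + 1 + 1) :=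
      ⟨a, ρ, h, rfl⟩
    have h1 : g σ (pre ρ (m + 1 + 1)) = pfx S (lv l σ) (m + 1) hex.choose := dif_pos hex
    rw [h1]
    obtain ⟨ρ', h2, h3⟩ := hex.choose_spec
    rw [hdet σ a _ ρ ρ' h h2 h3]
  obtain ⟨q, q1, q2, q3, q4, q5, q6⟩ := p.addMany (m + 1) N hNfin g hR.lenT
    (by
      rintro σ s ⟨a, ρ, _, hs⟩
      simp only at hs
      rw [hs, preLen])
    (by
      rintro σ s ⟨a, ρ, h, hs⟩
      simp only at hs h
      rw [hs, hgv σ a ρ h]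
      exact (h.old hob).mem hob _)
    (by
      rintro σ j j' s ⟨a, ρ, h, hs⟩
      simp only at hs h
      obtain ⟨hs1, hs2⟩ := List.cons.inj hs
      change j' :: s = pre ρ (m + 1) at hs2
      rw [hs, hs2]
      have hlen : s.length = m := by
        have := congrArg List.length hs2
        rw [preLen] at this
        simpa using this
      rw [hgv σ a ρ h, hlen]
      obtain ⟨h1, h2⟩ := h.good hG
      refine ⟨h1, ?_⟩
      rw [h2, Nat.add_sub_cancel]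
      obtain h3 | h3 := h
      · obtain ⟨i, h4, h5, h6, _⟩ := h3
        exact trunc_pfx h5 (h6 ▸ p.A_mem σ i h4) (Nat.le_succ m)
      · have h4 := hob
        rw [h3.1] at h4
        obtain ⟨x', hx'⟩ := h4.2.2.1
        exact trunc_pfx h4.1 hx' (Nat.le_succ m))
    (by
      rintro σ s s' ⟨a, ρ, h, hs⟩ ⟨a', ρ', h', hs'⟩ he
      simp only at hs hs' h h'
      rw [hs, hs', hgv σ a ρ h, hgv σ a' ρ' h'] at he
      have haa : a = a' := by
        by_contra hne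
        exact hsep' σ a a' (h.old hob) (h'.old hob) hne he
      subst haa
      rw [hs, hs', h.row_eq hob h'])
  have hOld : ∀ σ a, Old q ob σ a ↔ Old p ob σ a := by
    intro σ a
    unfold Old
    rw [q2, q3]
  -- the new nodes
  have hnew : ∀ σ a ρ, BRow p ob W σ a ρ → (σ, pre ρ (m + 1 + 1)) ∈ q.dT ∧
      q.fT σ (pre ρ (m + 1 + 1)) = pfx S (lv l σ) (m + 1 + 1 - 1) a := by
    intro σ a ρ h
    refine ⟨?_, ?_⟩
    · rw [q4]
      exact Or.inr ⟨a, ρ, h, rfl⟩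
    · rw [q5 _ _ (preLen _ _), hgv σ a ρ h, Nat.add_sub_cancel]
  refine ⟨q, q1, q2, q3, ⟨Nat.succ_pos _, ?_, ?_, ?_, ?_⟩, ⟨⟨?_, ?_⟩, ?_, ?_, ?_, ?_⟩⟩
  · intro σ a h
    rw [hOld] at h
    obtain ⟨ρ, hρ⟩ := h.brow W
    exact ⟨pre ρ (m + 1 + 1), preLen _ _, hnew σ a ρ hρ⟩
  · intro σ s h
    rw [q4] at h
    rcases h with h | ⟨a, ρ, _, hs⟩
    · exact le_trans (hR.lenT σ s h) (Nat.le_succ _)
    · simp only at hs
      rw [hs, preLen]
  · intro σ k i h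
    rw [q2] at h
    exact lt_trans (hR.lvA σ k i h) (Nat.lt_succ_self _)
  · intro σ a a' h h' hne
    rw [hOld] at h h'
    exact hsep' σ a a' h h' hne
  · intro σ j s i hT hA
    rw [q2] at hA
    have h1 := hR.lvA _ _ _ hA
    have hT' : (σ, j :: s) ∈ p.dT := by
      rw [q4] at hT
      rcases hT with hT | ⟨a, ρ, _, hs⟩
      · exact hT
      · simp only at hs
        have := congrArg List.length hs
        rw [preLen] at this
        simp at this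
        omega
    rw [q3, q6 σ (j :: s) (hR.lenT _ _ hT')]
    exact hG.cp.bits σ j s i hT' hA
  · intro σ k Q κ ho i hA
    rw [q2] at hA
    rw [q3]
    exact hG.cp.obc σ k Q κ ho i hA
  · intro σ i hA hz
    rw [q2] at hA
    rw [q3]
    exact hG.lab σ i hA hz
  · exact hG.obl
  · intro σ i hA hz
    rw [q2] at hA
    rw [q3]
    exact hnew σ _ _ (Or.inl ⟨i, hA, hz, rfl, rfl⟩)
  · intro σ a h
    exact hnew σ a _ (Or.inr ⟨h, rfl⟩)

end Pool.Bc
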