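import Pool.Agent.Bc.Lang

/-!
# Project BC: more statements of rows
-/

set_option autoImplicit false

open MeasureTheory

namespace Pool.Bc

/-- Mycielski's theorem for a countable family of open dense sets. -/
def StMycAbs : Prop := ∀ (r : ℕ → ℕ) (E : ∀ n, Set (Fin (r n) → ℕ → ℕ)),
  (∀ n, IsOpen (E n)) → (∀ n, Dense (E n)) → ∃ ψ : (ℕ → Bool) → ℕ → ℕ, Continuous ψ ∧
    ∀ n (y : Fin (r n) → ℕ → Bool), Function.Injective y → (fun i => ψ (y i)) ∈ E n

/-- The sets of possible rows are open and dense. -/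
def StDst : Prop := ∀ D : Set ((ℕ → ℕ) × Z), IsOpen D → Dense D → ∀ rows F, CfgOK rows F →
  IsOpen (Dst D rows F) ∧ Dense (Dst D rows F)

/-- Analytic sets have the Baire property. -/
def StBP : Prop := ∀ {α : Type} [TopologicalSpace α] [PolishSpace α] (A : Set α),
  AnalyticSet A → BaireMeasurableSet A

/-- Measurability of equalities of types and of colours. -/
def StColMeas : Prop := ∀ {X : Type} [MeasurableSpace X] (S : TupSys X),
  (∀ (e : List ℕ) (n : ℕ), MeasurableSet {x | S.bt x e n = true}) → ∀ l : Lvl,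
  (∀ e e', MeasurableSet {x | tp S x l e = tp S x l e'}) ∧
  (∀ e e', MeasurableSet {x | jp S x l e = jp S x l e'}) ∧
  (∀ e κ e' κ' c, MeasurableSet {x | col S l (tp S x l e, κ) (jp S x l e') κ' = c})

/-- `EqA` is equality of nodes. -/
def StEqA : Prop := ∀ {X : Type} (S : TupSys X) (l : Lvl), Mono S l →
  ∀ (ψ : (ℕ → Bool) → ℕ → ℕ),
  (∀ (w w' : List ℕ) (y y' : ℕ → Bool), y ≠ y' → appendL w (ψ y) ≠ appendL w' (ψ y')) →
  ∀ (x x' : X) (ζ : Enum S l x) (ζ' : Enum S l x') (z z' : Z),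
  IsZ S l ψ ζ z → IsZ S l ψ ζ' z' → ∀ τ : List ℕ,
  (∀ μ, jp S x (lv l (μ ++ τ)) [] = jp S x' (lv l (μ ++ τ)) []) →
  ∀ i i', EqA (lv l τ) τ z i z' i' ↔ ζ.a τ i = ζ'.a τ i'

/-- Countable suprema of hereditarily monotone levels. -/
def StMonoSup : Prop := ∃ HM : Lvl → Prop, (∀ {X : Type} (S : TupSys X) (l : Lvl), HM l → Mono S l) ∧
  HM .zero ∧ ∀ a : ℕ → Lvl, (∀ n, HM (a n)) → ∃ s : ℕ → Lvl, HM (.node s) ∧ (∀ k, HM (s k)) ∧
    ∀ n, ∃ k, ∀ {X : Type} (S : TupSys X) (x x' : X) (e e' : List ℕ),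
      tp S x (s k) e = tp S x' (s k) e' → tp S x (a n) e = tp S x' (a n) e'

/-! ### Forcing with finite injective sequences (Vaught transform) -/

/-- Pull back of a structure along a permutation. -/
@[reducible] def pull (L : FirstOrder.Language.{0, 0}) (M : L.Structure ℕ) (g : Equiv.Perm ℕ) :
    L.Structure ℕ where
  funMap := fun {n} f x => g.symm (@FirstOrder.Language.Structure.funMap L ℕ M n f (g ∘ x))
  RelMap := fun {n} R x => @FirstOrder.Language.Structure.RelMap L ℕ M n R (g ∘ x)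

/-- `p` is an initial part of the permutation `g`. -/
def InitOf (p : List ℕ) (g : Equiv.Perm ℕ) : Prop := ∀ i, ∀ h : i < p.length, g i = p[i]

/-- Dense sets of finite injective sequences. -/
def DenseL (U : Set (List ℕ)) : Prop :=
  ∀ q : List ℕ, q.Nodup → ∃ c : List ℕ, (q ++ c).Nodup ∧ q ++ c ∈ U

/-- `p` forces `B` over `M`: all sufficiently generic permutations extending `p` pull `M` back
into `B`. -/
def Forces (L : FirstOrder.Language.{0, 0}) (M : L.Structure ℕ) (p : List ℕ)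
    (B : Set (L.Structure ℕ)) : Prop :=
  ∃ U : ℕ → Set (List ℕ), (∀ n, DenseL (U n)) ∧ ∀ g : Equiv.Perm ℕ, InitOf p g →
    (∀ n, ∃ q ∈ U n, InitOf q g) → pull L M g ∈ B

/-- Existence of generic permutations. -/
def StGenPerm : Prop := ∀ (U : ℕ → Set (List ℕ)), (∀ n, DenseL (U n)) → ∀ p : List ℕ, p.Nodup →
  ∃ g : Equiv.Perm ℕ, InitOf p g ∧ ∀ n, ∃ q ∈ U n, InitOf q g

/-- Every measurable set is decided densely. -/
def StDecide : Prop := ∀ (L : FirstOrder.Language.{0, 0}) (M : L.Structure ℕ)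
  (B : Set (L.Structure ℕ)), @MeasurableSet _ (mS L) B → ∀ p : List ℕ, p.Nodup →
  ∃ c : List ℕ, (p ++ c).Nodup ∧ (Forces L M (p ++ c) B ∨ Forces L M (p ++ c) Bᶜ)

/-- Forcing of sections of a Borel set only depends on the type of some level. -/
def StInv : Prop := ∀ (L : FirstOrder.Language.{0, 0}), Countable L.Symbols →
  ∀ (S : TupSys (L.Structure ℕ)) (enc : Fact L → ℕ),
    (∀ (M : L.Structure ℕ) (e : List ℕ) (φ : Fact L), S.bt M e (enc φ) = true ↔ holds L M e φ) →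
  ∀ R : Set (L.Structure ℕ × L.Structure ℕ),
    @MeasurableSet _ (@Prod.instMeasurableSpace _ _ (mS L) (mS L)) R →
  ∃ l : Lvl, Mono S l ∧ ∀ N M M' : L.Structure ℕ, ∀ p p' : List ℕ, p.Nodup →
    tp S M l p = tp S M' l p' → Forces L M p {M1 | (N, M1) ∈ R} →
    Forces L M' p' {M1 | (N, M1) ∈ R}

end Pool.Bc
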