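import Pool.Agent.Bc.Stmts
import Pool.Agent.Bc.Stmts2

/-!
# Project BC: the sets of possible rows are open and dense; the Mycielski map
-/

set_option autoImplicit false

open Filter Topology

namespace Pool.Bc

/-- Points of the product from functions on the coordinates. -/
private def mkW (f : WC → ℕ) : (ℕ → ℕ) × Z := (fun t => f (Sum.inl t), fun c => f (Sum.inr c))

private theorem wc_mkW (f : WC → ℕ) (c : WC) : wc (mkW f) c = f c := by
  cases c <;> rfl

private theorem mkW_wc (w : (ℕ → ℕ) × Z) : mkW (wc w) = w := rfl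

private theorem continuous_mkW : Continuous mkW := by
  unfold mkW
  refine Continuous.prodMk ?_ ?_
  · exact continuous_pi fun t => continuous_apply _
  · exact continuous_pi fun t => continuous_apply _

private theorem continuous_wc (c : WC) : Continuous fun w : (ℕ → ℕ) × Z => wc w c := by
  cases c with
  | inl t => exact (continuous_apply t).comp continuous_fst
  | inr c => exact (continuous_apply c).comp continuous_snd

/-- The coordinates of a row. -/
private def rc : Option (List ℕ × ℕ) → ℕ → WC
  | none, t => Sum.inl t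
  | some p, t => Sum.inr (Sum.inl (p.1, p.2, t))

private theorem rowW_eq (R : Option (List ℕ × ℕ)) (w : (ℕ → ℕ) × Z) (t : ℕ) :
    rowW R w t = wc w (rc R t) := by
  cases R <;> rfl

private theorem rowOf_rc (R : Option (List ℕ × ℕ)) (t : ℕ) : rowOf (rc R t) = some R := by
  cases R <;> rfl

/-- The place of a coordinate in its row. -/
private def plc : WC → ℕ
  | Sum.inl t => t
  | Sum.inr (Sum.inl (_, _, t)) => t
  | Sum.inr (Sum.inr _) => 0

private theorem plc_rc (R : Option (List ℕ × ℕ)) (t : ℕ) : plc (rc R t) = t := by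
  cases R <;> rfl

private theorem rc_plc {c : WC} {R : Option (List ℕ × ℕ)} (h : rowOf c = some R) :
    c = rc R (plc c) := by
  rcases c with t | ⟨σ, i, t⟩ | c
  · simp only [rowOf, Option.some.injEq] at h
    subst h
    rfl
  · simp only [rowOf, Option.some.injEq] at h
    subst h
    rfl
  · simp [rowOf] at h

private theorem continuous_rowW (R : Option (List ℕ × ℕ)) : Continuous (rowW R) := by
  refine continuous_pi fun t => ?_
  have : (fun w => rowW R w t) = fun w => wc w (rc R t) := by
    funext w
    exact rowW_eq R w t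
  rw [this]
  exact continuous_wc _

private theorem continuous_appendL (w : List ℕ) : Continuous (appendL w) := by
  refine continuous_pi fun t => ?_
  unfold appendL
  by_cases h : t < w.length
  · simp only [h, if_true]
    exact continuous_const
  · simp only [h, if_false]
    exact continuous_apply _

private theorem appendL_shift (w : List ℕ) (g : ℕ → ℕ) (h : ∀ t < w.length, g t = w.getD t 0) :
    appendL w (fun t => g (t + w.length)) = g := by
  funext t
  unfold appendL
  by_cases ht : t < w.length
  · rw [if_pos ht, h t ht]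
  · rw [if_neg ht]
    show g (t - w.length + w.length) = g t
    congr 1
    omega

open Classical in
/-- Change of the prescribed rows. -/
private noncomputable def chg (rows : List (Option (List ℕ × ℕ) × List ℕ)) (f : WC → ℕ)
    (ρ : Fin rows.length → ℕ → ℕ) : WC → ℕ := fun c =>
  if h : ∃ i : Fin rows.length, rowOf c = some (rows.get i).1 then
    appendL (rows.get h.choose).2 (ρ h.choose) (plc c)
  else f c

private theorem chg_of_not {rows : List (Option (List ℕ × ℕ) × List ℕ)} (f : WC → ℕ)
    (ρ : Fin rows.length → ℕ → ℕ) {c : WC}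
    (h : ¬ ∃ i : Fin rows.length, rowOf c = some (rows.get i).1) : chg rows f ρ c = f c := by
  unfold chg
  rw [dif_neg h]

private theorem get_inj {rows : List (Option (List ℕ × ℕ) × List ℕ)}
    (hr : (rows.map Prod.fst).Nodup) {i j : Fin rows.length}
    (h : (rows.get i).1 = (rows.get j).1) : i = j := by
  have h1 := List.nodup_iff_injective_get.mp hr
  have h2 : (⟨(i : ℕ), by simp⟩ : Fin (rows.map Prod.fst).length) = ⟨(j : ℕ), by simp⟩ := by
    apply h1
    simpa using h
  exact Fin.ext (by simpa using h2)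

private theorem chg_row {rows : List (Option (List ℕ × ℕ) × List ℕ)}
    (hr : (rows.map Prod.fst).Nodup) (f : WC → ℕ)
    (ρ : Fin rows.length → ℕ → ℕ) (i : Fin rows.length) (t : ℕ) :
    chg rows f ρ (rc (rows.get i).1 t) = appendL (rows.get i).2 (ρ i) t := by
  have h : ∃ j : Fin rows.length, rowOf (rc (rows.get i).1 t) = some (rows.get j).1 :=
    ⟨i, rowOf_rc _ _⟩
  have h3 : i = h.choose :=
    get_inj hr (Option.some.inj ((rowOf_rc _ _).symm.trans h.choose_spec))
  unfold chg
  rw [dif_pos h, ← h3, plc_rc]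

private theorem continuous_chg (rows : List (Option (List ℕ × ℕ) × List ℕ)) (f : WC → ℕ) :
    Continuous (chg rows f) := by
  refine continuous_pi fun c => ?_
  by_cases h : ∃ i : Fin rows.length, rowOf c = some (rows.get i).1
  · have : (fun ρ => chg rows f ρ c) = fun ρ =>
        appendL (rows.get h.choose).2 (ρ h.choose) (plc c) := by
      funext ρ
      unfold chg
      rw [dif_pos h]
    rw [this]
    have h1 : Continuous fun ρ : Fin rows.length → ℕ → ℕ =>
        appendL (rows.get h.choose).2 (ρ h.choose) :=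
      (continuous_appendL _).comp (continuous_apply h.choose)
    exact (continuous_apply (plc c)).comp h1
  · have : (fun ρ => chg rows f ρ c) = fun _ => f c := by
      funext ρ
      exact chg_of_not f ρ h
    rw [this]
    exact continuous_const

private theorem rowW_chg {rows : List (Option (List ℕ × ℕ) × List ℕ)}
    (hr : (rows.map Prod.fst).Nodup) (f : WC → ℕ)
    (ρ : Fin rows.length → ℕ → ℕ) (i : Fin rows.length) :
    rowW (rows.get i).1 (mkW (chg rows f ρ)) = appendL (rows.get i).2 (ρ i) := by
  funext t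
  rw [rowW_eq, wc_mkW, chg_row hr]

private theorem notRow {rows : List (Option (List ℕ × ℕ) × List ℕ)} {F : List (WC × ℕ)}
    (h : CfgOK rows F) {cv : WC × ℕ} (hc : cv ∈ F) :
    ¬ ∃ i : Fin rows.length, rowOf cv.1 = some (rows.get i).1 := by
  rintro ⟨i, hi⟩
  refine h.2.2 cv hc (rows.get i).1 ?_ hi
  exact List.mem_map.mpr ⟨rows.get i, List.get_mem _ _, rfl⟩

/-- The set of admissible points. -/
private def adm (rows : List (Option (List ℕ × ℕ) × List ℕ)) (F : List (WC × ℕ))
    (U : Set (Fin rows.length → ℕ → ℕ)) : Set ((ℕ → ℕ) × Z) :=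
  {w | (∀ cv ∈ F, wc w cv.1 = cv.2) ∧
    (∀ i : Fin rows.length, ∀ t : Fin (rows.get i).2.length,
      rowW (rows.get i).1 w t = (rows.get i).2.getD t 0) ∧
    (fun (i : Fin rows.length) t => rowW (rows.get i).1 w (t + (rows.get i).2.length)) ∈ U}

private theorem isOpen_adm (rows : List (Option (List ℕ × ℕ) × List ℕ)) (F : List (WC × ℕ))
    (U : Set (Fin rows.length → ℕ → ℕ)) (hU : IsOpen U) : IsOpen (adm rows F U) := by
  have h1 : IsOpen {w : (ℕ → ℕ) × Z | ∀ cv ∈ F, wc w cv.1 = cv.2} := by
    have : {w : (ℕ → ℕ) × Z | ∀ cv ∈ F, wc w cv.1 = cv.2} =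
        ⋂ cv ∈ {cv | cv ∈ F}, {w | wc w cv.1 = cv.2} := by
      ext w
      simp
    rw [this]
    refine (List.finite_toSet F).isOpen_biInter fun cv _ => ?_
    exact (isOpen_discrete {cv.2}).preimage (continuous_wc cv.1)
  have h2 : IsOpen {w : (ℕ → ℕ) × Z | ∀ i : Fin rows.length, ∀ t : Fin (rows.get i).2.length,
      rowW (rows.get i).1 w t = (rows.get i).2.getD t 0} := by
    simp only [Set.ofPred_forall]
    refine isOpen_iInter_of_finite fun i => isOpen_iInter_of_finite fun t => ?_
    exact (isOpen_discrete {(rows.get i).2.getD t 0}).preimage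
      ((continuous_apply (t : ℕ)).comp (continuous_rowW (rows.get i).1))
  have h3 : IsOpen {w : (ℕ → ℕ) × Z |
      (fun (i : Fin rows.length) t => rowW (rows.get i).1 w (t + (rows.get i).2.length)) ∈ U} := by
    refine hU.preimage ?_
    refine continuous_pi fun i => continuous_pi fun t => ?_
    exact (continuous_apply _).comp (continuous_rowW (rows.get i).1)
  exact h1.inter (h2.inter h3)

private theorem appendL_lt (w : List ℕ) (g : ℕ → ℕ) {t : ℕ} (h : t < w.length) :
    appendL w g t = w.getD t 0 := by
  unfold appendL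
  rw [if_pos h]

private theorem appendL_add (w : List ℕ) (g : ℕ → ℕ) (t : ℕ) :
    appendL w g (t + w.length) = g t := by
  unfold appendL
  rw [if_neg (by omega), Nat.add_sub_cancel]

private theorem nonempty_adm {rows : List (Option (List ℕ × ℕ) × List ℕ)} {F : List (WC × ℕ)}
    (h : CfgOK rows F) {U : Set (Fin rows.length → ℕ → ℕ)} (hU : U.Nonempty) :
    (adm rows F U).Nonempty := by
  classical
  obtain ⟨ρ, hρ⟩ := hU
  refine ⟨mkW (chg rows (fun c => if h : ∃ v, (c, v) ∈ F then h.choose else 0) ρ), ?_, ?_, ?_⟩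
  · intro cv hcv
    rw [wc_mkW, chg_of_not _ _ (notRow h hcv)]
    have h1 : ∃ v, (cv.1, v) ∈ F := ⟨cv.2, hcv⟩
    rw [dif_pos h1]
    have h2 := h1.choose_spec
    have h3 := List.inj_on_of_nodup_map h.2.1 h2 hcv rfl
    exact congrArg Prod.snd h3
  · intro i t
    rw [rowW_chg h.1, appendL_lt _ _ t.2]
  · have : (fun (i : Fin rows.length) t =>
        rowW (rows.get i).1 (mkW (chg rows
          (fun c => if h : ∃ v, (c, v) ∈ F then h.choose else 0) ρ))
          (t + (rows.get i).2.length)) = ρ := by
      funext i t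
      rw [rowW_chg h.1, appendL_add]
    rw [this]
    exact hρ

/-- The sets of possible rows are open and dense. -/
theorem stDst : StDst := by
  intro D hD hDd rows F h
  constructor
  · rw [isOpen_iff_mem_nhds]
    rintro ρ ⟨w, hw, hF, hR⟩
    have hc : Continuous fun ρ' => mkW (chg rows (wc w) ρ') :=
      continuous_mkW.comp (continuous_chg rows (wc w))
    have h0 : mkW (chg rows (wc w) ρ) = w := by
      have : chg rows (wc w) ρ = wc w := by
        funext c
        by_cases hc : ∃ i : Fin rows.length, rowOf c = some (rows.get i).1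
        · obtain ⟨i, hi⟩ := hc
          rw [rc_plc hi, chg_row h.1, ← hR i, rowW_eq]
        · exact chg_of_not _ _ hc
      rw [this, mkW_wc]
    have h1 : (fun ρ' => mkW (chg rows (wc w) ρ')) ⁻¹' D ∈ 𝓝 ρ := by
      refine (hD.preimage hc).mem_nhds ?_
      show mkW (chg rows (wc w) ρ) ∈ D
      rw [h0]
      exact hw
    refine mem_of_superset h1 ?_
    intro ρ' hρ'
    refine ⟨mkW (chg rows (wc w) ρ'), hρ', ?_, ?_⟩
    · intro cv hcv
      rw [wc_mkW, chg_of_not _ _ (notRow h hcv)]
      exact hF cv hcv
    · intro i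
      exact rowW_chg h.1 _ _ i
  · rw [dense_iff_inter_open]
    intro U hU hUn
    obtain ⟨w, hwa, hwD⟩ := hDd.inter_open_nonempty _ (isOpen_adm rows F U hU) (nonempty_adm h hUn)
    obtain ⟨hF, hI, hw⟩ := hwa
    refine ⟨_, hw, w, hwD, hF, ?_⟩
    intro i
    exact (appendL_shift _ _ fun t ht => hI i ⟨t, ht⟩).symm

private theorem isOpen_ne (w w' : List ℕ) :
    IsOpen {ρ : Fin 2 → ℕ → ℕ | appendL w (ρ 0) ≠ appendL w' (ρ 1)} := by
  have : IsClosed {ρ : Fin 2 → ℕ → ℕ | appendL w (ρ 0) = appendL w' (ρ 1)} :=
    isClosed_eq ((continuous_appendL w).comp (continuous_apply 0))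
      ((continuous_appendL w').comp (continuous_apply 1))
  exact this.isOpen_compl

private theorem dense_ne (w w' : List ℕ) :
    Dense {ρ : Fin 2 → ℕ → ℕ | appendL w (ρ 0) ≠ appendL w' (ρ 1)} := by
  intro ρ
  refine mem_closure_of_tendsto (f := fun n : ℕ => (Function.update ρ 0
    (Function.update (ρ 0) n (appendL w' (ρ 1) (n + w.length) + 1)) : Fin 2 → ℕ → ℕ))
    (b := atTop) ?_ (Eventually.of_forall fun n => ?_)
  · rw [tendsto_pi_nhds]
    intro i
    rw [tendsto_pi_nhds]
    intro t
    refine tendsto_const_nhds.congr' ?_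
    filter_upwards [eventually_gt_atTop t] with n hn
    by_cases hi : i = 0
    · subst hi
      rw [Function.update_self, Function.update_of_ne (by omega)]
    · rw [Function.update_of_ne hi]
  · intro h
    have h1 := congrFun h (n + w.length)
    rw [appendL_add, Function.update_self, Function.update_self,
      Function.update_of_ne (by decide)] at h1
    omega

/-- The sets used for the Mycielski map. -/
private noncomputable def fam (D : ℕ → Set ((ℕ → ℕ) × Z)) :
    (ℕ × List (Option (List ℕ × ℕ) × List ℕ) × List (WC × ℕ)) ⊕ (List ℕ × List ℕ) →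
      (r : ℕ) × Set (Fin r → ℕ → ℕ)
  | Sum.inl (m, rows, F) => ⟨rows.length, {ρ | CfgOK rows F → ρ ∈ Dst (D m) rows F}⟩
  | Sum.inr (w, w') => ⟨2, {ρ | appendL w (ρ 0) ≠ appendL w' (ρ 1)}⟩

private theorem fam_ok (h2 : StDst) {D : ℕ → Set ((ℕ → ℕ) × Z)} (hD : ∀ n, IsOpen (D n))
    (hDd : ∀ n, Dense (D n)) : ∀ c, IsOpen (fam D c).2 ∧ Dense (fam D c).2
  | Sum.inl (m, rows, F) => by
      by_cases h : CfgOK rows F
      · have : (fam D (Sum.inl (m, rows, F))).2 = Dst (D m) rows F := by
          ext ρ
          simp [fam, h]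
        rw [this]
        exact h2 (D m) (hD m) (hDd m) rows F h
      · have : (fam D (Sum.inl (m, rows, F))).2 = Set.univ := by
          ext ρ
          simp [fam, h]
        rw [this]
        exact ⟨isOpen_univ, dense_univ⟩
  | Sum.inr (w, w') => ⟨isOpen_ne w w', dense_ne w w'⟩

/-- The Mycielski map. -/
theorem stMyc (h1 : StMycAbs) (h2 : StDst) : StMyc := by
  intro D hD hDd
  obtain ⟨e, he⟩ := exists_surjective_nat
    ((ℕ × List (Option (List ℕ × ℕ) × List ℕ) × List (WC × ℕ)) ⊕ (List ℕ × List ℕ))
  obtain ⟨ψ, hψ, hE⟩ := h1 (fun n => (fam D (e n)).1) (fun n => (fam D (e n)).2)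
    (fun n => (fam_ok h2 hD hDd (e n)).1) (fun n => (fam_ok h2 hD hDd (e n)).2)
  have key : ∀ c (y : Fin (fam D c).1 → ℕ → Bool), Function.Injective y →
      (fun i => ψ (y i)) ∈ (fam D c).2 := by
    intro c
    obtain ⟨n, rfl⟩ := he c
    exact hE n
  refine ⟨ψ, hψ, ?_, ?_⟩
  · intro n rows F h y hy
    exact key (Sum.inl (n, rows, F)) y hy h
  · intro w w' y y' hne
    have h3 := key (Sum.inr (w, w')) ![y, y'] (by
      intro i j hij
      fin_cases i <;> fin_cases j
      · rfl
      · exact absurd hij hne
      · exact absurd hij.symm hne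
      · rfl)
    exact h3

end Pool.Bc
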