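import Pool.Agent.Bc.Stmts2

/-!
# Project BC: points of enumerations of structures with the same types are isomorphic
-/

set_option autoImplicit false

namespace Pool.Bc

variable {X : Type} {S : TupSys X}

theorem ANset_sub {x x' : X} (h : ∀ l', jp S x l' [] = jp S x' l' []) (l : Lvl) :
    ANset S x l ⊆ ANset S x' l := by
  rintro a ⟨e, κ, hκ, hr, rfl⟩
  have h1 : tp S x l e ∈ jp S x' l [] := h l ▸ tp_mem_jp_nil x l e
  obtain ⟨e', he'⟩ := h1
  rw [List.nil_append] at he'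
  exact ⟨e', κ, by rw [← tp_len l he']; exact hκ, hr, by rw [he']⟩

theorem TNset_sub {x x' : X} (h : ∀ l', jp S x l' [] = jp S x' l' []) (l : Lvl) (k : ℕ) :
    TNset S x l k ⊆ TNset S x' l k := by
  rintro u ⟨e, κ, hκ, hk, rfl⟩
  have h1 : tp S x (.node l.chd) e ∈ jp S x' (.node l.chd) [] :=
    h (.node l.chd) ▸ tp_mem_jp_nil x (.node l.chd) e
  obtain ⟨e', he'⟩ := h1
  rw [List.nil_append] at he'
  have h2 : ∀ i, jp S x (l.chd i) e = jp S x' (l.chd i) e' := fun i => congrFun he' i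
  exact ⟨e', κ, by rw [← jp_len (h2 0)]; exact hκ, hk, seqOf_congr κ fun i _ => h2 i⟩

section maps

variable {l : Lvl} {x x' : X} (ζ : Enum S l x) (ζ' : Enum S l x') (σ : List ℕ)

open Classical in
/-- The `T`-element of `ζ'` which is the same node as a given one of `ζ`. -/
noncomputable def tMap : List ℕ → List ℕ
  | [] => []
  | j :: s => (if h : ∃ j', ζ'.t σ (j' :: tMap s) = ζ.t σ (j :: s) then h.choose else 0) :: tMap s

theorem tMap_length : ∀ s, (tMap ζ ζ' σ s).length = s.length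
  | [] => by rw [tMap]
  | j :: s => by rw [tMap, List.length_cons, List.length_cons, tMap_length s]

theorem tMap_spec (h : ∀ k, TNset S x (lv l σ) k ⊆ TNset S x' (lv l σ) k) :
    ∀ (s : List ℕ) (j : ℕ), ∃ j', tMap ζ ζ' σ (j :: s) = j' :: tMap ζ ζ' σ s ∧
      ζ'.t σ (j' :: tMap ζ ζ' σ s) = ζ.t σ (j :: s)
  | [], j => by
      have hex : ∃ j', ζ'.t σ (j' :: tMap ζ ζ' σ []) = ζ.t σ (j :: []) := by
        rw [tMap]
        exact ζ'.t_sur0 σ _ (h 0 (ζ.t_mem σ j []))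
      refine ⟨hex.choose, ?_, hex.choose_spec⟩
      conv_lhs => rw [tMap]
      rw [dif_pos hex]
  | j0 :: s, j => by
      obtain ⟨j1, h1, h2⟩ := tMap_spec h s j0
      have hex : ∃ j', ζ'.t σ (j' :: tMap ζ ζ' σ (j0 :: s)) = ζ.t σ (j :: j0 :: s) := by
        rw [h1]
        apply ζ'.t_sur σ j1 (tMap ζ ζ' σ s)
        · rw [tMap_length]
          exact h _ (ζ.t_mem σ j (j0 :: s))
        · rw [tMap_length, h2]
          exact ζ.t_par σ j j0 s
      refine ⟨hex.choose, ?_, hex.choose_spec⟩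
      conv_lhs => rw [tMap]
      rw [dif_pos hex]

theorem tMap_tMap (h : ∀ k, TNset S x (lv l σ) k ⊆ TNset S x' (lv l σ) k)
    (h' : ∀ k, TNset S x' (lv l σ) k ⊆ TNset S x (lv l σ) k) :
    ∀ s, tMap ζ' ζ σ (tMap ζ ζ' σ s) = s
  | [] => by rw [tMap, tMap]
  | j :: s => by
      obtain ⟨j1, h1, h2⟩ := tMap_spec ζ ζ' σ h s j
      obtain ⟨j2, h3, h4⟩ := tMap_spec ζ' ζ σ h' (tMap ζ ζ' σ s) j1
      rw [tMap_tMap h h' s] at h3 h4
      rw [h1, h3, ζ.t_inj σ s j2 j (h4.trans h2)]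

/-- The permutation of the `T`-elements. -/
noncomputable def tEq (h : ∀ k, TNset S x (lv l σ) k ⊆ TNset S x' (lv l σ) k)
    (h' : ∀ k, TNset S x' (lv l σ) k ⊆ TNset S x (lv l σ) k) : Equiv.Perm (List ℕ) where
  toFun := tMap ζ ζ' σ
  invFun := tMap ζ' ζ σ
  left_inv := tMap_tMap ζ ζ' σ h h'
  right_inv := tMap_tMap ζ' ζ σ h' h

theorem exists_aEq (h : ANset S x (lv l σ) ⊆ ANset S x' (lv l σ))
    (h' : ANset S x' (lv l σ) ⊆ ANset S x (lv l σ)) :
    ∃ π : Equiv.Perm ℕ, ∀ i, ζ'.a σ (π i) = ζ.a σ i := by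
  choose f hf using fun i => ζ'.a_sur σ _ (h (ζ.a_mem σ i))
  refine ⟨Equiv.ofBijective f ⟨fun i j hij => ?_, fun i' => ?_⟩, hf⟩
  · apply ζ.a_inj σ
    rw [← hf i, ← hf j, hij]
  · obtain ⟨i, hi⟩ := ζ.a_sur σ _ (h' (ζ'.a_mem σ i'))
    exact ⟨i, ζ'.a_inj σ ((hf i).trans hi)⟩

end maps

theorem stEnumIso : StEnumIso := by
  intro X S l _ ψ x x' ζ ζ' z z' hz hz' h
  have hA : ∀ σ, ∃ π : Equiv.Perm ℕ, ∀ i, ζ'.a σ (π i) = ζ.a σ i := fun σ =>
    exists_aEq ζ ζ' σ (ANset_sub h _) (ANset_sub (fun l' => (h l').symm) _)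
  choose πA hπA using hA
  have h1 : ∀ σ k, TNset S x (lv l σ) k ⊆ TNset S x' (lv l σ) k := fun σ k => TNset_sub h _ k
  have h2 : ∀ σ k, TNset S x' (lv l σ) k ⊆ TNset S x (lv l σ) k := fun σ k =>
    TNset_sub (fun l' => (h l').symm) _ k
  refine ⟨πA, fun σ => tEq ζ ζ' σ (h1 σ) (h2 σ), fun σ s => tMap_length ζ ζ' σ s, fun σ j s => ?_,
    fun σ j s j' s' i hs => ?_, fun σ i hl => ?_, fun σ i hl k => ?_⟩
  · change (tMap ζ ζ' σ (j :: s)).tail = tMap ζ ζ' σ s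
    rw [tMap, List.tail_cons]
  · change tMap ζ ζ' σ (j :: s) = j' :: s' at hs
    obtain ⟨j1, h3, h4⟩ := tMap_spec ζ ζ' σ (h1 σ) s j
    rw [h3] at hs
    obtain ⟨rfl, rfl⟩ := List.cons_eq_cons.1 hs
    rw [hz'.bit_eq, hz.bit_eq, h4, ← hπA (s.length :: σ) i]
    have h5 : ∀ n, n = s.length → colT S (lv l σ) n (ζ'.a (n :: σ) (πA (s.length :: σ) i))
        (ζ.t σ (j :: s)) = colT S (lv l σ) s.length (ζ'.a (s.length :: σ)
        (πA (s.length :: σ) i)) (ζ.t σ (j :: s)) := by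
      rintro _ rfl
      rfl
    exact h5 _ (tMap_length ζ ζ' σ s)
  · rw [hz'.lab_eq σ _ hl, hz.lab_eq σ _ hl, hπA]
  · change pre (row z' σ (πA σ i)) k = tMap ζ ζ' σ (pre (row z σ i) k)
    induction k with
    | zero => rw [pre, pre, tMap]
    | succ k ih =>
      obtain ⟨j1, h3, h4⟩ := tMap_spec ζ ζ' σ (h1 σ) (pre (row z σ i) k) (row z σ i k)
      have e1 := hz.br_eq σ i hl k
      have e2 := hz'.br_eq σ (πA σ i) hl k
      rw [hπA, ← e1] at e2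
      rw [pre, pre] at e2
      rw [pre, pre, h3, ← ih]
      rw [← ih] at h4
      rw [ζ'.t_inj σ _ _ _ (e2.trans h4.symm)]

end Pool.Bc
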