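import Pool.Agent.Bc.Stmts4

/-!
# Project BC: decided coordinates
-/

set_option autoImplicit false

namespace Pool.Bc

variable {X : Type} {S : TupSys X} {l : Lvl} {x : X}

/-- The enumeration of a tree is injective on the lists of a given length. -/
private theorem t_injL (ζ : Enum S l x) (σ : List ℕ) : ∀ (s s' : List ℕ),
    s.length = s'.length → ζ.t σ s = ζ.t σ s' → s = s'
  | [], s', hl, _ => (List.length_eq_zero_iff.1 hl.symm).symm
  | j :: s, [], hl, _ => absurd hl (by simp)
  | [j], j' :: s', hl, h => by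
      have hs' : s' = [] := by
        rw [← List.length_eq_zero_iff]
        simpa using hl.symm
      subst hs'
      rw [ζ.t_inj σ [] j j' h]
  | j :: k :: r, [j'], hl, _ => absurd hl (by simp)
  | j :: k :: r, j' :: k' :: r', hl, h => by
      have hr : r.length = r'.length := by simpa using hl
      have h1 : ζ.t σ (k :: r) = ζ.t σ (k' :: r') := by
        rw [← ζ.t_par σ j k r, ← ζ.t_par σ j' k' r', h, hr]
      have h2 : k :: r = k' :: r' := t_injL ζ σ (k :: r) (k' :: r') (by simp [hr]) h1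
      rw [← h2] at h ⊢
      rw [ζ.t_inj σ (k :: r) j j' h]

/-- Equal tree nodes along two branches give equal entries. -/
private theorem ent_eq (ζ : Enum S l x) (σ : List ℕ) (f g : ℕ → ℕ) (t : ℕ)
    (h : ζ.t σ (pre f (t + 1)) = ζ.t σ (pre g (t + 1))) : f t = g t := by
  have h1 : pre f (t + 1) = pre g (t + 1) :=
    t_injL ζ σ _ _ (by rw [preLen, preLen]) h
  exact (List.cons.inj h1).1

/-- Stage 5: decided coordinates. -/
theorem stForce : StForce := by
  intro X S l _ ψ x ob _ q W C hcp hdc ζ hin z b hz hrow c hc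
  rcases c with t | ⟨σ, i, t⟩ | ⟨σ, j, s, i⟩
  · change b t = W.1 t
    cases ob with
    | lab σ a =>
      have h1 : b = lbl ψ σ (lv l σ) a := hrow
      rw [h1]
      exact (hdc.obl t hc σ a rfl).symm
    | col σ k Q κ =>
      have h1 : b t = col S (lv l (k :: σ)) (ζ.a (k :: σ) t) Q κ := hrow t
      have h2 := hdc.obc t hc σ k Q κ rfl
      rw [h1, hin.A _ _ h2]
      exact (hcp.obc σ k Q κ rfl t h2).symm
    | br σ a =>
      have h1 : ζ.t σ (pre b (t + 1)) = pfx S (lv l σ) t a := hrow t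
      obtain ⟨h2, h3⟩ := hdc.obr t hc σ a rfl t le_rfl
      refine ent_eq ζ σ b W.1 t ?_
      rw [h1, hin.T _ _ h2, h3]
  · change row z σ i t = row W.2 σ i t
    obtain ⟨h1, h2⟩ := hdc.row σ i t hc
    cases hZ : (lv l σ).isZ with
    | true =>
      rw [hz.lab_eq σ i hZ, hin.A _ _ h1]
      exact h2.1 hZ t (Nat.lt_succ_self t)
    | false =>
      obtain ⟨h3, h4⟩ := h2.2 hZ t (Nat.lt_succ_self t)
      refine ent_eq ζ σ _ _ t ?_
      rw [hz.br_eq σ i hZ, hin.T _ _ h3, h4, hin.A _ _ h1]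
  · change bit z σ j s i = bit W.2 σ j s i
    obtain ⟨h1, h2⟩ := hdc.bit σ j s i hc
    rw [hz.bit_eq, hin.A _ _ h2, hin.T _ _ h1, hcp.bits σ j s i h1 h2]

/-- Open sets depend on finitely many coordinates near each of their points. -/
theorem exists_finset_open (D : Set ((ℕ → ℕ) × Z)) (hD : IsOpen D) (W : (ℕ → ℕ) × Z)
    (hW : W ∈ D) : ∃ C : Finset WC, ∀ w' : (ℕ → ℕ) × Z, (∀ c ∈ C, wc w' c = wc W c) →
      w' ∈ D := by
  have hcont : Continuous fun f : WC → ℕ =>
      (((fun t => f (Sum.inl t)), fun c => f (Sum.inr c)) : (ℕ → ℕ) × Z) := by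
    refine Continuous.prodMk ?_ ?_
    · exact continuous_pi fun t => continuous_apply _
    · exact continuous_pi fun t => continuous_apply _
  have hopen := hD.preimage hcont
  rw [isOpen_pi_iff] at hopen
  obtain ⟨I, u, h1, h2⟩ := hopen (wc W) hW
  refine ⟨I, fun w' hw' => ?_⟩
  have h3 : wc w' ∈ (I : Set WC).pi u := by
    intro c hc
    rw [hw' c hc]
    exact (h1 c hc).2
  exact h2 h3

end Pool.Bc
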