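import Pool.Agent.Bc.Stmts2

/-!
# Project BC: generic permutations, every measurable set is decided densely
-/

set_option autoImplicit false

open MeasureTheory

namespace Pool.Bc

theorem gp_step (U : Set (List ℕ)) (hU : DenseL U) (k : ℕ) (q : List ℕ) (hq : q.Nodup) :
    ∃ q' : List ℕ, q'.Nodup ∧ q <+: q' ∧ k ∈ q' ∧ ∃ r ∈ U, r <+: q' := by
  obtain ⟨c, hc, hcU⟩ := hU q hq
  by_cases hk : k ∈ q ++ c
  · exact ⟨q ++ c, hc, List.prefix_append _ _, hk, q ++ c, hcU, List.prefix_refl _⟩
  · refine ⟨(q ++ c) ++ [k], ?_, ?_, by simp, q ++ c, hcU, List.prefix_append _ _⟩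
    · rw [List.nodup_append']
      refine ⟨hc, List.nodup_singleton k, ?_⟩
      rw [List.disjoint_singleton]
      exact hk
    · rw [List.append_assoc]
      exact List.prefix_append _ _

theorem stGenPerm : StGenPerm := by
  intro U hU p hp
  have step : ∀ (k : ℕ) (q : {q : List ℕ // q.Nodup}), ∃ q' : {q : List ℕ // q.Nodup},
      q.1 <+: q'.1 ∧ k ∈ q'.1 ∧ ∃ r ∈ U k, r <+: q'.1 := by
    intro k q
    obtain ⟨q', h1, h2, h3, h4⟩ := gp_step (U k) (hU k) k q.1 q.2
    exact ⟨⟨q', h1⟩, h2, h3, h4⟩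
  choose F hF1 hF2 hF3 using step
  obtain ⟨Q, hQ0, hQs⟩ : ∃ Q : ℕ → {q : List ℕ // q.Nodup}, Q 0 = ⟨p, hp⟩ ∧
      ∀ k, Q (k + 1) = F k (Q k) :=
    ⟨fun k => Nat.rec ⟨p, hp⟩ (fun k q => F k q) k, rfl, fun k => rfl⟩
  have hs : ∀ k, (Q k).1 <+: (Q (k + 1)).1 := fun k => by rw [hQs]; exact hF1 k _
  have hmem : ∀ k, k ∈ (Q (k + 1)).1 := fun k => by rw [hQs]; exact hF2 k _
  have hr : ∀ k, ∃ r ∈ U k, r <+: (Q (k + 1)).1 := fun k => by rw [hQs]; exact hF3 k _
  have mono : ∀ k m, k ≤ m → (Q k).1 <+: (Q m).1 := by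
    intro k m hkm
    induction m, hkm using Nat.le_induction with
    | base => exact List.prefix_refl _
    | succ m _ ih => exact ih.trans (hs m)
  have hlen : ∀ m, m ≤ (Q m).1.length := by
    intro m
    have hsub : List.range m ⊆ (Q m).1 := by
      intro x hx
      exact (mono (x + 1) m (List.mem_range.1 hx)).subset (hmem x)
    have := (List.nodup_range.subperm hsub).length_le
    rwa [List.length_range] at this
  obtain ⟨g, hg⟩ : ∃ g : ℕ → ℕ, ∀ i, g i = (Q (i + 1)).1.getD i 0 := ⟨_, fun _ => rfl⟩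
  have key : ∀ m i, ∀ h : i < (Q m).1.length, g i = (Q m).1[i] := by
    intro m i h
    have h1 : i < (Q (i + 1)).1.length := hlen (i + 1)
    rw [hg, List.getD_eq_getElem _ _ h1]
    rcases le_total m (i + 1) with h2 | h2
    · exact ((mono _ _ h2).getElem h).symm
    · exact (mono _ _ h2).getElem h1
  have hinj : Function.Injective g := by
    intro i j hij
    have h1 : i < (Q (max i j + 1)).1.length :=
      lt_of_lt_of_le (Nat.lt_succ_of_le (le_max_left i j)) (hlen _)
    have h2 : j < (Q (max i j + 1)).1.length :=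
      lt_of_lt_of_le (Nat.lt_succ_of_le (le_max_right i j)) (hlen _)
    rw [key _ i h1, key _ j h2] at hij
    exact ((Q (max i j + 1)).2.getElem_inj_iff).1 hij
  have hsur : Function.Surjective g := by
    intro n
    obtain ⟨i, hi, hin⟩ := List.getElem_of_mem (hmem n)
    exact ⟨i, by rw [key _ i hi, hin]⟩
  refine ⟨Equiv.ofBijective g ⟨hinj, hsur⟩, fun i hi => ?_, fun n => ?_⟩
  · have h0 : (Q 0).1 = p := by rw [hQ0]
    have hi' : i < (Q 0).1.length := by rw [h0]; exact hi
    change g i = p[i]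
    rw [key 0 i hi']
    simp only [h0]
  · obtain ⟨r, hrU, hpre⟩ := hr n
    refine ⟨r, hrU, fun i hi => ?_⟩
    change g i = r[i]
    rw [key (n + 1) i (lt_of_lt_of_le hi hpre.length_le)]
    exact (hpre.getElem hi).symm

/-- Forcing with a countable family of dense sets. -/
theorem forces_of_countable {L : FirstOrder.Language.{0, 0}} {M : L.Structure ℕ} {p : List ℕ}
    {B : Set (L.Structure ℕ)} {ι : Type} [Encodable ι] (W : ι → Set (List ℕ))
    (hW : ∀ i, DenseL (W i)) (h : ∀ g : Equiv.Perm ℕ, InitOf p g →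
      (∀ i, ∃ q ∈ W i, InitOf q g) → pull L M g ∈ B) : Forces L M p B := by
  obtain ⟨V, hV⟩ : ∃ V : ℕ → Set (List ℕ),
      ∀ n, V n = (Encodable.decode n : Option ι).elim Set.univ W := ⟨_, fun _ => rfl⟩
  refine ⟨V, fun n => ?_, ?_⟩
  · rw [hV]
    cases hd : (Encodable.decode n : Option ι) with
    | none => exact fun q hq => ⟨[], by simpa using hq, trivial⟩
    | some i => exact hW i
  · intro g hg hm
    refine h g hg fun i => ?_
    have := hm (Encodable.encode i)
    rw [hV, Encodable.encodek] at this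
    exact this

theorem Forces.mono {L : FirstOrder.Language.{0, 0}} {M : L.Structure ℕ} {p : List ℕ}
    {B B' : Set (L.Structure ℕ)} (h : Forces L M p B) (hB : B ⊆ B') : Forces L M p B' := by
  obtain ⟨U, hU, h1⟩ := h
  exact ⟨U, hU, fun g hg hm => hB (h1 g hg hm)⟩

/-- Two initial parts of the same permutation are comparable. -/
theorem InitOf.isPre {p q : List ℕ} {g : Equiv.Perm ℕ} (hp : InitOf p g) (hq : InitOf q g)
    (h : p.length ≤ q.length) : p <+: q := by
  rw [List.prefix_iff_getElem?]
  intro i hi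
  rw [List.getElem?_eq_getElem (lt_of_lt_of_le hi h), Option.some_inj, ← hp i hi,
    ← hq i (lt_of_lt_of_le hi h)]

/-- Sets which only depend on finitely many values are decided. -/
theorem decide_local (h : StGenPerm) (L : FirstOrder.Language.{0, 0}) (M : L.Structure ℕ)
    (B : Set (L.Structure ℕ)) (N : ℕ) (hB : ∀ g g' : Equiv.Perm ℕ, (∀ i < N, g i = g' i) →
      (pull L M g ∈ B ↔ pull L M g' ∈ B)) (p : List ℕ) (hp : p.Nodup) :
    ∃ c : List ℕ, (p ++ c).Nodup ∧ (Forces L M (p ++ c) B ∨ Forces L M (p ++ c) Bᶜ) := by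
  obtain ⟨g, hg, -⟩ := h (fun _ => Set.univ) (fun _ q hq => ⟨[], by simpa using hq, trivial⟩) p hp
  have he : p ++ (List.range' p.length N).map g = (List.range (p.length + N)).map g := by
    have h1 : (List.range p.length).map g = p := by
      refine List.ext_getElem (by simp) fun i h1 h2 => ?_
      rw [List.getElem_map, List.getElem_range]
      exact hg i h2
    have h2 : List.range (p.length + N) = List.range p.length ++ List.range' p.length N := by
      rw [List.range_eq_range', List.range_eq_range', ← List.range'_append_1]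
      simp
    rw [h2, List.map_append, h1]
  have hnd : (p ++ (List.range' p.length N).map g).Nodup := by
    rw [he]
    exact List.Nodup.map g.injective List.nodup_range
  have hinit : ∀ g' : Equiv.Perm ℕ, InitOf (p ++ (List.range' p.length N).map g) g' →
      ∀ i < N, g i = g' i := by
    intro g' hg' i hi
    rw [he] at hg'
    have h1 := hg' i (by simp; omega)
    rw [List.getElem_map, List.getElem_range] at h1
    exact h1.symm
  refine ⟨_, hnd, ?_⟩
  by_cases hm : pull L M g ∈ B
  · left
    exact ⟨fun _ => Set.univ, fun _ q hq => ⟨[], by simpa using hq, trivial⟩,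
      fun g' hg' _ => (hB g g' (hinit g' hg')).1 hm⟩
  · right
    exact ⟨fun _ => Set.univ, fun _ q hq => ⟨[], by simpa using hq, trivial⟩,
      fun g' hg' _ hm' => hm ((hB g g' (hinit g' hg')).2 hm')⟩

/-- Countable unions. -/
theorem decide_iUnion (L : FirstOrder.Language.{0, 0}) (M : L.Structure ℕ)
    (f : ℕ → Set (L.Structure ℕ)) (hf : ∀ n, ∀ p : List ℕ, p.Nodup →
      ∃ c : List ℕ, (p ++ c).Nodup ∧ (Forces L M (p ++ c) (f n) ∨ Forces L M (p ++ c) (f n)ᶜ))
    (p : List ℕ) (hp : p.Nodup) :
    ∃ c : List ℕ, (p ++ c).Nodup ∧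
      (Forces L M (p ++ c) (⋃ n, f n) ∨ Forces L M (p ++ c) (⋃ n, f n)ᶜ) := by
  classical
  by_cases hex : ∃ (c : List ℕ) (n : ℕ), (p ++ c).Nodup ∧ Forces L M (p ++ c) (f n)
  · obtain ⟨c, n, hc, hF⟩ := hex
    exact ⟨c, hc, Or.inl (hF.mono (Set.subset_iUnion f n))⟩
  · push Not at hex
    refine ⟨[], by simpa using hp, Or.inr ?_⟩
    rw [List.append_nil]
    have hV : ∀ (n : ℕ) (q : List ℕ), ∃ V : ℕ → Set (List ℕ), (∀ m, DenseL (V m)) ∧
        (Forces L M q (f n)ᶜ → ∀ g : Equiv.Perm ℕ, InitOf q g →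
          (∀ m, ∃ r ∈ V m, InitOf r g) → pull L M g ∈ (f n)ᶜ) := by
      intro n q
      by_cases hF : Forces L M q (f n)ᶜ
      · obtain ⟨V, hV1, hV2⟩ := hF
        exact ⟨V, hV1, fun _ => hV2⟩
      · exact ⟨fun _ => Set.univ, fun _ q hq => ⟨[], by simpa using hq, trivial⟩,
          fun h => absurd h hF⟩
    choose V hV1 hV2 using hV
    refine forces_of_countable (ι := ℕ ⊕ (ℕ × List ℕ × ℕ))
      (fun o => Sum.elim (fun n => {q : List ℕ | (¬ p <+: q ∧ ¬ q <+: p) ∨
        (p <+: q ∧ Forces L M q (f n)ᶜ)}) (fun t => V t.1 t.2.1 t.2.2) o) ?_ ?_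
    · rintro (n | ⟨n, q, m⟩)
      · intro q hq
        simp only [Sum.elim_inl, Set.mem_ofPred_eq]
        by_cases h1 : p <+: q
        · obtain ⟨d, rfl⟩ := h1
          obtain ⟨c, hc, hF⟩ := hf n _ hq
          refine ⟨c, hc, Or.inr ⟨?_, ?_⟩⟩
          · rw [List.append_assoc]
            exact List.prefix_append _ _
          · rcases hF with hF | hF
            · rw [List.append_assoc] at hc hF
              exact absurd hF (hex _ n hc)
            · exact hF
        · by_cases h2 : q <+: p
          · obtain ⟨d, rfl⟩ := h2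
            obtain ⟨c, hc, hF⟩ := hf n _ hp
            refine ⟨d ++ c, by rw [← List.append_assoc]; exact hc, Or.inr ⟨?_, ?_⟩⟩
            · rw [← List.append_assoc]
              exact List.prefix_append _ _
            · rcases hF with hF | hF
              · exact absurd hF (hex _ n hc)
              · rw [← List.append_assoc]
                exact hF
          · exact ⟨[], by simpa using hq, Or.inl (by simpa using ⟨h1, h2⟩)⟩
      · exact hV1 n q m
    · intro g hg hm hmem
      obtain ⟨n, hn⟩ := Set.mem_iUnion.1 hmem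
      obtain ⟨q, hq, hqg⟩ := hm (Sum.inl n)
      simp only [Sum.elim_inl, Set.mem_ofPred_eq] at hq
      rcases hq with ⟨h1, h2⟩ | ⟨-, hF⟩
      · rcases le_total p.length q.length with h3 | h3
        · exact h1 (hg.isPre hqg h3)
        · exact h2 (hqg.isPre hg h3)
      · exact hV2 n q hF g hqg (fun m => hm (Sum.inr (n, q, m))) hn

theorem stDecide (h : StGenPerm) : StDecide := by
  intro L M B hB
  induction hB with
  | basic A hA =>
    rcases hA with ⟨k, F, x, m, rfl⟩ | ⟨k, R, x, rfl⟩
    · refine decide_local h L M _ ((Finset.univ.sup x) + m + 1) fun g g' hgg => ?_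
      have h1 : g ∘ x = g' ∘ x := by
        funext i
        refine hgg _ ?_
        have := Finset.le_sup (f := x) (Finset.mem_univ i)
        omega
      have h2 : g m = g' m := hgg m (by omega)
      change g.symm (@FirstOrder.Language.Structure.funMap L ℕ M k F (g ∘ x)) = m ↔
        g'.symm (@FirstOrder.Language.Structure.funMap L ℕ M k F (g' ∘ x)) = m
      rw [Equiv.symm_apply_eq, Equiv.symm_apply_eq, h1, h2]
    · refine decide_local h L M _ ((Finset.univ.sup x) + 1) fun g g' hgg => ?_
      have h1 : g ∘ x = g' ∘ x := by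
        funext i
        refine hgg _ ?_
        have := Finset.le_sup (f := x) (Finset.mem_univ i)
        omega
      change (@FirstOrder.Language.Structure.RelMap L ℕ M k R (g ∘ x)) ↔
        (@FirstOrder.Language.Structure.RelMap L ℕ M k R (g' ∘ x))
      rw [h1]
  | empty =>
    intro p hp
    refine ⟨[], by simpa using hp, Or.inr ?_⟩
    exact ⟨fun _ => Set.univ, fun _ q hq => ⟨[], by simpa using hq, trivial⟩,
      fun g _ _ hm => hm⟩
  | compl t _ ih =>
    intro p hp
    obtain ⟨c, hc, hF⟩ := ih p hp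
    refine ⟨c, hc, ?_⟩
    rw [compl_compl]
    exact hF.symm
  | iUnion f _ ih => exact decide_iUnion L M f ih

end Pool.Bc
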