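import Pool.Agent.Bc.Stmts3

/-!
# Project BC: generic enumerations (Rasiowa - Sikorski)
-/

set_option autoImplicit false

namespace Pool.Bc

variable {X : Type} {S : TupSys X} {l : Lvl} {x : X}

namespace PE

/-- The empty condition. -/
def bot (S : TupSys X) (l : Lvl) (x : X) : PE S l x where
  dA := ∅
  dT := ∅
  fA := fun σ _ => (tp S x (lv l σ) [], [])
  fT := fun _ _ _ => (∅, (0, 0))
  finA := Set.finite_empty
  finT := Set.finite_empty
  A_mem := fun _ _ h => absurd h (Set.notMem_empty _)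
  A_inj := fun _ _ _ h => absurd h (Set.notMem_empty _)
  T_ne := fun _ => Set.notMem_empty _
  T_mem := fun _ _ _ h => absurd h (Set.notMem_empty _)
  T_par := fun _ _ _ _ h => absurd h (Set.notMem_empty _)
  T_inj := fun _ _ _ h => absurd h (Set.notMem_empty _)

/-- Assign a tree index together with its parents. -/
theorem exists_idxT (σ : List ℕ) : ∀ (s : List ℕ), s ≠ [] → ∀ p : PE S l x,
    ∃ q : PE S l x, Le p q ∧ (σ, s) ∈ q.dT
  | [], h, _ => absurd rfl h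
  | j :: s, _, p => by
      by_cases hs : s = []
      · subst hs
        by_cases hi : (σ, [j]) ∈ p.dT
        · exact ⟨p, Le.refl p, hi⟩
        · obtain ⟨q, h1, _, _, h4, _⟩ := p.newT σ j [] hi (fun h => absurd rfl h) (fun _ => 0)
          exact ⟨q, h1, by rw [h4]; exact Set.mem_insert _ _⟩
      · obtain ⟨p1, a1, a2⟩ := exists_idxT σ s hs p
        by_cases hi : (σ, j :: s) ∈ p1.dT
        · exact ⟨p1, a1, hi⟩
        · obtain ⟨q, h1, _, _, h4, _⟩ := p1.newT σ j s hi (fun _ => a2) (fun _ => 0)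
          exact ⟨q, a1.trans h1, by rw [h4]; exact Set.mem_insert _ _⟩

/-- Assign an `A`-index. -/
theorem exists_idxA (p : PE S l x) (σ : List ℕ) (i : ℕ) : ∃ q : PE S l x, Le p q ∧
    (σ, i) ∈ q.dA := by
  by_cases hi : (σ, i) ∈ p.dA
  · exact ⟨p, Le.refl p, hi⟩
  · obtain ⟨q, c, n, h1, h2, _⟩ := p.newA σ i hi [] [] (Or.inl rfl) ∅ Set.finite_empty
      (fun P hP => absurd hP (Set.notMem_empty _)) (fun _ => 0) []
    exact ⟨q, h1, by rw [h2]; exact Set.mem_insert _ _⟩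

/-- Assign an index to a given `A`-node. -/
theorem exists_nodeA (p : PE S l x) (σ : List ℕ) (a : AN (lv l σ))
    (ha : a ∈ ANset S x (lv l σ)) : ∃ q : PE S l x, Le p q ∧ ∃ i, (σ, i) ∈ q.dA ∧
      q.fA σ i = a := by
  by_cases hex : ∃ i, (σ, i) ∈ p.dA ∧ p.fA σ i = a
  · exact ⟨p, Le.refl p, hex⟩
  · push Not at hex
    obtain ⟨i, hi⟩ := exists_fresh_A p σ
    obtain ⟨q, h1, h2, _, _, h5⟩ := p.exists_addA σ i a hi ha hex
    exact ⟨q, h1, i, by rw [h2]; exact Set.mem_insert _ _, h5⟩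

/-- A sequence of conditions meeting countably many tasks. -/
theorem exists_chain {ι : Type} [Countable ι] [Nonempty ι] (D : ι → Set (PE S l x))
    (hD : ∀ t p, ∃ q, Le p q ∧ q ∈ D t) :
    ∃ p : ℕ → PE S l x, (∀ n m, n ≤ m → Le (p n) (p m)) ∧ ∀ t, ∃ n, p n ∈ D t := by
  obtain ⟨f, hf⟩ := exists_surjective_nat ι
  choose F hF1 hF2 using hD
  let p : ℕ → PE S l x := fun n => Nat.rec (bot S l x) (fun k q => F (f k) q) n
  have hp : ∀ n, p (n + 1) = F (f n) (p n) := fun n => rfl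
  refine ⟨p, ?_, ?_⟩
  · intro n m hnm
    induction m, hnm using Nat.le_induction with
    | base => exact Le.refl _
    | succ m _ ih =>
      refine ih.trans ?_
      rw [hp]
      exact hF1 _ _
  · intro t
    obtain ⟨n, rfl⟩ := hf t
    exact ⟨n + 1, by rw [hp]; exact hF2 _ _⟩

end PE

/-- The tasks. -/
abbrev Task : Type :=
  ℕ ⊕ (List ℕ × ℕ) ⊕ (List ℕ × List ℕ × List (ℕ × ℕ)) ⊕ (List ℕ × List ℕ) ⊕
    (List ℕ × ℕ × List ℕ × List (ℕ × ℕ))

/-- The conditions which have done a task. -/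
def Done (S : TupSys X) (l : Lvl) (x : X) (G : ℕ → Set (PE S l x)) : Task → Set (PE S l x)
  | .inl n => {q | ∃ r ∈ G n, PE.Le r q}
  | .inr (.inl (σ, i)) => {q | (σ, i) ∈ q.dA}
  | .inr (.inr (.inl (σ, e, κ))) => {q | (tp S x (lv l σ) e, κ) ∈ ANset S x (lv l σ) →
      ∃ i, (σ, i) ∈ q.dA ∧ q.fA σ i = (tp S x (lv l σ) e, κ)}
  | .inr (.inr (.inr (.inl (σ, s)))) => {q | s ≠ [] → (σ, s) ∈ q.dT}
  | .inr (.inr (.inr (.inr (σ, k, e, κ)))) =>
      {q | trunc k (seqOf S x (lv l σ) e κ) ∈ TNset S x (lv l σ) k →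
        ∃ s : List ℕ, s.length = k + 1 ∧ (σ, s) ∈ q.dT ∧
          q.fT σ s = trunc k (seqOf S x (lv l σ) e κ)}

theorem done_dense {G : ℕ → Set (PE S l x)} (hG : ∀ n p, ∃ q, PE.Le p q ∧ q ∈ G n) (t : Task)
    (p : PE S l x) : ∃ q, PE.Le p q ∧ q ∈ Done S l x G t := by
  rcases t with n | ⟨σ, i⟩ | ⟨σ, e, κ⟩ | ⟨σ, s⟩ | ⟨σ, k, e, κ⟩
  · obtain ⟨q, h1, h2⟩ := hG n p
    exact ⟨q, h1, q, h2, PE.Le.refl q⟩
  · exact p.exists_idxA σ i
  · by_cases h : (tp S x (lv l σ) e, κ) ∈ ANset S x (lv l σ)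
    · obtain ⟨q, h1, h2⟩ := p.exists_nodeA σ _ h
      exact ⟨q, h1, fun _ => h2⟩
    · exact ⟨p, PE.Le.refl p, fun h2 => absurd h2 h⟩
  · by_cases hs : s = []
    · exact ⟨p, PE.Le.refl p, fun h => absurd hs h⟩
    · obtain ⟨q, h1, h2⟩ := PE.exists_idxT σ s hs p
      exact ⟨q, h1, fun _ => h2⟩
  · by_cases h : trunc k (seqOf S x (lv l σ) e κ) ∈ TNset S x (lv l σ) k
    · obtain ⟨q, h1, _, _, h4, _⟩ := p.assignNode σ k _ h
      exact ⟨q, h1, fun _ => h4⟩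
    · exact ⟨p, PE.Le.refl p, fun h2 => absurd h2 h⟩

theorem stGeneric : StGeneric := by
  classical
  intro X S l _ x G hG
  have : Nonempty Task := ⟨.inl 0⟩
  obtain ⟨p, hp, hD⟩ := PE.exists_chain (Done S l x G) (done_dense hG)
  -- the common values
  let fa : ∀ σ : List ℕ, ℕ → AN (lv l σ) := fun σ i =>
    if h : ∃ n, (σ, i) ∈ (p n).dA then (p h.choose).fA σ i else (tp S x (lv l σ) [], [])
  let ft : ∀ σ : List ℕ, List ℕ → TN (lv l σ) := fun σ s =>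
    if h : ∃ n, (σ, s) ∈ (p n).dT then (p h.choose).fT σ s else fun _ => (∅, (0, 0))
  have ha : ∀ n σ i, (σ, i) ∈ (p n).dA → fa σ i = (p n).fA σ i := by
    intro n σ i h
    have hex : ∃ n, (σ, i) ∈ (p n).dA := ⟨n, h⟩
    have h1 : fa σ i = (p hex.choose).fA σ i := dif_pos hex
    rw [h1]
    rcases le_total hex.choose n with h2 | h2
    · exact ((hp _ _ h2).A σ i hex.choose_spec).2.symm
    · exact ((hp _ _ h2).A σ i h).2
  have ht : ∀ n σ s, (σ, s) ∈ (p n).dT → ft σ s = (p n).fT σ s := by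
    intro n σ i h
    have hex : ∃ n, (σ, i) ∈ (p n).dT := ⟨n, h⟩
    have h1 : ft σ i = (p hex.choose).fT σ i := dif_pos hex
    rw [h1]
    rcases le_total hex.choose n with h2 | h2
    · exact ((hp _ _ h2).T σ i hex.choose_spec).2.symm
    · exact ((hp _ _ h2).T σ i h).2
  have iA : ∀ σ i, ∃ n, (σ, i) ∈ (p n).dA := fun σ i => hD (.inr (.inl (σ, i)))
  have iT : ∀ σ j s, ∃ n, (σ, j :: s) ∈ (p n).dT := fun σ j s => by
    obtain ⟨n, hn⟩ := hD (.inr (.inr (.inr (.inl (σ, j :: s)))))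
    exact ⟨n, hn (by simp)⟩
  have upA : ∀ {n m : ℕ} {σ : List ℕ} {i : ℕ}, n ≤ m → (σ, i) ∈ (p n).dA → (σ, i) ∈ (p m).dA :=
    fun h h' => ((hp _ _ h).A _ _ h').1
  have upT : ∀ {n m : ℕ} {σ s : List ℕ}, n ≤ m → (σ, s) ∈ (p n).dT → (σ, s) ∈ (p m).dT :=
    fun h h' => ((hp _ _ h).T _ _ h').1
  have nT : ∀ (σ : List ℕ) (k : ℕ), ∀ u ∈ TNset S x (lv l σ) k, ∃ n, ∃ s : List ℕ,
      s.length = k + 1 ∧ (σ, s) ∈ (p n).dT ∧ (p n).fT σ s = u := by
    intro σ k u hu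
    obtain ⟨e, κ, h1, h2, rfl⟩ := hu
    obtain ⟨n, hn⟩ := hD (.inr (.inr (.inr (.inr (σ, k, e, κ)))))
    exact ⟨n, hn ⟨e, κ, h1, h2, rfl⟩⟩
  refine ⟨⟨fa, ft, ?_, ?_, ?_, ?_, ?_, ?_, ?_, ?_⟩, ?_⟩
  · intro σ i j hij
    obtain ⟨n, hn⟩ := iA σ i
    obtain ⟨m, hm⟩ := iA σ j
    have h1 := upA (le_max_left n m) hn
    have h2 := upA (le_max_right n m) hm
    rw [ha _ σ i h1, ha _ σ j h2] at hij
    exact (p (max n m)).A_inj σ i j h1 h2 hij
  · intro σ i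
    obtain ⟨n, hn⟩ := iA σ i
    rw [ha _ σ i hn]
    exact (p n).A_mem σ i hn
  · intro σ y hy
    obtain ⟨e, κ, h1, h2, rfl⟩ := hy
    obtain ⟨n, hn⟩ := hD (.inr (.inr (.inl (σ, e, κ))))
    obtain ⟨i, h3, h4⟩ := hn ⟨e, κ, h1, h2, rfl⟩
    exact ⟨i, by rw [ha _ σ i h3, h4]⟩
  · intro σ j s
    obtain ⟨n, hn⟩ := iT σ j s
    rw [ht _ σ _ hn]
    exact (p n).T_mem σ j s hn
  · intro σ j j' s
    obtain ⟨n, hn⟩ := iT σ j (j' :: s)
    obtain ⟨h1, h2⟩ := (p n).T_par σ j j' s hn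
    rw [ht _ σ _ hn, ht _ σ _ h1, h2]
  · intro σ s j j' hij
    obtain ⟨n, hn⟩ := iT σ j s
    obtain ⟨m, hm⟩ := iT σ j' s
    have h1 := upT (le_max_left n m) hn
    have h2 := upT (le_max_right n m) hm
    rw [ht _ σ _ h1, ht _ σ _ h2] at hij
    exact (List.cons.inj ((p (max n m)).T_inj σ _ _ h1 h2 (by simp) hij)).1
  · intro σ u hu
    obtain ⟨n, s, h1, h2, h3⟩ := nT σ 0 u hu
    obtain ⟨j, rfl⟩ := List.length_eq_one_iff.mp h1
    exact ⟨j, by rw [ht _ σ _ h2, h3]⟩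
  · intro σ j s u hu hpar
    obtain ⟨n, s', h1, h2, h3⟩ := nT σ (s.length + 1) u hu
    obtain ⟨m, hm⟩ := iT σ j s
    rcases s' with _ | ⟨j1, _ | ⟨j2, s2⟩⟩
    · simp at h1
    · simp at h1
    · have hl : s2.length = s.length := by simpa using h1
      obtain ⟨h4, h5⟩ := (p n).T_par σ j1 j2 s2 h2
      rw [h3, hl, hpar, ht _ σ _ hm] at h5
      have h6 := upT (le_max_left n m) h4
      have h7 := upT (le_max_right n m) hm
      have h8 : (p (max n m)).fT σ (j2 :: s2) = (p (max n m)).fT σ (j :: s) := by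
        rw [← ht _ σ _ h6, ← ht _ σ _ h7, ht _ σ _ h4, ht _ σ _ hm, h5]
      have h9 := (p (max n m)).T_inj σ _ _ h6 h7 (by simp [hl]) h8
      obtain ⟨rfl, rfl⟩ := List.cons.inj h9
      exact ⟨j1, by rw [ht _ σ _ h2, h3]⟩
  · intro n
    obtain ⟨m, r, hr, hle⟩ := hD (.inl n)
    refine ⟨r, hr, ?_, ?_⟩
    · intro σ i hi
      obtain ⟨h1, h2⟩ := hle.A σ i hi
      change fa σ i = _
      rw [ha _ σ i h1, h2]
    · intro σ s hs
      obtain ⟨h1, h2⟩ := hle.T σ s hs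
      change ft σ s = _
      rw [ht _ σ s h1, h2]

end Pool.Bc
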