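import Pool.Agent.Bc.Stmts3

/-!
# Project BC: every enumeration has a point
-/

set_option autoImplicit false

namespace Pool.Bc

variable {X : Type} {S : TupSys X}

/-- Branches through the tree elements of an enumeration. -/
theorem exists_branch {l : Lvl} {x : X} (ζ : Enum S l x) (σ : List ℕ)
    (u : ℕ → TN (lv l σ)) (hu : ∀ k, u k ∈ TNset S x (lv l σ) k)
    (ht : ∀ k, trunc k (u (k + 1)) = u k) :
    ∃ t : ℕ → ℕ, ∀ k, ζ.t σ (pre t (k + 1)) = u k := by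
  have h0 : ∃ p : ℕ × List ℕ, p.2.length = 0 ∧ ζ.t σ (p.1 :: p.2) = u 0 := by
    obtain ⟨j, hj⟩ := ζ.t_sur0 σ (u 0) (hu 0)
    exact ⟨(j, []), rfl, hj⟩
  have h1 : ∀ (k : ℕ) (p : ℕ × List ℕ), p.2.length = k → ζ.t σ (p.1 :: p.2) = u k →
      ∃ j' : ℕ, ζ.t σ (j' :: p.1 :: p.2) = u (k + 1) := by
    intro k p hp hp2
    refine ζ.t_sur σ p.1 p.2 (u (k + 1)) ?_ ?_
    · rw [hp]
      exact hu (k + 1)
    · rw [hp, hp2]
      exact ht k
  obtain ⟨p0, hp0⟩ := h0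
  choose g hg using h1
  let F : ∀ k : ℕ, {p : ℕ × List ℕ // p.2.length = k ∧ ζ.t σ (p.1 :: p.2) = u k} := fun k =>
    Nat.rec (motive := fun k => {p : ℕ × List ℕ // p.2.length = k ∧ ζ.t σ (p.1 :: p.2) = u k})
      ⟨p0, hp0⟩ (fun k P => ⟨(g k P.1 P.2.1 P.2.2, P.1.1 :: P.1.2), by
        refine ⟨?_, hg k P.1 P.2.1 P.2.2⟩
        rw [List.length_cons, P.2.1]⟩) k
  have hF : ∀ k, pre (fun k => (F k).1.1) k = (F k).1.2 := by
    intro k
    induction k with
    | zero => exact (List.length_eq_zero_iff.mp hp0.1).symm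
    | succ k ih =>
      change (F k).1.1 :: pre (fun k => (F k).1.1) k = _
      rw [ih]
  refine ⟨fun k => (F k).1.1, fun k => ?_⟩
  change ζ.t σ ((F k).1.1 :: pre (fun k => (F k).1.1) k) = u k
  rw [hF]
  exact (F k).2.2

/-- Every enumeration has a point, and the extra element has a row. -/
theorem stHasPoint : StHasPoint := by
  intro X S l _ ψ x ζ ob hob
  have hbr : ∀ σ i, (lv l σ).isZ = false → ∃ t : ℕ → ℕ, ∀ k,
      ζ.t σ (pre t (k + 1)) = pfx S (lv l σ) k (ζ.a σ i) := fun σ i h =>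
    exists_branch ζ σ _ (fun k => pfx_mem h (ζ.a_mem σ i) k)
      (fun k => trunc_pfx h (ζ.a_mem σ i) (Nat.le_succ k))
  choose br hbr using hbr
  obtain ⟨b, hb⟩ : ∃ b : ℕ → ℕ, ObRow S l ψ ζ ob b := by
    cases ob with
    | lab σ a => exact ⟨_, rfl⟩
    | col σ k Q κ => exact ⟨fun i => col S (lv l (k :: σ)) (ζ.a (k :: σ) i) Q κ, fun _ => rfl⟩
    | br σ a =>
      obtain ⟨h1, _, ⟨x', h3⟩, h4⟩ := hob
      exact exists_branch ζ σ _ h4 (fun k => trunc_pfx h1 h3 (Nat.le_succ k))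
  refine ⟨fun c => match c with
    | Sum.inl (σ, i, t) => if h : (lv l σ).isZ = false then br σ i h t
        else lbl ψ σ (lv l σ) (ζ.a σ i) t
    | Sum.inr (σ, j, s, i) => colT S (lv l σ) s.length (ζ.a (s.length :: σ) i) (ζ.t σ (j :: s)),
    b, ⟨fun _ _ _ _ => rfl, ?_, ?_⟩, hb⟩
  · intro σ i h
    funext t
    have h' : ¬ (lv l σ).isZ = false := by
      rw [h]
      decide
    exact dif_neg h'
  · intro σ i h k
    have h2 : ∀ z : Z, (∀ t, z (Sum.inl (σ, i, t)) = br σ i h t) → row z σ i = br σ i h :=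
      fun z hz => funext hz
    rw [h2 _ (fun t => dif_pos h)]
    exact hbr σ i h k

end Pool.Bc
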