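import Pool.Agent.Bc.Stmts2

/-!
# Project BC: analytic sets with countable sections are meagre (Kuratowski - Ulam)
-/

set_option autoImplicit false

open MeasureTheory Topology

namespace Pool.Bc

/-- The Baire space has no isolated points. -/
theorem KU_dense_ne (c : ℕ → ℕ) : Dense {b : ℕ → ℕ | b ≠ c} := by
  rw [dense_iff_inter_open]
  rintro O hO ⟨b, hb⟩
  by_cases hbc : b = c
  · subst hbc
    have ht : Filter.Tendsto (fun N => Function.update b N (b N + 1)) Filter.atTop (𝓝 b) := by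
      rw [tendsto_pi_nhds]
      intro i
      refine tendsto_const_nhds.congr' ?_
      filter_upwards [Filter.eventually_gt_atTop i] with N hN
      rw [Function.update_of_ne (by omega)]
    obtain ⟨N, hN⟩ := (ht.eventually (hO.mem_nhds hb)).exists
    refine ⟨_, hN, ?_⟩
    intro h
    have h1 := congrFun h N
    simp at h1
  · exact ⟨b, hb, hbc⟩

/-- A countable set does not contain a generic part of an open set of the Baire space. -/
theorem KU_count {C : Set (ℕ → ℕ)} (hC : C.Countable) {O : Set (ℕ → ℕ)} (hO : IsOpen O)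
    (hne : O.Nonempty) (E : ℕ → Set (ℕ → ℕ)) (hEo : ∀ n, IsOpen (E n)) (hEd : ∀ n, Dense (E n)) :
    ∃ b ∈ O, (∀ n, b ∈ E n) ∧ b ∉ C := by
  have h1 : Dense (⋂ n, E n) := dense_iInter_of_isOpen hEo hEd
  have h1' : ⋂ n, E n ∈ residual (ℕ → ℕ) :=
    countable_iInter_mem.2 fun n => residual_of_dense_open (hEo n) (hEd n)
  have h2 : ⋂ c ∈ C, {b : ℕ → ℕ | b ≠ c} ∈ residual (ℕ → ℕ) :=
    (countable_bInter_mem hC).2 fun c _ => residual_of_dense_open isOpen_ne (KU_dense_ne c)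
  have h3 := dense_of_mem_residual (Filter.inter_mem h1' h2)
  rw [dense_iff_inter_open] at h3
  obtain ⟨b, hbO, hb1, hb2⟩ := h3 O hO hne
  refine ⟨b, hbO, Set.mem_iInter.1 hb1, fun hbC => ?_⟩
  exact (Set.mem_iInter₂.1 hb2 b hbC) rfl

/-- The sections of a dense open set are dense for generic `z`. -/
theorem KU_sect {Y Z' : Type*} [TopologicalSpace Y] [SecondCountableTopology Y]
    [TopologicalSpace Z'] {D : Set (Y × Z')} (hDo : IsOpen D) (hDd : Dense D) :
    {z : Z' | Dense {b : Y | (b, z) ∈ D}} ∈ residual Z' := by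
  obtain ⟨B, hBc, hBne, hB⟩ := TopologicalSpace.exists_countable_basis Y
  have h1 : ∀ V ∈ B, {z : Z' | ∃ b ∈ V, (b, z) ∈ D} ∈ residual Z' := by
    intro V hV
    have hVo := hB.isOpen hV
    have hVne : V.Nonempty := by
      rw [Set.nonempty_iff_ne_empty]
      rintro rfl
      exact hBne hV
    refine residual_of_dense_open ?_ ?_
    · have e1 : {z : Z' | ∃ b ∈ V, (b, z) ∈ D} = Prod.snd '' (D ∩ V ×ˢ Set.univ) := by
        ext z
        constructor
        · rintro ⟨b, hb, hbz⟩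
          exact ⟨(b, z), ⟨hbz, hb, Set.mem_univ _⟩, rfl⟩
        · rintro ⟨⟨b, z'⟩, ⟨h2, h3, -⟩, rfl⟩
          exact ⟨b, h3, h2⟩
      rw [e1]
      exact isOpenMap_snd _ (hDo.inter (hVo.prod isOpen_univ))
    · rw [dense_iff_inter_open] at hDd ⊢
      intro W hW hWne
      obtain ⟨⟨b, z⟩, ⟨hb, hz⟩, hD⟩ := hDd (V ×ˢ W) (hVo.prod hW) (hVne.prod hWne)
      exact ⟨z, hz, b, hb, hD⟩
  have h2 : ⋂ V ∈ B, {z : Z' | ∃ b ∈ V, (b, z) ∈ D} ∈ residual Z' :=
    (countable_bInter_mem hBc).2 h1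
  refine Filter.mem_of_superset h2 ?_
  intro z hz
  rw [Set.mem_iInter₂] at hz
  refine hB.dense_iff.2 fun V hV _ => ?_
  obtain ⟨b, hb, hbz⟩ := hz V hV
  exact ⟨b, hb, hbz⟩

theorem stKU (h : StBP) : StKU := by
  intro A hA hcount
  obtain ⟨U, hU, hAU⟩ := (h A hA).residualEq_isOpen
  have hAU' : {w | w ∈ A ↔ w ∈ U} ∈ residual ((ℕ → ℕ) × Z) := Filter.eventuallyEq_set.1 hAU
  rw [mem_residual_iff] at hAU'
  obtain ⟨S, hSo, hSd, hSc, hS⟩ := hAU'
  obtain ⟨D, hD⟩ := (hSc.insert Set.univ).exists_eq_range ⟨_, Set.mem_insert _ _⟩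
  have hDm : ∀ n, D n = Set.univ ∨ D n ∈ S := by
    intro n
    have h1 : D n ∈ insert Set.univ S := by
      rw [hD]
      exact ⟨n, rfl⟩
    exact Set.mem_insert_iff.1 h1
  have hDo : ∀ n, IsOpen (D n) := by
    intro n
    rcases hDm n with h1 | h1
    · rw [h1]
      exact isOpen_univ
    · exact hSo _ h1
  have hDd : ∀ n, Dense (D n) := by
    intro n
    rcases hDm n with h1 | h1
    · rw [h1]
      exact dense_univ
    · exact hSd _ h1
  have hgood : ∀ w, (∀ n, w ∈ D n) → (w ∈ A ↔ w ∈ U) := by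
    intro w hw
    apply hS
    intro t ht
    have h1 : t ∈ Set.range D := by
      rw [← hD]
      exact Set.mem_insert_of_mem _ ht
    obtain ⟨n, rfl⟩ := h1
    exact hw n
  have hUe : ∀ w, w ∉ U := by
    rintro ⟨b₀, z₀⟩ hw
    obtain ⟨O1, O2, hO1, hO2, hb0, hz0, hsub⟩ := isOpen_prod_iff.1 hU b₀ z₀ hw
    have h1 : ⋂ n, {z : Z | Dense {b : ℕ → ℕ | (b, z) ∈ D n}} ∈ residual Z :=
      countable_iInter_mem.2 fun n => KU_sect (hDo n) (hDd n)
    have h2 := dense_of_mem_residual h1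
    rw [dense_iff_inter_open] at h2
    obtain ⟨z, hzO, hz⟩ := h2 O2 hO2 ⟨z₀, hz0⟩
    rw [Set.mem_iInter] at hz
    obtain ⟨b, hbO, hbD, hbC⟩ := KU_count (hcount z) hO1 ⟨b₀, hb0⟩
      (fun n => {b : ℕ → ℕ | (b, z) ∈ D n})
      (fun n => (hDo n).preimage (by fun_prop)) hz
    exact hbC ((hgood (b, z) hbD).2 (hsub ⟨hbO, hzO⟩))
  refine ⟨D, hDo, hDd, fun w hw => ?_⟩
  by_contra hcon
  push Not at hcon
  exact hUe w ((hgood w hcon).1 hw)

end Pool.Bc
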