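import Pool.Agent.Bc.Stmts2

/-!
Countable suprema of hereditarily monotone levels.
-/

set_option autoImplicit false

namespace Pool.Bc

namespace Lvl

/-- Syntactic comparison of levels. -/
def Le : Lvl → Lvl → Prop
  | .zero, _ => True
  | .node _, .zero => False
  | .node s, .node t => ∀ k, ∃ j, Le (s k) (t j)

/-- Hereditarily increasing levels. -/
def HM : Lvl → Prop
  | .zero => True
  | .node s => (∀ k, HM (s k)) ∧ ∀ k, Le (s k) (s (k + 1))

/-- The join of two levels. -/
def join : Lvl → Lvl → Lvl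
  | .zero, b => b
  | .node s, .zero => .node s
  | .node s, .node t => .node fun k => join (s k) (t k)

theorem le_zero (b : Lvl) : Le .zero b := by
  cases b <;> exact trivial

theorem le_refl : ∀ a : Lvl, Le a a
  | .zero => trivial
  | .node s => fun k => ⟨k, le_refl (s k)⟩

theorem le_trans : ∀ {a b c : Lvl}, Le a b → Le b c → Le a c
  | .zero, _, c, _, _ => le_zero c
  | .node _, .zero, _, h, _ => absurd h (fun h => h)
  | .node _, .node _, .zero, _, h => absurd h (fun h => h)
  | .node s, .node t, .node u, h, h' => fun k => by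
      obtain ⟨j, hj⟩ := h k
      obtain ⟨i, hi⟩ := h' j
      exact ⟨i, le_trans hj hi⟩

theorem le_chain {s : ℕ → Lvl} (h : ∀ k, Le (s k) (s (k + 1))) {i j : ℕ} (hij : i ≤ j) :
    Le (s i) (s j) := by
  induction j with
  | zero =>
    obtain rfl : i = 0 := by omega
    exact le_refl _
  | succ j ih =>
    rcases Nat.lt_or_ge j i with h1 | h1
    · obtain rfl : i = j + 1 := by omega
      exact le_refl _
    · exact le_trans (ih h1) (h j)

theorem le_join_left : ∀ a b : Lvl, Le a (join a b)
  | .zero, b => le_zero _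
  | .node s, .zero => le_refl (.node s)
  | .node s, .node t => fun k => ⟨k, le_join_left (s k) (t k)⟩

theorem le_join_right : ∀ a b : Lvl, Le b (join a b)
  | .zero, b => le_refl b
  | .node s, .zero => le_zero _
  | .node s, .node t => fun k => ⟨k, le_join_right (s k) (t k)⟩

theorem join_mono : ∀ {a b a' b' : Lvl}, HM a' → HM b' → Le a a' → Le b b' →
    Le (join a b) (join a' b')
  | .zero, b, a', b', _, _, _, h => le_trans (show Le b b' from h) (le_join_right a' b')
  | .node s, .zero, a', b', _, _, h, _ =>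
      le_trans (show Le (.node s) a' from h) (le_join_left a' b')
  | .node _, .node _, .zero, _, _, _, h, _ => absurd h (fun h => h)
  | .node _, .node _, .node _, .zero, _, _, _, h => absurd h (fun h => h)
  | .node s, .node t, .node s', .node t', ha, hb, h, h' => fun k => by
      obtain ⟨i, hi⟩ := h k
      obtain ⟨j, hj⟩ := h' k
      exact ⟨max i j, join_mono (ha.1 _) (hb.1 _) (le_trans hi (le_chain ha.2 (le_max_left i j)))
        (le_trans hj (le_chain hb.2 (le_max_right i j)))⟩

theorem hm_join : ∀ {a b : Lvl}, HM a → HM b → HM (join a b)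
  | .zero, _, _, hb => hb
  | .node _, .zero, ha, _ => ha
  | .node _, .node _, ha, hb =>
      ⟨fun k => hm_join (ha.1 k) (hb.1 k),
        fun k => join_mono (ha.1 (k + 1)) (hb.1 (k + 1)) (ha.2 k) (hb.2 k)⟩

end Lvl

open Lvl

variable {X : Type} (S : TupSys X)

theorem tp_zero_of : ∀ (b : Lvl) {x x' : X} {e e' : List ℕ}, tp S x b e = tp S x' b e' →
    tp S x .zero e = tp S x' .zero e'
  | .zero, _, _, _, _, h => h
  | .node t, _, _, _, _, h => tp_zero_of (t 0) (jp_tp (congrFun h 0))

theorem jp_of_tp {l m : Lvl}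
    (H : ∀ {x x' : X} {e e' : List ℕ}, tp S x m e = tp S x' m e' → tp S x l e = tp S x' l e')
    {x x' : X} {e e' : List ℕ} (h : jp S x m e = jp S x' m e') : jp S x l e = jp S x' l e' := by
  have key : ∀ {x x' : X} {e e' : List ℕ}, jp S x m e = jp S x' m e' →
      jp S x l e ⊆ jp S x' l e' := by
    intro x x' e e' h t ht
    obtain ⟨c, rfl⟩ := ht
    have h1 : tp S x m (e ++ c) ∈ jp S x' m e' := h ▸ tp_mem_jp x m e c
    obtain ⟨d, hd⟩ := h1
    exact ⟨d, H hd⟩
  exact Set.Subset.antisymm (key h) (key h.symm)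

theorem tp_of_le : ∀ {a b : Lvl}, Le a b → ∀ {x x' : X} {e e' : List ℕ},
    tp S x b e = tp S x' b e' → tp S x a e = tp S x' a e'
  | .zero, b, _, _, _, _, _, h => tp_zero_of S b h
  | .node _, .zero, hle, _, _, _, _, _ => absurd hle (fun h => h)
  | .node s, .node t, hle, x, x', e, e', h => by
      funext k
      obtain ⟨j, hj⟩ := hle k
      exact jp_of_tp S (fun h => tp_of_le hj h) (congrFun h j)

theorem mono_of_hm : ∀ {l : Lvl}, HM l → Mono S l
  | .zero, _ => trivial
  | .node _, h => ⟨fun k _ _ _ _ he => jp_of_tp S (fun h' => tp_of_le S (h.2 k) h') he,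
      fun k => mono_of_hm (h.1 k)⟩

/-- The increasing sequence of the joins. -/
def joinSeq (a : ℕ → Lvl) : ℕ → Lvl
  | 0 => a 0
  | k + 1 => join (joinSeq a k) (a (k + 1))

theorem hm_joinSeq {a : ℕ → Lvl} (h : ∀ n, HM (a n)) : ∀ k, HM (joinSeq a k)
  | 0 => h 0
  | k + 1 => hm_join (hm_joinSeq h k) (h (k + 1))

theorem le_joinSeq (a : ℕ → Lvl) : ∀ n, Le (a n) (joinSeq a n)
  | 0 => Lvl.le_refl _
  | _ + 1 => le_join_right _ _

theorem stMonoSup : StMonoSup := by
  refine ⟨HM, fun S l h => mono_of_hm S h, trivial, fun a ha => ⟨joinSeq a, ?_, hm_joinSeq ha, ?_⟩⟩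
  · exact ⟨hm_joinSeq ha, fun k => le_join_left _ _⟩
  · exact fun n => ⟨n, fun S x x' e e' h => tp_of_le S (le_joinSeq a n) h⟩

end Pool.Bc
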