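import Pool.Agent.Bc.Stmts2

/-!
# Project BC: Mycielski's theorem for countably many open dense sets
-/

set_option autoImplicit false

open Filter Topology

namespace Pool.Bc

namespace MycAbs

/-- the initial part of length `N` -/
def pr (x : ℕ → ℕ) (N : ℕ) : List ℕ := List.ofFn fun i : Fin N => x i

/-- the points which extend `s` -/
def cyl (s : List ℕ) : Set (ℕ → ℕ) := {x | pr x s.length = s}

theorem length_pr (x : ℕ → ℕ) (N : ℕ) : (pr x N).length = N := List.length_ofFn

theorem getElem_pr (x : ℕ → ℕ) (N i : ℕ) (h : i < (pr x N).length) : (pr x N)[i] = x i := by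
  unfold pr
  rw [List.getElem_ofFn]

theorem take_pr (x : ℕ → ℕ) {M N : ℕ} (h : M ≤ N) : (pr x N).take M = pr x M := by
  apply List.ext_getElem
  · rw [List.length_take, length_pr, length_pr, min_eq_left h]
  · intro i h1 h2
    rw [List.getElem_take, getElem_pr, getElem_pr]

theorem pr_prefix (x : ℕ → ℕ) {M N : ℕ} (h : M ≤ N) : pr x M <+: pr x N := by
  rw [← take_pr x h]
  exact List.take_prefix _ _

theorem mem_cyl_pr (x : ℕ → ℕ) (N : ℕ) : x ∈ cyl (pr x N) := by
  change pr x (pr x N).length = pr x N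
  rw [length_pr]

theorem mem_cyl_iff {x : ℕ → ℕ} {s : List ℕ} :
    x ∈ cyl s ↔ ∀ i, ∀ h : i < s.length, x i = s[i] := by
  constructor
  · intro hx i h
    have h1 : pr x s.length = s := hx
    have h2 : i < (pr x s.length).length := by rw [length_pr]; exact h
    rw [← getElem_pr x s.length i h2]
    exact List.getElem_of_eq h1 h2
  · intro hx
    change pr x s.length = s
    apply List.ext_getElem
    · rw [length_pr]
    · intro i h1 h2
      rw [getElem_pr, hx i h2]

theorem cyl_anti {s s' : List ℕ} (h : s <+: s') : cyl s' ⊆ cyl s := by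
  intro x hx
  rw [mem_cyl_iff] at *
  intro i hi
  have h1 : i < s'.length := hi.trans_le h.length_le
  rw [hx i h1]
  exact (h.getElem hi).symm

theorem isOpen_cyl (s : List ℕ) : IsOpen (cyl s) := by
  have h1 : Continuous fun (x : ℕ → ℕ) (i : Fin s.length) => x i :=
    continuous_pi fun i => continuous_apply _
  exact (isOpen_discrete {f : Fin s.length → ℕ | List.ofFn f = s}).preimage h1

theorem cyl_nonempty (s : List ℕ) : (fun i => s.getD i 0) ∈ cyl s := by
  rw [mem_cyl_iff]
  intro i h
  exact (List.getElem_eq_getD 0).symm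

/-- a basic neighbourhood inside an open set -/
theorem exists_nhd {a : ℕ} {D : Set (Fin a → ℕ → ℕ)} (hD : IsOpen D) {x : Fin a → ℕ → ℕ}
    (hx : x ∈ D) : ∃ N, ∀ x' : Fin a → ℕ → ℕ, (∀ j, ∀ i < N, x' j i = x j i) → x' ∈ D := by
  by_contra hcon
  push Not at hcon
  choose y hy hyD using hcon
  have h1 : Tendsto y atTop (𝓝 x) := by
    refine tendsto_pi_nhds.2 fun j => tendsto_pi_nhds.2 fun i => ?_
    refine tendsto_const_nhds.congr' ?_
    filter_upwards [eventually_gt_atTop i] with N hN
    exact (hy N j i hN).symm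
  obtain ⟨N, hN⟩ := (h1.eventually (hD.mem_nhds hx)).exists
  exact hyD N hN

/-- one requirement -/
theorem single {T : Type} {a : ℕ} (g : T → List ℕ) (σ : Fin a → T)
    (hσ : Function.Injective σ) {D : Set (Fin a → ℕ → ℕ)} (hD : IsOpen D) (hD' : Dense D) :
    ∃ g' : T → List ℕ, (∀ t, g t <+: g' t) ∧
      ∀ x : Fin a → ℕ → ℕ, (∀ j, x j ∈ cyl (g' (σ j))) → x ∈ D := by
  classical
  have hU : IsOpen {x : Fin a → ℕ → ℕ | ∀ j, x j ∈ cyl (g (σ j))} := by
    rw [Set.ofPred_forall]
    exact isOpen_iInter_of_finite fun j => (isOpen_cyl _).preimage (continuous_apply j)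
  obtain ⟨x, hxU, hxD⟩ := hD'.inter_open_nonempty _ hU
    ⟨fun j i => (g (σ j)).getD i 0, fun j => cyl_nonempty _⟩
  obtain ⟨N, hN⟩ := exists_nhd hD hxD
  let M : ℕ := max N (Finset.univ.sup fun j => (g (σ j)).length)
  refine ⟨fun t => if h : ∃ j, σ j = t then pr (x h.choose) M else g t, fun t => ?_,
    fun x' hx' => hN x' fun j i hi => ?_⟩
  · by_cases h : ∃ j, σ j = t
    · dsimp only
      rw [dif_pos h]
      have h1 : x h.choose ∈ cyl (g (σ h.choose)) := hxU _
      have h2 : pr (x h.choose) (g (σ h.choose)).length = g (σ h.choose) := h1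
      rw [h.choose_spec] at h2
      rw [← h2]
      refine pr_prefix _ ?_
      have h3 : (g (σ h.choose)).length ≤ Finset.univ.sup fun j => (g (σ j)).length :=
        Finset.le_sup (f := fun j => (g (σ j)).length) (Finset.mem_univ _)
      rw [h.choose_spec] at h3
      exact h3.trans (le_max_right _ _)
    · dsimp only
      rw [dif_neg h]
  · have h : ∃ j', σ j' = σ j := ⟨j, rfl⟩
    have h1 := hx' j
    dsimp only at h1
    rw [dif_pos h, hσ h.choose_spec, mem_cyl_iff] at h1
    have h2 : i < (pr (x j) M).length := by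
      rw [length_pr]
      exact hi.trans_le (le_max_left _ _)
    rw [h1 i h2, getElem_pr]

/-- finitely many requirements -/
theorem many {T : Type} {ι : Type} (s : Finset ι) (g : T → List ℕ) (a : ι → ℕ)
    (σ : ∀ i, Fin (a i) → T) (hσ : ∀ i, Function.Injective (σ i))
    (D : ∀ i, Set (Fin (a i) → ℕ → ℕ)) (hD : ∀ i, IsOpen (D i)) (hD' : ∀ i, Dense (D i)) :
    ∃ g' : T → List ℕ, (∀ t, g t <+: g' t) ∧
      ∀ i ∈ s, ∀ x : Fin (a i) → ℕ → ℕ, (∀ j, x j ∈ cyl (g' (σ i j))) → x ∈ D i := by
  classical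
  induction s using Finset.induction_on with
  | empty => exact ⟨g, fun t => List.prefix_rfl, fun i hi => absurd hi (Finset.notMem_empty i)⟩
  | insert i s _ ih =>
    obtain ⟨g', h1, h2⟩ := ih
    obtain ⟨g'', h3, h4⟩ := single g' (σ i) (hσ i) (hD i) (hD' i)
    refine ⟨g'', fun t => (h1 t).trans (h3 t), fun i' hi' x hx => ?_⟩
    rcases Finset.mem_insert.1 hi' with rfl | hi'
    · exact h4 x hx
    · exact h2 i' hi' x fun j => cyl_anti (h3 _) (hx j)

/-- one level of the construction -/
theorem level (r : ℕ → ℕ) (E : ∀ n, Set (Fin (r n) → ℕ → ℕ)) (hE : ∀ n, IsOpen (E n))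
    (hE' : ∀ n, Dense (E n)) (k : ℕ) (g : (Fin k → Bool) → List ℕ) :
    ∃ g' : (Fin (k + 1) → Bool) → List ℕ, (∀ t, g (Fin.init t) ++ [0] <+: g' t) ∧
      ∀ n ≤ k, ∀ σ : Fin (r n) → Fin (k + 1) → Bool, Function.Injective σ →
        ∀ x : Fin (r n) → ℕ → ℕ, (∀ j, x j ∈ cyl (g' (σ j))) → x ∈ E n := by
  classical
  let ι : Type := Σ n : Fin (k + 1), {σ : Fin (r n) → Fin (k + 1) → Bool // Function.Injective σ}
  obtain ⟨g', h1, h2⟩ := many (ι := ι) Finset.univ (fun t => g (Fin.init t) ++ [0])
    (fun i => r i.1) (fun i => i.2.1) (fun i => i.2.2) (fun i => E i.1) (fun i => hE i.1)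
    (fun i => hE' i.1)
  exact ⟨g', h1, fun n hn σ hσ x hx =>
    h2 ⟨⟨n, Nat.lt_succ_of_le hn⟩, ⟨σ, hσ⟩⟩ (Finset.mem_univ _) x hx⟩

end MycAbs

open MycAbs in
/-- **Mycielski's theorem.** -/
theorem stMycAbs : StMycAbs := by
  intro r E hE hE'
  choose nx hnx1 hnx2 using level r E hE hE'
  let G : ∀ k, (Fin k → Bool) → List ℕ := fun k =>
    Nat.rec (motive := fun k => (Fin k → Bool) → List ℕ) (fun _ => []) (fun k g => nx k g) k
  have hG : ∀ k, G (k + 1) = nx k (G k) := fun k => rfl
  -- restriction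
  let R : (ℕ → Bool) → ∀ k, Fin k → Bool := fun y k i => y i
  have hstep : ∀ y k, G k (R y k) ++ [0] <+: G (k + 1) (R y (k + 1)) := fun y k =>
    hnx1 k (G k) (R y (k + 1))
  have hpre1 : ∀ y k, G k (R y k) <+: G (k + 1) (R y (k + 1)) := fun y k =>
    (List.prefix_append _ _).trans (hstep y k)
  have hpre : ∀ y k l, k ≤ l → G k (R y k) <+: G l (R y l) := by
    intro y k l h
    induction l, h using Nat.le_induction with
    | base => exact List.prefix_rfl
    | succ l _ ih => exact ih.trans (hpre1 y l)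
  have hlen : ∀ y k, k ≤ (G k (R y k)).length := by
    intro y k
    induction k with
    | zero => exact Nat.zero_le _
    | succ k ih =>
      have h1 := (hstep y k).length_le
      rw [List.length_append, List.length_singleton] at h1
      omega
  have hcyl : ∀ y k, (fun i => (G (i + 1) (R y (i + 1))).getD i 0) ∈ cyl (G k (R y k)) := by
    intro y k
    rw [mem_cyl_iff]
    intro i hi
    have h1 : i < (G (i + 1) (R y (i + 1))).length := hlen y (i + 1)
    have h2 : (G (i + 1) (R y (i + 1))).getD i 0 = (G (i + 1) (R y (i + 1)))[i] :=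
      (List.getElem_eq_getD 0).symm
    rw [h2]
    rcases le_total k (i + 1) with h | h
    · exact ((hpre y k (i + 1) h).getElem hi).symm
    · exact (hpre y (i + 1) k h).getElem h1
  refine ⟨fun y i => (G (i + 1) (R y (i + 1))).getD i 0, ?_, ?_⟩
  · refine continuous_pi fun i => ?_
    have h1 : Continuous fun y : ℕ → Bool => R y (i + 1) :=
      continuous_pi fun j => continuous_apply _
    have h2 : Continuous fun t : Fin (i + 1) → Bool => (G (i + 1) t).getD i 0 :=
      continuous_of_discreteTopology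
    exact h2.comp h1
  · intro n y hy
    have h1 : ∀ᶠ k in atTop, ∀ i j : Fin (r n), i ≠ j → R (y i) k ≠ R (y j) k := by
      refine eventually_all.2 fun i => eventually_all.2 fun j => ?_
      by_cases hij : i = j
      · exact Eventually.of_forall fun k h => absurd hij h
      · obtain ⟨d, hd⟩ := Function.ne_iff.1 (fun h => hij (hy h) : y i ≠ y j)
        filter_upwards [eventually_gt_atTop d] with k hk _ h
        exact hd (congrFun h ⟨d, hk⟩)
    obtain ⟨k, hk, hnk⟩ := (h1.and (eventually_gt_atTop n)).exists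
    obtain ⟨l, rfl⟩ : ∃ l, k = l + 1 := ⟨k - 1, by omega⟩
    refine hnx2 l (G l) n (by omega) (fun i => R (y i) (l + 1)) (fun i j h => ?_) _
      (fun i => hcyl (y i) (l + 1))
    by_contra hij
    exact hk i j hij h

end Pool.Bc
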