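import Pool.Agent.Bc.Stmts

/-!
# Project BC: the transported rows only depend on the isomorphism type
-/

set_option autoImplicit false

namespace Pool.Bc

private theorem pre_length (t : ℕ → ℕ) (k : ℕ) : (pre t k).length = k := by
  induction k with
  | zero => rfl
  | succ k ih => simp [pre, ih]

theorem phiBrL_length (l : Lvl) (σ : List ℕ) (i' : ℕ) (z z' : Z) (k : ℕ) :
    (phiBrL l σ i' z z' k).length = k := by
  induction k with
  | zero => rfl
  | succ k ih => simp [phiBrL, ih]

section
variable {l : Lvl} {z' z'' : Z} {πA : List ℕ → Equiv.Perm ℕ} {πT : List ℕ → Equiv.Perm (List ℕ)}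

theorem phiIso_bit
    (hbit : ∀ σ j s j' s' i, πT σ (j :: s) = j' :: s' →
      bit z'' σ j' s' (πA (s.length :: σ) i) = bit z' σ j s i)
    (hnz : ∀ σ i, (lv l σ).isZ = false → ∀ k,
      pre (row z'' σ (πA σ i)) k = πT σ (pre (row z' σ i) k))
    (τ : List ℕ) (hτ : (lv l τ).isZ = false) (i' k j' : ℕ) :
    bit z'' τ (row z'' τ (πA τ i') k) (pre (row z'' τ (πA τ i')) k) (πA (k :: τ) j') =
      bit z' τ (row z' τ i' k) (pre (row z' τ i') k) j' := by
  have h := hbit τ (row z' τ i' k) (pre (row z' τ i') k) (row z'' τ (πA τ i') k)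
    (pre (row z'' τ (πA τ i')) k) j' (hnz τ i' hτ (k + 1)).symm
  rwa [pre_length] at h

theorem phiIso_EqA
    (hbit : ∀ σ j s j' s' i, πT σ (j :: s) = j' :: s' →
      bit z'' σ j' s' (πA (s.length :: σ) i) = bit z' σ j s i)
    (hz : ∀ σ i, (lv l σ).isZ = true → row z'' σ (πA σ i) = row z' σ i)
    (hnz : ∀ σ i, (lv l σ).isZ = false → ∀ k,
      pre (row z'' σ (πA σ i)) k = πT σ (pre (row z' σ i) k))
    (z : Z) : ∀ (L : Lvl) (τ : List ℕ), lv l τ = L → ∀ i i',
    (EqA L τ z i z' i' ↔ EqA L τ z i z'' (πA τ i')) := by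
  intro L
  induction L with
  | zero =>
    intro τ hτ i i'
    simp only [EqA]
    rw [hz τ i' (by rw [hτ]; rfl)]
  | node s ih =>
    intro τ hτ i i'
    have hτ' : (lv l τ).isZ = false := by rw [hτ]; rfl
    have hk : ∀ k, lv l (k :: τ) = s k := by
      intro k
      show (lv l τ).chd k = s k
      rw [hτ]; rfl
    simp only [EqA]
    constructor
    · intro h k j j'' hj
      obtain ⟨j', rfl⟩ := (πA (k :: τ)).surjective j''
      rw [phiIso_bit hbit hnz τ hτ' i' k j']
      exact h k j j' ((ih k (k :: τ) (hk k) j j').2 hj)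
    · intro h k j j' hj
      rw [← phiIso_bit hbit hnz τ hτ' i' k j']
      exact h k j _ ((ih k (k :: τ) (hk k) j j').1 hj)

end

theorem stPhiIso : StPhiIso := by
  intro l z' z'' hI c
  obtain ⟨πA, πT, hlen, _, hbit, hz, hnz⟩ := hI
  have hEA := phiIso_EqA (l := l) (z' := z') (z'' := z'') (πA := πA) (πT := πT) hbit hz hnz
  match c with
  | .lab σ i' =>
    refine ⟨.lab σ (πA σ i'), fun z => ?_⟩
    simp only [Phi]
    split_ifs with h
    · exact (hz σ i' h).symm
    · rfl
  | .col σ j' s' =>
    have hl := hlen σ (j' :: s')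
    obtain ⟨j'', s'', hT⟩ : ∃ j'' s'', πT σ (j' :: s') = j'' :: s'' := by
      cases h : πT σ (j' :: s') with
      | nil => rw [h] at hl; simp at hl
      | cons a b => exact ⟨a, b, rfl⟩
    rw [hT] at hl
    have hl' : s''.length = s'.length := by simpa using hl
    refine ⟨.col σ j'' s'', fun z => ?_⟩
    simp only [Phi]
    funext i
    simp only [phiCol]
    rw [hl']
    congr 1
    ext c
    constructor
    · rintro ⟨i', h1, h2⟩
      refine ⟨πA (s'.length :: σ) i', (hEA z _ (s'.length :: σ) rfl i i').1 h1, ?_⟩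
      rw [hbit σ j' s' j'' s'' i' hT]
      exact h2
    · rintro ⟨i'', h1, h2⟩
      obtain ⟨i', rfl⟩ := (πA (s'.length :: σ)).surjective i''
      refine ⟨i', (hEA z _ (s'.length :: σ) rfl i i').2 h1, ?_⟩
      rw [← hbit σ j' s' j'' s'' i' hT]
      exact h2
  | .br σ i' =>
    refine ⟨.br σ (πA σ i'), fun z => ?_⟩
    simp only [Phi]
    split_ifs with h
    · rfl
    · have h' : (lv l σ).isZ = false := by simpa using h
      have key : ∀ k, phiBrL (lv l σ) σ i' z z' k = phiBrL (lv l σ) σ (πA σ i') z z'' k := by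
        intro k
        induction k with
        | zero => rfl
        | succ k ih =>
          simp only [phiBrL]
          rw [ih]
          congr 2
          ext j
          simp only [Set.mem_ofPred_eq, EqB, phiBrL_length]
          constructor
          · intro h1 i i'' hi
            obtain ⟨i1, rfl⟩ := (πA (k :: σ)).surjective i''
            rw [phiIso_bit hbit hnz σ h' i' k i1]
            exact h1 i i1 ((hEA z _ (k :: σ) rfl i i1).2 hi)
          · intro h1 i i1 hi
            rw [← phiIso_bit hbit hnz σ h' i' k i1]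
            exact h1 i _ ((hEA z _ (k :: σ) rfl i i1).1 hi)
      funext k
      simp only [phiBr]
      rw [key]

end Pool.Bc
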