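import Pool.Agent.Bc.Stmts

/-!
# Project BC: the transported rows are Borel
-/

set_option autoImplicit false

namespace Pool.Bc

section
variable {α : Type} [MeasurableSpace α]

/-- Substitution of a function with countably many values into a measurable family of sets. -/
theorem ms_dep {ι : Type} [Countable ι] {g : α → ι} (hg : ∀ v, MeasurableSet {p | g p = v})
    {P : ι → α → Prop} (hP : ∀ v, MeasurableSet {p | P v p}) :
    MeasurableSet {p | P (g p) p} := by
  have h : {p | P (g p) p} = ⋃ v, ({p | g p = v} ∩ {p | P v p}) := by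
    ext p
    simp only [Set.mem_ofPred_eq, Set.mem_iUnion, Set.mem_inter_iff]
    constructor
    · intro h
      exact ⟨g p, rfl, h⟩
    · rintro ⟨v, hv, h⟩
      rw [hv]
      exact h
  rw [h]
  exact MeasurableSet.iUnion (fun v => (hg v).inter (hP v))

theorem ms_imp {P Q : α → Prop} (hP : MeasurableSet {p | P p}) (hQ : MeasurableSet {p | Q p}) :
    MeasurableSet {p | P p → Q p} := by
  have h : {p | P p → Q p} = {p | P p}ᶜ ∪ {p | Q p} := by
    ext p
    simp only [Set.mem_ofPred_eq, Set.mem_union, Set.mem_compl_iff]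
    exact imp_iff_not_or
  rw [h]
  exact hP.compl.union hQ

theorem ms_all {ι : Type} [Countable ι] {P : ι → α → Prop} (hP : ∀ v, MeasurableSet {p | P v p}) :
    MeasurableSet {p | ∀ v, P v p} := by
  rw [Set.ofPred_forall]
  exact MeasurableSet.iInter hP

theorem ms_ex {ι : Type} [Countable ι] {P : ι → α → Prop} (hP : ∀ v, MeasurableSet {p | P v p}) :
    MeasurableSet {p | ∃ v, P v p} := by
  rw [Set.ofPred_exists]
  exact MeasurableSet.iUnion hP

theorem ms_fun {f g : α → ℕ} (hf : Measurable f) (hg : Measurable g) :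
    MeasurableSet {p | f p = g p} := measurableSet_eq_fun hf hg

theorem ms_val {f : α → ℕ} (hf : Measurable f) (n : ℕ) : MeasurableSet {p | f p = n} :=
  ms_fun hf measurable_const

theorem meas_of_val {f : α → ℕ} (h : ∀ n, MeasurableSet {p | f p = n}) : Measurable f :=
  measurable_to_countable' h

theorem meas_dep {ι : Type} [Countable ι] {g : α → ι} (hg : ∀ v, MeasurableSet {p | g p = v})
    {F : ι → α → ℕ} (hF : ∀ v, Measurable (F v)) : Measurable (fun p => F (g p) p) :=
  meas_of_val (fun n => ms_dep (P := fun v p => F v p = n) hg (fun v => ms_val (hF v) n))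

theorem ms_cons {a : α → ℕ} {b : α → List ℕ} (ha : Measurable a)
    (hb : ∀ v, MeasurableSet {p | b p = v}) (v : List ℕ) :
    MeasurableSet {p | a p :: b p = v} := by
  cases v with
  | nil =>
    have h : {p : α | a p :: b p = []} = ∅ := by
      ext p
      simp
    rw [h]
    exact MeasurableSet.empty
  | cons x xs =>
    have h : {p : α | a p :: b p = x :: xs} = {p | a p = x} ∩ {p | b p = xs} := by
      ext p
      simp
    rw [h]
    exact (ms_val ha x).inter (hb xs)

theorem meas_sInf {A : α → Set ℕ} (hA : ∀ c, MeasurableSet {p | c ∈ A p}) :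
    Measurable (fun p => sInf (A p)) := by
  refine meas_of_val (fun n => ?_)
  have h : {p | sInf (A p) = n} = ({p | n ∈ A p} ∩ {p | ∀ m : ℕ, m < n → ¬ m ∈ A p}) ∪
      ({p | n = 0} ∩ {p | ∀ m : ℕ, ¬ m ∈ A p}) := by
    ext p
    simp only [Set.mem_ofPred_eq, Set.mem_union, Set.mem_inter_iff]
    constructor
    · intro h
      by_cases he : (A p).Nonempty
      · left
        refine ⟨h ▸ Nat.sInf_mem he, fun m hm => Nat.notMem_of_lt_sInf (h ▸ hm)⟩
      · right
        rw [Set.not_nonempty_iff_eq_empty] at he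
        rw [he, Nat.sInf_empty] at h
        refine ⟨h.symm, fun m => ?_⟩
        rw [he]
        exact Set.notMem_empty m
    · rintro (⟨h1, h2⟩ | ⟨h1, h2⟩)
      · refine le_antisymm (Nat.sInf_le h1) ?_
        by_contra hlt
        exact h2 _ (not_le.mp hlt) (Nat.sInf_mem ⟨n, h1⟩)
      · have he : A p = ∅ := by
          ext m
          simp [h2 m]
        rw [he, Nat.sInf_empty, h1]
  rw [h]
  refine MeasurableSet.union ((hA n).inter (ms_all (fun m => ms_imp ?_ (hA m).compl))) ?_
  · exact MeasurableSet.const _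
  · exact (MeasurableSet.const _).inter (ms_all (fun m => (hA m).compl))

/-! ### Rows of a measurable family of points -/

theorem meas_row {f : α → Z} (hf : Measurable f) (σ : List ℕ) (i t : ℕ) :
    Measurable (fun p => row (f p) σ i t) := (measurable_pi_apply _).comp hf

theorem meas_bit {f : α → Z} (hf : Measurable f) (σ : List ℕ) (j : ℕ) (s : List ℕ) (i : ℕ) :
    Measurable (fun p => bit (f p) σ j s i) := (measurable_pi_apply _).comp hf

theorem ms_pre {f : α → Z} (hf : Measurable f) (σ : List ℕ) (i : ℕ) :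
    ∀ (k : ℕ) (v : List ℕ), MeasurableSet {p | pre (row (f p) σ i) k = v}
  | 0, v => MeasurableSet.const (([] : List ℕ) = v)
  | k + 1, v => ms_cons (meas_row hf σ i k) (ms_pre hf σ i k) v

theorem meas_bit_pre {f : α → Z} (hf : Measurable f) (σ : List ℕ) (i k j : ℕ) :
    Measurable (fun p => bit (f p) σ (row (f p) σ i k) (pre (row (f p) σ i) k) j) :=
  meas_dep (g := fun p => pre (row (f p) σ i) k)
    (F := fun v p => bit (f p) σ (row (f p) σ i k) v j) (ms_pre hf σ i k)
    (fun v => meas_dep (g := fun p => row (f p) σ i k) (F := fun m p => bit (f p) σ m v j)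
      (fun m => ms_val (meas_row hf σ i k) m) (fun m => meas_bit hf σ m v j))

end

/-- `EqA` is measurable. -/
theorem ms_eqA : ∀ (l : Lvl) (σ : List ℕ) (i i' : ℕ),
    MeasurableSet {p : Z × Z | EqA l σ p.1 i p.2 i'}
  | .zero, σ, i, i' => by
    have h : {p : Z × Z | EqA .zero σ p.1 i p.2 i'} =
        {p : Z × Z | ∀ t, row p.1 σ i t = row p.2 σ i' t} := by
      ext p
      exact funext_iff
    rw [h]
    exact ms_all (fun t => ms_fun (meas_row measurable_fst σ i t) (meas_row measurable_snd σ i' t))
  | .node s, σ, i, i' => by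
    refine ms_all (fun k => ms_all (fun j => ms_all (fun j' => ms_imp ?_ ?_)))
    · exact ms_eqA (s k) (k :: σ) j j'
    · exact ms_fun (meas_bit_pre measurable_fst σ i k j) (meas_bit_pre measurable_snd σ i' k j')

theorem ms_eqB (l : Lvl) (σ : List ℕ) (j : ℕ) (s : List ℕ) (j' : ℕ) (s' : List ℕ) :
    MeasurableSet {p : Z × Z | EqB l σ p.1 j s p.2 j' s'} :=
  ms_all (fun i => ms_all (fun i' => ms_imp (ms_eqA _ _ i i')
    (ms_fun (meas_bit measurable_fst σ j s i) (meas_bit measurable_snd σ j' s' i'))))

theorem meas_phiCol (l : Lvl) (σ : List ℕ) (j' : ℕ) (s' : List ℕ) (i : ℕ) :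
    Measurable (fun p : Z × Z => phiCol l σ j' s' p.1 p.2 i) :=
  meas_sInf (A := fun p : Z × Z => {c | ∃ i', EqA (l.chd s'.length) (s'.length :: σ) p.1 i p.2 i' ∧
    bit p.2 σ j' s' i' = c}) (fun c => ms_ex (fun i' => (ms_eqA _ _ i i').inter
      (ms_val (meas_bit measurable_snd σ j' s' i') c)))

theorem ms_phiBrL (l : Lvl) (σ : List ℕ) (i' : ℕ) :
    ∀ (k : ℕ) (v : List ℕ), MeasurableSet {p : Z × Z | phiBrL l σ i' p.1 p.2 k = v}
  | 0, v => MeasurableSet.const (([] : List ℕ) = v)
  | k + 1, v => by
    refine ms_cons (meas_sInf (fun c => ?_)) (ms_phiBrL l σ i' k) v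
    refine ms_dep (g := fun p : Z × Z => phiBrL l σ i' p.1 p.2 k)
      (P := fun v p => EqB l σ p.1 c v p.2 (row p.2 σ i' k) (pre (row p.2 σ i') k))
      (ms_phiBrL l σ i' k) (fun v1 => ?_)
    refine ms_dep (g := fun p : Z × Z => row p.2 σ i' k)
      (P := fun m p => EqB l σ p.1 c v1 p.2 m (pre (row p.2 σ i') k))
      (fun m => ms_val (meas_row measurable_snd σ i' k) m) (fun m => ?_)
    refine ms_dep (g := fun p : Z × Z => pre (row p.2 σ i') k)
      (P := fun v2 p => EqB l σ p.1 c v1 p.2 m v2)
      (ms_pre measurable_snd σ i' k) (fun v2 => ?_)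
    exact ms_eqB l σ c v1 m v2

theorem meas_phiBr (l : Lvl) (σ : List ℕ) (i' k : ℕ) :
    Measurable (fun p : Z × Z => phiBr l σ i' p.1 p.2 k) :=
  meas_dep (g := fun p : Z × Z => phiBrL l σ i' p.1 p.2 (k + 1)) (F := fun v _ => v.headD 0)
    (ms_phiBrL l σ i' (k + 1)) (fun _ => measurable_const)

/-- The transported rows are Borel. -/
theorem stPhiMeas : StPhiMeas := by
  intro l c
  refine measurable_pi_lambda _ (fun i => ?_)
  cases c with
  | lab σ i' =>
    by_cases h : (lv l σ).isZ = true
    · have : (fun p : Z × Z => Phi l (.lab σ i') p.1 p.2 i) = fun p => row p.2 σ i' i := by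
        funext p
        simp only [Phi, if_pos h]
      rw [this]
      exact meas_row measurable_snd σ i' i
    · have : (fun p : Z × Z => Phi l (.lab σ i') p.1 p.2 i) = fun p => 0 := by
        funext p
        simp only [Phi, if_neg h]
      rw [this]
      exact measurable_const
  | col σ j' s' => exact meas_phiCol (lv l σ) σ j' s' i
  | br σ i' =>
    by_cases h : (lv l σ).isZ = true
    · have : (fun p : Z × Z => Phi l (.br σ i') p.1 p.2 i) = fun p => 0 := by
        funext p
        simp only [Phi, if_pos h]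
      rw [this]
      exact measurable_const
    · have : (fun p : Z × Z => Phi l (.br σ i') p.1 p.2 i) =
          fun p => phiBr (lv l σ) σ i' p.1 p.2 i := by
        funext p
        simp only [Phi, if_neg h]
      rw [this]
      exact meas_phiBr (lv l σ) σ i' i

end Pool.Bc
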