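import Pool.Agent.Bc.EqA

/-!
# Project BC: the transported rows are the rows of the extra elements
-/

set_option autoImplicit false

namespace Pool.Bc

theorem stPhiCol (h1 : StEqA) (_h2 : StEP1) : StPhiCol := by
  intro X S l hM ψ hψ x x' ζ ζ' z z' hz hz' σ j' s' hj i
  show phiCol (lv l σ) σ j' s' z z' i = _
  unfold phiCol
  have hE := h1 S l hM ψ hψ x x' ζ ζ' z z' hz hz' (s'.length :: σ) hj
  have hset : {c | ∃ i', EqA ((lv l σ).chd s'.length) (s'.length :: σ) z i z' i' ∧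
      bit z' σ j' s' i' = c} = {col S (lv l (s'.length :: σ)) (ζ.a (s'.length :: σ) i)
        (ζ'.t σ (j' :: s') s'.length).1 (keyT s'.length (ζ'.t σ (j' :: s')))} := by
    ext c
    rw [Set.mem_singleton_iff, Set.mem_ofPred_eq]
    constructor
    · rintro ⟨i', hi', rfl⟩
      have h3 : ζ.a (s'.length :: σ) i = ζ'.a (s'.length :: σ) i' := (hE i i').mp hi'
      rw [h3]
      exact hz'.bit_eq σ j' s' i'
    · rintro rfl
      obtain ⟨i', hi'⟩ := ζ'.a_sur (s'.length :: σ) (ζ.a (s'.length :: σ) i)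
        (ANset_of_jp (hj []) (ζ.a_mem _ _))
      refine ⟨i', (hE i i').mpr hi'.symm, ?_⟩
      rw [← hi']
      exact hz'.bit_eq σ j' s' i'
  rw [hset, csInf_singleton]

theorem phiBrL_length (l : Lvl) (σ : List ℕ) (i' : ℕ) (z z' : Z) (k : ℕ) :
    (phiBrL l σ i' z z' k).length = k := by
  induction k with
  | zero => rfl
  | succ k ih => simp [phiBrL, ih]

theorem pre_phiBr (l : Lvl) (σ : List ℕ) (i' : ℕ) (z z' : Z) (k : ℕ) :
    pre (phiBr l σ i' z z') k = phiBrL l σ i' z z' k := by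
  induction k with
  | zero => rfl
  | succ k ih =>
    show phiBr l σ i' z z' k :: pre (phiBr l σ i' z z') k = _
    rw [ih]
    rfl

theorem EqB_len {L : Lvl} {σ : List ℕ} {z : Z} {j : ℕ} {s : List ℕ} {z' : Z} {j' : ℕ}
    {s' : List ℕ} {k : ℕ} (hk : s.length = k) : EqB L σ z j s z' j' s' ↔
      ∀ i i', EqA (L.chd k) (k :: σ) z i z' i' → bit z σ j s i = bit z' σ j' s' i' := by
  subst hk
  exact Iff.rfl

theorem stPhiBr (h1 : StEqA) (h2 : StEP1) : StPhiBr := by
  intro X S l hM ψ hψ x x' ζ ζ' z z' hz hz' σ i' hL hj hpf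
  have hPhi : Phi l (.br σ i') z z' = phiBr (lv l σ) σ i' z z' := by
    show (if (lv l σ).isZ = true then _ else _) = _
    rw [if_neg (by rw [hL]; decide)]
  rw [hPhi]
  have hE : ∀ k i i', EqA ((lv l σ).chd k) (k :: σ) z i z' i' ↔
      ζ.a (k :: σ) i = ζ'.a (k :: σ) i' := fun k =>
    h1 S l hM ψ hψ x x' ζ ζ' z z' hz hz' (k :: σ) (hj k)
  have hMσ : MonoAt S (lv l σ) := mono_at (mono_lv hM σ)
  have step : ∀ k, (∃ j0, ζ.t σ (j0 :: phiBrL (lv l σ) σ i' z z' k) =
      pfx S (lv l σ) k (ζ'.a σ i')) →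
      ζ.t σ (phiBrL (lv l σ) σ i' z z' (k + 1)) = pfx S (lv l σ) k (ζ'.a σ i') := by
    rintro k ⟨j0, hj0⟩
    have hlen := phiBrL_length (lv l σ) σ i' z z' k
    have hset : {j | EqB (lv l σ) σ z j (phiBrL (lv l σ) σ i' z z' k) z' (row z' σ i' k)
        (pre (row z' σ i') k)} = {j0} := by
      ext j
      rw [Set.mem_singleton_iff]
      show EqB (lv l σ) σ z j (phiBrL (lv l σ) σ i' z z' k) z' (row z' σ i' k)
        (pre (row z' σ i') k) ↔ _
      rw [EqB_len hlen]
      constructor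
      · intro h
        have hmem : ζ.t σ (j :: phiBrL (lv l σ) σ i' z z' k) ∈ TNset S x (lv l σ) k := by
          have := ζ.t_mem σ j (phiBrL (lv l σ) σ i' z z' k)
          rwa [hlen] at this
        have heq : ζ.t σ (j :: phiBrL (lv l σ) σ i' z z' k) = pfx S (lv l σ) k (ζ'.a σ i') := by
          refine sepT h2 hMσ hmem (hpf k) rfl ?_
          intro y hy
          obtain ⟨i1, hi1⟩ := ζ.a_sur (k :: σ) y hy
          obtain ⟨i2, hi2⟩ := ζ'.a_sur (k :: σ) y (ANset_of_jp (hj k []) hy)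
          have h3 := h i1 i2 ((hE k i1 i2).mpr (hi1.trans hi2.symm))
          rw [hz.bit_len σ _ _ _ hlen, hz'.bit_row hL, hi1, hi2] at h3
          exact h3
        exact ζ.t_inj σ _ _ _ (heq.trans hj0.symm)
      · rintro rfl i1 i2 h12
        rw [hz.bit_len σ _ _ _ hlen, hz'.bit_row hL, hj0, (hE k i1 i2).mp h12]
    have hval : phiBrL (lv l σ) σ i' z z' (k + 1) = j0 :: phiBrL (lv l σ) σ i' z z' k := by
      show sInf {j | EqB (lv l σ) σ z j (phiBrL (lv l σ) σ i' z z' k) z' (row z' σ i' k)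
        (pre (row z' σ i') k)} :: phiBrL (lv l σ) σ i' z z' k = _
      rw [hset, csInf_singleton]
    rw [hval, hj0]
  have main : ∀ k, ζ.t σ (phiBrL (lv l σ) σ i' z z' (k + 1)) = pfx S (lv l σ) k (ζ'.a σ i') := by
    intro k
    induction k with
    | zero =>
      apply step
      exact ζ.t_sur0 σ _ (hpf 0)
    | succ k ih =>
      apply step
      have hlen := phiBrL_length (lv l σ) σ i' z z' k
      have hval : phiBrL (lv l σ) σ i' z z' (k + 1) =
        sInf {j | EqB (lv l σ) σ z j (phiBrL (lv l σ) σ i' z z' k) z' (row z' σ i' k)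
          (pre (row z' σ i') k)} :: phiBrL (lv l σ) σ i' z z' k := rfl
      rw [hval] at ih ⊢
      refine ζ.t_sur σ _ _ _ ?_ ?_
      · rw [hlen]
        exact hpf (k + 1)
      · rw [ih, hlen]
        exact trunc_pfx hL (ζ'.a_mem σ i') (Nat.le_succ k)
  intro k
  rw [pre_phiBr]
  exact main k

end Pool.Bc
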