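import Pool.Agent.Bc.Stmts4

/-!
# Project BC: stage 1 of the density argument
-/

set_option autoImplicit false

namespace Pool.Bc

private theorem prep_unif {ι : Type} {s : Set ι} (hs : s.Finite) (P : ι → ℕ → Prop)
    (hmono : ∀ i ∈ s, ∀ k k', k ≤ k' → P i k → P i k') (h : ∀ i ∈ s, ∃ k, P i k) :
    ∃ K, ∀ i ∈ s, P i K := by
  classical
  choose! k hk using h
  refine ⟨hs.toFinset.sup k, fun i hi => hmono i hi _ _ ?_ (hk i hi)⟩
  exact Finset.le_sup (f := k) (hs.mem_toFinset.2 hi)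

variable {X : Type} {S : TupSys X} {l : Lvl} {x : X}

private theorem prep_old_fin (p : PE S l x) (ob : Ob l) :
    {P : Σ σ : List ℕ, AN (lv l σ) | Old p ob P.1 P.2}.Finite := by
  refine Set.Finite.subset (s := (fun R : List ℕ × ℕ =>
    (⟨R.1, p.fA R.1 R.2⟩ : Σ σ : List ℕ, AN (lv l σ))) '' p.dA ∪ {P | ob = .br P.1 P.2}) ?_ ?_
  · refine (p.finA.image _).union (Set.Subsingleton.finite ?_)
    rintro ⟨σ, a⟩ h1 ⟨σ', a'⟩ h2
    have h3 : Ob.br σ a = Ob.br σ' a' := (Eq.symm h1).trans h2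
    obtain ⟨rfl, h4⟩ := Ob.br.inj h3
    rw [eq_of_heq h4]
  · rintro ⟨σ, a⟩ ⟨_, ⟨i, hi, h1⟩ | h1⟩
    · exact Or.inl ⟨(σ, i), hi, by simp only; simp only at h1; rw [h1]⟩
    · exact Or.inr h1

private theorem prep_old_mem {p : PE S l x} {ob : Ob l} (hob : ObOK S l x ob) {σ : List ℕ}
    {a : AN (lv l σ)} (h : Old p ob σ a) :
    (∃ x' : X, a ∈ ANset S x' (lv l σ)) ∧ ∀ k, pfx S (lv l σ) k a ∈ TNset S x (lv l σ) k := by
  obtain ⟨hz, ⟨i, hi, rfl⟩ | rfl⟩ := h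
  · exact ⟨⟨x, p.A_mem σ i hi⟩, fun k => pfx_mem hz (p.A_mem σ i hi) k⟩
  · exact ⟨hob.2.2.1, hob.2.2.2⟩

private theorem prep_assign (m : ℕ) (p : PE S l x) : ∀ L : List (Σ σ : List ℕ, AN (lv l σ)),
    (∀ P ∈ L, pfx S (lv l P.1) m P.2 ∈ TNset S x (lv l P.1) m) →
    ∃ q : PE S l x, PE.Le p q ∧ q.dA = p.dA ∧ q.fA = p.fA ∧
      (∀ P ∈ L, ∃ s : List ℕ, s.length = m + 1 ∧ (P.1, s) ∈ q.dT ∧
        q.fT P.1 s = pfx S (lv l P.1) m P.2) ∧
      ∀ τ s, (τ, s) ∈ q.dT → (τ, s) ∈ p.dT ∨ s.length ≤ m + 1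
  | [], _ => ⟨p, PE.Le.refl p, rfl, rfl, fun _ h => absurd h (by simp), fun _ _ h => Or.inl h⟩
  | P :: L, hL => by
      obtain ⟨q, a1, a2, a3, a4, a5⟩ := prep_assign m p L fun P' hP' => hL P' (by simp [hP'])
      obtain ⟨q', b1, b2, b3, ⟨s, c1, c2, c3⟩, b5⟩ :=
        q.assignNode P.1 m (pfx S (lv l P.1) m P.2) (hL P (by simp))
      refine ⟨q', a1.trans b1, b2.trans a2, b3.trans a3, ?_, ?_⟩
      · intro P' hP'
        rcases List.mem_cons.mp hP' with h | h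
        · subst h
          exact ⟨s, c1, c2, c3⟩
        · obtain ⟨s', d1, d2, d3⟩ := a4 P' h
          obtain ⟨d4, d5⟩ := b1.T _ _ d2
          exact ⟨s', d1, d4, d5.trans d3⟩
      · intro τ s' h
        rcases b5 τ s' h with h | h
        · exact a5 τ s' h
        · exact Or.inr h

theorem stPrep : StPrep := by
  intro X S l hM x p ob hob
  classical
  have hfin := prep_old_fin p ob
  -- separation at one position
  have hsep1 : ∀ σ, ∃ k, ∀ a a', Old p ob σ a → Old p ob σ a' → a ≠ a' →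
      pfx S (lv l σ) k a ≠ pfx S (lv l σ) k a' := by
    intro σ
    have hf : {a : AN (lv l σ) | Old p ob σ a}.Finite := by
      have h1 : Set.InjOn (fun a : AN (lv l σ) => (⟨σ, a⟩ : Σ σ : List ℕ, AN (lv l σ)))
          ((fun a : AN (lv l σ) => (⟨σ, a⟩ : Σ σ : List ℕ, AN (lv l σ))) ⁻¹'
            {P | Old p ob P.1 P.2}) := by
        intro a _ b _ hab
        exact eq_of_heq (Sigma.mk.inj hab).2
      have h2 := Set.Finite.preimage h1 hfin
      exact h2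
    obtain ⟨K, hK⟩ := prep_unif (hf.prod hf) (fun P k => P.1 ≠ P.2 →
      pfx S (lv l σ) k P.1 ≠ pfx S (lv l σ) k P.2) (by
        rintro ⟨a, a'⟩ ⟨h1, h2⟩ k k' hkk h3 h4
        obtain ⟨x1, hx1⟩ := (prep_old_mem hob h1).1
        obtain ⟨x2, hx2⟩ := (prep_old_mem hob h2).1
        exact pfx_ne_mono h1.1 hx1 hx2 hkk (h3 h4)) (by
        rintro ⟨a, a'⟩ ⟨h1, h2⟩
        by_cases hne : a = a'
        · exact ⟨0, fun h => absurd hne h⟩
        · obtain ⟨x1, hx1⟩ := (prep_old_mem hob h1).1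
          obtain ⟨x2, hx2⟩ := (prep_old_mem hob h2).1
          obtain ⟨k, hk⟩ := pfx_ne h1.1 (mono_at (mono_lv hM σ)) hx1 hx2 hne
          exact ⟨k, fun _ => hk⟩)
    exact ⟨K, fun a a' h1 h2 hne => hK (a, a') ⟨h1, h2⟩ hne⟩
  -- separation at all positions
  obtain ⟨K1, hK1⟩ : ∃ K, ∀ k, K ≤ k → ∀ σ a a', Old p ob σ a → Old p ob σ a' → a ≠ a' →
      pfx S (lv l σ) k a ≠ pfx S (lv l σ) k a' := by
    obtain ⟨K, hK⟩ := prep_unif (hfin.image Sigma.fst) (fun σ k => ∀ a a', Old p ob σ a →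
      Old p ob σ a' → a ≠ a' → pfx S (lv l σ) k a ≠ pfx S (lv l σ) k a') (by
        intro σ _ k k' hkk h3 a a' h1 h2 h4
        obtain ⟨x1, hx1⟩ := (prep_old_mem hob h1).1
        obtain ⟨x2, hx2⟩ := (prep_old_mem hob h2).1
        exact pfx_ne_mono h1.1 hx1 hx2 hkk (h3 a a' h1 h2 h4)) (fun σ _ => hsep1 σ)
    refine ⟨K, fun k hk σ a a' h1 h2 hne => ?_⟩
    obtain ⟨x1, hx1⟩ := (prep_old_mem hob h1).1
    obtain ⟨x2, hx2⟩ := (prep_old_mem hob h2).1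
    exact pfx_ne_mono h1.1 hx1 hx2 hk
      (hK σ ⟨⟨σ, a⟩, h1, rfl⟩ a a' h1 h2 hne)
  -- the lengths and the levels
  obtain ⟨K2, hK2⟩ := prep_unif p.finT (fun R k => R.2.length ≤ k)
    (fun _ _ _ _ h h' => h'.trans h) (fun R _ => ⟨_, le_rfl⟩)
  obtain ⟨K3, hK3⟩ := prep_unif p.finA (fun R k => R.1.headD 0 ≤ k)
    (fun _ _ _ _ h h' => h'.trans h) (fun R _ => ⟨_, le_rfl⟩)
  obtain ⟨q, a1, a2, a3, a4, a5⟩ := prep_assign (K1 + K2 + K3) p hfin.toFinset.toList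
    fun P hP => (prep_old_mem hob
      (hfin.mem_toFinset.1 (Finset.mem_toList.1 hP) : Old p ob P.1 P.2)).2 _
  have hOld : ∀ σ a, Old q ob σ a ↔ Old p ob σ a := by
    intro σ a
    unfold Old
    rw [a2, a3]
  refine ⟨q, K1 + K2 + K3 + 1, a1, a2, a3, ⟨Nat.succ_pos _, ?_, ?_, ?_, ?_⟩⟩
  · intro σ a h
    exact a4 ⟨σ, a⟩ (Finset.mem_toList.2 (hfin.mem_toFinset.2 ((hOld σ a).1 h)))
  · intro σ s h
    rcases a5 σ s h with h1 | h1
    · have := hK2 (σ, s) h1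
      simp only at this
      omega
    · exact h1
  · intro σ k i h
    rw [a2] at h
    have := hK3 (k :: σ, i) h
    simp only [List.headD_cons] at this
    omega
  · intro σ a a' h1 h2 hne
    exact hK1 _ (by omega) σ a a' ((hOld σ a).1 h1) ((hOld σ a').1 h2) hne

end Pool.Bc
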