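import Pool.Agent.Bc.Final
import Pool.Agent.Bc.Dens
import Pool.Agent.Bc.Prep
import Pool.Agent.Bc.Cfg
import Pool.Agent.Bc.Det
import Pool.Agent.Bc.Force
import Pool.Agent.Bc.Generic
import Pool.Agent.Bc.HasPoint
import Pool.Agent.Bc.BorelEnum
import Pool.Agent.Bc.PhiOK
import Pool.Agent.Bc.PhiIso
import Pool.Agent.Bc.PhiMeas
import Pool.Agent.Bc.EnumIso
import Pool.Agent.Bc.KU
import Pool.Agent.Bc.BP
import Pool.Agent.Bc.MycAbs
import Pool.Agent.Bc.Dst
import Pool.Agent.Bc.GenPerm
import Pool.Agent.Bc.ColMeas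
import Pool.Agent.Bc.MonoSup

/-!
# Project BC: everything together
-/

set_option autoImplicit false

open FirstOrder MeasureTheory

namespace Pool.Bc

theorem core_done : StCore := by
  have hEqA : StEqA := @stEqA @stEP1
  have hD : StDens := @stDens @stGeneric @stHasPoint @stPrep @stCfg (@stExt @stDetStep) @stForce
    exists_finset_open
  exact @stCore (@stMyc stMycAbs stDst) (@stKU @stBP) (@stBorelEnum @stColMeas) @stEnumIso
    stPhiMeas stPhiIso (@stPhiCol hEqA @stEP1) (@stPhiBr hEqA @stEP1) hD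

theorem vaught_done : StVaught :=
  @stVaught (@stInv stMonoSup stGenPerm (@stDecide stGenPerm)) stGenPerm

end Pool.Bc
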