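import Pool.Agent.Bc.Defs

set_option autoImplicit false

namespace Pool.Bc

variable {X : Type} {S : TupSys X}

theorem sel_append (e c J : List ℕ) (hJ : ∀ j ∈ J, j < e.length) :
    sel (e ++ c) (J ++ (List.range c.length).map (fun i => e.length + i)) = sel e J ++ c := by
  unfold sel
  rw [List.map_append]
  congr 1
  · apply List.map_congr_left
    intro j hj
    rw [List.getD_append _ _ _ _ (hJ j hj)]
  · rw [List.map_map]
    apply List.ext_getElem
    · simp
    · intro i h1 h2
      simp only [List.getElem_map, List.getElem_range, Function.comp]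
      rw [List.getD_append_right _ _ _ _ (Nat.le_add_right _ _), Nat.add_sub_cancel_left]
      exact List.getD_eq_getElem _ _ h2

theorem sel_range (e : List ℕ) : sel e (List.range e.length) = e := by
  unfold sel
  apply List.ext_getElem
  · simp
  · intro i h1 h2
    simp only [List.getElem_map, List.getElem_range]
    exact List.getD_eq_getElem _ _ h2

theorem sel_take (e : List ℕ) (m : ℕ) (hm : m ≤ e.length) :
    sel e (List.range m) = e.take m := by
  unfold sel
  apply List.ext_getElem
  · simp [hm]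
  · intro i h1 h2
    simp only [List.getElem_map, List.getElem_range, List.getElem_take]
    apply List.getD_eq_getElem

theorem tp_node (x : X) (s : ℕ → Lvl) (e : List ℕ) (k : ℕ) :
    (tp S x (.node s) e : ∀ k, Set (Ty (s k))) k = jp S x (s k) e := rfl

theorem tp_mem_jp (x : X) (l : Lvl) (e c : List ℕ) : tp S x l (e ++ c) ∈ jp S x l e := ⟨c, rfl⟩

theorem tp_mem_jp_self (x : X) (l : Lvl) (e : List ℕ) : tp S x l e ∈ jp S x l e :=
  ⟨[], by rw [List.append_nil]⟩

theorem tp_mem_jp_nil (x : X) (l : Lvl) (e : List ℕ) : tp S x l e ∈ jp S x l [] :=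
  ⟨e, by rw [List.nil_append]⟩

theorem tp_len : ∀ (l : Lvl) {x x' : X} {e e' : List ℕ}, tp S x l e = tp S x' l e' →
    e.length = e'.length
  | .zero, _, _, _, _, h => S.len h
  | .node s, x, x', e, e', h => by
      have h0 : jp S x (s 0) e = jp S x' (s 0) e' := congrFun h 0
      have h1 : tp S x (s 0) e ∈ jp S x' (s 0) e' := h0 ▸ tp_mem_jp_self x (s 0) e
      have h2 : tp S x' (s 0) e' ∈ jp S x (s 0) e := h0 ▸ tp_mem_jp_self x' (s 0) e'
      obtain ⟨c, hc⟩ := h1
      obtain ⟨d, hd⟩ := h2
      have a1 := tp_len (s 0) hc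
      have a2 := tp_len (s 0) hd
      rw [List.length_append] at a1 a2
      omega

theorem jp_sub_len {l : Lvl} {x x' : X} {e e' : List ℕ} (h : jp S x l e ⊆ jp S x' l e') :
    e'.length ≤ e.length := by
  obtain ⟨c, hc⟩ := h (tp_mem_jp_self x l e)
  have := tp_len l hc
  rw [List.length_append] at this
  omega

theorem jp_len {l : Lvl} {x x' : X} {e e' : List ℕ} (h : jp S x l e = jp S x' l e') :
    e.length = e'.length :=
  le_antisymm (jp_sub_len h.ge) (jp_sub_len h.le)

theorem jp_tp {l : Lvl} {x x' : X} {e e' : List ℕ} (h : jp S x l e = jp S x' l e') :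
    tp S x l e = tp S x' l e' := by
  have h1 : tp S x l e ∈ jp S x' l e' := h ▸ tp_mem_jp_self x l e
  obtain ⟨c, hc⟩ := h1
  have := tp_len l hc
  have hl := jp_len h
  rw [List.length_append] at this
  have hc0 : c = [] := List.length_eq_zero_iff.mp (by omega)
  rw [hc, hc0, List.append_nil]

/-- Types of level `l` with equal values have equal sub-tuples; first for `jp`, given the claim
for `tp` at the same level. -/
theorem jp_sel_of {l : Lvl}
    (H : ∀ {x x' : X} {e e' : List ℕ} (J : List ℕ), tp S x l e = tp S x' l e' →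
      (∀ j ∈ J, j < e.length) → tp S x l (sel e J) = tp S x' l (sel e' J))
    {x x' : X} {e e' : List ℕ} (J : List ℕ) (h : jp S x l e = jp S x' l e')
    (hJ : ∀ j ∈ J, j < e.length) : jp S x l (sel e J) = jp S x' l (sel e' J) := by
  have key : ∀ {x x' : X} {e e' : List ℕ}, jp S x l e = jp S x' l e' →
      (∀ j ∈ J, j < e.length) → jp S x l (sel e J) ⊆ jp S x' l (sel e' J) := by
    intro x x' e e' h hJ t ht
    obtain ⟨c, rfl⟩ := ht
    have h1 : tp S x l (e ++ c) ∈ jp S x' l e' := h ▸ tp_mem_jp x l e c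
    obtain ⟨d, hd⟩ := h1
    have hl := jp_len h
    have hl2 := tp_len l hd
    rw [List.length_append, List.length_append] at hl2
    have hcd : c.length = d.length := by omega
    have hJ' : ∀ j ∈ J ++ (List.range c.length).map (fun i => e.length + i),
        j < (e ++ c).length := by
      intro j hj
      rw [List.mem_append] at hj
      rcases hj with hj | hj
      · have := hJ j hj
        rw [List.length_append]
        omega
      · rw [List.mem_map] at hj
        obtain ⟨i, hi, rfl⟩ := hj
        rw [List.mem_range] at hi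
        rw [List.length_append]
        omega
    have h3 := H _ hd hJ'
    rw [sel_append e c J hJ] at h3
    refine ⟨d, ?_⟩
    rw [h3, hl, hcd, sel_append e' d J (fun j hj => hl ▸ hJ j hj)]
  refine Set.Subset.antisymm (key h hJ) (key h.symm ?_)
  intro j hj
  rw [← jp_len h]
  exact hJ j hj

theorem tp_sel : ∀ (l : Lvl) {x x' : X} {e e' : List ℕ} (J : List ℕ), tp S x l e = tp S x' l e' →
    (∀ j ∈ J, j < e.length) → tp S x l (sel e J) = tp S x' l (sel e' J)
  | .zero, _, _, _, _, J, h, hJ => S.sub J h hJ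
  | .node s, x, x', e, e', J, h, hJ => by
      funext k
      exact jp_sel_of (tp_sel (s k)) J (congrFun h k) hJ

theorem jp_sel {l : Lvl} {x x' : X} {e e' : List ℕ} (J : List ℕ) (h : jp S x l e = jp S x' l e')
    (hJ : ∀ j ∈ J, j < e.length) : jp S x l (sel e J) = jp S x' l (sel e' J) :=
  jp_sel_of (tp_sel l) J h hJ

theorem jp_take {l : Lvl} {x x' : X} {e e' : List ℕ} (m : ℕ) (h : jp S x l e = jp S x' l e') :
    jp S x l (e.take m) = jp S x' l (e'.take m) := by
  have hl := jp_len h
  by_cases hm : m ≤ e.length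
  · have := jp_sel (List.range m) h (fun j hj => lt_of_lt_of_le (List.mem_range.mp hj) hm)
    rwa [sel_take e m hm, sel_take e' m (hl ▸ hm)] at this
  · rw [List.take_of_length_le (by omega), List.take_of_length_le (by omega)]
    exact h

theorem tp_take {l : Lvl} {x x' : X} {e e' : List ℕ} (m : ℕ) (h : tp S x l e = tp S x' l e') :
    tp S x l (e.take m) = tp S x' l (e'.take m) := by
  have hl := tp_len l h
  by_cases hm : m ≤ e.length
  · have := tp_sel l (List.range m) h (fun j hj => lt_of_lt_of_le (List.mem_range.mp hj) hm)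
    rwa [sel_take e m hm, sel_take e' m (hl ▸ hm)] at this
  · rw [List.take_of_length_le (by omega), List.take_of_length_le (by omega)]
    exact h

theorem monoAt_zero : MonoAt S .zero := fun _ _ _ _ _ h => h

theorem mono_at {l : Lvl} (h : Mono S l) : MonoAt S l := by
  cases l with
  | zero => exact monoAt_zero
  | node s => exact h.1

theorem mono_chd {l : Lvl} (h : Mono S l) (k : ℕ) : Mono S (l.chd k) := by
  cases l with
  | zero => exact trivial
  | node s => exact h.2 k

theorem mono_lv {l : Lvl} (h : Mono S l) : ∀ σ, Mono S (lv l σ)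
  | [] => h
  | k :: σ => mono_chd (mono_lv h σ) k

theorem mono_le {l : Lvl} (h : MonoAt S l) {i k : ℕ} (hik : i ≤ k) {x x' : X} {e e' : List ℕ}
    (he : jp S x (l.chd k) e = jp S x' (l.chd k) e') :
    jp S x (l.chd i) e = jp S x' (l.chd i) e' := by
  induction k with
  | zero =>
    obtain rfl : i = 0 := by omega
    exact he
  | succ k ih =>
    rcases Nat.lt_or_ge k i with h1 | h1
    · obtain rfl : i = k + 1 := by omega
      exact he
    · exact ih h1 (h k x x' e e' he)


/-! ### Keys -/

theorem rho_append (κ : List (ℕ × ℕ)) (m n : ℕ) : rho (κ ++ [(m, n)]) = n := by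
  simp [rho]

theorem KeyOK.le {κ : List (ℕ × ℕ)} {m : ℕ} (h : KeyOK κ m) : ∀ p ∈ κ, p.1 ≤ m := by
  obtain ⟨hp, κ', n, rfl⟩ := h
  intro p hpm
  rw [List.mem_append] at hpm
  rcases hpm with hpm | hpm
  · rw [List.pairwise_append] at hp
    exact hp.2.2 p hpm (m, n) (by simp)
  · simp only [List.mem_singleton] at hpm
    subst hpm
    exact le_refl _

theorem KeyOK.ne_nil {κ : List (ℕ × ℕ)} {m : ℕ} (h : KeyOK κ m) : κ ≠ [] := by
  obtain ⟨_, κ', n, rfl⟩ := h
  simp

theorem KeyOK.append {κ : List (ℕ × ℕ)} {m m' : ℕ} (h : KeyOK κ m) (hm : m ≤ m') (n : ℕ) :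
    KeyOK (κ ++ [(m', n)]) m' := by
  refine ⟨?_, κ, n, rfl⟩
  rw [List.pairwise_append]
  refine ⟨h.1, List.pairwise_singleton _ _, ?_⟩
  intro a ha b hb
  simp only [List.mem_singleton] at hb
  subst hb
  exact le_trans (h.le a ha) hm

theorem KeyOK.single (m n : ℕ) : KeyOK [(m, n)] m :=
  ⟨List.pairwise_singleton _ _, [], n, rfl⟩

/-- The last length of a key is the entry at the last place. -/
theorem KeyOK.getD_last {κ : List (ℕ × ℕ)} {m : ℕ} (h : KeyOK κ m) (d : ℕ × ℕ) {k : ℕ}
    (hk : κ.length = k + 1) : (κ.getD k d).1 = m := by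
  obtain ⟨_, κ', n, rfl⟩ := h
  have : κ'.length = k := by simpa using hk
  subst this
  rw [List.getD_append_right _ _ _ _ (le_refl _)]
  simp

theorem KeyOK.take {κ : List (ℕ × ℕ)} {m : ℕ} (h : KeyOK κ m) {k : ℕ} (hk : k < κ.length) :
    KeyOK (κ.take (k + 1)) (κ.getD k (0, 0)).1 := by
  refine ⟨h.1.sublist (List.take_sublist _ _), κ.take k, (κ.getD k (0, 0)).2, ?_⟩
  rw [List.take_succ_eq_append_getElem hk, List.getD_eq_getElem _ _ hk]

/-- The lengths are nondecreasing, in terms of `getD`. -/
theorem KeyOK.getD_le {κ : List (ℕ × ℕ)} {m : ℕ} (h : KeyOK κ m) {i j : ℕ} (hij : i ≤ j) :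
    (κ.getD i (m, 0)).1 ≤ (κ.getD j (m, 0)).1 := by
  rcases Nat.lt_or_ge j κ.length with hj | hj
  · rw [List.getD_eq_getElem _ _ hj, List.getD_eq_getElem _ _ (lt_of_le_of_lt hij hj)]
    rcases Nat.lt_or_ge i j with h1 | h1
    · exact (List.pairwise_iff_getElem.mp h.1) i j _ hj h1
    · obtain rfl : i = j := le_antisymm hij h1
      exact le_refl _
  · rw [List.getD_eq_default _ _ hj]
    rcases Nat.lt_or_ge i κ.length with hi | hi
    · rw [List.getD_eq_getElem _ _ hi]
      exact h.le _ (List.getElem_mem hi)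
    · rw [List.getD_eq_default _ _ hi]

theorem KeyOK.getD_le_self {κ : List (ℕ × ℕ)} {m : ℕ} (h : KeyOK κ m) (i : ℕ) :
    (κ.getD i (m, 0)).1 ≤ m := by
  rcases Nat.lt_or_ge i κ.length with hi | hi
  · rw [List.getD_eq_getElem _ _ hi]
    exact h.le _ (List.getElem_mem hi)
  · rw [List.getD_eq_default _ _ hi]

/-! ### Decoding tables -/

theorem dec_enc (r : Rul) (N : ℕ) : ∃ n, N ≤ n ∧ n ≠ 0 ∧ dec n = r := by
  refine ⟨Nat.pair (Encodable.encode r) (N + 1), ?_, ?_, ?_⟩
  · exact le_trans (Nat.le_succ N) (Nat.right_le_pair _ _)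
  · have := Nat.right_le_pair (Encodable.encode r) (N + 1)
    omega
  · unfold dec
    rw [Nat.unpair_pair]
    simp [Encodable.encodek]

/-! ### Truncations and keys of tree nodes -/

theorem trunc_trunc {l : Lvl} {i k : ℕ} (h : i ≤ k) (u : TN l) :
    trunc i (trunc k u) = trunc i u := by
  funext j
  unfold trunc
  by_cases hj : j ≤ i
  · rw [if_pos hj, if_pos hj, if_pos (le_trans hj h)]
  · rw [if_neg hj, if_neg hj]

theorem trunc_apply {l : Lvl} {i k : ℕ} (h : i ≤ k) (u : TN l) : trunc k u i = u i := by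
  unfold trunc
  rw [if_pos h]

theorem trunc_apply_gt {l : Lvl} {i k : ℕ} (h : k < i) (u : TN l) :
    trunc k u i = (∅, (0, 0)) := by
  unfold trunc
  rw [if_neg (by omega)]

theorem trunc_eq_iff {l : Lvl} {k : ℕ} (u u' : TN l) :
    trunc k u = trunc k u' ↔ ∀ i ≤ k, u i = u' i := by
  constructor
  · intro h i hi
    have := congrFun h i
    rwa [trunc_apply hi, trunc_apply hi] at this
  · intro h
    funext i
    by_cases hi : i ≤ k
    · rw [trunc_apply hi, trunc_apply hi, h i hi]
    · rw [trunc_apply_gt (by omega), trunc_apply_gt (by omega)]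

theorem keyT_length {l : Lvl} {k : ℕ} (u : TN l) : (keyT k u).length = k + 1 := by
  simp [keyT]

theorem keyT_getElem {l : Lvl} {k i : ℕ} (u : TN l) (hi : i < (keyT k u).length) :
    (keyT k u)[i] = (u i).2 := by
  have h1 : (keyT k u)[i] = (fun i => (u i).2) ((List.range (k + 1))[i]'(by
      rw [keyT_length] at hi; rwa [List.length_range])) :=
    List.getElem_map (fun i => (u i).2)
  rw [h1]
  exact congrArg (fun i => (u i).2) (List.getElem_range _)

theorem keyT_eq_iff {l l' : Lvl} {k : ℕ} (u : TN l) (u' : TN l') :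
    keyT k u = keyT k u' ↔ ∀ i ≤ k, (u i).2 = (u' i).2 := by
  constructor
  · intro h i hi
    have hi' : i < (keyT k u).length := by rw [keyT_length]; omega
    have h1 := List.getElem_of_eq h hi'
    rwa [keyT_getElem, keyT_getElem] at h1
  · intro h
    apply List.map_congr_left
    intro i hi
    exact h i (by rw [List.mem_range] at hi; omega)

theorem keyT_getD {l : Lvl} {k i : ℕ} (u : TN l) (hi : i ≤ k) (d : ℕ × ℕ) :
    (keyT k u).getD i d = (u i).2 := by
  rw [List.getD_eq_getElem _ _ (by rw [keyT_length]; omega), keyT_getElem]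

theorem keyT_mk (x : X) (l : Lvl) (e : List ℕ) {κ : List (ℕ × ℕ)} {k : ℕ}
    (hk : κ.length = k + 1) : keyT k (trunc k (seqOf S x l e κ)) = κ := by
  apply List.ext_getElem
  · rw [keyT_length, hk]
  · intro i h1 h2
    rw [keyT_getElem, trunc_apply (by omega)]
    exact List.getD_eq_getElem _ _ h2

theorem seqOf_last (x : X) (l : Lvl) (e : List ℕ) {κ : List (ℕ × ℕ)} {k : ℕ}
    (hκ : KeyOK κ e.length) (hk : κ.length = k + 1) :
    (trunc k (seqOf S x l e κ) k).1 = jp S x (l.chd k) e := by
  rw [trunc_apply (le_refl k)]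
  unfold seqOf
  simp only
  rw [hκ.getD_last _ hk, List.take_length]

end Pool.Bc
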