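import Pool.Agent.Bc.Stmts2

/-!
# Project BC: measurability of equalities of types and of colours
-/

set_option autoImplicit false

open MeasureTheory

namespace Pool.Bc

variable {X : Type} {S : TupSys X}

theorem jp_eq_iff (x : X) (l : Lvl) (e e' : List ℕ) :
    jp S x l e = jp S x l e' ↔
      (∀ c, ∃ d, tp S x l (e ++ c) = tp S x l (e' ++ d)) ∧
        (∀ d, ∃ c, tp S x l (e' ++ d) = tp S x l (e ++ c)) := by
  constructor
  · intro h
    refine ⟨fun c => ?_, fun d => ?_⟩
    · have h1 : tp S x l (e ++ c) ∈ jp S x l e' := h ▸ tp_mem_jp x l e c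
      exact h1
    · have h1 : tp S x l (e' ++ d) ∈ jp S x l e := h.symm ▸ tp_mem_jp x l e' d
      exact h1
  · rintro ⟨h1, h2⟩
    refine Set.Subset.antisymm ?_ ?_
    · rintro t ⟨c, rfl⟩
      exact h1 c
    · rintro t ⟨d, rfl⟩
      exact h2 d

theorem upTest_iff (x : X) (l : Lvl) (J e e' : List ℕ) :
    upTest S l J (tp S x l e) (jp S x l e') ↔
      (∀ j ∈ J, j < e'.length) ∧ tp S x l (sel e' J) = tp S x l e := by
  constructor
  · rintro ⟨x0, e0, h1, h2, h3⟩
    have hl := jp_len h2
    refine ⟨fun j hj => hl ▸ h1 j hj, ?_⟩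
    rw [← h3]
    exact (tp_sel l J (jp_tp h2) h1).symm
  · rintro ⟨h1, h2⟩
    exact ⟨x, e', h1, rfl, h2⟩

theorem lowTest_iff (x : X) (l : Lvl) (I e e' : List ℕ) :
    lowTest S l I (tp S x l e) (jp S x l e') ↔
      (∀ j ∈ I, j < e.length) ∧ ∃ c, tp S x l (sel e I) = tp S x l (e' ++ c) := by
  constructor
  · rintro ⟨x0, e0, h1, h2, h3⟩
    have hl := tp_len l h2
    refine ⟨fun j hj => hl ▸ h1 j hj, ?_⟩
    rw [tp_sel l I h2 h1] at h3
    exact h3
  · rintro ⟨h1, h2⟩
    exact ⟨x, e, h1, rfl, h2⟩

section
variable [MeasurableSpace X]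

theorem meas_jp {l : Lvl} (H : ∀ e e', MeasurableSet {x | tp S x l e = tp S x l e'})
    (e e' : List ℕ) : MeasurableSet {x | jp S x l e = jp S x l e'} := by
  have h : {x | jp S x l e = jp S x l e'} =
      (⋂ c : List ℕ, ⋃ d : List ℕ, {x | tp S x l (e ++ c) = tp S x l (e' ++ d)}) ∩
        (⋂ d : List ℕ, ⋃ c : List ℕ, {x | tp S x l (e' ++ d) = tp S x l (e ++ c)}) := by
    ext x
    rw [Set.mem_inter_iff, Set.mem_iInter, Set.mem_iInter]
    simp only [Set.mem_iUnion]
    exact jp_eq_iff x l e e'
  rw [h]
  exact (MeasurableSet.iInter fun c => MeasurableSet.iUnion fun d => H _ _).inter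
    (MeasurableSet.iInter fun d => MeasurableSet.iUnion fun c => H _ _)

theorem meas_tp (hS : ∀ (e : List ℕ) (n : ℕ), MeasurableSet {x | S.bt x e n = true}) :
    ∀ (l : Lvl) (e e' : List ℕ), MeasurableSet {x | tp S x l e = tp S x l e'}
  | .zero, e, e' => by
      have h : {x | tp S x .zero e = tp S x .zero e'} =
          ⋂ n : ℕ, (({x | S.bt x e n = true} ∩ {x | S.bt x e' n = true}) ∪
            ({x | S.bt x e n = true}ᶜ ∩ {x | S.bt x e' n = true}ᶜ)) := by
        ext x
        rw [Set.mem_iInter]
        constructor
        · intro h n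
          have h1 : S.bt x e n = S.bt x e' n := congrFun h n
          by_cases h2 : S.bt x e n = true
          · exact Or.inl ⟨h2, h1.symm.trans h2⟩
          · exact Or.inr ⟨h2, fun h3 => h2 (h1.trans h3)⟩
        · intro h
          change S.bt x e = S.bt x e'
          funext n
          rcases h n with ⟨h1, h2⟩ | ⟨h1, h2⟩
          · exact (show S.bt x e n = true from h1).trans (show S.bt x e' n = true from h2).symm
          · have h3 : S.bt x e n = false := Bool.eq_false_iff.2 h1
            have h4 : S.bt x e' n = false := Bool.eq_false_iff.2 h2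
            rw [h3, h4]
      rw [h]
      exact MeasurableSet.iInter fun n => ((hS e n).inter (hS e' n)).union
        ((hS e n).compl.inter (hS e' n).compl)
  | .node s, e, e' => by
      have h : {x | tp S x (.node s) e = tp S x (.node s) e'} =
          ⋂ k : ℕ, {x | jp S x (s k) e = jp S x (s k) e'} := by
        ext x
        rw [Set.mem_iInter]
        constructor
        · intro h k
          exact congrFun h k
        · intro h
          exact funext fun k => h k
      rw [h]
      exact MeasurableSet.iInter fun k => meas_jp (meas_tp hS (s k)) e e'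

theorem meas_upTest {l : Lvl} (H : ∀ e e', MeasurableSet {x | tp S x l e = tp S x l e'})
    (J e e' : List ℕ) :
    MeasurableSet {x | upTest S l J (tp S x l e) (jp S x l e')} := by
  have h : {x | upTest S l J (tp S x l e) (jp S x l e')} =
      {_x : X | ∀ j ∈ J, j < e'.length} ∩ {x | tp S x l (sel e' J) = tp S x l e} := by
    ext x
    exact upTest_iff x l J e e'
  rw [h]
  exact (MeasurableSet.const _).inter (H _ _)

theorem meas_lowTest {l : Lvl} (H : ∀ e e', MeasurableSet {x | tp S x l e = tp S x l e'})
    (I e e' : List ℕ) :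
    MeasurableSet {x | lowTest S l I (tp S x l e) (jp S x l e')} := by
  have h : {x | lowTest S l I (tp S x l e) (jp S x l e')} =
      {_x : X | ∀ j ∈ I, j < e.length} ∩
        ⋃ c : List ℕ, {x | tp S x l (sel e I) = tp S x l (e' ++ c)} := by
    ext x
    rw [Set.mem_inter_iff, Set.mem_iUnion]
    exact lowTest_iff x l I e e'
  rw [h]
  exact (MeasurableSet.const _).inter (MeasurableSet.iUnion fun c => H _ _)

open Classical in
/-- The values of finitely many decided properties. -/
theorem meas_map_decide {ι : Type} (low : X → ι → Prop)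
    (H : ∀ i, MeasurableSet {x | low x i}) :
    ∀ (L : List ι) (v : List Bool), MeasurableSet {x | L.map (fun i => decide (low x i)) = v}
  | [], v => by
      have h : {x : X | ([] : List ι).map (fun i => decide (low x i)) = v} =
          {_x : X | ([] : List Bool) = v} := rfl
      rw [h]
      exact MeasurableSet.const _
  | i :: L, [] => by
      have h : {x : X | (i :: L).map (fun i => decide (low x i)) = []} = ∅ := by
        ext x
        simp
      rw [h]
      exact MeasurableSet.empty
  | i :: L, b :: v => by
      have h : {x : X | (i :: L).map (fun i => decide (low x i)) = b :: v} =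
          {x : X | decide (low x i) = b} ∩ {x | L.map (fun i => decide (low x i)) = v} := by
        ext x
        simp
      rw [h]
      refine MeasurableSet.inter ?_ (meas_map_decide low H L v)
      cases b with
      | true =>
        have h2 : {x : X | decide (low x i) = true} = {x | low x i} := by
          ext x
          simp
        rw [h2]
        exact H i
      | false =>
        have h2 : {x : X | decide (low x i) = false} = {x | low x i}ᶜ := by
          ext x
          simp
        rw [h2]
        exact (H i).compl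

open Classical in
/-- Choice from one of two sets. -/
noncomputable def chF (P P' : ℕ → Prop) : ℕ :=
  if h : ∃ β : ℕ, P β then h.choose
  else if h : ∃ β : ℕ, P' β then h.choose
  else 0

/-- A choice function of finite sets which depend measurably on a parameter is measurable. -/
theorem meas_chF (P P' : X → ℕ → Prop) (hP : ∀ β, MeasurableSet {x | P x β})
    (hP' : ∀ β, MeasurableSet {x | P' x β}) (fP : ∀ x, {β | P x β}.Finite)
    (fP' : ∀ x, {β | P' x β}.Finite) (c : ℕ) :
    MeasurableSet {x | chF (P x) (P' x) = c} := by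
  have h : {x | chF (P x) (P' x) = c} = ⋃ s : Finset ℕ, ⋃ s' : Finset ℕ,
      ({_x : X | chF (fun β => β ∈ s) (fun β => β ∈ s') = c} ∩
        ((⋂ β : ℕ, {x | P x β ↔ β ∈ s}) ∩ (⋂ β : ℕ, {x | P' x β ↔ β ∈ s'}))) := by
    ext x
    simp only [Set.mem_iUnion, Set.mem_inter_iff, Set.mem_iInter]
    constructor
    · intro h
      refine ⟨(fP x).toFinset, (fP' x).toFinset, ?_, ?_, ?_⟩
      · have h1 : (fun β => β ∈ (fP x).toFinset) = P x := by
          funext β
          rw [Set.Finite.mem_toFinset]
          rfl
        have h2 : (fun β => β ∈ (fP' x).toFinset) = P' x := by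
          funext β
          rw [Set.Finite.mem_toFinset]
          rfl
        change chF (fun β => β ∈ (fP x).toFinset) (fun β => β ∈ (fP' x).toFinset) = c
        rw [h1, h2]
        exact h
      · intro β
        change P x β ↔ β ∈ (fP x).toFinset
        rw [Set.Finite.mem_toFinset]
        rfl
      · intro β
        change P' x β ↔ β ∈ (fP' x).toFinset
        rw [Set.Finite.mem_toFinset]
        rfl
    · rintro ⟨s, s', h1, h2, h3⟩
      have h4 : P x = fun β => β ∈ s := funext fun β => propext (h2 β)
      have h5 : P' x = fun β => β ∈ s' := funext fun β => propext (h3 β)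
      change chF (P x) (P' x) = c
      rw [h4, h5]
      exact h1
  rw [h]
  have key : ∀ (Q : X → ℕ → Prop), (∀ β, MeasurableSet {x | Q x β}) → ∀ s : Finset ℕ,
      MeasurableSet (⋂ β : ℕ, {x | Q x β ↔ β ∈ s}) := by
    intro Q hQ s
    refine MeasurableSet.iInter fun β => ?_
    by_cases hb : β ∈ s
    · have h2 : {x | Q x β ↔ β ∈ s} = {x | Q x β} := by
        ext x
        exact ⟨fun h => h.2 hb, fun h => ⟨fun _ => hb, fun _ => h⟩⟩
      rw [h2]
      exact hQ β
    · have h2 : {x | Q x β ↔ β ∈ s} = {x | Q x β}ᶜ := by
        ext x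
        exact ⟨fun h h' => hb (h.1 h'), fun h => ⟨fun h' => absurd h' h, fun h' => absurd h' hb⟩⟩
      rw [h2]
      exact (hQ β).compl
  exact MeasurableSet.iUnion fun s => MeasurableSet.iUnion fun s' =>
    (MeasurableSet.const _).inter ((key P hP s).inter (key P' hP' s'))

theorem meas_col {l : Lvl} (H : ∀ e e', MeasurableSet {x | tp S x l e = tp S x l e'})
    (e : List ℕ) (κ : List (ℕ × ℕ)) (e' : List ℕ) (κ' : List (ℕ × ℕ)) (c : ℕ) :
    MeasurableSet {x | col S l (tp S x l e, κ) (jp S x l e') κ' = c} := by
  classical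
  refine meas_chF (fun x β => ∃ J : List ℕ, (J, κ, β) ∈ (dec (rho κ')).1 ∧
      upTest S l J (tp S x l e) (jp S x l e'))
    (fun x β => (κ', (dec (rho κ)).2.1.1.map
      (fun I => @decide (lowTest S l I (tp S x l e) (jp S x l e')) (Classical.propDecidable _)), β) ∈
      (dec (rho κ)).2.1.2) ?_ ?_ ?_ ?_ c
  · intro β
    have h : {x | ∃ J : List ℕ, (J, κ, β) ∈ (dec (rho κ')).1 ∧
        upTest S l J (tp S x l e) (jp S x l e')} =
        ⋃ J : List ℕ, ({_x : X | (J, κ, β) ∈ (dec (rho κ')).1} ∩
          {x | upTest S l J (tp S x l e) (jp S x l e')}) := by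
      ext x
      rw [Set.mem_iUnion]
      rfl
    rw [h]
    exact MeasurableSet.iUnion fun J => (MeasurableSet.const _).inter (meas_upTest H J e e')
  · intro β
    have h : {x | (κ', (dec (rho κ)).2.1.1.map
        (fun I => @decide (lowTest S l I (tp S x l e) (jp S x l e')) (Classical.propDecidable _)),
          β) ∈ (dec (rho κ)).2.1.2} =
        ⋃ v : List Bool, ({_x : X | (κ', v, β) ∈ (dec (rho κ)).2.1.2} ∩
          {x | (dec (rho κ)).2.1.1.map
            (fun I => @decide (lowTest S l I (tp S x l e) (jp S x l e'))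
              (Classical.propDecidable _)) = v}) := by
      ext x
      rw [Set.mem_iUnion]
      constructor
      · intro h
        exact ⟨_, h, rfl⟩
      · rintro ⟨v, h1, h2⟩
        have h3 : (dec (rho κ)).2.1.1.map
            (fun I => @decide (lowTest S l I (tp S x l e) (jp S x l e'))
              (Classical.propDecidable _)) = v := h2
        subst h3
        exact h1
    rw [h]
    exact MeasurableSet.iUnion fun v => (MeasurableSet.const _).inter
      (meas_map_decide (fun x I => lowTest S l I (tp S x l e) (jp S x l e'))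
        (fun I => meas_lowTest H I e e') _ v)
  · intro x
    refine ((List.finite_toSet ((dec (rho κ')).1.map fun t => t.2.2))).subset ?_
    rintro β ⟨J, h1, _⟩
    exact List.mem_map.2 ⟨_, h1, rfl⟩
  · intro x
    refine ((List.finite_toSet ((dec (rho κ)).2.1.2.map fun t => t.2.2))).subset ?_
    intro β h1
    exact List.mem_map.2 ⟨_, h1, rfl⟩

end

theorem stColMeas : StColMeas := by
  intro X _ S hS l
  exact ⟨meas_tp hS l, meas_jp (meas_tp hS l), meas_col (meas_tp hS l)⟩

end Pool.Bc
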