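import Pool.Agent.Bc.Stmts

/-!
# Project BC: the core theorem
-/

set_option autoImplicit false

open MeasureTheory

namespace Pool.Bc

/-! ### Countability of the indices -/

/-- Coding of the indices of extra elements. -/
def csCode : Cs → (List ℕ × ℕ) ⊕ (List ℕ × ℕ × List ℕ) ⊕ (List ℕ × ℕ)
  | .lab σ i' => Sum.inl (σ, i')
  | .col σ j' s' => Sum.inr (Sum.inl (σ, j', s'))
  | .br σ i' => Sum.inr (Sum.inr (σ, i'))

theorem csCode_injective : Function.Injective csCode := by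
  intro a b h
  cases a <;> cases b <;> simp_all [csCode]

instance : Countable Cs := csCode_injective.countable

instance : Nonempty Cs := ⟨.lab [] 0⟩

/-! ### The analytic sets -/

/-- Transported rows of the pairs in `G`. -/
def AnG (l : Lvl) (G : Set (Z × Z)) (c : Cs) : Set ((ℕ → ℕ) × Z) :=
  (fun p : Z × Z => (Phi l c p.1 p.2, p.1)) '' G

theorem analytic_image {α β : Type} [TopologicalSpace α] [MeasurableSpace α] [BorelSpace α]
    [TopologicalSpace β] [MeasurableSpace β] [BorelSpace β] [SecondCountableTopology β]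
    {f : α → β} (hf : Measurable f) {A : Set α} (hA : AnalyticSet A) : AnalyticSet (f '' A) := by
  rw [AnalyticSet] at hA
  rcases hA with rfl | ⟨g, hg, rfl⟩
  · rw [Set.image_empty]
    exact analyticSet_empty
  · rw [← Set.range_comp, ← Set.image_univ]
    exact MeasurableSet.univ.analyticSet_image (hf.comp hg.measurable)

theorem anG_analytic (hPM : StPhiMeas) (l : Lvl) {G : Set (Z × Z)} (hG : AnalyticSet G) (c : Cs) :
    AnalyticSet (AnG l G c) :=
  analytic_image ((hPM l c).prodMk measurable_fst) hG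

theorem anG_countable (hPI : StPhiIso) (l : Lvl) {G : Set (Z × Z)}
    (hG : ∀ z z' z'', (z, z') ∈ G → (z, z'') ∈ G → ZIso l z' z'') (c : Cs) (z : Z) :
    {b : ℕ → ℕ | (b, z) ∈ AnG l G c}.Countable := by
  by_cases hex : ∃ z', (z, z') ∈ G
  · obtain ⟨z', hz'⟩ := hex
    refine (Set.countable_range (fun c' : Cs => Phi l c' z z')).mono ?_
    rintro b ⟨⟨z1, z2⟩, h1, h2⟩
    simp only [Prod.mk.injEq] at h2
    obtain ⟨rfl, rfl⟩ := h2
    obtain ⟨c', hc'⟩ := hPI l z2 z' (hG z1 z2 z' h1 hz') c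
    exact ⟨c', (hc' z1).symm⟩
  · refine (Set.countable_empty).mono ?_
    rintro b ⟨⟨z1, z2⟩, h1, h2⟩
    simp only [Prod.mk.injEq] at h2
    obtain ⟨rfl, rfl⟩ := h2
    exact hex ⟨z2, h1⟩

/-! ### The descent -/

theorem lv_app (l : Lvl) : ∀ μ σ : List ℕ, lv l (μ ++ σ) = lv (lv l σ) μ
  | [], _ => rfl
  | k :: μ, σ => by
      change (lv l (μ ++ σ)).chd k = (lv (lv l σ) μ).chd k
      rw [lv_app l μ σ]

theorem lv_zero : ∀ σ : List ℕ, lv .zero σ = .zero
  | [] => rfl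
  | k :: σ => by
      change (lv .zero σ).chd k = .zero
      rw [lv_zero σ]
      rfl

theorem lv_node_snoc (s : ℕ → Lvl) (σ : List ℕ) (k : ℕ) : lv (.node s) (σ ++ [k]) = lv (s k) σ := by
  rw [lv_app]
  rfl

theorem descent {X : Type} (S : TupSys X) (x x' : X) : ∀ L : Lvl,
    (∃ μ, jp S x (lv L μ) [] ≠ jp S x' (lv L μ) []) →
    ∃ σ, jp S x (lv L σ) [] ≠ jp S x' (lv L σ) [] ∧ ((lv L σ).isZ = true ∨
      ∀ k μ, jp S x (lv L (μ ++ k :: σ)) [] = jp S x' (lv L (μ ++ k :: σ)) [])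
  | .zero, ⟨μ, h⟩ => by
      refine ⟨μ, h, Or.inl ?_⟩
      rw [lv_zero]
      rfl
  | .node s, ⟨μ, h⟩ => by
      by_cases hc : ∃ k, ∃ μ, jp S x (lv (s k) μ) [] ≠ jp S x' (lv (s k) μ) []
      · obtain ⟨k, hk⟩ := hc
        obtain ⟨σ, h1, h2⟩ := descent S x x' (s k) hk
        refine ⟨σ ++ [k], ?_, ?_⟩
        · rw [lv_node_snoc]
          exact h1
        · rcases h2 with h2 | h2
          · left
            rw [lv_node_snoc]
            exact h2
          · right
            intro j ν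
            have := h2 j ν
            rw [show ν ++ j :: (σ ++ [k]) = (ν ++ j :: σ) ++ [k] by simp, lv_node_snoc]
            exact this
      · push Not at hc
        refine ⟨[], ?_, Or.inr ?_⟩
        · rcases List.eq_nil_or_concat μ with rfl | ⟨μ', k, rfl⟩
          · exact h
          · exfalso
            apply h
            rw [List.concat_eq_append, lv_node_snoc]
            exact hc k μ'
        · intro k μ'
          rw [lv_node_snoc]
          exact hc k μ'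

/-! ### Enumerated tree nodes -/

theorem enum_T {X : Type} {S : TupSys X} {l : Lvl} {x : X} (ζ : Enum S l x) (σ : List ℕ) :
    ∀ (k : ℕ) (u : TN (lv l σ)), u ∈ TNset S x (lv l σ) k →
      ∃ (j : ℕ) (s : List ℕ), s.length = k ∧ ζ.t σ (j :: s) = u
  | 0, u, hu => by
      obtain ⟨j, hj⟩ := ζ.t_sur0 σ u hu
      exact ⟨j, [], rfl, hj⟩
  | k + 1, u, hu => by
      obtain ⟨j, s, hs, h1⟩ := enum_T ζ σ k (trunc k u) (TNset_trunc (Nat.le_succ k) hu)
      subst hs
      obtain ⟨j', hj'⟩ := ζ.t_sur σ j s u hu h1.symm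
      exact ⟨j', j :: s, rfl, hj'⟩

/-- Two branches through the same nodes are equal. -/
theorem branch_eq {X : Type} {S : TupSys X} {l : Lvl} {x : X} (ζ : Enum S l x) (σ : List ℕ)
    {b b' : ℕ → ℕ} (h : ∀ k, ζ.t σ (pre b (k + 1)) = ζ.t σ (pre b' (k + 1))) : b = b' := by
  have hp : ∀ k, pre b k = pre b' k := by
    intro k
    induction k with
    | zero => rfl
    | succ k ih =>
      have h1 := h k
      change ζ.t σ (b k :: pre b k) = ζ.t σ (b' k :: pre b' k) at h1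
      rw [ih] at h1
      change b k :: pre b k = b' k :: pre b' k
      rw [ih, ζ.t_inj σ _ _ _ h1]
  funext k
  have h1 := hp (k + 1)
  exact (List.cons.inj h1).1

/-! ### Independence -/

section
variable {X : Type} {S : TupSys X} {l : Lvl}

/-- Independence for a type at `σ` realised in `x'` and not in `x`. -/
theorem indep (hEI : StEnumIso) (hPC : StPhiCol) (hPB : StPhiBr) (hD : StDens) (hM : Mono S l)
    {G : ℕ → Set (Z × Z)} {D : ℕ → Set ((ℕ → ℕ) × Z)} (hDo : ∀ n, IsOpen (D n))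
    (hDd : ∀ n, Dense (D n)) (hAD : ∀ n c, ∀ w ∈ AnG l (G n) c, ∃ m, w ∉ D m)
    {ψ : (ℕ → Bool) → ℕ → ℕ} (hMyc : MycOK D ψ)
    (hψ : ∀ (w w' : List ℕ) (y y' : ℕ → Bool), y ≠ y' → appendL w (ψ y) ≠ appendL w' (ψ y'))
    {E : X → Z} (hE : ∀ x, ∃ ζ : Enum S l x, IsZ S l ψ ζ (E x)) (x x' : X) (σ : List ℕ)
    (hσ : (lv l σ).isZ = true ∨
      ∀ k μ, jp S x (lv l (μ ++ k :: σ)) [] = jp S x' (lv l (μ ++ k :: σ)) [])
    (t0 : Ty (lv l σ)) (h1 : t0 ∈ jp S x' (lv l σ) []) (h2 : t0 ∉ jp S x (lv l σ) []) :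
    ∃ z, ZIso l z (E x) ∧ ∀ n, (z, E x') ∉ G n := by
  obtain ⟨ζ', hζ'⟩ := hE x'
  obtain ⟨ζ0, hζ0⟩ := hE x
  -- it is enough to find a good extra element
  have main : ∀ (ob : Ob l) (c : Cs), ObOK S l x ob →
      (∀ (ζ : Enum S l x) (z : Z) (b : ℕ → ℕ), IsZ S l ψ ζ z → ObRow S l ψ ζ ob b →
        Phi l c z (E x') = b) → ∃ z, ZIso l z (E x) ∧ ∀ n, (z, E x') ∉ G n := by
    intro ob c hob hrow
    obtain ⟨ζ, z, b, hz, hb, hbD⟩ := hD S l hM D hDo hDd ψ hMyc x ob hob
    refine ⟨z, hEI S l hM ψ x x ζ ζ0 z (E x) hz hζ0 (fun _ => rfl), ?_⟩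
    intro n hn
    have h3 : (b, z) ∈ AnG l (G n) c := ⟨(z, E x'), hn, by
      simp only [Prod.mk.injEq, and_true]
      exact hrow ζ z b hz hb⟩
    obtain ⟨m, hm⟩ := hAD n c _ h3
    exact hm (hbD m)
  obtain ⟨e0, he0⟩ := h1
  rw [List.nil_append] at he0
  -- the new A-node
  obtain ⟨a, ha⟩ : ∃ a : AN (lv l σ), a = (t0, [(e0.length, 1)]) := ⟨_, rfl⟩
  have hκ : KeyOK [(e0.length, 1)] e0.length := KeyOK.single _ _
  have hρ : rho [(e0.length, 1)] ≠ 0 := by
    simp [rho]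
  have ha' : a ∈ ANset S x' (lv l σ) := ⟨e0, [(e0.length, 1)], hκ, hρ, by rw [ha, he0]⟩
  have hax : a ∉ ANset S x (lv l σ) := by
    rintro ⟨e, κ, _, _, he⟩
    rw [ha] at he
    have := congrArg Prod.fst he
    simp only at this
    rw [this] at h2
    exact h2 (tp_mem_jp_nil x _ e)
  obtain ⟨i', hi'⟩ := ζ'.a_sur σ a ha'
  rcases Bool.eq_false_or_eq_true (lv l σ).isZ with hz | hz
  · -- a label
    refine main (.lab σ a) (.lab σ i') ⟨hz, hax⟩ ?_
    intro ζ z b _ hb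
    change b = lbl ψ σ (lv l σ) a at hb
    change (if (lv l σ).isZ = true then row (E x') σ i' else fun _ => 0) = b
    rw [if_pos hz, hζ'.lab_eq σ i' hz, hi', hb]
  · have hσ2 : ∀ k μ, jp S x (lv l (μ ++ k :: σ)) [] = jp S x' (lv l (μ ++ k :: σ)) [] := by
      rcases hσ with h | h
      · rw [h] at hz
        exact absurd hz (by decide)
      · exact h
    by_cases hcase : ∃ (k : ℕ) (e' : List ℕ), ∀ e : List ℕ,
        jp S x' ((lv l σ).chd k) e' ≠ jp S x ((lv l σ).chd k) e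
    · -- a tree node
      obtain ⟨k, e', hke⟩ := hcase
      obtain ⟨κ, hκd⟩ : ∃ κ : List (ℕ × ℕ), κ = List.replicate k (0, 0) ++ [(e'.length, 0)] :=
        ⟨_, rfl⟩
      have hκ1 : KeyOK κ e'.length := by
        refine ⟨?_, List.replicate k (0, 0), 0, hκd⟩
        rw [hκd, List.pairwise_append]
        refine ⟨?_, List.pairwise_singleton _ _, ?_⟩
        · rw [List.pairwise_replicate]
          right
          exact le_refl _
        · intro p hp q _
          rw [List.mem_replicate] at hp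
          rw [hp.2]
          exact Nat.zero_le _
      have hκ2 : κ.length = k + 1 := by
        rw [hκd]
        simp
      have hu' := TNset_mk (S := S) (x := x') (l := lv l σ) hκ1 hκ2
      obtain ⟨u, hu⟩ : ∃ u, u = trunc k (seqOf S x' (lv l σ) e' κ) := ⟨_, rfl⟩
      have hlast : (u k).1 = jp S x' ((lv l σ).chd k) e' := by
        rw [hu]
        exact seqOf_last x' _ e' hκ1 hκ2
      have hkey : keyT k u = κ := by
        rw [hu]
        exact keyT_mk x' _ e' hκ2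
      rw [← hu] at hu'
      obtain ⟨j', s', hs', hjs⟩ := enum_T ζ' σ k u hu'
      subst hs'
      refine main (.col σ s'.length (u s'.length).1 (keyT s'.length u)) (.col σ j' s') ⟨?_, ?_⟩ ?_
      · rw [hlast]
        have h3 := hσ2 s'.length []
        rw [List.nil_append] at h3
        rw [h3]
        rintro t ⟨c, rfl⟩
        exact tp_mem_jp_nil x' _ _
      · rintro v ⟨e, κ', _, _, rfl⟩ ⟨h4, _⟩
        rw [trunc_apply (le_refl _), hlast] at h4
        exact hke _ h4.symm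
      · intro ζ z b hz2 hb
        funext i
        rw [hPC S l hM ψ hψ x x' ζ ζ' z (E x') hz2 hζ' σ j' s' (fun μ => hσ2 s'.length μ) i, hjs]
        exact (hb i).symm
    · -- a branch
      push Not at hcase
      have hpfx : ∀ k, pfx S (lv l σ) k a ∈ TNset S x (lv l σ) k := by
        intro k
        obtain ⟨e, he⟩ := hcase k e0
        have h3 : pfx S (lv l σ) k a = trunc k (seqOf S x' (lv l σ) e0 [(e0.length, 1)]) := by
          rw [ha, he0]
          exact pfx_mk hz hκ k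
        rw [h3, seqOf_congr (S := S) (x := x') (x' := x) (e := e0) (e' := e) [(e0.length, 1)]
          (fun i hi => mono_le (mono_at (mono_lv hM σ)) hi he)]
        apply seqOf_mem
        rw [← jp_len he]
        exact hκ
      refine main (.br σ a) (.br σ i') ⟨hz, hax, ⟨x', ha'⟩, hpfx⟩ ?_
      intro ζ z b hz2 hb
      have h5 := hPB S l hM ψ hψ x x' ζ ζ' z (E x') hz2 hζ' σ i' hz (fun k μ => hσ2 k μ) (by
        rw [hi']
        exact hpfx)
      refine branch_eq ζ σ (fun k => ?_)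
      rw [h5 k, hi']
      exact (hb k).symm

end

/-- The core theorem. -/
theorem stCore (hMyc : StMyc) (hKU : StKU) (hBE : StBorelEnum) (hEI : StEnumIso)
    (hPM : StPhiMeas) (hPI : StPhiIso) (hPC : StPhiCol) (hPB : StPhiBr) (hD : StDens) :
    StCore := by
  intro X _ S hbt l hM G hGa hGi
  -- the dense open sets
  have hex : ∀ p : ℕ × Cs, ∃ D : ℕ → Set ((ℕ → ℕ) × Z), (∀ n, IsOpen (D n)) ∧
      (∀ n, Dense (D n)) ∧ ∀ w ∈ AnG l (G p.1) p.2, ∃ n, w ∉ D n := fun p =>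
    hKU _ (anG_analytic hPM l (hGa p.1) p.2) (anG_countable hPI l (hGi p.1) p.2)
  choose D0 hD1 hD2 hD3 using hex
  obtain ⟨f, hf⟩ := exists_surjective_nat ((ℕ × Cs) × ℕ)
  obtain ⟨D, hDdef⟩ : ∃ D : ℕ → Set ((ℕ → ℕ) × Z), D = fun m => D0 (f m).1 (f m).2 := ⟨_, rfl⟩
  have hDo : ∀ n, IsOpen (D n) := fun n => by rw [hDdef]; exact hD1 _ _
  have hDd : ∀ n, Dense (D n) := fun n => by rw [hDdef]; exact hD2 _ _
  have hAD : ∀ n c, ∀ w ∈ AnG l (G n) c, ∃ m, w ∉ D m := by
    intro n c w hw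
    obtain ⟨m, hm⟩ := hD3 (n, c) w hw
    obtain ⟨m', hm'⟩ := hf ((n, c), m)
    refine ⟨m', ?_⟩
    rw [hDdef]
    simp only [hm']
    exact hm
  obtain ⟨ψ, hψc, hψM, hψ⟩ := hMyc D hDo hDd
  obtain ⟨E, hEm, hE⟩ := hBE S hbt l hM ψ hψc
  have hiso : ∀ x x', (∀ l', jp S x l' [] = jp S x' l' []) → ZIso l (E x) (E x') := by
    intro x x' h
    obtain ⟨ζ, hζ⟩ := hE x
    obtain ⟨ζ', hζ'⟩ := hE x'
    exact hEI S l hM ψ x x' ζ ζ' (E x) (E x') hζ hζ' h
  refine ⟨E, hEm, hiso, ?_⟩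
  intro x x' hne
  have hne2 : jp S x (lv l []) [] ≠ jp S x' (lv l []) [] := fun h => hne (jp_tp h)
  obtain ⟨σ, h1, h2⟩ := descent S x x' l ⟨[], hne2⟩
  have hind := fun y y' => indep (S := S) (l := l) hEI hPC hPB hD hM hDo hDd hAD hψM hψ hE y y' σ
  by_cases h3 : ∃ t0, t0 ∈ jp S x' (lv l σ) [] ∧ t0 ∉ jp S x (lv l σ) []
  · obtain ⟨t0, h4, h5⟩ := h3
    obtain ⟨z, hz1, hz2⟩ := hind x x' h2 t0 h4 h5
    exact ⟨z, E x', hz1, hiso x' x' (fun _ => rfl), Or.inl hz2⟩
  · push Not at h3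
    have h6 : ∃ t0, t0 ∈ jp S x (lv l σ) [] ∧ t0 ∉ jp S x' (lv l σ) [] := by
      by_contra hcon
      push Not at hcon
      exact h1 (Set.Subset.antisymm hcon h3)
    obtain ⟨t0, h4, h5⟩ := h6
    obtain ⟨z, hz1, hz2⟩ := hind x' x (h2.imp id (fun h k μ => (h k μ).symm)) t0 h4 h5
    exact ⟨E x, z, hiso x x (fun _ => rfl), hz1, Or.inr hz2⟩

end Pool.Bc
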