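import Mathlib

/-!
# Project BC (MP_f9d653_lc): definitions

Levels, types of finite tuples, nodes, colours, enumerations.
A tuple system is a set `X` of countable structures on the natural numbers, given only through the
atomic types of finite tuples.
-/

set_option autoImplicit false

namespace Pool.Bc

/-- Well founded levels. -/
inductive Lvl : Type
  | zero : Lvl
  | node : (ℕ → Lvl) → Lvl

namespace Lvl

/-- The children of a level (the children of `zero` are `zero`). -/
def chd : Lvl → ℕ → Lvl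
  | .zero, _ => .zero
  | .node s, k => s k

/-- `zero` or not. -/
def isZ : Lvl → Bool
  | .zero => true
  | .node _ => false

end Lvl

/-- Types of level `l`. -/
def Ty : Lvl → Type
  | .zero => ℕ → Bool
  | .node s => ∀ k, Set (Ty (s k))

/-- Subtuple with index list `J`. -/
def sel (e J : List ℕ) : List ℕ := J.map (fun j => e.getD j 0)

/-- A tuple system: atomic types of finite tuples. -/
structure TupSys (X : Type) where
  bt : X → List ℕ → ℕ → Bool
  len : ∀ {x x' : X} {e e' : List ℕ}, bt x e = bt x' e' → e.length = e'.length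
  sub : ∀ {x x' : X} {e e' : List ℕ} (J : List ℕ), bt x e = bt x' e' →
    (∀ j ∈ J, j < e.length) → bt x (sel e J) = bt x' (sel e' J)

section
variable {X : Type} (S : TupSys X)

/-- The type of level `l` of the tuple `e` in the structure `x`. -/
def tp (x : X) : (l : Lvl) → List ℕ → Ty l
  | .zero, e => S.bt x e
  | .node s, e => fun k => {t | ∃ c, t = tp x (s k) (e ++ c)}

/-- The set of all types of level `l` of the tuples extending `e`. -/
def jp (x : X) (l : Lvl) (e : List ℕ) : Set (Ty l) := {t | ∃ c, t = tp S x l (e ++ c)}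

/-- Monotone at one level: the `k+1`-st child determines the `k`-th child. -/
def MonoAt (l : Lvl) : Prop :=
  ∀ (k : ℕ) (x x' : X) (e e' : List ℕ), jp S x (l.chd (k + 1)) e = jp S x' (l.chd (k + 1)) e' →
    jp S x (l.chd k) e = jp S x' (l.chd k) e'

/-- Hereditarily monotone. -/
def Mono : Lvl → Prop
  | .zero => True
  | .node s => MonoAt S (.node s) ∧ ∀ k, Mono (s k)

end

/-- The level of a position; a position is a path, deepest step first. -/
def lv (l : Lvl) : List ℕ → Lvl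
  | [] => l
  | k :: σ => (lv l σ).chd k

/-- Nodes of the `A`-sorts: (type, key). -/
abbrev AN (l : Lvl) : Type := Ty l × List (ℕ × ℕ)

/-- Nodes of the `T`-sorts (truncated sequences). -/
abbrev TN (l : Lvl) : Type := ∀ i : ℕ, Set (Ty (l.chd i)) × (ℕ × ℕ)

/-- Key condition: the lengths are nondecreasing and the last one is `m`. -/
def KeyOK (κ : List (ℕ × ℕ)) (m : ℕ) : Prop :=
  List.Pairwise (fun a b : ℕ × ℕ => a.1 ≤ b.1) κ ∧ ∃ κ' n, κ = κ' ++ [(m, n)]

/-- The last index of a key. -/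
def rho (κ : List (ℕ × ℕ)) : ℕ := (κ.getLast?.getD (0, 0)).2

/-- Truncation after depth `k`. -/
def trunc {l : Lvl} (k : ℕ) (u : TN l) : TN l := fun i => if i ≤ k then u i else (∅, (0, 0))

/-- The key of a `T`-node of depth `k`. -/
def keyT {l : Lvl} (k : ℕ) (u : TN l) : List (ℕ × ℕ) := (List.range (k + 1)).map (fun i => (u i).2)

/-- Tables: (entries of the upper role, (blocks, entries of the lower role), initial part of the label). -/
abbrev Rul : Type :=
  List (List ℕ × List (ℕ × ℕ) × ℕ) ×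
    (List (List ℕ) × List (List (ℕ × ℕ) × List Bool × ℕ)) × List ℕ

/-- Decoding of tables; every table has infinitely many codes. -/
def dec (n : ℕ) : Rul := (Encodable.decode (α := Rul) n.unpair.1).getD ([], ([], []), [])

section
variable {X : Type} (S : TupSys X)

/-- The sequence given by a tuple and a key. -/
def seqOf (x : X) (l : Lvl) (e : List ℕ) (κ : List (ℕ × ℕ)) : TN l := fun i =>
  (jp S x (l.chd i) (e.take (κ.getD i (e.length, 0)).1), κ.getD i (e.length, 0))

/-- The `A`-nodes of `x` at level `l`. -/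
def ANset (x : X) (l : Lvl) : Set (AN l) :=
  {a | ∃ (e : List ℕ) (κ : List (ℕ × ℕ)), KeyOK κ e.length ∧ rho κ ≠ 0 ∧ a = (tp S x l e, κ)}

/-- The `T`-nodes of `x` of depth `k` at level `l`. -/
def TNset (x : X) (l : Lvl) (k : ℕ) : Set (TN l) :=
  {u | ∃ (e : List ℕ) (κ : List (ℕ × ℕ)), KeyOK κ e.length ∧ κ.length = k + 1 ∧
    u = trunc k (seqOf S x l e κ)}

open Classical in
/-- The restriction to depth `k` of an `A`-node (used for levels `node s` only). -/
noncomputable def pfx (l : Lvl) (k : ℕ) (a : AN l) : TN l :=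
  if h : ∃ (x : X) (e : List ℕ), KeyOK a.2 e.length ∧ a.1 = tp S x l e then
    trunc k (seqOf S h.choose l h.choose_spec.choose a.2)
  else fun _ => (∅, (0, 0))

/-- Test of the tables of upper nodes. -/
def upTest (l : Lvl) (J : List ℕ) (y : Ty l) (Q : Set (Ty l)) : Prop :=
  ∃ (x : X) (e : List ℕ), (∀ j ∈ J, j < e.length) ∧ jp S x l e = Q ∧ tp S x l (sel e J) = y

/-- Test of the tables of lower nodes. -/
def lowTest (l : Lvl) (I : List ℕ) (y : Ty l) (Q : Set (Ty l)) : Prop :=
  ∃ (x : X) (e : List ℕ), (∀ j ∈ I, j < e.length) ∧ tp S x l e = y ∧ tp S x l (sel e I) ∈ Q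

open Classical in
/-- The colour of the lower node `y` and the upper profile `(Q, κ)`. -/
noncomputable def col (l : Lvl) (y : AN l) (Q : Set (Ty l)) (κ : List (ℕ × ℕ)) : ℕ :=
  if h : ∃ (β : ℕ) (J : List ℕ), (J, y.2, β) ∈ (dec (rho κ)).1 ∧ upTest S l J y.1 Q then h.choose
  else if h : ∃ β : ℕ, (κ, (dec (rho y.2)).2.1.1.map (fun I => decide (lowTest S l I y.1 Q)), β) ∈
      (dec (rho y.2)).2.1.2 then h.choose
  else 0

/-- The colour of an `A`-node of the `k`-th child and a `T`-node of depth `k`. -/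
noncomputable def colT (l : Lvl) (k : ℕ) (y : AN (l.chd k)) (u : TN l) : ℕ :=
  col S (l.chd k) y (u k).1 (keyT k u)

end

/-- Injective coding of (position, key, atomic type) by a real. -/
def code3 (σ : List ℕ) (κ : List (ℕ × ℕ)) (t : ℕ → Bool) : ℕ → Bool := fun i =>
  if i < Encodable.encode (σ, κ) then true
  else if i = Encodable.encode (σ, κ) then false
  else t (i - Encodable.encode (σ, κ) - 1)

/-- Concatenation of a finite and an infinite sequence. -/
def appendL (w : List ℕ) (f : ℕ → ℕ) : ℕ → ℕ := fun i =>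
  if i < w.length then w.getD i 0 else f (i - w.length)

/-- Labels of the nodes of level zero (dummy for the other levels). -/
def lbl (ψ : (ℕ → Bool) → ℕ → ℕ) (σ : List ℕ) : (l : Lvl) → AN l → ℕ → ℕ
  | .zero, a => appendL (dec (rho a.2)).2.2 (ψ (code3 σ a.2 a.1))
  | .node _, _ => fun _ => 0

/-- Initial segments, newest entry first. -/
def pre (t : ℕ → ℕ) : ℕ → List ℕ
  | 0 => []
  | k + 1 => t k :: pre t k

/-- Coordinates of the space `Z`: `inl (σ, i, t)` is entry `t` of the row (label or branch) of the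
`i`-th `A`-element at `σ`; `inr (σ, j, s, i)` is the colour of the `i`-th `A`-element at
`s.length :: σ` and the `T`-element `j :: s` at `σ`. -/
abbrev ZC : Type := (List ℕ × ℕ × ℕ) ⊕ (List ℕ × ℕ × List ℕ × ℕ)

/-- The space of enumerated structures. -/
abbrev Z : Type := ZC → ℕ

/-- Row of the `i`-th `A`-element at `σ`. -/
def row (z : Z) (σ : List ℕ) (i : ℕ) : ℕ → ℕ := fun t => z (Sum.inl (σ, i, t))

/-- Colour of the `i`-th `A`-element at `s.length :: σ` and the `T`-element `j :: s` at `σ`. -/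
def bit (z : Z) (σ : List ℕ) (j : ℕ) (s : List ℕ) (i : ℕ) : ℕ := z (Sum.inr (σ, j, s, i))

/-- Isomorphism of enumerated structures. -/
def ZIso (l : Lvl) (z z' : Z) : Prop :=
  ∃ (πA : List ℕ → Equiv.Perm ℕ) (πT : List ℕ → Equiv.Perm (List ℕ)),
    (∀ σ s, (πT σ s).length = s.length) ∧ (∀ σ j s, (πT σ (j :: s)).tail = πT σ s) ∧
    (∀ σ j s j' s' i, πT σ (j :: s) = j' :: s' →
      bit z' σ j' s' (πA (s.length :: σ) i) = bit z σ j s i) ∧
    (∀ σ i, (lv l σ).isZ = true → row z' σ (πA σ i) = row z σ i) ∧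
    (∀ σ i, (lv l σ).isZ = false → ∀ k, pre (row z' σ (πA σ i)) k = πT σ (pre (row z σ i) k))

section
variable {X : Type} (S : TupSys X)

/-- Enumerations of all nodes of `x`. -/
structure Enum (l : Lvl) (x : X) where
  a : ∀ σ : List ℕ, ℕ → AN (lv l σ)
  t : ∀ σ : List ℕ, List ℕ → TN (lv l σ)
  a_inj : ∀ σ, Function.Injective (a σ)
  a_mem : ∀ σ i, a σ i ∈ ANset S x (lv l σ)
  a_sur : ∀ σ, ∀ y ∈ ANset S x (lv l σ), ∃ i, a σ i = y
  t_mem : ∀ σ j s, t σ (j :: s) ∈ TNset S x (lv l σ) s.length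
  t_par : ∀ σ j j' s, trunc s.length (t σ (j :: j' :: s)) = t σ (j' :: s)
  t_inj : ∀ σ s j j', t σ (j :: s) = t σ (j' :: s) → j = j'
  t_sur0 : ∀ σ, ∀ u ∈ TNset S x (lv l σ) 0, ∃ j, t σ [j] = u
  t_sur : ∀ σ j s, ∀ u ∈ TNset S x (lv l σ) (s.length + 1),
    trunc s.length u = t σ (j :: s) → ∃ j', t σ (j' :: j :: s) = u

/-- `z` is the point of the enumeration `ζ`. -/
structure IsZ (l : Lvl) (ψ : (ℕ → Bool) → ℕ → ℕ) {x : X} (ζ : Enum S l x) (z : Z) : Prop where
  bit_eq : ∀ σ j s i, bit z σ j s i =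
    colT S (lv l σ) s.length (ζ.a (s.length :: σ) i) (ζ.t σ (j :: s))
  lab_eq : ∀ σ i, (lv l σ).isZ = true → row z σ i = lbl ψ σ (lv l σ) (ζ.a σ i)
  br_eq : ∀ σ i, (lv l σ).isZ = false → ∀ k,
    ζ.t σ (pre (row z σ i) (k + 1)) = pfx S (lv l σ) k (ζ.a σ i)

/-- Extra elements: a label, an upper profile, a branch. -/
inductive Ob (l : Lvl) : Type
  | lab (σ : List ℕ) (a : AN (lv l σ)) : Ob l
  | col (σ : List ℕ) (k : ℕ) (Q : Set (Ty (lv l (k :: σ)))) (κ : List (ℕ × ℕ)) : Ob l
  | br (σ : List ℕ) (a : AN (lv l σ)) : Ob l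

/-- The extra element is new for `x`, but all sets below are those of `x`. -/
def ObOK (l : Lvl) (x : X) : Ob l → Prop
  | .lab σ a => (lv l σ).isZ = true ∧ a ∉ ANset S x (lv l σ)
  | .col σ k Q κ => Q ⊆ jp S x (lv l (k :: σ)) [] ∧
      ∀ u ∈ TNset S x (lv l σ) k, ¬ ((u k).1 = Q ∧ keyT k u = κ)
  | .br σ a => (lv l σ).isZ = false ∧ a ∉ ANset S x (lv l σ) ∧
      (∃ x' : X, a ∈ ANset S x' (lv l σ)) ∧ ∀ k, pfx S (lv l σ) k a ∈ TNset S x (lv l σ) k

/-- `b` is the row of the extra element relative to the enumeration `ζ`. -/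
def ObRow (l : Lvl) (ψ : (ℕ → Bool) → ℕ → ℕ) {x : X} (ζ : Enum S l x) :
    Ob l → (ℕ → ℕ) → Prop
  | .lab σ a, b => b = lbl ψ σ (lv l σ) a
  | .col σ k Q κ, b => ∀ i, b i = col S (lv l (k :: σ)) (ζ.a (k :: σ) i) Q κ
  | .br σ a, b => ∀ k, ζ.t σ (pre b (k + 1)) = pfx S (lv l σ) k a

end

/-- Rows of `(ℕ → ℕ) × Z`: `none` is the first component. -/
def rowW (R : Option (List ℕ × ℕ)) (w : (ℕ → ℕ) × Z) : ℕ → ℕ :=
  match R with
  | none => w.1
  | some p => row w.2 p.1 p.2

/-- Coordinates of `(ℕ → ℕ) × Z`. -/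
abbrev WC : Type := ℕ ⊕ ZC

/-- Value of a coordinate. -/
def wc (w : (ℕ → ℕ) × Z) : WC → ℕ
  | Sum.inl t => w.1 t
  | Sum.inr c => w.2 c

/-- The row to which a coordinate belongs (if any). -/
def rowOf : WC → Option (Option (List ℕ × ℕ))
  | Sum.inl _ => some none
  | Sum.inr (Sum.inl (σ, i, _)) => some (some (σ, i))
  | Sum.inr (Sum.inr _) => none

/-- Configurations: prescribed rows (with initial parts) and finitely many prescribed coordinates. -/
def CfgOK (rows : List (Option (List ℕ × ℕ) × List ℕ)) (F : List (WC × ℕ)) : Prop :=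
  (rows.map Prod.fst).Nodup ∧ (F.map Prod.fst).Nodup ∧
    ∀ cv ∈ F, ∀ R ∈ rows.map Prod.fst, rowOf cv.1 ≠ some R

/-- Values of the prescribed rows for which `D` has a compatible point. -/
def Dst (D : Set ((ℕ → ℕ) × Z)) (rows : List (Option (List ℕ × ℕ) × List ℕ))
    (F : List (WC × ℕ)) : Set (Fin rows.length → ℕ → ℕ) :=
  {ρ | ∃ w ∈ D, (∀ cv ∈ F, wc w cv.1 = cv.2) ∧
    ∀ i : Fin rows.length, rowW (rows.get i).1 w = appendL (rows.get i).2 (ρ i)}

/-- The Mycielski property of `ψ` for the family `D`. -/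
def MycOK (D : ℕ → Set ((ℕ → ℕ) × Z)) (ψ : (ℕ → Bool) → ℕ → ℕ) : Prop :=
  ∀ n rows F, CfgOK rows F → ∀ y : Fin rows.length → ℕ → Bool, Function.Injective y →
    (fun i => ψ (y i)) ∈ Dst (D n) rows F

end Pool.Bc
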