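import Pool.Agent.Bc.Stmts

/-!
# Project BC: the extension properties EP1, EP2
-/

set_option autoImplicit false

namespace Pool.Bc

variable {X : Type} {S : TupSys X}

theorem sel_block (u d v : List ℕ) : ∃ J : List ℕ, (∀ j ∈ J, j < (u ++ d ++ v).length) ∧
    sel (u ++ d ++ v) J = d := by
  refine ⟨(List.range d.length).map (fun i => u.length + i), ?_, ?_⟩
  · intro j hj
    rw [List.mem_map] at hj
    obtain ⟨i, hi, rfl⟩ := hj
    rw [List.mem_range] at hi
    rw [List.length_append, List.length_append]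
    omega
  · unfold sel
    rw [List.map_map]
    apply List.ext_getElem
    · simp
    · intro i h1 h2
      simp only [List.getElem_map, List.getElem_range, Function.comp]
      rw [List.append_assoc, List.getD_append_right _ _ _ _ (Nat.le_add_right _ _),
        Nat.add_sub_cancel_left, List.getD_append _ _ _ _ h2]
      exact List.getD_eq_getElem _ _ h2

theorem sel_flatten (e0 : List ℕ) (ws : List (List ℕ)) {w : List ℕ} (hw : w ∈ ws) :
    ∃ J : List ℕ, (∀ j ∈ J, j < (e0 ++ ws.flatten).length) ∧ sel (e0 ++ ws.flatten) J = w := by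
  obtain ⟨l1, l2, rfl⟩ := List.append_of_mem hw
  have : e0 ++ (l1 ++ w :: l2).flatten = (e0 ++ l1.flatten) ++ w ++ l2.flatten := by
    simp [List.append_assoc]
  rw [this]
  exact sel_block _ _ _

theorem stEP2 : StEP2 := by
  classical
  intro X S x l e0 κ0 Y hY hrep β N
  choose! d hd using hrep
  set ys : List (AN l) := hY.toFinset.toList with hys
  have hmem : ∀ y, y ∈ ys ↔ y ∈ Y := by
    intro y
    rw [hys, Finset.mem_toList, Set.Finite.mem_toFinset]
  set c : List ℕ := (ys.map d).flatten with hc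
  have hJ : ∀ y ∈ Y, ∃ J : List ℕ, (∀ j ∈ J, j < (e0 ++ c).length) ∧ sel (e0 ++ c) J = d y := by
    intro y hy
    exact sel_flatten e0 _ (List.mem_map.mpr ⟨y, (hmem y).mpr hy, rfl⟩)
  choose! J hJ1 hJ2 using hJ
  obtain ⟨n, hn1, _, hn3⟩ := dec_enc (ys.map (fun y => (J y, y.2, β y)), ([], []), []) N
  refine ⟨c, n, hn1, ?_⟩
  intro y hy
  have hex : ∃ (β' : ℕ) (J' : List ℕ),
      (J', y.2, β') ∈ (dec (rho (κ0 ++ [((e0 ++ c).length, n)]))).1 ∧
        upTest S l J' y.1 (jp S x l (e0 ++ c)) := by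
    refine ⟨β y, J y, ?_, x, e0 ++ c, hJ1 y hy, rfl, ?_⟩
    · rw [rho_append, hn3]
      exact List.mem_map.mpr ⟨y, (hmem y).mpr hy, rfl⟩
    · rw [hJ2 y hy, ← hd y hy]
  unfold col
  rw [dif_pos hex]
  obtain ⟨J', h1, x', e', h2, h3, h4⟩ := hex.choose_spec
  generalize hex.choose = b0 at h1 ⊢
  rw [rho_append, hn3] at h1
  obtain ⟨y', hy', hyeq⟩ := List.mem_map.mp h1
  have hy'Y : y' ∈ Y := (hmem y').mp hy'
  simp only [Prod.mk.injEq] at hyeq
  obtain ⟨e1, e2, e3⟩ := hyeq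
  have h5 : tp S x' l (sel e' J') = tp S x l (sel (e0 ++ c) J') := tp_sel l J' (jp_tp h3) h2
  rw [h4, ← e1, hJ2 y' hy'Y, ← hd y' hy'Y] at h5
  have : y' = y := Prod.ext h5.symm e2
  rw [← e3, this]

theorem stEP1 : StEP1 := by
  classical
  intro X S x l e0 κ0 U hU hsub β w N
  have hW : ∀ p q : Set (Ty l) × List (ℕ × ℕ), p ∈ U → q ∈ U → p.1 ≠ q.1 → ∃ w : List ℕ,
      ¬ (tp S x l w ∈ p.1 ↔ tp S x l w ∈ q.1) := by
    intro p q hp hq hpq
    by_contra hcon
    push Not at hcon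
    apply hpq
    ext t
    constructor
    · intro ht
      obtain ⟨c, hc⟩ := hsub p hp ht
      rw [List.nil_append] at hc
      rw [hc] at ht ⊢
      exact (hcon c).mp ht
    · intro ht
      obtain ⟨c, hc⟩ := hsub q hq ht
      rw [List.nil_append] at hc
      rw [hc] at ht ⊢
      exact (hcon c).mpr ht
  choose! W hW using hW
  set us : List (Set (Ty l) × List (ℕ × ℕ)) := hU.toFinset.toList with hus
  have hmem : ∀ p, p ∈ us ↔ p ∈ U := by
    intro p
    rw [hus, Finset.mem_toList, Set.Finite.mem_toFinset]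
  set ws : List (List ℕ) := us.flatMap (fun p => us.map (fun q => W p q)) with hws
  set c : List ℕ := ws.flatten with hc
  have hI : ∀ w' ∈ ws, ∃ I : List ℕ, (∀ j ∈ I, j < (e0 ++ c).length) ∧ sel (e0 ++ c) I = w' :=
    fun w' hw' => sel_flatten e0 ws hw'
  choose! I hI1 hI2 using hI
  set B : ℕ := ((us.map (fun p => ((dec (rho p.2)).1.map (fun en => rho en.2.1 + 1)).sum)).sum)
    with hB
  obtain ⟨n, hn1, hn2, hn3⟩ := dec_enc ([], (ws.map I, us.map (fun p =>
    (p.2, (ws.map I).map (fun I' => decide (lowTest S l I' (tp S x l (e0 ++ c)) p.1)), β p))), w)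
    (N + B)
  refine ⟨c, n, le_trans (Nat.le_add_right _ _) hn1, hn2, by rw [hn3], ?_⟩
  intro p hp
  have hno : ¬ ∃ (β' : ℕ) (J : List ℕ), (J, (κ0 ++ [((e0 ++ c).length, n)]), β') ∈
      (dec (rho p.2)).1 ∧ upTest S l J (tp S x l (e0 ++ c)) p.1 := by
    rintro ⟨β', J, h1, _⟩
    have h2 : rho (κ0 ++ [((e0 ++ c).length, n)]) + 1 ≤ B := by
      have h3 : rho (κ0 ++ [((e0 ++ c).length, n)]) + 1 ≤
          ((dec (rho p.2)).1.map (fun en => rho en.2.1 + 1)).sum :=
        List.single_le_sum (fun _ _ => Nat.zero_le _) _ (List.mem_map.mpr ⟨_, h1, rfl⟩)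
      refine le_trans h3 ?_
      rw [hB]
      exact List.single_le_sum (fun _ _ => Nat.zero_le _) _
        (List.mem_map.mpr ⟨p, (hmem p).mpr hp, rfl⟩)
    rw [rho_append] at h2
    omega
  have hlow : ∀ w' ∈ ws, ∀ Q : Set (Ty l),
      (lowTest S l (I w') (tp S x l (e0 ++ c)) Q ↔ tp S x l w' ∈ Q) := by
    intro w' hw' Q
    constructor
    · rintro ⟨x', e', h1, h2, h3⟩
      have h4 := tp_sel l (I w') h2 h1
      rw [hI2 w' hw'] at h4
      rwa [h4] at h3
    · intro h1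
      exact ⟨x, e0 ++ c, hI1 w' hw', rfl, by rw [hI2 w' hw']; exact h1⟩
  unfold col
  rw [dif_neg hno]
  have hd : dec (rho (κ0 ++ [((e0 ++ c).length, n)])) = ([], (ws.map I, us.map (fun p =>
    (p.2, (ws.map I).map (fun I' => decide (lowTest S l I' (tp S x l (e0 ++ c)) p.1)), β p))), w) := by
    rw [rho_append, hn3]
  have hex : ∃ β' : ℕ, (p.2, (dec (rho (κ0 ++ [((e0 ++ c).length, n)]))).2.1.1.map
      (fun I' => decide (lowTest S l I' (tp S x l (e0 ++ c)) p.1)), β') ∈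
      (dec (rho (κ0 ++ [((e0 ++ c).length, n)]))).2.1.2 := by
    refine ⟨β p, ?_⟩
    rw [hd]
    exact List.mem_map.mpr ⟨p, (hmem p).mpr hp, rfl⟩
  rw [dif_pos hex]
  have h1 := hex.choose_spec
  generalize hex.choose = b0 at h1 ⊢
  rw [hd] at h1
  obtain ⟨q, hq, hqeq⟩ := List.mem_map.mp h1
  have hqU : q ∈ U := (hmem q).mp hq
  simp only [Prod.mk.injEq] at hqeq
  obtain ⟨e1, e2, e3⟩ := hqeq
  have hqp : q = p := by
    by_cases h2 : p.1 = q.1
    · exact Prod.ext h2.symm e1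
    · exfalso
      have hw' : W p q ∈ ws := by
        rw [hws]
        exact List.mem_flatMap.mpr ⟨p, (hmem p).mpr hp, List.mem_map.mpr ⟨q, hq, rfl⟩⟩
      have h3 := (List.map_inj_left.mp e2) (I (W p q)) (List.mem_map.mpr ⟨_, hw', rfl⟩)
      have h4 : (tp S x l (W p q) ∈ q.1 ↔ tp S x l (W p q) ∈ p.1) := by
        rw [← hlow _ hw' q.1, ← hlow _ hw' p.1]
        exact decide_eq_decide.mp h3
      exact hW p q hp hqU h2 h4.symm
  rw [← e3, hqp]

end Pool.Bc
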