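import Pool.Agent.Bc.Stmts4

/-!
# Project BC: deciding finitely many coordinates
-/

set_option autoImplicit false

namespace Pool.Bc

variable {X : Type} {S : TupSys X} {l : Lvl} {x : X}

theorem det_iter (hDet : StDetStep) (hM : Mono S l) {ψ : (ℕ → Bool) → ℕ → ℕ} {ob : Ob l}
    (hob : ObOK S l x ob) {W : (ℕ → ℕ) × Z} {p : PE S l x} {K : ℕ} (hR : Ready p ob K)
    (hG : Good ψ p ob K W) : ∀ n, ∃ q : PE S l x, PE.Le p q ∧ q.dA = p.dA ∧
      q.fA = p.fA ∧ Ready q ob (K + n) ∧ Good ψ q ob (K + n) W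
  | 0 => ⟨p, PE.Le.refl p, rfl, rfl, hR, hG⟩
  | n + 1 => by
      obtain ⟨q, h1, h2, h3, h4, h5⟩ := det_iter hDet hM hob hR hG n
      obtain ⟨r, g1, g2, g3, g4, g5⟩ := hDet S l hM ψ x ob hob q (K + n) h4 W h5
      exact ⟨r, h1.trans g1, g2.trans h2, g3.trans h3, g4, g5⟩

theorem Good.rowOK {ψ : (ℕ → Bool) → ℕ → ℕ} {ob : Ob l} {W : (ℕ → ℕ) × Z} {p : PE S l x}
    {K : ℕ} (hG : Good ψ p ob K W) (σ : List ℕ) (i : ℕ) (hi : (σ, i) ∈ p.dA) :
    RowOK ψ p W K σ i := by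
  constructor
  · intro hz t _
    rw [hG.lab σ i hi hz]
  · intro hz k hk
    obtain ⟨m, rfl⟩ : ∃ m, K = m + 1 := ⟨K - 1, by omega⟩
    obtain ⟨h1, h2⟩ := hG.br σ i hi hz
    obtain ⟨h3, h4⟩ := PE.fT_pre h1 k (by omega)
    refine ⟨h3, ?_⟩
    rw [h4, h2, Nat.add_sub_cancel]
    exact trunc_pfx hz (p.A_mem σ i hi) (by omega)

theorem Good.obrow {ψ : (ℕ → Bool) → ℕ → ℕ} {ob : Ob l} (hob : ObOK S l x ob)
    {W : (ℕ → ℕ) × Z} {p : PE S l x}
    {K : ℕ} (hG : Good ψ p ob K W) (σ : List ℕ) (a : AN (lv l σ)) (h : ob = .br σ a) :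
    ∀ k < K, (σ, pre W.1 (k + 1)) ∈ p.dT ∧
      p.fT σ (pre W.1 (k + 1)) = pfx S (lv l σ) k a := by
  intro k hk
  obtain ⟨m, rfl⟩ : ∃ m, K = m + 1 := ⟨K - 1, by omega⟩
  obtain ⟨h1, h2⟩ := hG.obr σ a h
  obtain ⟨h3, h4⟩ := PE.fT_pre h1 k (by omega)
  refine ⟨h3, ?_⟩
  rw [h4, h2, Nat.add_sub_cancel]
  rw [h] at hob
  obtain ⟨hz, _, ⟨x', hx'⟩, _⟩ := hob
  exact trunc_pfx hz hx' (by omega)

/-- Add finitely many `A`-indices. -/
theorem Cp.addAs (hM : Mono S l) {ψ : (ℕ → Bool) → ℕ → ℕ} {ob : Ob l}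
    {W : (ℕ → ℕ) × Z} (hob : ObOK S l x ob) (M : ℕ) : ∀ (L : List (List ℕ × ℕ)) {p : PE S l x},
    Cp p ob W → (∀ P ∈ L, (P.1, pre (row W.2 P.1 P.2) M) ∈ p.dT) →
    (∀ σ i, (σ, i) ∈ p.dA → RowOK ψ p W M σ i) →
    ∃ q : PE S l x, PE.Le p q ∧ q.dT = p.dT ∧ Cp q ob W ∧
      (∀ σ i, (σ, i) ∈ q.dA → RowOK ψ q W M σ i) ∧ ∀ P ∈ L, P ∈ q.dA
  | [], p, hp, _, h2 => ⟨p, PE.Le.refl p, rfl, hp, h2, fun _ h => absurd h (by simp)⟩
  | P :: L, p, hp, h1, h2 => by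
      by_cases hi : (P.1, P.2) ∈ p.dA
      · obtain ⟨q, a1, a2, a3, a4, a5⟩ := Cp.addAs hM hob M L hp
          (fun P' hP' => h1 P' (by simp [hP'])) h2
        refine ⟨q, a1, a2, a3, a4, ?_⟩
        intro P' hP'
        rcases List.mem_cons.mp hP' with h | h
        · rw [h]
          exact (a1.A _ _ hi).1
        · exact a5 P' h
      · obtain ⟨p1, b1, b2, b3, b4, b5⟩ := hp.addA (ψ := ψ) hM hob P.1 P.2 M hi
          (fun _ _ => h1 P (by simp))
        obtain ⟨q, a1, a2, a3, a4, a5⟩ := Cp.addAs hM hob M L b4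
          (fun P' hP' => by rw [b2]; exact h1 P' (by simp [hP'])) (by
            intro σ i hσ
            rw [b3] at hσ
            rcases hσ with hσ | hσ
            · rw [(Prod.mk.inj hσ).1, (Prod.mk.inj hσ).2]
              exact b5
            · exact (h2 σ i hσ).mono b1 hσ)
        refine ⟨q, b1.trans a1, a2.trans b2, a3, a4, ?_⟩
        intro P' hP'
        rcases List.mem_cons.mp hP' with h | h
        · rw [h]
          exact (a1.A P.1 P.2 (by rw [b3]; exact Set.mem_insert _ _)).1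
        · exact a5 P' h

theorem RowOK.le {ψ : (ℕ → Bool) → ℕ → ℕ} {p : PE S l x} {W : (ℕ → ℕ) × Z} {M m : ℕ}
    {σ : List ℕ} {i : ℕ} (hm : m ≤ M) (hr : RowOK ψ p W M σ i) : RowOK ψ p W m σ i :=
  ⟨fun hz t ht => hr.1 hz t (by omega), fun hz k hk => hr.2 hz k (by omega)⟩

/-- The `A`-indices of a coordinate. -/
def cA (ob : Ob l) : WC → List (List ℕ × ℕ)
  | Sum.inl t => match ob with
    | .col σ k _ _ => [(k :: σ, t)]
    | _ => []
  | Sum.inr (Sum.inl (σ, i, _)) => [(σ, i)]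
  | Sum.inr (Sum.inr (σ, _, s, i)) => [(s.length :: σ, i)]

/-- The tree indices of a coordinate. -/
def cT : WC → List (List ℕ × List ℕ)
  | Sum.inr (Sum.inr (σ, j, s, _)) => [(σ, j :: s)]
  | _ => []

/-- The place of a coordinate in its row. -/
def cN : WC → ℕ
  | Sum.inl t => t + 1
  | Sum.inr (Sum.inl (_, _, t)) => t + 1
  | Sum.inr (Sum.inr _) => 0

theorem stExt (hDet : StDetStep) : StExt := by
  intro X S l hM ψ x ob hob p K hR W hG C
  obtain ⟨p1, a1, a2, a3, a4, a5⟩ := det_iter hDet hM hob hR hG (C.sup cN)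
  set M := K + C.sup cN with hMdef
  have hM0 : 0 < M := by
    have := hR.pos
    omega
  have hN : ∀ c ∈ C, cN c ≤ M := by
    intro c hc
    have := Finset.le_sup (f := cN) hc
    omega
  set LA : List (List ℕ × ℕ) := C.toList.flatMap (cA ob) with hLA
  set LT : List (List ℕ × List ℕ) := C.toList.flatMap cT ++
    LA.map (fun P => (P.1, pre (row W.2 P.1 P.2) M)) with hLT
  have hne : ∀ P ∈ LT, P.2 ≠ [] := by
    intro P hP h0
    rw [hLT, List.mem_append] at hP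
    rcases hP with hP | hP
    · rw [List.mem_flatMap] at hP
      obtain ⟨c, _, hc⟩ := hP
      rcases c with t | ⟨σ, i, t⟩ | ⟨σ, j, s, i⟩
      · simp [cT] at hc
      · simp [cT] at hc
      · simp only [cT, List.mem_singleton] at hc
        rw [hc] at h0
        simp at h0
    · rw [List.mem_map] at hP
      obtain ⟨P', _, rfl⟩ := hP
      have := congrArg List.length h0
      simp only [preLen, List.length_nil] at this
      omega
  obtain ⟨p2, b1, b2, b3, b4, b5⟩ := Cp.addTs LT hne a5.cp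
  obtain ⟨q, c1, c2, c3, c4, c5⟩ := Cp.addAs (ψ := ψ) hM hob M LA b4
    (fun P hP => b5 _ (by
      rw [hLT, List.mem_append]
      right
      exact List.mem_map.mpr ⟨P, hP, rfl⟩))
    (fun σ i hi => by
      rw [b2] at hi
      exact (a5.rowOK σ i hi).mono b1 hi)
  have hmA : ∀ c ∈ C, ∀ P ∈ cA ob c, P ∈ q.dA := by
    intro c hc P hP
    apply c5
    rw [hLA, List.mem_flatMap]
    exact ⟨c, Finset.mem_toList.mpr hc, hP⟩
  have hmT : ∀ c ∈ C, ∀ P ∈ cT c, P ∈ q.dT := by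
    intro c hc P hP
    rw [c2]
    apply b5
    rw [hLT, List.mem_append, List.mem_flatMap]
    left
    exact ⟨c, Finset.mem_toList.mpr hc, hP⟩
  refine ⟨q, (a1.trans b1).trans c1, c3, ⟨?_, ?_, ?_, ?_, ?_⟩⟩
  · intro σ j s i hc
    exact ⟨hmT _ hc _ (by simp [cT]), hmA _ hc _ (by simp [cA])⟩
  · intro σ i t hc
    have h1 : (σ, i) ∈ q.dA := hmA _ hc _ (by simp [cA])
    refine ⟨h1, (c4 σ i h1).le ?_⟩
    exact hN _ hc
  · intro t _ σ a ho
    rw [a5.obl σ a ho]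
  · intro t hc σ k Q κ ho
    apply hmA _ hc
    simp [cA, ho]
  · intro t hc σ a ho k hk
    have h1 := hN _ hc
    have h2 : t + 1 ≤ M := h1
    obtain ⟨h3, h4⟩ := a5.obrow hob σ a ho k (by omega)
    obtain ⟨h5, h6⟩ := (b1.trans c1).T _ _ h3
    exact ⟨h5, h6.trans h4⟩

end Pool.Bc
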