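import Pool.Agent.Bc.Lang

/-!
# Project BC: isomorphism of pulled back structures is analytic
-/

set_option autoImplicit false

open FirstOrder MeasureTheory

namespace Pool.Bc

section
variable {L : FirstOrder.Language.{0, 0}}

theorem ia_fun {α : Type} [MeasurableSpace α] {f : α → L.Structure ℕ}
    (hf : @Measurable _ _ _ (mS L) f) {k : ℕ} (g : L.Functions k) (x : Fin k → ℕ) (m : ℕ) :
    MeasurableSet {w : α | @FirstOrder.Language.Structure.funMap L ℕ (f w) k g x = m} :=
  hf (MeasurableSpace.measurableSet_generateFrom (Or.inl ⟨k, g, x, m, rfl⟩))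

theorem ia_rel {α : Type} [MeasurableSpace α] {f : α → L.Structure ℕ}
    (hf : @Measurable _ _ _ (mS L) f) {k : ℕ} (R : L.Relations k) (x : Fin k → ℕ) :
    MeasurableSet {w : α | @FirstOrder.Language.Structure.RelMap L ℕ (f w) k R x} :=
  hf (MeasurableSpace.measurableSet_generateFrom (Or.inr ⟨k, R, x, rfl⟩))

theorem ia_eval {α : Type} [MeasurableSpace α] {a : α → ℕ → ℕ} (ha : Measurable a) (n m : ℕ) :
    MeasurableSet {w : α | a w n = m} :=
  measurableSet_eq_fun (f := fun w => a w n) (g := fun _ => m)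
    ((measurable_pi_apply n).comp ha) measurable_const

theorem ia_comp {α : Type} [MeasurableSpace α] {a : α → ℕ → ℕ} (ha : Measurable a) {k : ℕ}
    (x y : Fin k → ℕ) : MeasurableSet {w : α | a w ∘ x = y} := by
  have h : {w : α | a w ∘ x = y} = ⋂ j : Fin k, {w : α | a w (x j) = y j} := by
    ext w
    simp [funext_iff]
  rw [h]
  exact MeasurableSet.iInter fun j => ia_eval ha (x j) (y j)

end

theorem stIsoAnalytic : StIsoAnalytic := by
  intro L hL f g hf hg n c hc v
  have hcF : ∀ k, Countable (L.Functions k) := fun k =>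
    Function.Injective.countable (f := fun φ : L.Functions k => (Sum.inl ⟨k, φ⟩ : L.Symbols))
      (fun φ φ' h => by simpa using h)
  have hcR : ∀ k, Countable (L.Relations k) := fun k =>
    Function.Injective.countable (f := fun φ : L.Relations k => (Sum.inr ⟨k, φ⟩ : L.Symbols))
      (fun φ φ' h => by simpa using h)
  -- the set of isomorphisms
  let B : Set ((Z × Z) × (ℕ → ℕ) × (ℕ → ℕ)) := {w |
    (∀ i, w.2.1 (w.2.2 i) = i) ∧ (∀ i, w.2.2 (w.2.1 i) = i) ∧
    (∀ (k : ℕ) (φ : L.Functions k) (x : Fin k → ℕ),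
      w.2.1 (@FirstOrder.Language.Structure.funMap L ℕ (g w.1.2) k φ x) =
        @FirstOrder.Language.Structure.funMap L ℕ (f w.1.1) k φ (w.2.1 ∘ x)) ∧
    (∀ (k : ℕ) (R : L.Relations k) (x : Fin k → ℕ),
      @FirstOrder.Language.Structure.RelMap L ℕ (f w.1.1) k R (w.2.1 ∘ x) ↔
        @FirstOrder.Language.Structure.RelMap L ℕ (g w.1.2) k R x) ∧
    ∀ i, w.2.1 (c w.1.2 i) = v i}
  have ma : Measurable fun w : (Z × Z) × (ℕ → ℕ) × (ℕ → ℕ) => w.2.1 :=
    measurable_fst.comp measurable_snd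
  have mb : Measurable fun w : (Z × Z) × (ℕ → ℕ) × (ℕ → ℕ) => w.2.2 :=
    measurable_snd.comp measurable_snd
  have mf : @Measurable _ _ _ (mS L) fun w : (Z × Z) × (ℕ → ℕ) × (ℕ → ℕ) => f w.1.1 :=
    @Measurable.comp _ _ _ _ _ (mS L) _ _ hf (measurable_fst.comp measurable_fst)
  have mg : @Measurable _ _ _ (mS L) fun w : (Z × Z) × (ℕ → ℕ) × (ℕ → ℕ) => g w.1.2 :=
    @Measurable.comp _ _ _ _ _ (mS L) _ _ hg (measurable_snd.comp measurable_fst)
  have hB : MeasurableSet B := by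
    refine MeasurableSet.inter (s₁ := {w : (Z × Z) × (ℕ → ℕ) × (ℕ → ℕ) | ∀ i, w.2.1 (w.2.2 i) = i}) ?_
      (MeasurableSet.inter (s₁ := {w : (Z × Z) × (ℕ → ℕ) × (ℕ → ℕ) | ∀ i, w.2.2 (w.2.1 i) = i}) ?_ (MeasurableSet.inter
      (s₁ := {w : (Z × Z) × (ℕ → ℕ) × (ℕ → ℕ) | ∀ (k : ℕ) (φ : L.Functions k) (x : Fin k → ℕ),
        w.2.1 (@FirstOrder.Language.Structure.funMap L ℕ (g w.1.2) k φ x) =
          @FirstOrder.Language.Structure.funMap L ℕ (f w.1.1) k φ (w.2.1 ∘ x)}) ?_
      (MeasurableSet.inter (s₁ := {w : (Z × Z) × (ℕ → ℕ) × (ℕ → ℕ) | ∀ (k : ℕ) (R : L.Relations k) (x : Fin k → ℕ),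
        @FirstOrder.Language.Structure.RelMap L ℕ (f w.1.1) k R (w.2.1 ∘ x) ↔
          @FirstOrder.Language.Structure.RelMap L ℕ (g w.1.2) k R x})
        (s₂ := {w : (Z × Z) × (ℕ → ℕ) × (ℕ → ℕ) | ∀ i, w.2.1 (c w.1.2 i) = v i}) ?_ ?_)))
    · have h : {w : (Z × Z) × (ℕ → ℕ) × (ℕ → ℕ) | ∀ i, w.2.1 (w.2.2 i) = i} =
          ⋂ i : ℕ, ⋃ j : ℕ, {w | w.2.2 i = j} ∩ {w | w.2.1 j = i} := by
        ext w
        simp
      rw [h]
      exact MeasurableSet.iInter fun i => MeasurableSet.iUnion fun j =>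
        (ia_eval mb i j).inter (ia_eval ma j i)
    · have h : {w : (Z × Z) × (ℕ → ℕ) × (ℕ → ℕ) | ∀ i, w.2.2 (w.2.1 i) = i} =
          ⋂ i : ℕ, ⋃ j : ℕ, {w | w.2.1 i = j} ∩ {w | w.2.2 j = i} := by
        ext w
        simp
      rw [h]
      exact MeasurableSet.iInter fun i => MeasurableSet.iUnion fun j =>
        (ia_eval ma i j).inter (ia_eval mb j i)
    · have h : {w : (Z × Z) × (ℕ → ℕ) × (ℕ → ℕ) | ∀ (k : ℕ) (φ : L.Functions k) (x : Fin k → ℕ),
          w.2.1 (@FirstOrder.Language.Structure.funMap L ℕ (g w.1.2) k φ x) =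
            @FirstOrder.Language.Structure.funMap L ℕ (f w.1.1) k φ (w.2.1 ∘ x)} =
          ⋂ (k : ℕ) (φ : L.Functions k) (x : Fin k → ℕ), ⋃ (m : ℕ) (y : Fin k → ℕ) (r : ℕ),
            {w | @FirstOrder.Language.Structure.funMap L ℕ (g w.1.2) k φ x = m} ∩
            ({w | w.2.1 ∘ x = y} ∩ ({w | w.2.1 m = r} ∩
            {w | @FirstOrder.Language.Structure.funMap L ℕ (f w.1.1) k φ y = r})) := by
        ext w
        simp only [Set.mem_ofPred_eq, Set.mem_iInter, Set.mem_iUnion, Set.mem_inter_iff]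
        refine forall_congr' fun k => forall_congr' fun φ => forall_congr' fun x => ?_
        constructor
        · intro h1
          exact ⟨_, _, _, rfl, rfl, rfl, h1.symm⟩
        · rintro ⟨m, y, r, rfl, rfl, h3, h4⟩
          rw [h3, h4]
      rw [h]
      exact MeasurableSet.iInter fun k => MeasurableSet.iInter fun φ => MeasurableSet.iInter
        fun x => MeasurableSet.iUnion fun m => MeasurableSet.iUnion fun y =>
        MeasurableSet.iUnion fun r => (ia_fun mg φ x m).inter ((ia_comp ma x y).inter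
          ((ia_eval ma m r).inter (ia_fun mf φ y r)))
    · have h : {w : (Z × Z) × (ℕ → ℕ) × (ℕ → ℕ) | ∀ (k : ℕ) (R : L.Relations k) (x : Fin k → ℕ),
          @FirstOrder.Language.Structure.RelMap L ℕ (f w.1.1) k R (w.2.1 ∘ x) ↔
            @FirstOrder.Language.Structure.RelMap L ℕ (g w.1.2) k R x} =
          ⋂ (k : ℕ) (R : L.Relations k) (x : Fin k → ℕ), ⋃ (y : Fin k → ℕ),
            {w | w.2.1 ∘ x = y} ∩
            (({w | @FirstOrder.Language.Structure.RelMap L ℕ (f w.1.1) k R y} ∩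
              {w | @FirstOrder.Language.Structure.RelMap L ℕ (g w.1.2) k R x}) ∪
            ({w | @FirstOrder.Language.Structure.RelMap L ℕ (f w.1.1) k R y}ᶜ ∩
              {w | @FirstOrder.Language.Structure.RelMap L ℕ (g w.1.2) k R x}ᶜ)) := by
        ext w
        simp only [Set.mem_ofPred_eq, Set.mem_iInter, Set.mem_iUnion, Set.mem_inter_iff,
          Set.mem_union, Set.mem_compl_iff]
        refine forall_congr' fun k => forall_congr' fun R => forall_congr' fun x => ?_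
        constructor
        · intro h1
          refine ⟨_, rfl, ?_⟩
          tauto
        · rintro ⟨y, rfl, h1⟩
          tauto
      rw [h]
      exact MeasurableSet.iInter fun k => MeasurableSet.iInter fun R => MeasurableSet.iInter
        fun x => MeasurableSet.iUnion fun y => (ia_comp ma x y).inter
          (((ia_rel mf R y).inter (ia_rel mg R x)).union
          ((ia_rel mf R y).compl.inter (ia_rel mg R x).compl))
    · have h : {w : (Z × Z) × (ℕ → ℕ) × (ℕ → ℕ) | ∀ i, w.2.1 (c w.1.2 i) = v i} =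
          ⋂ i : Fin n, ⋃ m : ℕ, {w | c w.1.2 i = m} ∩ {w | w.2.1 m = v i} := by
        ext w
        simp
      rw [h]
      exact MeasurableSet.iInter fun i => MeasurableSet.iUnion fun m =>
        (measurableSet_eq_fun (f := fun w : (Z × Z) × (ℕ → ℕ) × (ℕ → ℕ) => c w.1.2 i)
          (g := fun _ => m) ((measurable_pi_apply i).comp
            (hc.comp (measurable_snd.comp measurable_fst))) measurable_const).inter
          (ia_eval ma m (v i))
  have hE : {p : Z × Z | ∃ π : @FirstOrder.Language.Equiv L ℕ ℕ (g p.2) (f p.1),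
      ∀ i, @FirstOrder.Language.Equiv.toEquiv L ℕ ℕ (g p.2) (f p.1) π (c p.2 i) = v i} =
      Prod.fst '' B := by
    ext p
    constructor
    · rintro ⟨π, hπ⟩
      refine ⟨(p, (@FirstOrder.Language.Equiv.toEquiv L ℕ ℕ (g p.2) (f p.1) π,
        (@FirstOrder.Language.Equiv.toEquiv L ℕ ℕ (g p.2) (f p.1) π).symm)), ?_, rfl⟩
      refine ⟨fun i => Equiv.apply_symm_apply _ i, fun i => Equiv.symm_apply_apply _ i, ?_, ?_, hπ⟩
      · intro k φ x
        exact @FirstOrder.Language.Equiv.map_fun' L ℕ ℕ (g p.2) (f p.1) π k φ x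
      · intro k R x
        exact @FirstOrder.Language.Equiv.map_rel' L ℕ ℕ (g p.2) (f p.1) π k R x
    · rintro ⟨⟨q, a, b⟩, ⟨h1, h2, h3, h4, h5⟩, rfl⟩
      exact ⟨@FirstOrder.Language.Equiv.mk L ℕ ℕ (g q.2) (f q.1) ⟨a, b, h2, h1⟩
        (fun φ x => h3 _ φ x) (fun R x => h4 _ R x), h5⟩
  rw [hE]
  exact hB.analyticSet_image measurable_fst

end Pool.Bc
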