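import Pool.Agent.Bc.Lang

/-!
# Project BC: enumerated structures and first order structures
-/

set_option autoImplicit false

open FirstOrder

namespace Pool.Bc

theorem Link_pre_length (t : ℕ → ℕ) (k : ℕ) : (pre t k).length = k := by
  induction k with
  | zero => rfl
  | succ k ih => rw [pre, List.length_cons, ih]

section fwd

variable {l : Lvl} {z z' : Z} (πA : List ℕ → Equiv.Perm ℕ) (πT : List ℕ → Equiv.Perm (List ℕ))

/-- The bijection of the elements given by permutations. -/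
def Link_phi : Elem ≃ Elem where
  toFun
    | .inl (σ, i) => .inl (σ, πA σ i)
    | .inr (σ, s) => .inr (σ, πT σ s)
  invFun
    | .inl (σ, i) => .inl (σ, (πA σ).symm i)
    | .inr (σ, s) => .inr (σ, (πT σ).symm s)
  left_inv := by
    rintro (⟨σ, i⟩ | ⟨σ, s⟩) <;> simp
  right_inv := by
    rintro (⟨σ, i⟩ | ⟨σ, s⟩) <;> simp

theorem Link_phi_inl (σ : List ℕ) (i : ℕ) : Link_phi πA πT (.inl (σ, i)) = .inl (σ, πA σ i) := rfl

theorem Link_phi_inr (σ s : List ℕ) : Link_phi πA πT (.inr (σ, s)) = .inr (σ, πT σ s) := rfl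

theorem Link_phi_eq_inl {a : Elem} {σ : List ℕ} {i : ℕ} (h : Link_phi πA πT a = .inl (σ, i)) :
    ∃ i₀, a = .inl (σ, i₀) ∧ πA σ i₀ = i := by
  rcases a with ⟨σ', i'⟩ | ⟨σ', s'⟩
  · rw [Link_phi_inl] at h
    have h1 := Sum.inl.inj h
    obtain ⟨rfl, h2⟩ := Prod.mk.inj h1
    exact ⟨i', rfl, h2⟩
  · rw [Link_phi_inr] at h
    exact absurd h (by simp)

theorem Link_phi_eq_inr {a : Elem} {σ s : List ℕ} (h : Link_phi πA πT a = .inr (σ, s)) :
    ∃ s₀, a = .inr (σ, s₀) ∧ πT σ s₀ = s := by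
  rcases a with ⟨σ', i'⟩ | ⟨σ', s'⟩
  · rw [Link_phi_inl] at h
    exact absurd h (by simp)
  · rw [Link_phi_inr] at h
    have h1 := Sum.inr.inj h
    obtain ⟨rfl, h2⟩ := Prod.mk.inj h1
    exact ⟨s', rfl, h2⟩

/-- The bijection preserves the relations. -/
theorem Link_rel (h1 : ∀ σ s, (πT σ s).length = s.length)
    (h2 : ∀ σ j s, (πT σ (j :: s)).tail = πT σ s)
    (h3 : ∀ σ j s j' s' i, πT σ (j :: s) = j' :: s' →
      bit z' σ j' s' (πA (s.length :: σ) i) = bit z σ j s i)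
    (h4 : ∀ σ i, (lv l σ).isZ = true → row z' σ (πA σ i) = row z σ i)
    (h5 : ∀ σ i, (lv l σ).isZ = false → ∀ k,
      pre (row z' σ (πA σ i)) k = πT σ (pre (row z σ i) k))
    {n : ℕ} (R : RS n) (v v' : Fin n → ℕ) (hv : ∀ i, el (v' i) = Link_phi πA πT (el (v i))) :
    relY l z' R v' ↔ relY l z R v := by
  have hcons : ∀ (σ t : List ℕ) (j : ℕ) (s : List ℕ), πT σ t = j :: s →
      ∃ j₀ s₀, t = j₀ :: s₀ ∧ πT σ s₀ = s := by
    intro σ t j s h
    cases t with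
    | nil =>
      have h6 := h1 σ []
      rw [h] at h6
      exact absurd h6 (by simp)
    | cons j₀ s₀ =>
      refine ⟨j₀, s₀, rfl, ?_⟩
      rw [← h2 σ j₀ s₀, h]
      rfl
  have hcons' : ∀ (σ : List ℕ) (j : ℕ) (s : List ℕ), ∃ j', πT σ (j :: s) = j' :: πT σ s := by
    intro σ j s
    have h6 := h1 σ (j :: s)
    have h7 := h2 σ j s
    rcases h8 : πT σ (j :: s) with _ | ⟨j', s'⟩
    · rw [h8] at h6
      exact absurd h6 (by simp)
    · rw [h8] at h7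
      exact ⟨j', by rw [← h7]; rfl⟩
  cases R with
  | isA σ =>
    simp only [relY, hv]
    constructor
    · rintro ⟨i, hi⟩
      obtain ⟨i₀, h6, -⟩ := Link_phi_eq_inl πA πT hi
      exact ⟨i₀, h6⟩
    · rintro ⟨i, hi⟩
      rw [hi]
      exact ⟨_, Link_phi_inl πA πT σ i⟩
  | isT σ k =>
    simp only [relY, hv]
    constructor
    · rintro ⟨s, hs, hk⟩
      obtain ⟨s₀, h6, h7⟩ := Link_phi_eq_inr πA πT hs
      refine ⟨s₀, h6, ?_⟩
      rw [← hk, ← h7, h1]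
    · rintro ⟨s, hs, hk⟩
      rw [hs]
      refine ⟨_, Link_phi_inr πA πT σ s, ?_⟩
      rw [h1, hk]
  | par =>
    simp only [relY, hv]
    constructor
    · rintro ⟨σ, j, s, ha, hb⟩
      obtain ⟨t₀, h6, h7⟩ := Link_phi_eq_inr πA πT ha
      obtain ⟨s₀, h8, h9⟩ := Link_phi_eq_inr πA πT hb
      obtain ⟨j₁, s₁, h10, h11⟩ := hcons σ t₀ j s h7
      have h12 : s₁ = s₀ := (πT σ).injective (by rw [h11, h9])
      subst h12
      exact ⟨σ, j₁, s₁, by rw [h6, h10], h8⟩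
    · rintro ⟨σ, j, s, ha, hb⟩
      rw [ha, hb]
      obtain ⟨j', h6⟩ := hcons' σ j s
      refine ⟨σ, j', πT σ s, ?_, Link_phi_inr πA πT σ s⟩
      rw [Link_phi_inr, h6]
  | colr c =>
    simp only [relY, hv]
    constructor
    · rintro ⟨σ, j, s, i, ha, hb, hc⟩
      obtain ⟨i₀, h6, h7⟩ := Link_phi_eq_inl πA πT ha
      obtain ⟨t₀, h8, h9⟩ := Link_phi_eq_inr πA πT hb
      obtain ⟨j₁, s₁, h10, h11⟩ := hcons σ t₀ j s h9
      subst h10
      have hlen : s₁.length = s.length := by rw [← h11, h1]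
      refine ⟨σ, j₁, s₁, i₀, by rw [h6, hlen], h8, ?_⟩
      rw [← hc, ← h7, ← hlen]
      exact (h3 σ j₁ s₁ j s i₀ h9).symm
    · rintro ⟨σ, j, s, i, ha, hb, hc⟩
      rw [ha, hb]
      obtain ⟨j', h6⟩ := hcons' σ j s
      refine ⟨σ, j', πT σ s, πA (s.length :: σ) i, ?_, ?_, ?_⟩
      · rw [h1]
        exact Link_phi_inl πA πT _ i
      · rw [Link_phi_inr, h6]
      · rw [h3 σ j s j' (πT σ s) i h6, hc]
  | lab t c =>
    simp only [relY, hv]
    constructor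
    · rintro ⟨σ, i, ha, hb, hc⟩
      obtain ⟨i₀, h6, h7⟩ := Link_phi_eq_inl πA πT ha
      refine ⟨σ, i₀, h6, hb, ?_⟩
      rw [← hc, ← h7, h4 σ i₀ hb]
    · rintro ⟨σ, i, ha, hb, hc⟩
      rw [ha]
      refine ⟨σ, πA σ i, Link_phi_inl πA πT σ i, hb, ?_⟩
      rw [h4 σ i hb, hc]
  | br =>
    simp only [relY, hv]
    constructor
    · rintro ⟨σ, i, k, ha, hb, hc⟩
      obtain ⟨i₀, h6, h7⟩ := Link_phi_eq_inl πA πT ha
      obtain ⟨s₀, h8, h9⟩ := Link_phi_eq_inr πA πT hc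
      refine ⟨σ, i₀, k, h6, hb, ?_⟩
      have h10 : s₀ = pre (row z σ i₀) k := (πT σ).injective (by rw [h9, ← h5 σ i₀ hb, h7])
      rw [h8, h10]
    · rintro ⟨σ, i, k, ha, hb, hc⟩
      rw [ha, hc]
      refine ⟨σ, πA σ i, k, Link_phi_inl πA πT σ i, hb, ?_⟩
      rw [Link_phi_inr, h5 σ i hb]

end fwd

theorem Link_fwd (l : Lvl) (z z' : Z) (h : ZIso l z z') : SIso LC (Y l z) (Y l z') := by
  obtain ⟨πA, πT, h1, h2, h3, h4, h5⟩ := h
  let F : ℕ ≃ ℕ := el.trans ((Link_phi πA πT).trans el.symm)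
  have hF : ∀ v, el (F v) = Link_phi πA πT (el v) := fun v => el.apply_symm_apply _
  exact ⟨@FirstOrder.Language.Equiv.mk LC ℕ ℕ (Y l z) (Y l z') F (fun f _ => nomatch f)
    (fun R v => Link_rel πA πT h1 h2 h3 h4 h5 R v _ (fun i => hF (v i)))⟩

/-- The permutations given by an isomorphism. -/
theorem Link_bwd (l : Lvl) (z z' : Z) (h : SIso LC (Y l z) (Y l z')) : ZIso l z z' := by
  classical
  obtain ⟨F⟩ := h
  let φ : Elem ≃ Elem := el.symm.trans ((@FirstOrder.Language.Equiv.toEquiv LC ℕ ℕ (Y l z)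
    (Y l z') F).trans el)
  have hrel : ∀ {n : ℕ} (R : RS n) (v v' : Fin n → ℕ), (∀ i, el (v' i) = φ (el (v i))) →
      (relY l z' R v' ↔ relY l z R v) := by
    intro n R v v' hv
    have h1 := @FirstOrder.Language.Equiv.map_rel' LC ℕ ℕ (Y l z) (Y l z') F n R v
    have h2 : v' = (@FirstOrder.Language.Equiv.toEquiv LC ℕ ℕ (Y l z) (Y l z') F).toFun ∘ v := by
      funext i
      apply el.injective
      rw [hv i]
      change el (_) = _
      rw [el.symm_apply_apply]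
      rfl
    rw [h2]
    exact h1
  -- one element and two elements
  have rel1 : ∀ (R : RS 1) (a : Elem), relY l z' R ![el.symm (φ a)] ↔ relY l z R ![el.symm a] := by
    intro R a
    apply hrel
    intro i
    fin_cases i
    change el (el.symm (φ a)) = φ (el (el.symm a))
    rw [el.apply_symm_apply, el.apply_symm_apply]
  have rel2 : ∀ (R : RS 2) (a b : Elem), relY l z' R ![el.symm (φ a), el.symm (φ b)] ↔
      relY l z R ![el.symm a, el.symm b] := by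
    intro R a b
    apply hrel
    intro i
    fin_cases i
    · change el (el.symm (φ a)) = φ (el (el.symm a))
      rw [el.apply_symm_apply, el.apply_symm_apply]
    · change el (el.symm (φ b)) = φ (el (el.symm b))
      rw [el.apply_symm_apply, el.apply_symm_apply]
  have isA1 : ∀ (w : Z) (σ : List ℕ) (a : Elem), relY l w (.isA σ) ![el.symm a] ↔
      ∃ i, a = .inl (σ, i) := by
    intro w σ a
    change (∃ i, el (el.symm a) = .inl (σ, i)) ↔ _
    rw [el.apply_symm_apply]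
  have isT1 : ∀ (w : Z) (σ : List ℕ) (k : ℕ) (a : Elem), relY l w (.isT σ k) ![el.symm a] ↔
      ∃ s : List ℕ, a = .inr (σ, s) ∧ s.length = k := by
    intro w σ k a
    change (∃ s : List ℕ, el (el.symm a) = .inr (σ, s) ∧ s.length = k) ↔ _
    rw [el.apply_symm_apply]
  have par1 : ∀ (w : Z) (a b : Elem), relY l w .par ![el.symm a, el.symm b] ↔
      ∃ (σ : List ℕ) (j : ℕ) (s : List ℕ), a = .inr (σ, j :: s) ∧ b = .inr (σ, s) := by
    intro w a b
    change (∃ (σ : List ℕ) (j : ℕ) (s : List ℕ), el (el.symm a) = .inr (σ, j :: s) ∧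
      el (el.symm b) = .inr (σ, s)) ↔ _
    rw [el.apply_symm_apply, el.apply_symm_apply]
  have colr1 : ∀ (w : Z) (c : ℕ) (a b : Elem), relY l w (.colr c) ![el.symm a, el.symm b] ↔
      ∃ (σ : List ℕ) (j : ℕ) (s : List ℕ) (i : ℕ),
      a = .inl (s.length :: σ, i) ∧ b = .inr (σ, j :: s) ∧ bit w σ j s i = c := by
    intro w c a b
    change (∃ (σ : List ℕ) (j : ℕ) (s : List ℕ) (i : ℕ), el (el.symm a) =
      .inl (s.length :: σ, i) ∧ el (el.symm b) = .inr (σ, j :: s) ∧ bit w σ j s i = c) ↔ _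
    rw [el.apply_symm_apply, el.apply_symm_apply]
  have lab1 : ∀ (w : Z) (t c : ℕ) (a : Elem), relY l w (.lab t c) ![el.symm a] ↔
      ∃ (σ : List ℕ) (i : ℕ), a = .inl (σ, i) ∧ (lv l σ).isZ = true ∧ row w σ i t = c := by
    intro w t c a
    change (∃ (σ : List ℕ) (i : ℕ), el (el.symm a) = .inl (σ, i) ∧ (lv l σ).isZ = true ∧
      row w σ i t = c) ↔ _
    rw [el.apply_symm_apply]
  have br1 : ∀ (w : Z) (a b : Elem), relY l w .br ![el.symm a, el.symm b] ↔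
      ∃ (σ : List ℕ) (i k : ℕ), a = .inl (σ, i) ∧ (lv l σ).isZ = false ∧
      b = .inr (σ, pre (row w σ i) k) := by
    intro w a b
    change (∃ (σ : List ℕ) (i k : ℕ), el (el.symm a) = .inl (σ, i) ∧ (lv l σ).isZ = false ∧
      el (el.symm b) = .inr (σ, pre (row w σ i) k)) ↔ _
    rw [el.apply_symm_apply, el.apply_symm_apply]
  -- the maps
  have hA : ∀ σ i, ∃ i', φ (.inl (σ, i)) = .inl (σ, i') := by
    intro σ i
    exact (isA1 z' σ _).1 ((rel1 (.isA σ) _).2 ((isA1 z σ _).2 ⟨i, rfl⟩))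
  have hA' : ∀ σ i, ∃ i', φ.symm (.inl (σ, i)) = .inl (σ, i') := by
    intro σ i
    refine (isA1 z σ _).1 ((rel1 (.isA σ) _).1 ((isA1 z' σ _).2 ⟨i, ?_⟩))
    rw [φ.apply_symm_apply]
  have hT : ∀ σ s, ∃ s' : List ℕ, φ (.inr (σ, s)) = .inr (σ, s') ∧ s'.length = s.length := by
    intro σ s
    exact (isT1 z' σ s.length _).1 ((rel1 (.isT σ s.length) _).2
      ((isT1 z σ s.length _).2 ⟨s, rfl, rfl⟩))
  have hT' : ∀ σ s, ∃ s' : List ℕ, φ.symm (.inr (σ, s)) = .inr (σ, s') ∧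
      s'.length = s.length := by
    intro σ s
    refine (isT1 z σ s.length _).1 ((rel1 (.isT σ s.length) _).1
      ((isT1 z' σ s.length _).2 ⟨s, ?_, rfl⟩))
    rw [φ.apply_symm_apply]
  choose fA hfA using hA
  choose gA hgA using hA'
  choose fT hfT hlT using hT
  choose gT hgT hlT' using hT'
  have eA : ∀ σ, ∃ π : Equiv.Perm ℕ, ∀ i, π i = fA σ i := by
    intro σ
    refine ⟨⟨fA σ, gA σ, fun i => ?_, fun i => ?_⟩, fun i => rfl⟩
    · have h1 := hgA σ (fA σ i)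
      rw [← hfA σ i, φ.symm_apply_apply] at h1
      exact (Prod.mk.inj (Sum.inl.inj h1)).2.symm
    · have h1 := hfA σ (gA σ i)
      rw [← hgA σ i, φ.apply_symm_apply] at h1
      exact (Prod.mk.inj (Sum.inl.inj h1)).2.symm
  have eT : ∀ σ, ∃ π : Equiv.Perm (List ℕ), ∀ s, π s = fT σ s := by
    intro σ
    refine ⟨⟨fT σ, gT σ, fun i => ?_, fun i => ?_⟩, fun i => rfl⟩
    · have h1 := hgT σ (fT σ i)
      rw [← hfT σ i, φ.symm_apply_apply] at h1
      exact (Prod.mk.inj (Sum.inr.inj h1)).2.symm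
    · have h1 := hfT σ (gT σ i)
      rw [← hgT σ i, φ.apply_symm_apply] at h1
      exact (Prod.mk.inj (Sum.inr.inj h1)).2.symm
  choose πA hπA using eA
  choose πT hπT using eT
  have kA : ∀ σ i, φ (.inl (σ, i)) = .inl (σ, πA σ i) := fun σ i => by rw [hπA, hfA]
  have kT : ∀ σ s, φ (.inr (σ, s)) = .inr (σ, πT σ s) := fun σ s => by rw [hπT, hfT]
  refine ⟨πA, πT, fun σ s => by rw [hπT, hlT], ?_, ?_, ?_, ?_⟩
  · intro σ j s
    have h1 := (rel2 .par (.inr (σ, j :: s)) (.inr (σ, s))).2 ((par1 z _ _).2 ⟨σ, j, s, rfl, rfl⟩)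
    obtain ⟨σ', j', s', h2, h3⟩ := (par1 z' _ _).1 h1
    rw [kT] at h2 h3
    obtain ⟨-, h4⟩ := Prod.mk.inj (Sum.inr.inj h2)
    obtain ⟨-, h5⟩ := Prod.mk.inj (Sum.inr.inj h3)
    rw [h4, h5]
    rfl
  · intro σ j s j' s' i hj
    have h1 := (rel2 (.colr (bit z σ j s i)) (.inl (s.length :: σ, i)) (.inr (σ, j :: s))).2
      ((colr1 z _ _ _).2 ⟨σ, j, s, i, rfl, rfl, rfl⟩)
    obtain ⟨σ₁, j₁, s₁, i₁, h2, h3, h4⟩ := (colr1 z' _ _ _).1 h1
    rw [kA] at h2
    rw [kT, hj] at h3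
    obtain ⟨-, h5⟩ := Prod.mk.inj (Sum.inl.inj h2)
    obtain ⟨h6, h7⟩ := Prod.mk.inj (Sum.inr.inj h3)
    obtain ⟨h8, h9⟩ := List.cons.inj h7
    subst h6
    rw [h5, h8, h9]
    exact h4
  · intro σ i hz
    funext t
    have h1 := (rel1 (.lab t (row z σ i t)) (.inl (σ, i))).2
      ((lab1 z _ _ _).2 ⟨σ, i, rfl, hz, rfl⟩)
    obtain ⟨σ₁, i₁, h2, -, h4⟩ := (lab1 z' _ _ _).1 h1
    rw [kA] at h2
    obtain ⟨h5, h6⟩ := Prod.mk.inj (Sum.inl.inj h2)
    subst h5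
    rw [h6]
    exact h4
  · intro σ i hz k
    have h1 := (rel2 .br (.inl (σ, i)) (.inr (σ, pre (row z σ i) k))).2
      ((br1 z _ _).2 ⟨σ, i, k, rfl, hz, rfl⟩)
    obtain ⟨σ₁, i₁, k₁, h2, -, h4⟩ := (br1 z' _ _).1 h1
    rw [kA] at h2
    rw [kT] at h4
    obtain ⟨h5, h6⟩ := Prod.mk.inj (Sum.inl.inj h2)
    obtain ⟨-, h7⟩ := Prod.mk.inj (Sum.inr.inj h4)
    have h8 : k = k₁ := by
      have h9 := congrArg List.length h7
      rw [Link_pre_length, hπT, hlT, Link_pre_length] at h9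
      exact h9
    rw [h7, h6, h8, h5]

theorem stLink : StLink := fun l z z' => ⟨Link_fwd l z z', Link_bwd l z z'⟩

end Pool.Bc
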