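import Pool.Agent.Bc.Stmts2

/-!
# Project BC: the tuple system of all structures of a countable language
-/

set_option autoImplicit false

open FirstOrder MeasureTheory

namespace Pool.Bc

section

variable {L : FirstOrder.Language.{0, 0}}

theorem sel_length (e J : List ℕ) : (sel e J).length = J.length := List.length_map _

theorem sel_getD (e J : List ℕ) {i : ℕ} (hi : i < J.length) :
    (sel e J).getD i 0 = e.getD (J.getD i 0) 0 := by
  rw [sel, List.getD_eq_getElem _ _ (by rwa [List.length_map]), List.getElem_map,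
    List.getD_eq_getElem J _ hi]

theorem getD_mem_aux (J : List ℕ) {i : ℕ} (hi : i < J.length) : J.getD i 0 ∈ J := by
  rw [List.getD_eq_getElem J _ hi]
  exact List.getElem_mem hi

/-- Facts about subtuples are facts about tuples. -/
theorem holds_sel {M N : L.Structure ℕ} {e e' J : List ℕ}
    (h : ∀ φ, holds L M e φ → holds L N e' φ) (hJ : ∀ j ∈ J, j < e.length) (φ : Fact L)
    (hφ : holds L M (sel e J) φ) : holds L N (sel e' J) φ := by
  have hlen : e'.length = e.length := h (.inl e.length) rfl
  rcases φ with n | ⟨i, j⟩ | ⟨k, R, x⟩ | ⟨k, g, x, m⟩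
  · change (sel e' J).length = n
    have h1 : (sel e J).length = n := hφ
    rw [sel_length] at h1 ⊢
    exact h1
  · obtain ⟨h1, h2, h3⟩ := hφ
    rw [sel_length] at h1 h2
    rw [sel_getD e J h1, sel_getD e J h2] at h3
    obtain ⟨_, _, h6⟩ := h (.inr (.inl (J.getD i 0, J.getD j 0)))
      ⟨hJ _ (getD_mem_aux J h1), hJ _ (getD_mem_aux J h2), h3⟩
    refine ⟨by rwa [sel_length], by rwa [sel_length], ?_⟩
    rw [sel_getD e' J h1, sel_getD e' J h2]
    exact h6
  · obtain ⟨h1, h2⟩ := hφ
    simp only [sel_length] at h1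
    have h3 : (fun a => (sel e J).getD (x a) 0) = fun a => e.getD (J.getD (x a) 0) 0 := by
      funext a
      exact sel_getD e J (h1 a)
    rw [h3] at h2
    obtain ⟨_, h5⟩ := h (.inr (.inr (.inl ⟨k, R, fun a => J.getD (x a) 0⟩)))
      ⟨fun a => hJ _ (getD_mem_aux J (h1 a)), h2⟩
    refine ⟨fun a => by rw [sel_length]; exact h1 a, ?_⟩
    have h4 : (fun a => (sel e' J).getD (x a) 0) = fun a => e'.getD (J.getD (x a) 0) 0 := by
      funext a
      exact sel_getD e' J (h1 a)
    rw [h4]
    exact h5
  · obtain ⟨h1, h0, h2⟩ := hφ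
    simp only [sel_length] at h1 h0
    have h3 : (fun a => (sel e J).getD (x a) 0) = fun a => e.getD (J.getD (x a) 0) 0 := by
      funext a
      exact sel_getD e J (h1 a)
    rw [h3, sel_getD e J h0] at h2
    obtain ⟨_, _, h5⟩ := h (.inr (.inr (.inr ⟨k, g, fun a => J.getD (x a) 0, J.getD m 0⟩)))
      ⟨fun a => hJ _ (getD_mem_aux J (h1 a)), hJ _ (getD_mem_aux J h0), h2⟩
    refine ⟨fun a => by rw [sel_length]; exact h1 a, by rwa [sel_length], ?_⟩
    have h4 : (fun a => (sel e' J).getD (x a) 0) = fun a => e'.getD (J.getD (x a) 0) 0 := by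
      funext a
      exact sel_getD e' J (h1 a)
    rw [h4, sel_getD e' J h0]
    exact h5

open Classical in
/-- The atomic type of a tuple. -/
noncomputable def btE (enc : Fact L → ℕ) (M : L.Structure ℕ) (e : List ℕ) (n : ℕ) : Bool :=
  decide (∃ φ, enc φ = n ∧ holds L M e φ)

theorem btE_true (enc : Fact L → ℕ) (M : L.Structure ℕ) (e : List ℕ) (n : ℕ) :
    btE enc M e n = true ↔ ∃ φ, enc φ = n ∧ holds L M e φ := by
  classical
  exact decide_eq_true_iff

theorem btE_iff {enc : Fact L → ℕ} (henc : Function.Injective enc) (M : L.Structure ℕ)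
    (e : List ℕ) (φ : Fact L) : btE enc M e (enc φ) = true ↔ holds L M e φ := by
  rw [btE_true]
  constructor
  · rintro ⟨φ', h1, h2⟩
    rwa [← henc h1]
  · intro h
    exact ⟨φ, rfl, h⟩

theorem btE_ext (enc : Fact L → ℕ) {M N : L.Structure ℕ} {e e' : List ℕ}
    (h : ∀ φ, holds L M e φ ↔ holds L N e' φ) : btE enc M e = btE enc N e' := by
  funext n
  rw [btE, btE]
  congr 1
  refine propext ?_
  constructor
  · rintro ⟨φ, h1, h2⟩
    exact ⟨φ, h1, (h φ).1 h2⟩
  · rintro ⟨φ, h1, h2⟩
    exact ⟨φ, h1, (h φ).2 h2⟩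

theorem holds_of_btE {enc : Fact L → ℕ} (henc : Function.Injective enc) {M N : L.Structure ℕ}
    {e e' : List ℕ} (h : btE enc M e = btE enc N e') (φ : Fact L) :
    holds L M e φ ↔ holds L N e' φ := by
  rw [← btE_iff henc, ← btE_iff henc, h]

theorem holds_meas (e : List ℕ) (φ : Fact L) : @MeasurableSet _ (mS L) {M | holds L M e φ} := by
  rcases φ with n | ⟨i, j⟩ | ⟨k, R, x⟩ | ⟨k, g, x, m⟩
  · exact @MeasurableSet.const _ (mS L) (e.length = n)
  · exact @MeasurableSet.const _ (mS L) (i < e.length ∧ j < e.length ∧ e.getD i 0 = e.getD j 0)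
  · by_cases h : ∀ a, x a < e.length
    · have h1 : {M | holds L M e (.inr (.inr (.inl ⟨k, R, x⟩)))} = {M : L.Structure ℕ |
          @FirstOrder.Language.Structure.RelMap L ℕ M k R (fun a => e.getD (x a) 0)} := by
        ext M
        exact ⟨fun h2 => h2.2, fun h2 => ⟨h, h2⟩⟩
      rw [h1]
      exact MeasurableSpace.measurableSet_generateFrom (Or.inr ⟨k, R, _, rfl⟩)
    · have h1 : {M | holds L M e (.inr (.inr (.inl ⟨k, R, x⟩)))} = ∅ := by
        ext M
        exact ⟨fun h2 => h h2.1, fun h2 => h2.elim⟩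
      rw [h1]
      exact @MeasurableSet.empty _ (mS L)
  · by_cases h : (∀ a, x a < e.length) ∧ m < e.length
    · have h1 : {M | holds L M e (.inr (.inr (.inr ⟨k, g, x, m⟩)))} = {M : L.Structure ℕ |
          @FirstOrder.Language.Structure.funMap L ℕ M k g (fun a => e.getD (x a) 0) =
            e.getD m 0} := by
        ext M
        exact ⟨fun h2 => h2.2.2, fun h2 => ⟨h.1, h.2, h2⟩⟩
      rw [h1]
      exact MeasurableSpace.measurableSet_generateFrom (Or.inl ⟨k, g, _, _, rfl⟩)
    · have h1 : {M | holds L M e (.inr (.inr (.inr ⟨k, g, x, m⟩)))} = ∅ := by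
        ext M
        exact ⟨fun h2 => h ⟨h2.1, h2.2.1⟩, fun h2 => h2.elim⟩
      rw [h1]
      exact @MeasurableSet.empty _ (mS L)

theorem countable_fact (hL : Countable L.Symbols) : Countable (Fact L) := by
  have hR : ∀ k, Countable (L.Relations k) := fun k =>
    Function.Injective.countable (f := fun r : L.Relations k => (Sum.inr ⟨k, r⟩ : L.Symbols))
      (fun a b h => by
        simp only [Sum.inr.injEq, Sigma.mk.injEq, heq_eq_eq, true_and] at h
        exact h)
  have hF : ∀ k, Countable (L.Functions k) := fun k =>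
    Function.Injective.countable (f := fun r : L.Functions k => (Sum.inl ⟨k, r⟩ : L.Symbols))
      (fun a b h => by
        simp only [Sum.inl.injEq, Sigma.mk.injEq, heq_eq_eq, true_and] at h
        exact h)
  infer_instance

/-- Isomorphisms preserve facts. -/
theorem holds_map {M N : L.Structure ℕ} (g : ℕ ≃ ℕ)
    (hf : ∀ (k : ℕ) (f : L.Functions k) (x : Fin k → ℕ),
      g (@FirstOrder.Language.Structure.funMap L ℕ M k f x) =
        @FirstOrder.Language.Structure.funMap L ℕ N k f (g ∘ x))
    (hr : ∀ (k : ℕ) (r : L.Relations k) (x : Fin k → ℕ),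
      @FirstOrder.Language.Structure.RelMap L ℕ N k r (g ∘ x) ↔
        @FirstOrder.Language.Structure.RelMap L ℕ M k r x)
    (e : List ℕ) (φ : Fact L) : holds L M e φ ↔ holds L N (e.map g) φ := by
  have hd : ∀ {i : ℕ}, i < e.length → (e.map g).getD i 0 = g (e.getD i 0) := by
    intro i hi
    rw [List.getD_eq_getElem _ _ (by rwa [List.length_map]), List.getElem_map,
      List.getD_eq_getElem e _ hi]
  rcases φ with n | ⟨i, j⟩ | ⟨k, R, x⟩ | ⟨k, f, x, m⟩
  · change e.length = n ↔ (e.map g).length = n
    rw [List.length_map]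
  · change (i < e.length ∧ j < e.length ∧ e.getD i 0 = e.getD j 0) ↔
      (i < (e.map g).length ∧ j < (e.map g).length ∧ (e.map g).getD i 0 = (e.map g).getD j 0)
    rw [List.length_map]
    constructor
    · rintro ⟨h1, h2, h3⟩
      exact ⟨h1, h2, by rw [hd h1, hd h2, h3]⟩
    · rintro ⟨h1, h2, h3⟩
      refine ⟨h1, h2, ?_⟩
      rw [hd h1, hd h2] at h3
      exact g.injective h3
  · change ((∀ a, x a < e.length) ∧
      @FirstOrder.Language.Structure.RelMap L ℕ M k R (fun a => e.getD (x a) 0)) ↔
      ((∀ a, x a < (e.map g).length) ∧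
      @FirstOrder.Language.Structure.RelMap L ℕ N k R (fun a => (e.map g).getD (x a) 0))
    rw [List.length_map]
    refine and_congr_right fun h1 => ?_
    have h2 : (fun a => (e.map g).getD (x a) 0) = g ∘ fun a => e.getD (x a) 0 := by
      funext a
      exact hd (h1 a)
    rw [h2]
    exact (hr k R _).symm
  · change ((∀ a, x a < e.length) ∧ m < e.length ∧
      @FirstOrder.Language.Structure.funMap L ℕ M k f (fun a => e.getD (x a) 0) = e.getD m 0) ↔
      ((∀ a, x a < (e.map g).length) ∧ m < (e.map g).length ∧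
      @FirstOrder.Language.Structure.funMap L ℕ N k f (fun a => (e.map g).getD (x a) 0) =
        (e.map g).getD m 0)
    rw [List.length_map]
    refine and_congr_right fun h1 => and_congr_right fun h3 => ?_
    have h2 : (fun a => (e.map g).getD (x a) 0) = g ∘ fun a => e.getD (x a) 0 := by
      funext a
      exact hd (h1 a)
    rw [h2, hd h3, ← hf]
    exact g.injective.eq_iff.symm

end

theorem stSys : StSys := by
  intro L hL
  have hc : Countable (Fact L) := countable_fact hL
  obtain ⟨enc, henc⟩ := exists_injective_nat (Fact L)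
  refine ⟨{ bt := btE enc, len := ?_, sub := ?_ }, enc, henc, btE_iff henc, ?_,
    fun M N e e' h => btE_ext enc h⟩
  · intro M N e e' h
    have h1 : holds L M e (.inl e.length) := rfl
    have h2 : holds L N e' (.inl e.length) := (holds_of_btE henc h _).1 h1
    exact h2.symm
  · intro M N e e' J h hJ
    have h1 := holds_of_btE henc h
    have hlen : e'.length = e.length := (h1 (.inl e.length)).1 rfl
    refine btE_ext enc fun φ => ⟨holds_sel (fun φ => (h1 φ).1) hJ φ, ?_⟩
    exact holds_sel (fun φ => (h1 φ).2) (fun j hj => by rw [hlen]; exact hJ j hj) φ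
  · intro e n
    by_cases hn : ∃ φ, enc φ = n
    · obtain ⟨φ, rfl⟩ := hn
      have h1 : {M : L.Structure ℕ | btE enc M e (enc φ) = true} = {M | holds L M e φ} := by
        ext M
        exact btE_iff henc M e φ
      change @MeasurableSet _ (mS L) {M : L.Structure ℕ | btE enc M e (enc φ) = true}
      rw [h1]
      exact holds_meas e φ
    · have h1 : {M : L.Structure ℕ | btE enc M e n = true} = ∅ := by
        ext M
        constructor
        · intro h2
          have h3 : btE enc M e n = true := h2
          rw [btE_true] at h3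
          obtain ⟨φ, h4, -⟩ := h3
          exact hn ⟨φ, h4⟩
        · intro h2
          exact h2.elim
      change @MeasurableSet _ (mS L) {M : L.Structure ℕ | btE enc M e n = true}
      rw [h1]
      exact @MeasurableSet.empty _ (mS L)

theorem stIsoTypes : StIsoTypes := by
  intro L S hS M N hMN
  obtain ⟨g⟩ := hMN
  obtain ⟨g₀, hg₀⟩ : ∃ g₀ : ℕ ≃ ℕ, g₀ = @FirstOrder.Language.Equiv.toEquiv L ℕ ℕ M N g := ⟨_, rfl⟩
  have hf : ∀ (k : ℕ) (f : L.Functions k) (x : Fin k → ℕ),
      g₀ (@FirstOrder.Language.Structure.funMap L ℕ M k f x) =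
        @FirstOrder.Language.Structure.funMap L ℕ N k f (g₀ ∘ x) := by
    intro k f x
    rw [hg₀]
    exact @FirstOrder.Language.Equiv.map_fun' L ℕ ℕ M N g k f x
  have hr : ∀ (k : ℕ) (r : L.Relations k) (x : Fin k → ℕ),
      @FirstOrder.Language.Structure.RelMap L ℕ N k r (g₀ ∘ x) ↔
        @FirstOrder.Language.Structure.RelMap L ℕ M k r x := by
    intro k r x
    rw [hg₀]
    exact @FirstOrder.Language.Equiv.map_rel' L ℕ ℕ M N g k r x
  have key : ∀ (l : Lvl) (e : List ℕ), tp S M l e = tp S N l (e.map g₀) := by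
    intro l
    induction l with
    | zero =>
      intro e
      exact hS M N e (e.map g₀) (holds_map g₀ hf hr e)
    | node s ih =>
      intro e
      funext k
      ext t
      constructor
      · rintro ⟨c, rfl⟩
        exact ⟨c.map g₀, by rw [ih k, List.map_append]⟩
      · rintro ⟨c, rfl⟩
        refine ⟨c.map g₀.symm, ?_⟩
        rw [ih k, List.map_append, List.map_map]
        simp
  intro l
  ext t
  constructor
  · rintro ⟨c, rfl⟩
    exact ⟨c.map g₀, by rw [key l, List.nil_append, List.nil_append]⟩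
  · rintro ⟨c, rfl⟩
    refine ⟨c.map g₀.symm, ?_⟩
    rw [key l, List.nil_append, List.nil_append, List.map_map]
    simp

end Pool.Bc
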