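import Pool.Agent.Bc.Lang

/-!
# Project BC: the structure of `z` depends measurably on `z`
-/

set_option autoImplicit false

open FirstOrder MeasureTheory

namespace Pool.Bc

theorem ym_coord (c : ZC) (n : ℕ) : MeasurableSet {z : Z | z c = n} :=
  measurableSet_eq_fun (f := fun z : Z => z c) (g := fun _ => n) (measurable_pi_apply c)
    measurable_const

theorem ym_row (σ : List ℕ) (i t n : ℕ) : MeasurableSet {z : Z | row z σ i t = n} :=
  ym_coord _ n

theorem ym_bit (σ : List ℕ) (j : ℕ) (s : List ℕ) (i n : ℕ) :
    MeasurableSet {z : Z | bit z σ j s i = n} :=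
  ym_coord _ n

theorem ym_pre (σ : List ℕ) (i : ℕ) : ∀ (k : ℕ) (s : List ℕ),
    MeasurableSet {z : Z | pre (row z σ i) k = s} := by
  intro k
  induction k with
  | zero =>
    intro s
    exact MeasurableSet.const ([] = s)
  | succ k ih =>
    intro s
    cases s with
    | nil =>
      have h : {z : Z | pre (row z σ i) (k + 1) = []} = ∅ := by
        ext z
        simp [pre]
      rw [h]
      exact MeasurableSet.empty
    | cons a s =>
      have h : {z : Z | pre (row z σ i) (k + 1) = a :: s} =
          {z : Z | row z σ i k = a} ∩ {z : Z | pre (row z σ i) k = s} := by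
        ext z
        simp [pre]
      rw [h]
      exact (ym_row σ i k a).inter (ih s)

theorem stYMeas : StYMeas := by
  intro l
  refine @measurable_generateFrom _ _ _ _ _ ?_
  rintro A (⟨k, g, x, m, rfl⟩ | ⟨k, R, x, rfl⟩)
  · exact nomatch g
  · change MeasurableSet {z : Z | relY l z R x}
    cases R with
    | isA σ => exact MeasurableSet.const _
    | isT σ k => exact MeasurableSet.const _
    | par => exact MeasurableSet.const _
    | colr c =>
      have h : {z : Z | relY l z (RS.colr c) x} = ⋃ (σ : List ℕ) (j : ℕ) (s : List ℕ) (i : ℕ),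
          {z : Z | el (x 0) = .inl (s.length :: σ, i)} ∩ ({z : Z | el (x 1) = .inr (σ, j :: s)} ∩
            {z : Z | bit z σ j s i = c}) := by
        ext z
        simp [relY]
      rw [h]
      exact MeasurableSet.iUnion fun σ => MeasurableSet.iUnion fun j => MeasurableSet.iUnion fun s =>
        MeasurableSet.iUnion fun i => (MeasurableSet.const _).inter
          ((MeasurableSet.const _).inter (ym_bit σ j s i c))
    | lab t c =>
      have h : {z : Z | relY l z (RS.lab t c) x} = ⋃ (σ : List ℕ) (i : ℕ),
          {z : Z | el (x 0) = .inl (σ, i)} ∩ ({z : Z | (lv l σ).isZ = true} ∩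
            {z : Z | row z σ i t = c}) := by
        ext z
        simp [relY]
      rw [h]
      exact MeasurableSet.iUnion fun σ => MeasurableSet.iUnion fun i => (MeasurableSet.const _).inter
          ((MeasurableSet.const _).inter (ym_row σ i t c))
    | br =>
      have h : {z : Z | relY l z RS.br x} = ⋃ (σ : List ℕ) (i : ℕ) (k : ℕ) (s : List ℕ),
          {z : Z | el (x 0) = .inl (σ, i)} ∩ ({z : Z | (lv l σ).isZ = false} ∩
            ({z : Z | el (x 1) = .inr (σ, s)} ∩ {z : Z | pre (row z σ i) k = s})) := by
        ext z
        simp only [relY, Set.mem_ofPred_eq, Set.mem_iUnion, Set.mem_inter_iff]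
        constructor
        · rintro ⟨σ, i, k, h1, h2, h3⟩
          exact ⟨σ, i, k, _, h1, h2, h3, rfl⟩
        · rintro ⟨σ, i, k, s, h1, h2, h3, rfl⟩
          exact ⟨σ, i, k, h1, h2, h3⟩
      rw [h]
      exact MeasurableSet.iUnion fun σ => MeasurableSet.iUnion fun i => MeasurableSet.iUnion fun k =>
        MeasurableSet.iUnion fun s => (MeasurableSet.const _).inter
          ((MeasurableSet.const _).inter ((MeasurableSet.const _).inter (ym_pre σ i k s)))

end Pool.Bc
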