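import Pool.Agent.Bc.Vaught
import Pool.Agent.Bc.Core
import Pool.Agent.Bc.Link
import Pool.Agent.Bc.YMeas
import Pool.Agent.Bc.IsoAnalytic
import Pool.Agent.Bc.Sys

/-!
# Project BC: the main theorem, from the core theorem
-/

set_option autoImplicit false

open FirstOrder MeasureTheory

namespace Pool.Bc

/-- Coding of the relation symbols. -/
def rsCode : (Σ n, RS n) → ℕ × List ℕ × ℕ × ℕ
  | ⟨_, .isA σ⟩ => (0, σ, 0, 0)
  | ⟨_, .isT σ k⟩ => (1, σ, k, 0)
  | ⟨_, .par⟩ => (2, [], 0, 0)
  | ⟨_, .colr c⟩ => (3, [], c, 0)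
  | ⟨_, .lab t c⟩ => (4, [], t, c)
  | ⟨_, .br⟩ => (5, [], 0, 0)

theorem rsCode_inj : Function.Injective rsCode := by
  rintro ⟨n, R⟩ ⟨m, R'⟩ h
  cases R <;> cases R' <;> simp [rsCode] at h ⊢ <;> simp [h]

theorem countable_LC : Countable LC.Symbols := by
  have h1 : Countable (Σ n, LC.Relations n) := rsCode_inj.countable
  have h2 : IsEmpty (Σ n, LC.Functions n) := ⟨fun f => nomatch f.2⟩
  exact instCountableSum

section
variable {L : FirstOrder.Language.{0, 0}} {n : ℕ}

/-- The reduct. -/
@[reducible] def red (M : (L.withConstants (Fin n)).Structure ℕ) : L.Structure ℕ :=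
  @FirstOrder.Language.LHom.reduct L (L.withConstants (Fin n)) (L.lhomWithConstants (Fin n)) ℕ M

/-- The values of the constants. -/
def cst (M : (L.withConstants (Fin n)).Structure ℕ) (i : Fin n) : ℕ :=
  @FirstOrder.Language.Structure.funMap (L.withConstants (Fin n)) ℕ M 0
    (Sum.inr i : (L.withConstants (Fin n)).Functions 0) Fin.elim0

theorem cst_eq (M : (L.withConstants (Fin n)).Structure ℕ) (i : Fin n) (y : Fin 0 → ℕ) :
    @FirstOrder.Language.Structure.funMap (L.withConstants (Fin n)) ℕ M 0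
      (Sum.inr i : (L.withConstants (Fin n)).Functions 0) y = cst M i :=
  congrArg (@FirstOrder.Language.Structure.funMap (L.withConstants (Fin n)) ℕ M 0
    (Sum.inr i : (L.withConstants (Fin n)).Functions 0)) (funext (fun j => Fin.elim0 j))

theorem red_meas : @Measurable _ _ (mS (L.withConstants (Fin n))) (mS L)
    (red (L := L) (n := n)) := by
  refine @measurable_generateFrom _ _ (mS (L.withConstants (Fin n))) _ _ ?_
  rintro A (⟨k, g, x, m, rfl⟩ | ⟨k, R, x, rfl⟩)
  · exact MeasurableSpace.measurableSet_generateFrom (Or.inl ⟨k, Sum.inl g, x, m, rfl⟩)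
  · exact MeasurableSpace.measurableSet_generateFrom (Or.inr ⟨k, Sum.inl R, x, rfl⟩)

theorem cst_meas (i : Fin n) : @Measurable _ _ (mS (L.withConstants (Fin n))) _
    (fun M => cst (L := L) M i) := by
  refine @measurable_to_countable' ℕ _ _ _ (mS (L.withConstants (Fin n))) _ ?_
  intro m
  exact MeasurableSpace.measurableSet_generateFrom (Or.inl ⟨0, Sum.inr i, Fin.elim0, m, rfl⟩)

theorem red_model {T : L.Theory} {p : T.CompleteType (Fin n)}
    {M : (L.withConstants (Fin n)).Structure ℕ}
    (h : @FirstOrder.Language.Theory.Model (L.withConstants (Fin n)) ℕ M p.toTheory) :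
    @FirstOrder.Language.Theory.Model L ℕ (red M) T := by
  let _ := M
  let _ : L.Structure ℕ := red M
  have _ : (L.lhomWithConstants (Fin n)).IsExpansionOn ℕ :=
    FirstOrder.Language.LHom.isExpansionOn_reduct _ _
  have h2 : ℕ ⊨ (L.lhomWithConstants (Fin n)).onTheory T :=
    FirstOrder.Language.Theory.Model.mono h p.subset'
  exact (FirstOrder.Language.LHom.onTheory_model _ _).mp h2

/-- Isomorphism of expansions. -/
theorem siso_of {M N : (L.withConstants (Fin n)).Structure ℕ}
    (π : @FirstOrder.Language.Equiv L ℕ ℕ (red M) (red N))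
    (h : ∀ i, @FirstOrder.Language.Equiv.toEquiv L ℕ ℕ (red M) (red N) π (cst M i) = cst N i) :
    SIso (L.withConstants (Fin n)) M N := by
  refine ⟨@FirstOrder.Language.Equiv.mk (L.withConstants (Fin n)) ℕ ℕ M N
    (@FirstOrder.Language.Equiv.toEquiv L ℕ ℕ (red M) (red N) π) ?_ ?_⟩
  · intro k f x
    rcases f with f | f
    · exact @FirstOrder.Language.Equiv.map_fun' L ℕ ℕ (red M) (red N) π k f x
    · match k, f, x with
      | 0, i, x =>
        exact (congrArg (@FirstOrder.Language.Equiv.toEquiv L ℕ ℕ (red M) (red N) π)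
          (cst_eq M i x)).trans ((h i).trans (cst_eq N i _).symm)
      | k + 1, f, x => exact nomatch f
  · intro k R x
    rcases R with R | R
    · exact @FirstOrder.Language.Equiv.map_rel' L ℕ ℕ (red M) (red N) π k R x
    · exact nomatch R

theorem siso_red {M N : (L.withConstants (Fin n)).Structure ℕ}
    (h : SIso (L.withConstants (Fin n)) M N) : SIso L (red M) (red N) := by
  obtain ⟨π⟩ := h
  refine ⟨@FirstOrder.Language.Equiv.mk L ℕ ℕ (red M) (red N)
    (@FirstOrder.Language.Equiv.toEquiv (L.withConstants (Fin n)) ℕ ℕ M N π) ?_ ?_⟩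
  · intro k f x
    exact @FirstOrder.Language.Equiv.map_fun' (L.withConstants (Fin n)) ℕ ℕ M N π k (Sum.inl f) x
  · intro k R x
    exact @FirstOrder.Language.Equiv.map_rel' (L.withConstants (Fin n)) ℕ ℕ M N π k (Sum.inl R) x

end

theorem bcx (hCore : StCore) (hV : StVaught) (L : FirstOrder.Language.{0, 0})
    (hL : Countable L.Symbols) (T : L.Theory) (n : ℕ) (p : T.CompleteType (Fin n))
    (hp : ∃ F : LC.Structure ℕ → (L.withConstants (Fin n)).Structure ℕ,
      @Measurable _ _ (mS LC) (mS (L.withConstants (Fin n))) F ∧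
      (∀ M, @FirstOrder.Language.Theory.Model (L.withConstants (Fin n)) ℕ (F M) p.toTheory) ∧
      ∀ M N, SIso LC M N ↔ SIso (L.withConstants (Fin n)) (F M) (F N))
    (L' : FirstOrder.Language.{0, 0}) (hL' : Countable L'.Symbols)
    (K : Set (L'.Structure ℕ)) (hinv : ∀ M N, M ∈ K → SIso L' M N → N ∈ K)
    (hK : @MeasurableSet (L'.Structure ℕ × L'.Structure ℕ)
      (@Prod.instMeasurableSpace _ _ (mS L') (mS L'))
      {q | q.1 ∈ K ∧ q.2 ∈ K ∧ SIso L' q.1 q.2}) :
    ∃ f : L'.Structure ℕ → L.Structure ℕ, @Measurable _ _ (mS L') (mS L) f ∧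
      (∀ M, @FirstOrder.Language.Theory.Model L ℕ (f M) T) ∧
      ∀ M ∈ K, ∀ N ∈ K, (SIso L' M N ↔ SIso L (f M) (f N)) := by
  obtain ⟨F, hF1, hF2, hF3⟩ := hp
  obtain ⟨S, enc, _, hS2, hS3, hS4⟩ := stSys L' hL'
  obtain ⟨l, hl, hl2⟩ := hV L' hL' S enc hS2 K hK hinv
  -- the maps
  set G0 : Z → (L.withConstants (Fin n)).Structure ℕ := fun z => F (Y l z) with hG0
  have hG0m : @Measurable _ _ _ (mS (L.withConstants (Fin n))) G0 :=
    @Measurable.comp _ _ _ _ (mS LC) (mS (L.withConstants (Fin n))) _ _ hF1 (stYMeas l)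
  set g : Z → L.Structure ℕ := fun z => red (G0 z) with hg
  have hgm : @Measurable _ _ _ (mS L) g :=
    @Measurable.comp _ _ _ _ (mS (L.withConstants (Fin n))) (mS L) _ _ red_meas hG0m
  set c : Z → Fin n → ℕ := fun z => cst (G0 z) with hc
  have hcm : Measurable c := by
    rw [measurable_pi_iff]
    intro i
    exact @Measurable.comp _ _ _ _ (mS (L.withConstants (Fin n))) _ _ _ (cst_meas i) hG0m
  have hzi : ∀ z z' : Z, ZIso l z z' ↔ SIso (L.withConstants (Fin n)) (G0 z) (G0 z') := by
    intro z z'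
    rw [stLink l z z']
    exact hF3 _ _
  set GG : (Fin n → ℕ) → Set (Z × Z) := fun v =>
    {q : Z × Z | ∃ π : @FirstOrder.Language.Equiv L ℕ ℕ (g q.2) (g q.1),
      ∀ i, @FirstOrder.Language.Equiv.toEquiv L ℕ ℕ (g q.2) (g q.1) π (c q.2 i) = v i} with hGG
  obtain ⟨E, hE1, hE2, hE3⟩ := @hCore (L'.Structure ℕ) (mS L') S hS3 l hl
    (fun m => (Encodable.decode (α := Fin n → ℕ) m).elim ∅ GG)
    (by
      intro m
      cases Encodable.decode (α := Fin n → ℕ) m with
      | none => exact analyticSet_empty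
      | some v => exact stIsoAnalytic L hL g g hgm hgm n c hcm v)
    (by
      intro m z z' z'' h1 h2
      change (z, z') ∈ (Encodable.decode (α := Fin n → ℕ) m).elim ∅ GG at h1
      change (z, z'') ∈ (Encodable.decode (α := Fin n → ℕ) m).elim ∅ GG at h2
      generalize Encodable.decode (α := Fin n → ℕ) m = o at h1 h2
      cases o with
      | none => exact absurd h1 (by simp)
      | some v =>
        obtain ⟨π, hπ⟩ := h1
        obtain ⟨π', hπ'⟩ := h2
        rw [hzi]
        refine siso_of (@FirstOrder.Language.Equiv.comp L ℕ ℕ (g z') (g z) ℕ (g z'')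
          (@FirstOrder.Language.Equiv.symm L ℕ ℕ (g z'') (g z) π') π) ?_
        intro i
        have h3 := hπ i
        have h4 := hπ' i
        exact (congrArg (@FirstOrder.Language.Equiv.toEquiv L ℕ ℕ (g z'') (g z) π').symm h3).trans
          ((Equiv.symm_apply_eq _).mpr h4.symm))
  refine ⟨fun M => g (E M), @Measurable.comp _ _ _ (mS L') _ (mS L) _ _ hgm hE1, ?_, ?_⟩
  · intro M
    exact red_model (hF2 _)
  · intro M hM N hN
    constructor
    · intro h
      apply siso_red
      rw [← hzi]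
      exact hE2 M N (stIsoTypes L' S hS4 M N h)
    · intro h
      by_contra hne
      have htp : tp S M l [] ≠ tp S N l [] := fun h2 => hne (hl2 M hM N hN h2)
      obtain ⟨z, z', hz, hz', hor⟩ := hE3 M N htp
      have hgz : SIso L (g z) (g (E M)) := siso_red ((hzi _ _).mp hz)
      have hgz' : SIso L (g z') (g (E N)) := siso_red ((hzi _ _).mp hz')
      have h1 : SIso L (g z') (g z) :=
        ivSIso_trans hgz' (ivSIso_trans (ivSIso_symm h) (ivSIso_symm hgz))
      rcases hor with hor | hor
      · obtain ⟨π⟩ := h1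
        have := hor (Encodable.encode (fun i => @FirstOrder.Language.Equiv.toEquiv L ℕ ℕ (g z')
          (g z) π (c z' i)))
        simp only [Encodable.encodek] at this
        exact this ⟨π, fun _ => rfl⟩
      · obtain ⟨π⟩ := ivSIso_symm h1
        have := hor (Encodable.encode (fun i => @FirstOrder.Language.Equiv.toEquiv L ℕ ℕ (g z)
          (g z') π (c z i)))
        simp only [Encodable.encodek] at this
        exact this ⟨π, fun _ => rfl⟩

end Pool.Bc
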