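import Pool.Agent.Bc.Stmts2

/-!
# Project BC: forcing of sections of a Borel set only depends on the type of some level
-/

set_option autoImplicit false

open MeasureTheory

namespace Pool.Bc

section forcing

variable {L : FirstOrder.Language.{0, 0}} {M : L.Structure ℕ}

theorem ivDenseL_univ : DenseL Set.univ := fun q hq => ⟨[], by rwa [List.append_nil], trivial⟩

theorem InitOf.ivPrefix {p q : List ℕ} {g : Equiv.Perm ℕ} (hp : InitOf p g) (hq : InitOf q g)
    (h : p.length ≤ q.length) : ∃ c, q = p ++ c := by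
  refine ⟨q.drop p.length, ?_⟩
  apply List.ext_getElem
  · rw [List.length_append, List.length_drop]
    omega
  · intro i h1 h2
    rcases Nat.lt_or_ge i p.length with hi | hi
    · rw [List.getElem_append_left hi, ← hp i hi, ← hq i h1]
    · rw [List.getElem_append_right hi, List.getElem_drop]
      congr 1
      omega

theorem InitOf.ivNodup {p : List ℕ} {g : Equiv.Perm ℕ} (hp : InitOf p g) : p.Nodup := by
  rw [List.nodup_iff_injective_get]
  intro i j hij
  have h1 : g i = p[i] := hp i i.2
  have h2 : g j = p[j] := hp j j.2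
  have h3 : g i = g j := by
    rw [h1, h2]
    exact hij
  exact Fin.ext (g.injective h3)

theorem InitOf.ivOf_append {p c : List ℕ} {g : Equiv.Perm ℕ} (h : InitOf (p ++ c) g) :
    InitOf p g := by
  intro i hi
  rw [h i (by rw [List.length_append]; omega), List.getElem_append_left hi]

theorem Forces.ivMono {p : List ℕ} {B B' : Set (L.Structure ℕ)} (h : Forces L M p B)
    (hB : B ⊆ B') : Forces L M p B' := by
  obtain ⟨U, hU, h⟩ := h
  exact ⟨U, hU, fun g h1 h2 => hB (h g h1 h2)⟩

theorem Forces.ivAppend {p : List ℕ} {B : Set (L.Structure ℕ)} (h : Forces L M p B)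
    (c : List ℕ) : Forces L M (p ++ c) B := by
  obtain ⟨U, hU, h⟩ := h
  exact ⟨U, hU, fun g h1 h2 => h g h1.ivOf_append h2⟩

theorem Forces.ivInter {p : List ℕ} {B : ℕ → Set (L.Structure ℕ)}
    (h : ∀ n, Forces L M p (B n)) : Forces L M p (⋂ n, B n) := by
  choose U hU h using h
  refine ⟨fun k => U k.unpair.1 k.unpair.2, fun k => hU _ _, ?_⟩
  intro g h1 h2
  rw [Set.mem_iInter]
  intro n
  refine h n g h1 fun m => ?_
  have := h2 (Nat.pair n m)
  simpa only [Nat.unpair_pair] using this

theorem Forces.ivNot_compl (h2 : StGenPerm) {p : List ℕ} (hp : p.Nodup)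
    {B : Set (L.Structure ℕ)} (h : Forces L M p B) (h' : Forces L M p Bᶜ) : False := by
  have h3 : Forces L M p (⋂ n : ℕ, if n = 0 then B else Bᶜ) := by
    refine Forces.ivInter fun n => ?_
    split_ifs
    · exact h
    · exact h'
  obtain ⟨U, hU, h3⟩ := h3
  obtain ⟨g, hg1, hg2⟩ := h2 U hU p hp
  have h4 := h3 g hg1 hg2
  rw [Set.mem_iInter] at h4
  have h5 := h4 0
  have h6 := h4 1
  rw [if_pos rfl] at h5
  rw [if_neg one_ne_zero] at h6
  exact h6 h5

open Classical in
/-- The key lemma: if densely below `p` some `q` forces a set `C i` (from a countable family), then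
`p` forces the union. -/
theorem Forces.ivOf_dense {p : List ℕ} {C : ℕ → Set (L.Structure ℕ)} {B : Set (L.Structure ℕ)}
    (h : ∀ c : List ℕ, (p ++ c).Nodup → ∃ d : List ℕ, (p ++ c ++ d).Nodup ∧
      ∃ n, Forces L M (p ++ c ++ d) (C n)) (hC : ∀ n, C n ⊆ B) (hp : p.Nodup) :
    Forces L M p B := by
  -- witnesses
  let W : List ℕ → ℕ → ℕ → Set (List ℕ) := fun q n m =>
    if h : Forces L M q (C n) then h.choose m else Set.univ
  have hW : ∀ q n m, DenseL (W q n m) := by
    intro q n m
    simp only [W]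
    split_ifs with h1
    · exact h1.choose_spec.1 m
    · exact ivDenseL_univ
  let V : Set (List ℕ) := {q | (∃ n, Forces L M q (C n)) ∨
    ¬ ((∃ c, q = p ++ c) ∨ (∃ c, p = q ++ c))}
  have hV : DenseL V := by
    intro q hq
    by_cases h1 : ∃ c, q = p ++ c
    · obtain ⟨c, rfl⟩ := h1
      obtain ⟨d, hd, n, hn⟩ := h c hq
      exact ⟨d, hd, Or.inl ⟨n, hn⟩⟩
    · by_cases h2 : ∃ c, p = q ++ c
      · obtain ⟨c, hc⟩ := h2
        obtain ⟨d, hd, n, hn⟩ := h [] (by rwa [List.append_nil])
        rw [List.append_nil] at hd hn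
        refine ⟨c ++ d, ?_, Or.inl ⟨n, ?_⟩⟩
        · rw [← List.append_assoc, ← hc]
          exact hd
        · rw [← List.append_assoc, ← hc]
          exact hn
      · refine ⟨[], by rwa [List.append_nil], Or.inr ?_⟩
        rw [List.append_nil]
        exact fun h3 => h3.elim h1 h2
  let D : ℕ → Set (List ℕ) := fun k =>
    match Encodable.decode (α := Option (List ℕ × ℕ × ℕ)) k with
    | some (some (q, n, m)) => W q n m
    | some none => V
    | none => Set.univ
  refine ⟨D, ?_, ?_⟩
  · intro k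
    simp only [D]
    split
    · exact hW _ _ _
    · exact hV
    · exact ivDenseL_univ
  · intro g hg1 hg2
    have hVg : ∃ q ∈ V, InitOf q g := by
      have := hg2 (Encodable.encode (none : Option (List ℕ × ℕ × ℕ)))
      simpa only [D, Encodable.encodek] using this
    have hWg : ∀ q n m, ∃ r ∈ W q n m, InitOf r g := by
      intro q n m
      have := hg2 (Encodable.encode (some (q, n, m) : Option (List ℕ × ℕ × ℕ)))
      simpa only [D, Encodable.encodek] using this
    obtain ⟨q, hq, hqg⟩ := hVg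
    rcases hq with ⟨n, hn⟩ | hq
    · refine hC n (hn.choose_spec.2 g hqg fun m => ?_)
      have := hWg q n m
      simp only [W] at this
      rwa [dif_pos hn] at this
    · exfalso
      apply hq
      rcases le_total p.length q.length with h1 | h1
      · exact Or.inl (hg1.ivPrefix hqg h1)
      · exact Or.inr (hqg.ivPrefix hg1 h1)

theorem ivForces_iff (h2 : StGenPerm) (h3 : StDecide) {p : List ℕ} (hp : p.Nodup)
    {B : Set (L.Structure ℕ)} (hB : @MeasurableSet _ (mS L) B) :
    Forces L M p B ↔ ∀ c : List ℕ, (p ++ c).Nodup → ¬ Forces L M (p ++ c) Bᶜ := by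
  constructor
  · intro h c hc h'
    exact (h.ivAppend c).ivNot_compl h2 hc h'
  · intro h
    refine Forces.ivOf_dense (C := fun _ => B) ?_ (fun _ => subset_rfl) hp
    intro c hc
    obtain ⟨d, hd, h4⟩ := h3 L M B hB (p ++ c) hc
    refine ⟨d, hd, 0, ?_⟩
    rcases h4 with h4 | h4
    · exact h4
    · exfalso
      rw [List.append_assoc] at hd h4
      exact h _ hd h4

theorem ivForces_iUnion_iff (h2 : StGenPerm) (h3 : StDecide) {p : List ℕ} (hp : p.Nodup)
    {B : ℕ → Set (L.Structure ℕ)} (hB : ∀ n, @MeasurableSet _ (mS L) (B n)) :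
    Forces L M p (⋃ n, B n) ↔ ∀ c : List ℕ, (p ++ c).Nodup → ∃ d : List ℕ,
      (p ++ c ++ d).Nodup ∧ ∃ n, Forces L M (p ++ c ++ d) (B n) := by
  constructor
  · intro h c hc
    by_contra hcon
    push Not at hcon
    have h4 : ∀ n, Forces L M (p ++ c) (B n)ᶜ := by
      intro n
      rw [ivForces_iff h2 h3 hc (@MeasurableSet.compl _ _ (mS L) (hB n))]
      intro d hd h5
      rw [compl_compl] at h5
      exact hcon d hd n h5
    have h6 := Forces.ivInter h4
    rw [← Set.compl_iUnion] at h6
    exact (h.ivAppend c).ivNot_compl h2 hc h6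
  · intro h
    exact Forces.ivOf_dense h (fun n => Set.subset_iUnion B n) hp

end forcing

section levels

variable {X : Type} {S : TupSys X}

theorem ivTp_bt : ∀ (l : Lvl) {x x' : X} {e e' : List ℕ}, tp S x l e = tp S x' l e' →
    S.bt x e = S.bt x' e'
  | .zero, _, _, _, _, h => h
  | .node s, _, _, _, _, h => ivTp_bt (s 0) (jp_tp (l := s 0) (congrFun h 0))

end levels

section facts

variable {L : FirstOrder.Language.{0, 0}} {S : TupSys (L.Structure ℕ)} {enc : Fact L → ℕ}

theorem ivHolds_of_bt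
    (hS : ∀ (M : L.Structure ℕ) (e : List ℕ) (φ : Fact L), S.bt M e (enc φ) = true ↔ holds L M e φ)
    {M M' : L.Structure ℕ} {e e' : List ℕ} (h : S.bt M e = S.bt M' e') (φ : Fact L) :
    holds L M e φ ↔ holds L M' e' φ := by
  rw [← hS, ← hS, h]

theorem ivNodup_of_bt
    (hS : ∀ (M : L.Structure ℕ) (e : List ℕ) (φ : Fact L), S.bt M e (enc φ) = true ↔ holds L M e φ)
    {M M' : L.Structure ℕ} {e e' : List ℕ} (h : S.bt M e = S.bt M' e') (he : e.Nodup) :
    e'.Nodup := by
  have hl := S.len h
  rw [List.nodup_iff_injective_get] at he ⊢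
  intro i j hij
  have h1 : holds L M' e' (.inr (.inl (i, j))) := by
    refine ⟨i.2, j.2, ?_⟩
    rw [List.getD_eq_getElem _ _ i.2, List.getD_eq_getElem _ _ j.2]
    exact hij
  rw [← ivHolds_of_bt hS h] at h1
  obtain ⟨h2, h3, h4⟩ := h1
  rw [List.getD_eq_getElem _ _ h2, List.getD_eq_getElem _ _ h3] at h4
  have h5 : (⟨i, h2⟩ : Fin e.length) = ⟨j, h3⟩ := he h4
  exact Fin.ext (Fin.mk.inj_iff.mp h5)

end facts

/-- Nodup lists have long nodup extensions. -/
theorem ivExists_long (q : List ℕ) (hq : q.Nodup) (N : ℕ) :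
    ∃ c : List ℕ, (q ++ c).Nodup ∧ N ≤ (q ++ c).length := by
  induction N with
  | zero => exact ⟨[], by rwa [List.append_nil], Nat.zero_le _⟩
  | succ N ih =>
    obtain ⟨c, hc, hN⟩ := ih
    obtain ⟨m, hm⟩ := Infinite.exists_notMem_finset (q ++ c).toFinset
    rw [List.mem_toFinset] at hm
    refine ⟨c ++ [m], ?_, ?_⟩
    · rw [← List.append_assoc, List.nodup_append]
      refine ⟨hc, List.nodup_singleton m, ?_⟩
      intro a ha b hb hab
      rw [List.mem_singleton] at hb
      subst hb
      subst hab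
      exact hm ha
    · rw [← List.append_assoc, List.length_append, List.length_singleton]
      omega

/-- Forcing of an atomic set. -/
theorem ivForces_atom_iff (h2 : StGenPerm) {L : FirstOrder.Language.{0, 0}} {M : L.Structure ℕ}
    {B : Set (L.Structure ℕ)} {N : ℕ} {P : List ℕ → Prop}
    (hP : ∀ (g : Equiv.Perm ℕ) (p : List ℕ), InitOf p g → N ≤ p.length →
      (pull L M g ∈ B ↔ P p)) {p : List ℕ} :
    Forces L M p B ↔ ∀ c : List ℕ, (p ++ c).Nodup → N ≤ (p ++ c).length → P (p ++ c) := by
  constructor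
  · intro h c hc hN
    obtain ⟨U, hU, h⟩ := h
    obtain ⟨g, hg1, hg2⟩ := h2 U hU (p ++ c) hc
    rw [← hP g (p ++ c) hg1 hN]
    exact h g hg1.ivOf_append hg2
  · intro h
    refine ⟨fun _ => {q | N ≤ q.length}, fun _ q hq => ?_, ?_⟩
    · obtain ⟨c, hc, hN⟩ := ivExists_long q hq N
      exact ⟨c, hc, hN⟩
    · intro g hg1 hg2
      obtain ⟨q, hq, hqg⟩ := hg2 0
      rcases le_total p.length q.length with h1 | h1
      · obtain ⟨c, rfl⟩ := hg1.ivPrefix hqg h1
        rw [hP g _ hqg hq]
        exact h c hqg.ivNodup hq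
      · have hN : N ≤ p.length := le_trans hq h1
        rw [hP g p hg1 hN]
        have := h [] (by rw [List.append_nil]; exact hg1.ivNodup) (by rwa [List.append_nil])
        rwa [List.append_nil] at this

theorem ivPull_fun_iff {L : FirstOrder.Language.{0, 0}} {M : L.Structure ℕ} {k : ℕ}
    (f : L.Functions k) (x : Fin k → ℕ) (m : ℕ) (g : Equiv.Perm ℕ) :
    pull L M g ∈ {M : L.Structure ℕ | @FirstOrder.Language.Structure.funMap L ℕ M k f x = m} ↔
      @FirstOrder.Language.Structure.funMap L ℕ M k f (g ∘ x) = g m := by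
  change g.symm (@FirstOrder.Language.Structure.funMap L ℕ M k f (g ∘ x)) = m ↔ _
  rw [Equiv.symm_apply_eq]

theorem stInv (h1 : StMonoSup) (h2 : StGenPerm) (h3 : StDecide) : StInv := by
  intro L hL S enc hS R hR
  obtain ⟨HM, hMono, hz, hsup⟩ := h1
  -- one jump
  have jump : ∀ l : Lvl, HM l → ∃ l' : Lvl, HM l' ∧ ∀ (M M' : L.Structure ℕ) (p p' : List ℕ),
      tp S M l' p = tp S M' l' p' →
      ∀ c', ∃ c, tp S M l (p ++ c) = tp S M' l (p' ++ c') := by
    intro l hl
    obtain ⟨s, hs, _, h⟩ := hsup (fun _ => l) (fun _ => hl)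
    obtain ⟨k, hk⟩ := h 0
    refine ⟨.node s, hs, fun M M' p p' he c' => ?_⟩
    have h4 : jp S M (s k) p = jp S M' (s k) p' := congrFun he k
    have h5 : tp S M' (s k) (p' ++ c') ∈ jp S M (s k) p := h4 ▸ tp_mem_jp M' (s k) p' c'
    obtain ⟨c, hc⟩ := h5
    exact ⟨c, (hk S M' M _ _ hc).symm⟩
  letI : MeasurableSpace (L.Structure ℕ) := mS L
  let P : Set (L.Structure ℕ × L.Structure ℕ) → Prop := fun R => ∃ l : Lvl, HM l ∧
    ∀ N M M' : L.Structure ℕ, ∀ p p' : List ℕ, p.Nodup → tp S M l p = tp S M' l p' →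
      Forces L M p {M1 | (N, M1) ∈ R} → Forces L M' p' {M1 | (N, M1) ∈ R}
  -- atomic sets
  have atom : ∀ (B : Set (L.Structure ℕ)) (N0 : ℕ) (φ : Fact L),
      (∀ (M : L.Structure ℕ) (g : Equiv.Perm ℕ) (p : List ℕ), InitOf p g → N0 ≤ p.length →
        (pull L M g ∈ B ↔ holds L M p φ)) → P (Prod.snd ⁻¹' B) := by
    intro B N0 φ hB
    obtain ⟨l, hl, hj⟩ := jump .zero hz
    refine ⟨l, hl, fun N M M' p p' hp he hf => ?_⟩
    change Forces L M p B at hf
    change Forces L M' p' B
    rw [ivForces_atom_iff h2 (hB M)] at hf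
    rw [ivForces_atom_iff h2 (hB M')]
    intro c' hc' hN
    obtain ⟨c, hc⟩ := hj M M' p p' he c'
    have hb : S.bt M (p ++ c) = S.bt M' (p' ++ c') := hc
    rw [← ivHolds_of_bt hS hb]
    refine hf c (ivNodup_of_bt hS hb.symm hc') ?_
    rw [S.len hb]
    exact hN
  let C : Set (Set (L.Structure ℕ × L.Structure ℕ)) :=
    {A | ∃ B : Set (L.Structure ℕ), MeasurableSet B ∧ A = Prod.fst ⁻¹' B} ∪
    {A | ∃ B : Set (L.Structure ℕ), P (Prod.snd ⁻¹' B) ∧ MeasurableSet B ∧ A = Prod.snd ⁻¹' B}
  have hgen : (Prod.instMeasurableSpace : MeasurableSpace (L.Structure ℕ × L.Structure ℕ)) ≤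
      MeasurableSpace.generateFrom C := by
    refine sup_le ?_ ?_
    · rintro A ⟨B, hB, rfl⟩
      exact MeasurableSpace.measurableSet_generateFrom (Or.inl ⟨B, hB, rfl⟩)
    · have h4 : (this : MeasurableSpace (L.Structure ℕ)) = mS L := rfl
      rw [h4, mS, MeasurableSpace.comap_generateFrom]
      refine MeasurableSpace.generateFrom_le ?_
      rintro _ ⟨B, hB, rfl⟩
      refine MeasurableSpace.measurableSet_generateFrom (Or.inr ⟨B, ?_, ?_, rfl⟩)
      · rcases hB with ⟨k, f, x, m, rfl⟩ | ⟨k, Rr, x, rfl⟩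
        · refine atom _ (max (m + 1) (Finset.univ.sup fun i => x i + 1))
            (.inr (.inr (.inr ⟨k, f, x, m⟩))) ?_
          intro M g p hg hN
          have hm : m < p.length := by
            have := le_trans (le_max_left _ _) hN
            omega
          have hx : ∀ i, x i < p.length := by
            intro i
            have h5 : x i + 1 ≤ Finset.univ.sup fun i => x i + 1 :=
              Finset.le_sup (f := fun i => x i + 1) (Finset.mem_univ i)
            have := le_trans (le_max_right _ _) hN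
            omega
          rw [ivPull_fun_iff]
          have h6 : (g ∘ x) = fun a => p.getD (x a) 0 := by
            funext a
            rw [Function.comp, List.getD_eq_getElem _ _ (hx a)]
            exact hg (x a) (hx a)
          have h7 : g m = p.getD m 0 := by
            rw [List.getD_eq_getElem _ _ hm]
            exact hg m hm
          rw [h6, h7]
          exact ⟨fun h => ⟨hx, hm, h⟩, fun h => h.2.2⟩
        · refine atom _ (Finset.univ.sup fun i => x i + 1) (.inr (.inr (.inl ⟨k, Rr, x⟩))) ?_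
          intro M g p hg hN
          have hx : ∀ i, x i < p.length := by
            intro i
            have h5 : x i + 1 ≤ Finset.univ.sup fun i => x i + 1 :=
              Finset.le_sup (f := fun i => x i + 1) (Finset.mem_univ i)
            omega
          have h6 : (g ∘ x) = fun a => p.getD (x a) 0 := by
            funext a
            rw [Function.comp, List.getD_eq_getElem _ _ (hx a)]
            exact hg (x a) (hx a)
          change @FirstOrder.Language.Structure.RelMap L ℕ M k Rr (g ∘ x) ↔ _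
          rw [h6]
          exact ⟨fun h => ⟨hx, h⟩, fun h => h.2⟩
      · exact MeasurableSpace.measurableSet_generateFrom hB
  have hC : MeasurableSpace.generateFrom C ≤
      (Prod.instMeasurableSpace : MeasurableSpace (L.Structure ℕ × L.Structure ℕ)) := by
    refine MeasurableSpace.generateFrom_le ?_
    rintro A (⟨B, hB, rfl⟩ | ⟨B, _, hB, rfl⟩)
    · exact measurable_fst hB
    · exact measurable_snd hB
  have hsec : ∀ (A : Set (L.Structure ℕ × L.Structure ℕ)), MeasurableSet A → ∀ N : L.Structure ℕ,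
      @MeasurableSet _ (mS L) {M1 : L.Structure ℕ | (N, M1) ∈ A} := fun A hA N =>
    measurable_prodMk_left hA
  have main : P R := by
    refine MeasurableSpace.generateFrom_induction C (fun A _ => P A) ?_ ?_ ?_ ?_ R (hgen R hR)
    · rintro A (⟨B, hB, rfl⟩ | ⟨B, hP, hB, rfl⟩) _
      · refine ⟨.zero, hz, fun N M M' p p' hp he hf => ?_⟩
        by_cases hN : N ∈ B
        · exact ⟨fun _ => Set.univ, fun _ => ivDenseL_univ, fun g _ _ => hN⟩
        · exfalso
          obtain ⟨U, hU, hf⟩ := hf
          obtain ⟨g, hg1, hg2⟩ := h2 U hU p hp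
          exact hN (hf g hg1 hg2)
      · exact hP
    · refine ⟨.zero, hz, fun N M M' p p' hp he hf => ?_⟩
      exfalso
      obtain ⟨U, hU, hf⟩ := hf
      obtain ⟨g, hg1, hg2⟩ := h2 U hU p hp
      exact hf g hg1 hg2
    · intro A hA ⟨l, hl, hP⟩
      obtain ⟨l', hl', hj⟩ := jump l hl
      refine ⟨l', hl', fun N M M' p p' hp he hf => ?_⟩
      have hb := ivTp_bt l' he
      have hp' := ivNodup_of_bt hS hb hp
      have hm := hsec A (hC A hA) N
      have hf' : Forces L M p {M1 | (N, M1) ∈ A}ᶜ := hf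
      change Forces L M' p' {M1 | (N, M1) ∈ A}ᶜ
      rw [ivForces_iff h2 h3 hp' (@MeasurableSet.compl _ _ (mS L) hm)]
      intro c' hc' h5
      rw [compl_compl] at h5
      obtain ⟨c, hc⟩ := hj M M' p p' he c'
      have hcn := ivNodup_of_bt hS (ivTp_bt l hc).symm hc'
      have h6 := hP N M' M (p' ++ c') (p ++ c) hc' hc.symm h5
      exact h6.ivNot_compl h2 hcn (hf'.ivAppend c)
    · intro A hA hP
      choose a ha hP using hP
      obtain ⟨s, hs, _, hk⟩ := hsup a ha
      choose k hk using hk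
      obtain ⟨l', hl', hj⟩ := jump (.node s) hs
      refine ⟨l', hl', fun N M M' p p' hp he hf => ?_⟩
      have hb := ivTp_bt l' he
      have hp' := ivNodup_of_bt hS hb hp
      have hm : ∀ n, @MeasurableSet _ (mS L) {M1 : L.Structure ℕ | (N, M1) ∈ A n} :=
        fun n => hsec (A n) (hC _ (hA n)) N
      have e1 : {M1 : L.Structure ℕ | (N, M1) ∈ ⋃ n, A n} = ⋃ n, {M1 | (N, M1) ∈ A n} := by
        ext M1
        simp only [Set.mem_setOf_eq, Set.mem_iUnion]
      rw [e1] at hf ⊢
      rw [ivForces_iUnion_iff h2 h3 hp hm] at hf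
      rw [ivForces_iUnion_iff h2 h3 hp' hm]
      intro c' hc'
      obtain ⟨c, hc⟩ := hj M M' p p' he c'
      have hcn := ivNodup_of_bt hS (ivTp_bt _ hc).symm hc'
      obtain ⟨d, hd, n, hn⟩ := hf c hcn
      have h4 : jp S M (s (k n)) (p ++ c) = jp S M' (s (k n)) (p' ++ c') := congrFun hc (k n)
      have h5 : tp S M (s (k n)) (p ++ c ++ d) ∈ jp S M' (s (k n)) (p' ++ c') :=
        h4 ▸ tp_mem_jp M (s (k n)) (p ++ c) d
      obtain ⟨d', hd'⟩ := h5
      have h6 := hk n S M M' _ _ hd'
      exact ⟨d', ivNodup_of_bt hS (ivTp_bt _ h6) hd, n, hP n N M M' _ _ hd h6 hn⟩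
  obtain ⟨l, hl, hP⟩ := main
  exact ⟨l, hMono S l hl, hP⟩

end Pool.Bc
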