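import Pool.Agent.Bc.Stmts

/-!
# Project BC: first order structures, statements of the model theoretic rows
-/

set_option autoImplicit false

open FirstOrder MeasureTheory

namespace Pool.Bc

/-- The Borel structure of the space of `L`-structures with universe `ℕ`. -/
@[reducible] def mS (L : FirstOrder.Language.{0, 0}) : MeasurableSpace (L.Structure ℕ) :=
  MeasurableSpace.generateFrom
    ({A | ∃ (k : ℕ) (g : L.Functions k) (x : Fin k → ℕ) (m : ℕ),
        A = {M : L.Structure ℕ | @FirstOrder.Language.Structure.funMap L ℕ M k g x = m}} ∪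
     {A | ∃ (k : ℕ) (R : L.Relations k) (x : Fin k → ℕ),
        A = {M : L.Structure ℕ | @FirstOrder.Language.Structure.RelMap L ℕ M k R x}})

/-- Isomorphism of structures with universe `ℕ`. -/
def SIso (L : FirstOrder.Language.{0, 0}) (M N : L.Structure ℕ) : Prop :=
  Nonempty (@FirstOrder.Language.Equiv L ℕ ℕ M N)

/-- Relation symbols of the language of enumerated structures. -/
inductive RS : ℕ → Type
  | isA (σ : List ℕ) : RS 1
  | isT (σ : List ℕ) (k : ℕ) : RS 1
  | par : RS 2
  | colr (c : ℕ) : RS 2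
  | lab (t c : ℕ) : RS 1
  | br : RS 2

/-- The language of enumerated structures. -/
def LC : FirstOrder.Language.{0, 0} := ⟨fun _ => Empty, RS⟩

/-- Elements of enumerated structures: `A`-elements and `T`-elements (including roots). -/
abbrev Elem : Type := (List ℕ × ℕ) ⊕ (List ℕ × List ℕ)

/-- The bijection of the universe `ℕ` with the elements. -/
def el : ℕ ≃ Elem := (Denumerable.eqv Elem).symm

/-- The relations of the structure of `z`. -/
def relY (l : Lvl) (z : Z) : ∀ {n : ℕ}, RS n → (Fin n → ℕ) → Prop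
  | _, .isA σ, v => ∃ i, el (v 0) = .inl (σ, i)
  | _, .isT σ k, v => ∃ s : List ℕ, el (v 0) = .inr (σ, s) ∧ s.length = k
  | _, .par, v => ∃ (σ : List ℕ) (j : ℕ) (s : List ℕ), el (v 0) = .inr (σ, j :: s) ∧
      el (v 1) = .inr (σ, s)
  | _, .colr c, v => ∃ (σ : List ℕ) (j : ℕ) (s : List ℕ) (i : ℕ),
      el (v 0) = .inl (s.length :: σ, i) ∧ el (v 1) = .inr (σ, j :: s) ∧ bit z σ j s i = c
  | _, .lab t c, v => ∃ (σ : List ℕ) (i : ℕ), el (v 0) = .inl (σ, i) ∧ (lv l σ).isZ = true ∧
      row z σ i t = c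
  | _, .br, v => ∃ (σ : List ℕ) (i k : ℕ), el (v 0) = .inl (σ, i) ∧ (lv l σ).isZ = false ∧
      el (v 1) = .inr (σ, pre (row z σ i) k)

/-- The structure of `z`. -/
@[reducible] def Y (l : Lvl) (z : Z) : LC.Structure ℕ where
  funMap := fun f _ => nomatch f
  RelMap := fun R v => relY l z R v

/-- Enumerated structures are isomorphic iff their first order structures are. -/
def StLink : Prop := ∀ (l : Lvl) (z z' : Z), ZIso l z z' ↔ SIso LC (Y l z) (Y l z')

/-- The structure of `z` depends measurably on `z`. -/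
def StYMeas : Prop := ∀ l : Lvl, @Measurable Z (LC.Structure ℕ) _ (mS LC) (Y l)

/-- Isomorphism of (pulled back) structures is analytic: if `f, g` are Borel maps from `Z`, then
`{(z, z') | some isomorphism from g z' to f z takes the tuple c z' to v}` is analytic. -/
def StIsoAnalytic : Prop := ∀ (L : FirstOrder.Language.{0, 0}), Countable L.Symbols →
  ∀ (f g : Z → L.Structure ℕ), @Measurable _ _ _ (mS L) f → @Measurable _ _ _ (mS L) g →
  ∀ (n : ℕ) (c : Z → Fin n → ℕ), Measurable c → ∀ v : Fin n → ℕ,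
  AnalyticSet {p : Z × Z | ∃ π : @FirstOrder.Language.Equiv L ℕ ℕ (g p.2) (f p.1),
    ∀ i, @FirstOrder.Language.Equiv.toEquiv L ℕ ℕ (g p.2) (f p.1) π (c p.2 i) = v i}

/-- Atomic facts about tuples: length, equalities, relations, function values. -/
abbrev Fact (L : FirstOrder.Language.{0, 0}) : Type :=
  ℕ ⊕ (ℕ × ℕ) ⊕ (Σ k, L.Relations k × (Fin k → ℕ)) ⊕ (Σ k, L.Functions k × (Fin k → ℕ) × ℕ)

/-- Truth of atomic facts. -/
def holds (L : FirstOrder.Language.{0, 0}) (M : L.Structure ℕ) (e : List ℕ) : Fact L → Prop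
  | .inl n => e.length = n
  | .inr (.inl (i, j)) => i < e.length ∧ j < e.length ∧ e.getD i 0 = e.getD j 0
  | .inr (.inr (.inl ⟨k, R, x⟩)) => (∀ a, x a < e.length) ∧
      @FirstOrder.Language.Structure.RelMap L ℕ M k R (fun a => e.getD (x a) 0)
  | .inr (.inr (.inr ⟨k, g, x, m⟩)) => (∀ a, x a < e.length) ∧ m < e.length ∧
      @FirstOrder.Language.Structure.funMap L ℕ M k g (fun a => e.getD (x a) 0) = e.getD m 0

/-- The tuple system of all structures of a countable language. -/
def StSys : Prop := ∀ (L : FirstOrder.Language.{0, 0}), Countable L.Symbols →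
  ∃ (S : TupSys (L.Structure ℕ)) (enc : Fact L → ℕ), Function.Injective enc ∧
    (∀ (M : L.Structure ℕ) (e : List ℕ) (φ : Fact L), S.bt M e (enc φ) = true ↔ holds L M e φ) ∧
    (∀ (e : List ℕ) (n : ℕ), @MeasurableSet _ (mS L) {M | S.bt M e n = true}) ∧
    (∀ (M N : L.Structure ℕ) (e e' : List ℕ), (∀ φ, holds L M e φ ↔ holds L N e' φ) →
      S.bt M e = S.bt N e')

/-- Isomorphic structures have the same types. -/
def StIsoTypes : Prop := ∀ (L : FirstOrder.Language.{0, 0}) (S : TupSys (L.Structure ℕ)),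
  (∀ (M N : L.Structure ℕ) (e e' : List ℕ), (∀ φ, holds L M e φ ↔ holds L N e' φ) →
      S.bt M e = S.bt N e') →
  ∀ M N : L.Structure ℕ, SIso L M N → ∀ l, jp S M l [] = jp S N l []

/-- Vaught transform: Borel isomorphism relations are given by the types of some level. -/
def StVaught : Prop := ∀ (L : FirstOrder.Language.{0, 0}), Countable L.Symbols →
  ∀ (S : TupSys (L.Structure ℕ)) (enc : Fact L → ℕ),
    (∀ (M : L.Structure ℕ) (e : List ℕ) (φ : Fact L), S.bt M e (enc φ) = true ↔ holds L M e φ) →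
  ∀ K : Set (L.Structure ℕ),
    @MeasurableSet (L.Structure ℕ × L.Structure ℕ)
      (@Prod.instMeasurableSpace _ _ (mS L) (mS L))
      {p | p.1 ∈ K ∧ p.2 ∈ K ∧ SIso L p.1 p.2} →
    (∀ M N, M ∈ K → SIso L M N → N ∈ K) →
  ∃ l : Lvl, Mono S l ∧ ∀ M ∈ K, ∀ N ∈ K, tp S M l [] = tp S N l [] → SIso L M N

end Pool.Bc
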