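import Pool.Agent.Bc.Basic

set_option autoImplicit false

namespace Pool.Bc

variable {X : Type} {S : TupSys X}

theorem seqOf_congr {l : Lvl} {k : ℕ} {x x' : X} {e e' : List ℕ} (κ : List (ℕ × ℕ))
    (h : ∀ i ≤ k, jp S x (l.chd i) e = jp S x' (l.chd i) e') :
    trunc k (seqOf S x l e κ) = trunc k (seqOf S x' l e' κ) := by
  rw [trunc_eq_iff]
  intro i hi
  unfold seqOf
  have hl : e.length = e'.length := jp_len (h i hi)
  rw [hl, jp_take _ (h i hi)]

theorem TNset_mk {x : X} {l : Lvl} {e : List ℕ} {κ : List (ℕ × ℕ)} {k : ℕ}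
    (hκ : KeyOK κ e.length) (hk : κ.length = k + 1) :
    trunc k (seqOf S x l e κ) ∈ TNset S x l k := ⟨e, κ, hκ, hk, rfl⟩

theorem ANset_mk {x : X} {l : Lvl} {e : List ℕ} {κ : List (ℕ × ℕ)}
    (hκ : KeyOK κ e.length) (hr : rho κ ≠ 0) : (tp S x l e, κ) ∈ ANset S x l := ⟨e, κ, hκ, hr, rfl⟩

/-- A tree node is determined by its last set of types and its key. -/
theorem T_det {l : Lvl} (hM : MonoAt S l) {k : ℕ} {x x' : X} {u u' : TN l}
    (hu : u ∈ TNset S x l k) (hu' : u' ∈ TNset S x' l k) (h1 : (u k).1 = (u' k).1)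
    (h2 : keyT k u = keyT k u') : u = u' := by
  obtain ⟨e, κ, hκ, hk, rfl⟩ := hu
  obtain ⟨e', κ', hκ', hk', rfl⟩ := hu'
  rw [keyT_mk x l e hk, keyT_mk x' l e' hk'] at h2
  subst h2
  rw [seqOf_last x l e hκ hk, seqOf_last x' l e' hκ' hk'] at h1
  exact seqOf_congr κ (fun i hi => mono_le hM hi h1)

/-- The restriction of a tree node is a tree node. -/
theorem TNset_trunc {x : X} {l : Lvl} {k i : ℕ} (hik : i ≤ k) {u : TN l}
    (hu : u ∈ TNset S x l k) : trunc i u ∈ TNset S x l i := by
  obtain ⟨e, κ, hκ, hk, rfl⟩ := hu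
  rw [trunc_trunc hik]
  have hi : i < κ.length := by omega
  have hκ2 := hκ.take hi
  have hle : (κ.getD i (0, 0)).1 ≤ e.length := by
    rw [List.getD_eq_getElem _ _ hi]
    exact hκ.le _ (List.getElem_mem hi)
  have hlen : (e.take (κ.getD i (0, 0)).1).length = (κ.getD i (0, 0)).1 := by
    rw [List.length_take]
    omega
  refine ⟨e.take (κ.getD i (0, 0)).1, κ.take (i + 1), by rw [hlen]; exact hκ2, ?_, ?_⟩
  · rw [List.length_take]
    omega
  · rw [trunc_eq_iff]
    intro j hj
    have hjlt : j < κ.length := by omega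
    have hjd : ∀ d, (κ.take (i + 1)).getD j d = κ.getD j (e.length, 0) := by
      intro d
      have : j < (κ.take (i + 1)).length := by rw [List.length_take]; omega
      rw [List.getD_eq_getElem _ _ this, List.getD_eq_getElem _ _ hjlt, List.getElem_take]
    have hmin : (κ.getD j (e.length, 0)).1 ≤ (κ.getD i (0, 0)).1 := by
      have h3 := hκ.getD_le hj
      rw [List.getD_eq_getElem _ _ hi] at h3 ⊢
      exact h3
    unfold seqOf
    rw [hjd, List.take_take, min_eq_left hmin]

/-- Restrictions of sequences given by a tuple and a full key are tree nodes. -/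
theorem seqOf_mem {x : X} {l : Lvl} {e : List ℕ} {κ : List (ℕ × ℕ)} (hκ : KeyOK κ e.length)
    (k : ℕ) : trunc k (seqOf S x l e κ) ∈ TNset S x l k := by
  -- extend the key by zeros
  rcases Nat.lt_or_ge k κ.length with hk | hk
  · have h1 : trunc (κ.length - 1) (seqOf S x l e κ) ∈ TNset S x l (κ.length - 1) :=
      TNset_mk hκ (by omega)
    have h2 := TNset_trunc (S := S) (i := k) (by omega) h1
    rwa [trunc_trunc (by omega)] at h2
  · refine ⟨e, κ ++ List.replicate (k + 1 - κ.length) (e.length, 0), ?_, ?_, ?_⟩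
    · refine ⟨?_, κ ++ List.replicate (k - κ.length) (e.length, 0), 0, ?_⟩
      · rw [List.pairwise_append]
        refine ⟨hκ.1, ?_, ?_⟩
        · rw [List.pairwise_replicate]
          right
          exact le_refl _
        · intro a ha b hb
          rw [List.mem_replicate] at hb
          rw [hb.2]
          exact hκ.le a ha
      · rw [List.append_assoc]
        congr 1
        have : k + 1 - κ.length = (k - κ.length) + 1 := by omega
        rw [this, List.replicate_succ']
    · rw [List.length_append, List.length_replicate]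
      omega
    · rw [trunc_eq_iff]
      intro i hi
      unfold seqOf
      have : (κ ++ List.replicate (k + 1 - κ.length) (e.length, 0)).getD i (e.length, 0) =
          κ.getD i (e.length, 0) := by
        rcases Nat.lt_or_ge i κ.length with h1 | h1
        · rw [List.getD_append _ _ _ _ h1]
        · rw [List.getD_append_right _ _ _ _ h1, List.getD_eq_default _ _ h1]
          rw [List.getD_eq_getElem _ _ (by rw [List.length_replicate]; omega),
            List.getElem_replicate]
      rw [this]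

/-- For levels `node s` the restriction of an `A`-node is computed by any representative. -/
theorem pfx_mk {l : Lvl} (hl : l.isZ = false) {x : X} {e : List ℕ} {κ : List (ℕ × ℕ)}
    (hκ : KeyOK κ e.length) (k : ℕ) :
    pfx S l k (tp S x l e, κ) = trunc k (seqOf S x l e κ) := by
  have hex : ∃ (x' : X) (e' : List ℕ), KeyOK κ e'.length ∧ tp S x l e = tp S x' l e' :=
    ⟨x, e, hκ, rfl⟩
  unfold pfx
  rw [dif_pos hex]
  have h2 := hex.choose_spec.choose_spec.2
  cases l with
  | zero => exact absurd hl (by decide)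
  | node s =>
    apply seqOf_congr
    intro i _
    exact (congrFun h2 i).symm

theorem pfx_mem {l : Lvl} (hl : l.isZ = false) {x : X} {a : AN l} (ha : a ∈ ANset S x l)
    (k : ℕ) : pfx S l k a ∈ TNset S x l k := by
  obtain ⟨e, κ, hκ, _, rfl⟩ := ha
  rw [pfx_mk hl hκ]
  exact seqOf_mem hκ k

theorem trunc_pfx {l : Lvl} (hl : l.isZ = false) {x : X} {a : AN l} (ha : a ∈ ANset S x l)
    {i k : ℕ} (hik : i ≤ k) : trunc i (pfx S l k a) = pfx S l i a := by
  obtain ⟨e, κ, hκ, _, rfl⟩ := ha
  rw [pfx_mk hl hκ, pfx_mk hl hκ, trunc_trunc hik]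

/-- If two restrictions differ, so do all longer ones. -/
theorem pfx_ne_mono {l : Lvl} (hl : l.isZ = false) {x x' : X} {a a' : AN l}
    (ha : a ∈ ANset S x l) (ha' : a' ∈ ANset S x' l) {i k : ℕ} (hik : i ≤ k)
    (h : pfx S l i a ≠ pfx S l i a') : pfx S l k a ≠ pfx S l k a' := by
  intro h2
  apply h
  rw [← trunc_pfx hl ha hik, ← trunc_pfx hl ha' hik, h2]

theorem key_eq_of_getD {κ κ' : List (ℕ × ℕ)} {m m' : ℕ} (hr : rho κ ≠ 0) (hr' : rho κ' ≠ 0)
    (hκ : KeyOK κ m) (hκ' : KeyOK κ' m') (h : ∀ i, κ.getD i (m, 0) = κ'.getD i (m', 0)) :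
    κ = κ' := by
  have key : ∀ {κ κ' : List (ℕ × ℕ)} {m m' : ℕ}, rho κ ≠ 0 → rho κ' ≠ 0 → KeyOK κ m →
      KeyOK κ' m' → (∀ i, κ.getD i (m, 0) = κ'.getD i (m', 0)) → κ.length ≤ κ'.length := by
    intro κ κ' m m' hr _ hκ _ h
    by_contra hlt
    push Not at hlt
    obtain ⟨_, κ0, n, rfl⟩ := hκ
    rw [rho_append] at hr
    have h1 := h κ0.length
    rw [List.getD_append_right _ _ _ _ (le_refl _), List.getD_eq_default κ' _ (by
      rw [List.length_append] at hlt
      simp at hlt
      omega)] at h1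
    simp at h1
    exact hr h1.2
  have hlen : κ.length = κ'.length :=
    le_antisymm (key hr hr' hκ hκ' h) (key hr' hr hκ' hκ (fun i => (h i).symm))
  apply List.ext_getElem hlen
  intro i h1 h2
  have := h i
  rwa [List.getD_eq_getElem _ _ h1, List.getD_eq_getElem _ _ h2] at this

/-- Different `A`-nodes (also of different structures) have different restrictions. -/
theorem pfx_ne {l : Lvl} (hl : l.isZ = false) (hM : MonoAt S l) {x x' : X} {a a' : AN l}
    (ha : a ∈ ANset S x l) (ha' : a' ∈ ANset S x' l) (hne : a ≠ a') :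
    ∃ k, pfx S l k a ≠ pfx S l k a' := by
  by_contra hcon
  push Not at hcon
  apply hne
  obtain ⟨e, κ, hκ, hr, rfl⟩ := ha
  obtain ⟨e', κ', hκ', hr', rfl⟩ := ha'
  have h1 : ∀ i, seqOf S x l e κ i = seqOf S x' l e' κ' i := by
    intro i
    have := hcon i
    rw [pfx_mk hl hκ, pfx_mk hl hκ', trunc_eq_iff] at this
    exact this i (le_refl i)
  have h2 : ∀ i, κ.getD i (e.length, 0) = κ'.getD i (e'.length, 0) := by
    intro i
    exact congrArg Prod.snd (h1 i)
  have hκκ : κ = κ' := key_eq_of_getD hr hr' hκ hκ' h2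
  subst hκκ
  have hlen : e.length = e'.length := by
    have := h2 κ.length
    rw [List.getD_eq_default _ _ (le_refl _), List.getD_eq_default _ _ (le_refl _)] at this
    exact congrArg Prod.fst this
  have h3 : ∀ i, jp S x (l.chd i) e = jp S x' (l.chd i) e' := by
    intro i
    apply mono_le hM (Nat.le_add_right i κ.length)
    have h4 := congrArg Prod.fst (h1 (i + κ.length))
    unfold seqOf at h4
    simp only at h4
    rw [List.getD_eq_default _ _ (by omega), List.getD_eq_default _ _ (by omega)] at h4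
    simp only at h4
    rwa [List.take_length, List.take_length] at h4
  have h5 : tp S x l e = tp S x' l e' := by
    cases l with
    | zero => exact absurd hl (by decide)
    | node s => exact funext h3
  rw [h5]

/-! ### New children -/

theorem child_mem {x : X} {l : Lvl} {e0 c : List ℕ} {κ0 : List (ℕ × ℕ)} {n : ℕ}
    (h0 : κ0 = [] ∨ KeyOK κ0 e0.length) :
    KeyOK (κ0 ++ [((e0 ++ c).length, n)]) (e0 ++ c).length ∧
      trunc κ0.length (seqOf S x l (e0 ++ c) (κ0 ++ [((e0 ++ c).length, n)])) ∈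
        TNset S x l κ0.length := by
  have h1 : KeyOK (κ0 ++ [((e0 ++ c).length, n)]) (e0 ++ c).length := by
    rcases h0 with rfl | h0
    · exact KeyOK.single _ _
    · exact h0.append (by rw [List.length_append]; omega) n
  exact ⟨h1, TNset_mk h1 (by simp)⟩

/-- The parent of the new child. -/
theorem child_trunc {x : X} {l : Lvl} {e0 c : List ℕ} {κ0 : List (ℕ × ℕ)} {n k : ℕ}
    (h0 : KeyOK κ0 e0.length) (hk : κ0.length = k + 1) :
    trunc k (seqOf S x l (e0 ++ c) (κ0 ++ [((e0 ++ c).length, n)])) =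
      trunc k (seqOf S x l e0 κ0) := by
  rw [trunc_eq_iff]
  intro i hi
  unfold seqOf
  have hi' : i < κ0.length := by omega
  have h1 : (κ0 ++ [((e0 ++ c).length, n)]).getD i ((e0 ++ c).length, 0) =
      κ0.getD i (e0.length, 0) := by
    rw [List.getD_append _ _ _ _ hi', List.getD_eq_getElem _ _ hi', List.getD_eq_getElem _ _ hi']
  rw [h1, List.take_append_of_le_length (h0.getD_le_self i)]

theorem child_last {x : X} {l : Lvl} {e0 c : List ℕ} {κ0 : List (ℕ × ℕ)} {n : ℕ} :
    (trunc κ0.length (seqOf S x l (e0 ++ c) (κ0 ++ [((e0 ++ c).length, n)])) κ0.length) =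
      (jp S x (l.chd κ0.length) (e0 ++ c), ((e0 ++ c).length, n)) := by
  rw [trunc_apply (le_refl _)]
  unfold seqOf
  have : (κ0 ++ [((e0 ++ c).length, n)]).getD κ0.length ((e0 ++ c).length, 0) =
      ((e0 ++ c).length, n) := by
    rw [List.getD_append_right _ _ _ _ (le_refl _)]
    simp
  rw [this, List.take_length]

theorem child_key {x : X} {l : Lvl} {e0 c : List ℕ} {κ0 : List (ℕ × ℕ)} {n : ℕ} :
    keyT κ0.length (trunc κ0.length (seqOf S x l (e0 ++ c) (κ0 ++ [((e0 ++ c).length, n)]))) =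
      κ0 ++ [((e0 ++ c).length, n)] :=
  keyT_mk x l (e0 ++ c) (by simp)

/-- New `A`-nodes through a given tree node. -/
theorem childA_mem {x : X} {l : Lvl} {e0 c : List ℕ} {κ0 : List (ℕ × ℕ)} {n : ℕ} (hn : n ≠ 0)
    (h0 : κ0 = [] ∨ KeyOK κ0 e0.length) :
    (tp S x l (e0 ++ c), κ0 ++ [((e0 ++ c).length, n)]) ∈ ANset S x l :=
  ANset_mk (child_mem (S := S) (x := x) (l := l) h0).1 (by rw [rho_append]; exact hn)

theorem childA_pfx {x : X} {l : Lvl} (hl : l.isZ = false) {e0 c : List ℕ} {κ0 : List (ℕ × ℕ)}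
    {n k : ℕ} (h0 : KeyOK κ0 e0.length) (hk : κ0.length = k + 1) :
    pfx S l k (tp S x l (e0 ++ c), κ0 ++ [((e0 ++ c).length, n)]) =
      trunc k (seqOf S x l e0 κ0) := by
  rw [pfx_mk hl (child_mem (S := S) (x := x) (l := l) (Or.inr h0)).1]
  exact child_trunc h0 hk

end Pool.Bc
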