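import Pool.Agent.Bc.EP

/-!
# Project BC: finite enumerations (conditions)
-/

set_option autoImplicit false

namespace Pool.Bc

variable {X : Type}

/-- Finite injective enumerations of nodes of `x`. -/
structure PE (S : TupSys X) (l : Lvl) (x : X) where
  dA : Set (List ℕ × ℕ)
  dT : Set (List ℕ × List ℕ)
  fA : ∀ σ : List ℕ, ℕ → AN (lv l σ)
  fT : ∀ σ : List ℕ, List ℕ → TN (lv l σ)
  finA : dA.Finite
  finT : dT.Finite
  A_mem : ∀ σ i, (σ, i) ∈ dA → fA σ i ∈ ANset S x (lv l σ)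
  A_inj : ∀ σ i j, (σ, i) ∈ dA → (σ, j) ∈ dA → fA σ i = fA σ j → i = j
  T_ne : ∀ σ, (σ, []) ∉ dT
  T_mem : ∀ σ j s, (σ, j :: s) ∈ dT → fT σ (j :: s) ∈ TNset S x (lv l σ) s.length
  T_par : ∀ σ j j' s, (σ, j :: j' :: s) ∈ dT → (σ, j' :: s) ∈ dT ∧
    trunc s.length (fT σ (j :: j' :: s)) = fT σ (j' :: s)
  T_inj : ∀ σ s s', (σ, s) ∈ dT → (σ, s') ∈ dT → s.length = s'.length → fT σ s = fT σ s' → s = s'

variable {S : TupSys X} {l : Lvl} {x : X}

namespace PE

/-- `q` extends `p`. -/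
structure Le (p q : PE S l x) : Prop where
  A : ∀ σ i, (σ, i) ∈ p.dA → (σ, i) ∈ q.dA ∧ q.fA σ i = p.fA σ i
  T : ∀ σ s, (σ, s) ∈ p.dT → (σ, s) ∈ q.dT ∧ q.fT σ s = p.fT σ s

/-- The enumeration `ζ` extends `p`. -/
structure In (p : PE S l x) (ζ : Enum S l x) : Prop where
  A : ∀ σ i, (σ, i) ∈ p.dA → ζ.a σ i = p.fA σ i
  T : ∀ σ s, (σ, s) ∈ p.dT → ζ.t σ s = p.fT σ s

theorem Le.refl (p : PE S l x) : Le p p := ⟨fun _ _ h => ⟨h, rfl⟩, fun _ _ h => ⟨h, rfl⟩⟩

theorem Le.trans {p q r : PE S l x} (h : Le p q) (h' : Le q r) : Le p r := by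
  constructor
  · intro σ i hi
    obtain ⟨h1, h2⟩ := h.A σ i hi
    obtain ⟨h3, h4⟩ := h'.A σ i h1
    exact ⟨h3, h4.trans h2⟩
  · intro σ i hi
    obtain ⟨h1, h2⟩ := h.T σ i hi
    obtain ⟨h3, h4⟩ := h'.T σ i h1
    exact ⟨h3, h4.trans h2⟩

theorem In.mono {p q : PE S l x} (h : Le p q) {ζ : Enum S l x} (hq : In q ζ) : In p ζ := by
  constructor
  · intro σ i hi
    obtain ⟨h1, h2⟩ := h.A σ i hi
    rw [hq.A σ i h1, h2]
  · intro σ i hi
    obtain ⟨h1, h2⟩ := h.T σ i hi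
    rw [hq.T σ i h1, h2]

/-- The parent of an assigned element is assigned. -/
theorem T_suffix (p : PE S l x) {σ : List ℕ} : ∀ {s : List ℕ} (c : List ℕ), c ≠ [] →
    (σ, s ++ c) ∈ p.dT → (σ, c) ∈ p.dT
  | [], _, _, h => h
  | j :: s, c, hc, h => by
      apply T_suffix p (s := s) c hc
      have hne : s ++ c ≠ [] := by simp [hc]
      obtain ⟨j', s', hs'⟩ := List.exists_cons_of_ne_nil hne
      rw [List.cons_append, hs'] at h
      rw [hs']
      exact (p.T_par σ j j' s' h).1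

open Classical in
/-- Add an `A`-node. -/
noncomputable def addA (p : PE S l x) (σ : List ℕ) (i : ℕ) (a : AN (lv l σ))
    (hi : (σ, i) ∉ p.dA) (ha : a ∈ ANset S x (lv l σ)) (hn : ∀ j, (σ, j) ∈ p.dA → p.fA σ j ≠ a) :
    PE S l x where
  dA := insert (σ, i) p.dA
  dT := p.dT
  fA := fun τ j => if h : τ = σ ∧ j = i then h.1 ▸ a else p.fA τ j
  fT := p.fT
  finA := p.finA.insert _
  finT := p.finT
  A_mem := by
    intro τ j h
    by_cases h2 : τ = σ ∧ j = i
    · obtain ⟨rfl, rfl⟩ := h2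
      simpa using ha
    · rw [dif_neg h2]
      rcases h with h | h
      · exact absurd (Prod.mk.inj h) h2
      · exact p.A_mem τ j h
  A_inj := by
    intro τ j j' h h' he
    by_cases h2 : τ = σ ∧ j = i
    · by_cases h3 : τ = σ ∧ j' = i
      · rw [h2.2, h3.2]
      · rcases h' with h' | h'
        · exact absurd (Prod.mk.inj h') h3
        · exfalso
          obtain ⟨rfl, rfl⟩ := h2
          rw [dif_neg h3] at he
          simp at he
          exact hn j' h' he.symm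
    · by_cases h3 : τ = σ ∧ j' = i
      · rcases h with h | h
        · exact absurd (Prod.mk.inj h) h2
        · exfalso
          obtain ⟨rfl, rfl⟩ := h3
          rw [dif_neg h2] at he
          simp at he
          exact hn j h he
      · rw [dif_neg h2, dif_neg h3] at he
        rcases h with h | h
        · exact absurd (Prod.mk.inj h) h2
        · rcases h' with h' | h'
          · exact absurd (Prod.mk.inj h') h3
          · exact p.A_inj τ j j' h h' he
  T_ne := p.T_ne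
  T_mem := p.T_mem
  T_par := p.T_par
  T_inj := p.T_inj

theorem exists_addA (p : PE S l x) (σ : List ℕ) (i : ℕ) (a : AN (lv l σ))
    (hi : (σ, i) ∉ p.dA) (ha : a ∈ ANset S x (lv l σ)) (hn : ∀ j, (σ, j) ∈ p.dA → p.fA σ j ≠ a) :
    ∃ q : PE S l x, Le p q ∧ q.dA = insert (σ, i) p.dA ∧ q.dT = p.dT ∧ q.fT = p.fT ∧
      q.fA σ i = a := by
  classical
  refine ⟨p.addA σ i a hi ha hn, ⟨?_, fun _ _ h => ⟨h, rfl⟩⟩, rfl, rfl, rfl, ?_⟩
  · intro τ j h
    refine ⟨Set.mem_insert_of_mem _ h, ?_⟩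
    have : ¬ (τ = σ ∧ j = i) := by
      rintro ⟨rfl, rfl⟩
      exact hi h
    exact dif_neg this
  · exact dif_pos ⟨rfl, rfl⟩

theorem exists_addT (p : PE S l x) (σ : List ℕ) (j : ℕ) (s : List ℕ) (u : TN (lv l σ))
    (hi : (σ, j :: s) ∉ p.dT) (hs : s ≠ [] → (σ, s) ∈ p.dT)
    (hu : u ∈ TNset S x (lv l σ) s.length)
    (hpar : ∀ j' s', s = j' :: s' → trunc s'.length u = p.fT σ s)
    (hn : ∀ s', (σ, s') ∈ p.dT → s'.length = s.length + 1 → p.fT σ s' ≠ u) :
    ∃ q : PE S l x, Le p q ∧ q.dA = p.dA ∧ q.dT = insert (σ, j :: s) p.dT ∧ q.fA = p.fA ∧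
      q.fT σ (j :: s) = u := by
  classical
  set f : ∀ σ : List ℕ, List ℕ → TN (lv l σ) := fun τ s' =>
    if h : τ = σ ∧ s' = j :: s then h.1 ▸ u else p.fT τ s' with hf
  have f1 : f σ (j :: s) = u := by
    rw [hf]
    simp
  have f2 : ∀ τ s', ¬ (τ = σ ∧ s' = j :: s) → f τ s' = p.fT τ s' := by
    intro τ s' h
    rw [hf]
    simp only
    rw [dif_neg h]
  have f3 : ∀ τ s', (τ, s') ∈ p.dT → ¬ (τ = σ ∧ s' = j :: s) := by
    rintro τ s' h ⟨rfl, rfl⟩
    exact hi h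
  refine ⟨⟨p.dA, insert (σ, j :: s) p.dT, p.fA, f, p.finA, p.finT.insert _, p.A_mem, p.A_inj,
    ?_, ?_, ?_, ?_⟩, ⟨fun _ _ h => ⟨h, rfl⟩, ?_⟩, rfl, rfl, rfl, f1⟩
  · rintro τ (h | h)
    · exact absurd (Prod.mk.inj h).2 (by simp)
    · exact p.T_ne τ h
  · intro τ j' s' h
    by_cases h2 : τ = σ ∧ j' :: s' = j :: s
    · obtain ⟨rfl, h3⟩ := h2
      rw [h3, f1]
      have : s' = s := (List.cons.inj h3).2
      rw [this]
      exact hu
    · rw [f2 _ _ h2]
      rcases h with h | h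
      · exact absurd (Prod.mk.inj h) h2
      · exact p.T_mem τ j' s' h
  · intro τ j1 j2 s' h
    by_cases h2 : τ = σ ∧ j1 :: j2 :: s' = j :: s
    · obtain ⟨rfl, h3⟩ := h2
      have hs' : s = j2 :: s' := (List.cons.inj h3).2.symm
      have h4 : (τ, s) ∈ p.dT := hs (by rw [hs']; simp)
      have h5 : ¬ (τ = τ ∧ j2 :: s' = j :: s) := by
        rintro ⟨_, h6⟩
        rw [← hs'] at h6
        have := congrArg List.length h6
        simp at this
      refine ⟨Set.mem_insert_of_mem _ (hs' ▸ h4), ?_⟩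
      rw [h3, f1, f2 _ _ h5, hpar j2 s' hs', hs']
    · rcases h with h | h
      · exact absurd (Prod.mk.inj h) h2
      · obtain ⟨h3, h4⟩ := p.T_par τ j1 j2 s' h
        refine ⟨Set.mem_insert_of_mem _ h3, ?_⟩
        rw [f2 _ _ h2, f2 _ _ (f3 _ _ h3), h4]
  · intro τ s1 s2 h1 h2 hl he
    by_cases h3 : τ = σ ∧ s1 = j :: s
    · by_cases h4 : τ = σ ∧ s2 = j :: s
      · rw [h3.2, h4.2]
      · rcases h2 with h2 | h2
        · exact absurd (Prod.mk.inj h2) h4
        · exfalso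
          obtain ⟨rfl, rfl⟩ := h3
          rw [f1, f2 _ _ h4] at he
          refine hn s2 h2 ?_ he.symm
          rw [← hl]
          simp
    · by_cases h4 : τ = σ ∧ s2 = j :: s
      · rcases h1 with h1 | h1
        · exact absurd (Prod.mk.inj h1) h3
        · exfalso
          obtain ⟨rfl, rfl⟩ := h4
          rw [f1, f2 _ _ h3] at he
          refine hn s1 h1 ?_ he
          rw [hl]
          simp
      · rw [f2 _ _ h3, f2 _ _ h4] at he
        rcases h1 with h1 | h1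
        · exact absurd (Prod.mk.inj h1) h3
        · rcases h2 with h2 | h2
          · exact absurd (Prod.mk.inj h2) h4
          · exact p.T_inj τ s1 s2 h1 h2 hl he
  · intro τ s' h
    exact ⟨Set.mem_insert_of_mem _ h, f2 _ _ (f3 _ _ h)⟩

end PE

end Pool.Bc
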