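import Pool.Agent.Bc.PE

/-!
# Project BC: extending conditions
-/

set_option autoImplicit false

namespace Pool.Bc

variable {X : Type} {S : TupSys X} {l : Lvl} {x : X}

namespace PE

theorem exists_fresh_T (p : PE S l x) (σ s : List ℕ) : ∃ j, (σ, j :: s) ∉ p.dT := by
  by_contra hcon
  push Not at hcon
  have hinj : Function.Injective (fun j : ℕ => ((σ, j :: s) : List ℕ × List ℕ)) := by
    intro a b hab
    simpa using hab
  exact Set.infinite_of_injective_forall_mem hinj hcon p.finT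

theorem exists_fresh_A (p : PE S l x) (σ : List ℕ) : ∃ i, (σ, i) ∉ p.dA := by
  by_contra hcon
  push Not at hcon
  have hinj : Function.Injective (fun i : ℕ => ((σ, i) : List ℕ × ℕ)) := by
    intro a b hab
    simpa using hab
  exact Set.infinite_of_injective_forall_mem hinj hcon p.finA

/-- Assign an index to a given tree node. -/
theorem assignNode (p : PE S l x) (σ : List ℕ) : ∀ (k : ℕ) (u : TN (lv l σ)),
    u ∈ TNset S x (lv l σ) k → ∃ q : PE S l x, Le p q ∧ q.dA = p.dA ∧ q.fA = p.fA ∧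
      (∃ s : List ℕ, s.length = k + 1 ∧ (σ, s) ∈ q.dT ∧ q.fT σ s = u) ∧
      ∀ τ s, (τ, s) ∈ q.dT → (τ, s) ∈ p.dT ∨ s.length ≤ k + 1
  | 0, u, hu => by
      by_cases hex : ∃ s : List ℕ, s.length = 0 + 1 ∧ (σ, s) ∈ p.dT ∧ p.fT σ s = u
      · exact ⟨p, Le.refl p, rfl, rfl, hex, fun _ _ h => Or.inl h⟩
      · push Not at hex
        obtain ⟨j, hj⟩ := exists_fresh_T p σ []
        obtain ⟨q, h1, h2, h3, h4, h5⟩ := p.exists_addT σ j [] u hj (fun h => absurd rfl h) hu
          (fun j' s' h => absurd h (by simp)) (fun s' h1 h2 => hex s' h2 h1)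
        refine ⟨q, h1, h2, h4, ⟨[j], rfl, by rw [h3]; exact Set.mem_insert _ _, h5⟩, ?_⟩
        intro τ s h
        rw [h3] at h
        rcases h with h | h
        · right
          rw [(Prod.mk.inj h).2]
          simp
        · exact Or.inl h
  | k + 1, u, hu => by
      obtain ⟨p1, a1, a2, a3, ⟨s0, a4, a5, a6⟩, a7⟩ :=
        assignNode p σ k (trunc k u) (TNset_trunc (by omega) hu)
      by_cases hex : ∃ s : List ℕ, s.length = k + 1 + 1 ∧ (σ, s) ∈ p1.dT ∧ p1.fT σ s = u
      · refine ⟨p1, a1, a2, a3, hex, ?_⟩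
        intro τ s h
        rcases a7 τ s h with h | h
        · exact Or.inl h
        · exact Or.inr (by omega)
      · push Not at hex
        obtain ⟨j, hj⟩ := exists_fresh_T p1 σ s0
        have hu' : u ∈ TNset S x (lv l σ) s0.length := by rw [a4]; exact hu
        obtain ⟨q, h1, h2, h3, h4, h5⟩ := p1.exists_addT σ j s0 u hj (fun _ => a5) hu'
          (fun j' s' h => by
            have : s'.length = k := by
              have := congrArg List.length h
              simp at this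
              omega
            rw [this, a6])
          (fun s' h1 h2 => hex s' (by omega) h1)
        refine ⟨q, a1.trans h1, h2.trans a2, h4.trans a3, ⟨j :: s0, by simp [a4],
          by rw [h3]; exact Set.mem_insert _ _, h5⟩, ?_⟩
        intro τ s h
        rw [h3] at h
        rcases h with h | h
        · right
          rw [(Prod.mk.inj h).2]
          simp [a4]
        · rcases a7 τ s h with h | h
          · exact Or.inl h
          · exact Or.inr (by omega)

/-- A new tree node with prescribed colours. -/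
theorem newT (p : PE S l x) (σ : List ℕ) (j : ℕ) (s : List ℕ) (hi : (σ, j :: s) ∉ p.dT)
    (hs : s ≠ [] → (σ, s) ∈ p.dT) (β : AN ((lv l σ).chd s.length) → ℕ) :
    ∃ q : PE S l x, Le p q ∧ q.dA = p.dA ∧ q.fA = p.fA ∧ q.dT = insert (σ, j :: s) p.dT ∧
      ∀ i, (s.length :: σ, i) ∈ p.dA →
        colT S (lv l σ) s.length (p.fA (s.length :: σ) i) (q.fT σ (j :: s)) =
          β (p.fA (s.length :: σ) i) := by
  -- the representative of the parent
  have hpar : ∃ (e0 : List ℕ) (κ0 : List (ℕ × ℕ)), κ0.length = s.length ∧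
      (κ0 = [] ∨ KeyOK κ0 e0.length) ∧
      ∀ j' s', s = j' :: s' → p.fT σ s = trunc s'.length (seqOf S x (lv l σ) e0 κ0) := by
    cases s with
    | nil => exact ⟨[], [], rfl, Or.inl rfl, fun j' s' h => absurd h (by simp)⟩
    | cons j' s' =>
      obtain ⟨e0, κ0, h1, h2, h3⟩ := p.T_mem σ j' s' (hs (by simp))
      refine ⟨e0, κ0, by simp [h2], Or.inr h1, ?_⟩
      intro j'' s'' h
      obtain ⟨rfl, rfl⟩ := List.cons.inj h
      exact h3
  obtain ⟨e0, κ0, hk0, h0, hp0⟩ := hpar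
  -- bound for the indices used so far
  obtain ⟨N, hN⟩ : ∃ N : ℕ, ∀ s', (σ, s') ∈ p.dT → (p.fT σ s' s.length).2.2 < N := by
    have hfin : ((fun q : List ℕ × List ℕ => (p.fT σ q.2 s.length).2.2) '' p.dT).Finite :=
      p.finT.image _
    obtain ⟨M, hM⟩ := hfin.bddAbove
    refine ⟨M + 1, fun s' h => ?_⟩
    have := hM (Set.mem_image_of_mem _ h)
    exact Nat.lt_succ_of_le this
  have hYfin : {y | ∃ i, (s.length :: σ, i) ∈ p.dA ∧ p.fA (s.length :: σ) i = y}.Finite := by
    have : {y | ∃ i, (s.length :: σ, i) ∈ p.dA ∧ p.fA (s.length :: σ) i = y} ⊆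
        (fun q : List ℕ × ℕ => p.fA (s.length :: σ) q.2) '' p.dA := by
      rintro y ⟨i, h1, h2⟩
      exact ⟨(s.length :: σ, i), h1, h2⟩
    exact (p.finA.image _).subset this
  obtain ⟨c, n, hn, hc⟩ := stEP2 S x ((lv l σ).chd s.length) e0 κ0 _ hYfin (by
    rintro y ⟨i, h1, rfl⟩
    obtain ⟨e, κ, _, _, h2⟩ := p.A_mem _ i h1
    exact ⟨e, by rw [h2]; rfl⟩) β N
  set u : TN (lv l σ) :=
    trunc κ0.length (seqOf S x (lv l σ) (e0 ++ c) (κ0 ++ [((e0 ++ c).length, n)])) with hu
  have hmem := (child_mem (S := S) (x := x) (l := lv l σ) (c := c) (n := n) h0).2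
  obtain ⟨q, h1, h2, h3, h4, h5⟩ := p.exists_addT σ j s u hi hs (by rw [← hk0]; exact hmem)
    (fun j' s' h => by
      have hk1 : κ0.length = s'.length + 1 := by
        rw [hk0, h]
        simp
      have hK : KeyOK κ0 e0.length := by
        rcases h0 with h0 | h0
        · rw [h0] at hk1
          simp at hk1
        · exact h0
      rw [hp0 j' s' h, hu, trunc_trunc (by omega)]
      exact child_trunc hK hk1)
    (fun s' h1 _ h3 => by
      have := hN s' h1
      rw [h3, hu, ← hk0, child_last] at this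
      simp at this
      omega)
  refine ⟨q, h1, h2, h4, h3, ?_⟩
  intro i hi
  have := hc (p.fA (s.length :: σ) i) ⟨i, hi, rfl⟩
  rw [← this, h5]
  unfold colT
  rw [hu, ← hk0, child_last, child_key]

/-- A new `A`-node with prescribed colours. -/
theorem newA (p : PE S l x) (σ : List ℕ) (i : ℕ) (hi : (σ, i) ∉ p.dA) (e0 : List ℕ)
    (κ0 : List (ℕ × ℕ)) (h0 : κ0 = [] ∨ KeyOK κ0 e0.length)
    (U : Set (Set (Ty (lv l σ)) × List (ℕ × ℕ))) (hU : U.Finite)
    (hsub : ∀ P ∈ U, P.1 ⊆ jp S x (lv l σ) []) (β : Set (Ty (lv l σ)) × List (ℕ × ℕ) → ℕ)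
    (w : List ℕ) :
    ∃ (q : PE S l x) (c : List ℕ) (n : ℕ), Le p q ∧ q.dA = insert (σ, i) p.dA ∧ q.dT = p.dT ∧
      q.fT = p.fT ∧ n ≠ 0 ∧ (dec n).2.2 = w ∧
      q.fA σ i = (tp S x (lv l σ) (e0 ++ c), κ0 ++ [((e0 ++ c).length, n)]) ∧
      ∀ P ∈ U, col S (lv l σ) (q.fA σ i) P.1 P.2 = β P := by
  obtain ⟨N, hN⟩ : ∃ N : ℕ, ∀ j, (σ, j) ∈ p.dA → rho (p.fA σ j).2 < N := by
    have hfin : ((fun q : List ℕ × ℕ => rho (p.fA σ q.2).2) '' p.dA).Finite := p.finA.image _
    obtain ⟨M, hM⟩ := hfin.bddAbove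
    refine ⟨M + 1, fun s' h => ?_⟩
    have := hM (Set.mem_image_of_mem _ h)
    exact Nat.lt_succ_of_le this
  obtain ⟨c, n, hn, hn0, hw, hc⟩ := stEP1 S x (lv l σ) e0 κ0 U hU hsub β w N
  obtain ⟨q, h1, h2, h3, h4, h5⟩ := p.exists_addA σ i
    (tp S x (lv l σ) (e0 ++ c), κ0 ++ [((e0 ++ c).length, n)]) hi (childA_mem hn0 h0)
    (fun j hj h => by
      have := hN j hj
      rw [h] at this
      simp only [rho_append] at this
      omega)
  refine ⟨q, c, n, h1, h2, h3, h4, hn0, hw, h5, ?_⟩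
  intro P hP
  rw [h5]
  exact hc P hP

end PE

end Pool.Bc
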