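import Pool.Agent.Bc.PEExt

/-!
# Project BC: compatibility with a point, new elements
-/

set_option autoImplicit false

namespace Pool.Bc

variable {X : Type} {S : TupSys X} {l : Lvl} {x : X}

/-- The colours between assigned elements are those of the point `W`. -/
structure Cp (p : PE S l x) (ob : Ob l) (W : (ℕ → ℕ) × Z) : Prop where
  bits : ∀ σ j s i, (σ, j :: s) ∈ p.dT → (s.length :: σ, i) ∈ p.dA →
    bit W.2 σ j s i = colT S (lv l σ) s.length (p.fA (s.length :: σ) i) (p.fT σ (j :: s))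
  obc : ∀ σ k Q κ, ob = .col σ k Q κ → ∀ i, (k :: σ, i) ∈ p.dA →
    W.1 i = col S (lv l (k :: σ)) (p.fA (k :: σ) i) Q κ

/-- Add one tree index whose parent is assigned. -/
theorem Cp.addT {p : PE S l x} {ob : Ob l} {W : (ℕ → ℕ) × Z} (h : Cp p ob W) (σ : List ℕ)
    (j : ℕ) (s : List ℕ) (hs : s ≠ [] → (σ, s) ∈ p.dT) :
    ∃ q : PE S l x, PE.Le p q ∧ q.dA = p.dA ∧ q.fA = p.fA ∧ Cp q ob W ∧ (σ, j :: s) ∈ q.dT := by
  classical
  by_cases hi : (σ, j :: s) ∈ p.dT
  · exact ⟨p, PE.Le.refl p, rfl, rfl, h, hi⟩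
  obtain ⟨q, h1, h2, h3, h4, h5⟩ := p.newT σ j s hi hs (fun y =>
    if hy : ∃ i, (s.length :: σ, i) ∈ p.dA ∧ p.fA (s.length :: σ) i = y then
      bit W.2 σ j s hy.choose else 0)
  refine ⟨q, h1, h2, h3, ⟨?_, ?_⟩, by rw [h4]; exact Set.mem_insert _ _⟩
  · intro τ j' s' i hT hA
    rw [h2] at hA
    rw [h3]
    rw [h4] at hT
    rcases hT with hT | hT
    · have hτ : τ = σ := (Prod.mk.inj hT).1
      have hl := (Prod.mk.inj hT).2
      subst hτ
      obtain ⟨rfl, rfl⟩ := List.cons.inj hl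
      rw [h5 i hA]
      have hy : ∃ i', (s'.length :: τ, i') ∈ p.dA ∧
          p.fA (s'.length :: τ) i' = p.fA (s'.length :: τ) i := ⟨i, hA, rfl⟩
      rw [dif_pos hy]
      have hc := hy.choose_spec
      have : hy.choose = i := p.A_inj _ _ _ hc.1 hA hc.2
      rw [this]
    · rw [(h1.T τ _ hT).2]
      exact h.bits τ j' s' i hT hA
  · intro τ k Q κ ho i hA
    rw [h2] at hA
    rw [h3]
    exact h.obc τ k Q κ ho i hA

/-- Add one tree index together with its parents. -/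
theorem Cp.addT' {ob : Ob l} {W : (ℕ → ℕ) × Z} (σ : List ℕ) : ∀ (s : List ℕ), s ≠ [] →
    ∀ {p : PE S l x}, Cp p ob W →
    ∃ q : PE S l x, PE.Le p q ∧ q.dA = p.dA ∧ q.fA = p.fA ∧ Cp q ob W ∧ (σ, s) ∈ q.dT
  | [], h, _, _ => absurd rfl h
  | j :: s, _, p, hp => by
      by_cases hs : s = []
      · subst hs
        exact hp.addT σ j [] (fun h => absurd rfl h)
      · obtain ⟨p1, a1, a2, a3, a4, a5⟩ := Cp.addT' σ s hs hp
        obtain ⟨q, b1, b2, b3, b4, b5⟩ := a4.addT σ j s (fun _ => a5)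
        exact ⟨q, a1.trans b1, b2.trans a2, b3.trans a3, b4, b5⟩

/-- Add finitely many tree indices. -/
theorem Cp.addTs {ob : Ob l} {W : (ℕ → ℕ) × Z} : ∀ (L : List (List ℕ × List ℕ)),
    (∀ P ∈ L, P.2 ≠ []) → ∀ {p : PE S l x}, Cp p ob W →
    ∃ q : PE S l x, PE.Le p q ∧ q.dA = p.dA ∧ q.fA = p.fA ∧ Cp q ob W ∧ ∀ P ∈ L, P ∈ q.dT
  | [], _, p, hp => ⟨p, PE.Le.refl p, rfl, rfl, hp, fun _ h => absurd h (by simp)⟩
  | P :: L, hL, p, hp => by
      obtain ⟨p1, a1, a2, a3, a4, a5⟩ := Cp.addT' P.1 P.2 (hL P (by simp)) hp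
      obtain ⟨q, b1, b2, b3, b4, b5⟩ := Cp.addTs L (fun P' hP' => hL P' (by simp [hP'])) a4
      refine ⟨q, a1.trans b1, b2.trans a2, b3.trans a3, b4, ?_⟩
      intro P' hP'
      rcases List.mem_cons.mp hP' with h | h
      · rw [h]
        exact (b1.T _ _ a5).1
      · exact b5 P' h

/-- Row condition for an assigned `A`-element up to length `M`. -/
def RowOK (ψ : (ℕ → Bool) → ℕ → ℕ) (p : PE S l x) (W : (ℕ → ℕ) × Z) (M : ℕ) (σ : List ℕ)
    (i : ℕ) : Prop :=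
  ((lv l σ).isZ = true → ∀ t < M, lbl ψ σ (lv l σ) (p.fA σ i) t = row W.2 σ i t) ∧
  ((lv l σ).isZ = false → ∀ k < M, (σ, pre (row W.2 σ i) (k + 1)) ∈ p.dT ∧
    p.fT σ (pre (row W.2 σ i) (k + 1)) = pfx S (lv l σ) k (p.fA σ i))

theorem RowOK.mono {ψ : (ℕ → Bool) → ℕ → ℕ} {p q : PE S l x} {W : (ℕ → ℕ) × Z} {M : ℕ}
    {σ : List ℕ} {i : ℕ} (h : PE.Le p q) (hi : (σ, i) ∈ p.dA) (hr : RowOK ψ p W M σ i) :
    RowOK ψ q W M σ i := by
  constructor
  · intro hz t ht
    rw [(h.A σ i hi).2]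
    exact hr.1 hz t ht
  · intro hz k hk
    obtain ⟨h1, h2⟩ := hr.2 hz k hk
    obtain ⟨h3, h4⟩ := h.T _ _ h1
    exact ⟨h3, by rw [h4, h2, (h.A σ i hi).2]⟩

theorem preLen (t : ℕ → ℕ) : ∀ k, (pre t k).length = k
  | 0 => rfl
  | k + 1 => by simp [pre, preLen t k]

theorem pre_suffix (t : ℕ → ℕ) (k m : ℕ) : ∃ s, pre t (m + k) = s ++ pre t k := by
  induction m with
  | zero => exact ⟨[], by simp⟩
  | succ m ih =>
    obtain ⟨s, hs⟩ := ih
    refine ⟨t (m + k) :: s, ?_⟩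
    have : m + 1 + k = (m + k) + 1 := by omega
    rw [this, pre, hs]
    rfl

/-- Tree nodes assigned along a row are restrictions of each other. -/
theorem PE.fT_pre {p : PE S l x} {σ : List ℕ} {t : ℕ → ℕ} {k : ℕ}
    (h : (σ, pre t (k + 1)) ∈ p.dT) : ∀ i ≤ k, (σ, pre t (i + 1)) ∈ p.dT ∧
      p.fT σ (pre t (i + 1)) = trunc i (p.fT σ (pre t (k + 1))) := by
  induction k with
  | zero =>
    intro i hi
    obtain rfl : i = 0 := by omega
    refine ⟨h, ?_⟩
    obtain ⟨e, κ, _, _, h3⟩ := p.T_mem σ (t 0) [] h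
    have h4 : p.fT σ (pre t (0 + 1)) = trunc 0 (seqOf S x (lv l σ) e κ) := h3
    rw [h4, trunc_trunc (le_refl 0)]
  | succ k ih =>
    intro i hi
    have h1 := p.T_par σ (t (k + 1)) (t k) (pre t k) h
    rw [preLen] at h1
    rcases Nat.lt_or_ge k i with h2 | h2
    · obtain rfl : i = k + 1 := by omega
      refine ⟨h, ?_⟩
      obtain ⟨e, κ, _, _, h3⟩ := p.T_mem σ (t (k + 1)) (pre t (k + 1)) h
      rw [preLen] at h3
      have h4 : p.fT σ (pre t (k + 1 + 1)) = trunc (k + 1) (seqOf S x (lv l σ) e κ) := h3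
      rw [h4, trunc_trunc (le_refl _)]
    · obtain ⟨h3, h4⟩ := ih h1.1 i h2
      refine ⟨h3, ?_⟩
      rw [h4]
      have h5 : p.fT σ (pre t (k + 1)) = trunc k (p.fT σ (pre t (k + 1 + 1))) := h1.2.symm
      rw [h5, trunc_trunc h2]

/-- Add one `A`-index, with prescribed colours to finitely many upper profiles. -/
theorem PE.addA_core {ψ : (ℕ → Bool) → ℕ → ℕ} (p : PE S l x) (W : (ℕ → ℕ) × Z)
    (σ : List ℕ) (i M : ℕ) (hi : (σ, i) ∉ p.dA)
    (hbr : (lv l σ).isZ = false → 0 < M → (σ, pre (row W.2 σ i) M) ∈ p.dT)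
    (U : Set (Set (Ty (lv l σ)) × List (ℕ × ℕ))) (hU : U.Finite)
    (hsub : ∀ P ∈ U, P.1 ⊆ jp S x (lv l σ) []) (β : Set (Ty (lv l σ)) × List (ℕ × ℕ) → ℕ) :
    ∃ q : PE S l x, PE.Le p q ∧ q.dT = p.dT ∧ q.dA = insert (σ, i) p.dA ∧ q.fT = p.fT ∧
      (∀ P ∈ U, col S (lv l σ) (q.fA σ i) P.1 P.2 = β P) ∧ RowOK ψ q W M σ i := by
  -- the starting tuple
  have hstart : ∃ (e0 : List ℕ) (κ0 : List (ℕ × ℕ)), (κ0 = [] ∨ KeyOK κ0 e0.length) ∧
      ((lv l σ).isZ = false → 0 < M → κ0.length = M ∧ KeyOK κ0 e0.length ∧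
        p.fT σ (pre (row W.2 σ i) M) = trunc (M - 1) (seqOf S x (lv l σ) e0 κ0)) := by
    by_cases hz : (lv l σ).isZ = false ∧ 0 < M
    · obtain ⟨m, rfl⟩ : ∃ m, M = m + 1 := ⟨M - 1, by omega⟩
      obtain ⟨e0, κ0, h1, h2, h3⟩ := p.T_mem σ _ _ (hbr hz.1 hz.2)
      rw [preLen] at h2 h3
      exact ⟨e0, κ0, Or.inr h1, fun _ _ => ⟨h2, h1, h3⟩⟩
    · exact ⟨[], [], Or.inl rfl, fun h1 h2 => absurd ⟨h1, h2⟩ hz⟩
  obtain ⟨e0, κ0, h0, h0'⟩ := hstart
  set w : List ℕ := (List.range M).map (fun t => row W.2 σ i t) with hw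
  obtain ⟨q, c, n, a1, a2, a3, a4, a5, a6, a7, a8⟩ := p.newA σ i hi e0 κ0 h0 U hU hsub β w
  refine ⟨q, a1, a3, a2, a4, a8, ?_, ?_⟩
  · intro hz t ht
    have hlen : w.length = M := by rw [hw]; simp
    rw [a7]
    have key0 : ∀ (w' : List ℕ) (f : ℕ → ℕ), w' = w → appendL w' f t = row W.2 σ i t := by
      rintro w' f rfl
      unfold appendL
      rw [if_pos (by omega), List.getD_eq_getElem _ _ (by omega)]
      simp [hw]
    have key : ∀ (L : Lvl) (a : AN L), L.isZ = true → (dec (rho a.2)).2.2 = w →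
        lbl ψ σ L a t = row W.2 σ i t := by
      intro L a hL hd
      cases L with
      | zero => exact key0 _ _ hd
      | node s => simp [Lvl.isZ] at hL
    apply key _ _ hz
    simp only [rho_append]
    exact a6
  · intro hz k hk
    have hM0 : 0 < M := by omega
    obtain ⟨b1, b2, b3⟩ := h0' hz hM0
    obtain ⟨m, rfl⟩ : ∃ m, M = m + 1 := ⟨M - 1, by omega⟩
    simp only [Nat.add_sub_cancel] at b3
    obtain ⟨c1, c2⟩ := PE.fT_pre (hbr hz hM0) k (by omega)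
    refine ⟨by rw [a3]; exact c1, ?_⟩
    rw [a4, c2, b3, trunc_trunc (by omega), a7]
    have h5 := childA_pfx (S := S) (x := x) hz (c := c) (n := n) b2 b1
    have h6 : trunc k (pfx S (lv l σ) m (tp S x (lv l σ) (e0 ++ c),
        κ0 ++ [((e0 ++ c).length, n)])) = pfx S (lv l σ) k (tp S x (lv l σ) (e0 ++ c),
        κ0 ++ [((e0 ++ c).length, n)]) :=
      trunc_pfx hz (childA_mem a5 (Or.inr b2)) (by omega)
    rw [← h6, h5, trunc_trunc (by omega)]

/-- Add one `A`-index. -/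
theorem Cp.addA (hM : Mono S l) {ψ : (ℕ → Bool) → ℕ → ℕ} {p : PE S l x} {ob : Ob l}
    {W : (ℕ → ℕ) × Z} (h : Cp p ob W) (hob : ObOK S l x ob) (σ : List ℕ) (i M : ℕ)
    (hi : (σ, i) ∉ p.dA)
    (hbr : (lv l σ).isZ = false → 0 < M → (σ, pre (row W.2 σ i) M) ∈ p.dT) :
    ∃ q : PE S l x, PE.Le p q ∧ q.dT = p.dT ∧ q.dA = insert (σ, i) p.dA ∧ Cp q ob W ∧
      RowOK ψ q W M σ i := by
  classical
  cases σ with
  | nil =>
    obtain ⟨q, a1, a2, a3, a4, _, a6⟩ := p.addA_core (ψ := ψ) W [] i M hi hbr ∅ Set.finite_empty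
      (fun P hP => absurd hP (by simp)) (fun _ => 0)
    refine ⟨q, a1, a2, a3, ⟨?_, ?_⟩, a6⟩
    · intro τ j s i' hT hA
      rw [a2] at hT
      rw [a3] at hA
      rcases hA with hA | hA
      · exact absurd (Prod.mk.inj hA).1 (by simp)
      · rw [(a1.A _ _ hA).2, a4]
        exact h.bits τ j s i' hT hA
    · intro τ k Q κ ho i' hA
      rw [a3] at hA
      rcases hA with hA | hA
      · exact absurd (Prod.mk.inj hA).1 (by simp)
      · rw [(a1.A _ _ hA).2]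
        exact h.obc τ k Q κ ho i' hA
  | cons k τ =>
    set U : Set (Set (Ty (lv l (k :: τ))) × List (ℕ × ℕ)) :=
      (fun R : List ℕ × List ℕ => ((p.fT τ R.2 k).1, keyT k (p.fT τ R.2))) ''
        {R | R ∈ p.dT ∧ R.1 = τ ∧ R.2.length = k + 1} ∪
      {P | ob = .col τ k P.1 P.2} with hUdef
    have hUfin : U.Finite := by
      refine Set.Finite.union (Set.Finite.image _ (p.finT.subset (fun R hR => hR.1))) ?_
      apply Set.Subsingleton.finite
      intro P hP P' hP'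
      have h1 : Ob.col τ k P.1 P.2 = Ob.col τ k P'.1 P'.2 := (Eq.symm hP).trans hP'
      have h2 := (Ob.col.inj h1)
      exact Prod.ext (eq_of_heq h2.2.2.1) h2.2.2.2
    have hUsub : ∀ P ∈ U, P.1 ⊆ jp S x (lv l (k :: τ)) [] := by
      rintro P (⟨⟨τ', s⟩, ⟨h1, h2, h3⟩, rfl⟩ | hP)
      · simp only at h1 h2 h3 ⊢
        subst h2
        cases s with
        | nil => simp at h3
        | cons j s =>
          obtain ⟨e, κ, h4, h5, h6⟩ := p.T_mem τ' j s h1
          have h7 : s.length = k := by simpa using h3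
          rw [h7] at h5 h6
          rw [h6, seqOf_last x _ e h4 h5]
          rintro t ⟨c, rfl⟩
          exact tp_mem_jp_nil x _ _
      · have hP' : ob = .col τ k P.1 P.2 := hP
        rw [hP'] at hob
        exact hob.1
    set β : Set (Ty (lv l (k :: τ))) × List (ℕ × ℕ) → ℕ := fun P =>
      if h1 : ∃ (j : ℕ) (s : List ℕ), (τ, j :: s) ∈ p.dT ∧ s.length = k ∧
          (p.fT τ (j :: s) k).1 = P.1 ∧ keyT k (p.fT τ (j :: s)) = P.2 then
        bit W.2 τ h1.choose h1.choose_spec.choose i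
      else W.1 i with hβ
    obtain ⟨q, a1, a2, a3, a4, a5, a6⟩ :=
      p.addA_core (ψ := ψ) W (k :: τ) i M hi hbr U hUfin hUsub β
    refine ⟨q, a1, a2, a3, ⟨?_, ?_⟩, a6⟩
    · intro τ' j s i' hT hA
      rw [a2] at hT
      rw [a3] at hA
      rcases hA with hA | hA
      · obtain ⟨hl, hτ⟩ := List.cons.inj (Prod.mk.inj hA).1
        have hi' : i' = i := (Prod.mk.inj hA).2
        subst hl
        subst hτ
        subst hi'
        have hP : ((p.fT τ' (j :: s) s.length).1, keyT s.length (p.fT τ' (j :: s))) ∈ U :=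
          Or.inl ⟨(τ', j :: s), ⟨hT, rfl, by simp⟩, rfl⟩
        have h2 := a5 _ hP
        unfold colT
        rw [a4]
        refine Eq.trans ?_ h2.symm
        have hex : ∃ (j' : ℕ) (s' : List ℕ), (τ', j' :: s') ∈ p.dT ∧ s'.length = s.length ∧
          (p.fT τ' (j' :: s') s.length).1 = (p.fT τ' (j :: s) s.length).1 ∧
          keyT s.length (p.fT τ' (j' :: s')) = keyT s.length (p.fT τ' (j :: s)) :=
          ⟨j, s, hT, rfl, rfl, rfl⟩
        have hβ2 : β ((p.fT τ' (j :: s) s.length).1, keyT s.length (p.fT τ' (j :: s))) =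
            bit W.2 τ' hex.choose hex.choose_spec.choose i' := dif_pos hex
        rw [hβ2]
        obtain ⟨hT', hl', e2, e3⟩ := hex.choose_spec.choose_spec
        generalize hex.choose_spec.choose = s' at hT' hl' e2 e3 ⊢
        generalize hex.choose = j' at hT' hl' e2 e3 ⊢
        have hu := p.T_mem τ' j s hT
        have hu' := p.T_mem τ' j' s' hT'
        rw [hl'] at hu'
        have hnode : p.fT τ' (j' :: s') = p.fT τ' (j :: s) :=
          T_det (mono_at (mono_lv hM τ')) hu' hu e2 e3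
        have h6 : j' :: s' = j :: s := p.T_inj τ' _ _ hT' hT (by simp [hl']) hnode
        obtain ⟨h7, h8⟩ := List.cons.inj h6
        rw [h7, h8]
      · rw [(a1.A _ _ hA).2, a4]
        exact h.bits τ' j s i' hT hA
    · intro τ' k' Q κ ho i' hA
      rw [a3] at hA
      rcases hA with hA | hA
      · obtain ⟨hl, hτ⟩ := List.cons.inj (Prod.mk.inj hA).1
        have hi' : i' = i := (Prod.mk.inj hA).2
        subst hl
        subst hτ
        subst hi'
        have hP : (Q, κ) ∈ U := Or.inr ho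
        have h2 := a5 _ hP
        refine Eq.trans ?_ h2.symm
        have hno : ¬ ∃ (j : ℕ) (s : List ℕ), (τ', j :: s) ∈ p.dT ∧ s.length = k' ∧
            (p.fT τ' (j :: s) k').1 = Q ∧ keyT k' (p.fT τ' (j :: s)) = κ := by
          rintro ⟨j, s, hT, hl, e1, e2⟩
          rw [ho] at hob
          refine hob.2 _ ?_ ⟨e1, e2⟩
          rw [← hl]
          exact p.T_mem τ' j s hT
        have hβ2 : β (Q, κ) = W.1 i' := dif_neg hno
        exact hβ2.symm
      · rw [(a1.A _ _ hA).2]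
        exact h.obc τ' k' Q κ ho i' hA

end Pool.Bc
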