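import Pool.Agent.Bc.Defs

/-!
# Project BC: transport of the rows of extra elements (definitions)
-/

set_option autoImplicit false

namespace Pool.Bc

/-- The `i`-th `A`-element of `z` at `σ` and the `i'`-th one of `z'` are the same node
(recursion on the level `l` of the position `σ`). -/
def EqA : (l : Lvl) → (σ : List ℕ) → Z → ℕ → Z → ℕ → Prop
  | .zero, σ, z, i, z', i' => row z σ i = row z' σ i'
  | .node s, σ, z, i, z', i' => ∀ k j j', EqA (s k) (k :: σ) z j z' j' →
      bit z σ (row z σ i k) (pre (row z σ i) k) j = bit z' σ (row z' σ i' k) (pre (row z' σ i') k) j'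

/-- The `T`-elements `j :: s` of `z` and `j' :: s'` of `z'` have the same colours over the
`A`-elements which are the same nodes; `l` is the level of the position `σ`. -/
def EqB (l : Lvl) (σ : List ℕ) (z : Z) (j : ℕ) (s : List ℕ) (z' : Z) (j' : ℕ) (s' : List ℕ) :
    Prop :=
  ∀ i i', EqA (l.chd s.length) (s.length :: σ) z i z' i' → bit z σ j s i = bit z' σ j' s' i'

/-- Row of an extra tree element `j' :: s'` of `z'`, relative to `z`. -/
noncomputable def phiCol (l : Lvl) (σ : List ℕ) (j' : ℕ) (s' : List ℕ) (z z' : Z) : ℕ → ℕ :=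
  fun i => sInf {c | ∃ i', EqA (l.chd s'.length) (s'.length :: σ) z i z' i' ∧
    bit z' σ j' s' i' = c}

/-- Finite parts of the transported branch (newest entry first). -/
noncomputable def phiBrL (l : Lvl) (σ : List ℕ) (i' : ℕ) (z z' : Z) : ℕ → List ℕ
  | 0 => []
  | k + 1 => sInf {j | EqB l σ z j (phiBrL l σ i' z z' k) z' (row z' σ i' k)
      (pre (row z' σ i') k)} :: phiBrL l σ i' z z' k

/-- Row of an extra branch `i'` of `z'`, relative to `z`. -/
noncomputable def phiBr (l : Lvl) (σ : List ℕ) (i' : ℕ) (z z' : Z) : ℕ → ℕ :=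
  fun k => (phiBrL l σ i' z z' (k + 1)).headD 0

/-- Indices of extra elements. -/
inductive Cs : Type
  | lab (σ : List ℕ) (i' : ℕ) : Cs
  | col (σ : List ℕ) (j' : ℕ) (s' : List ℕ) : Cs
  | br (σ : List ℕ) (i' : ℕ) : Cs

/-- The transported row (zero in the cases without meaning). -/
noncomputable def Phi (l : Lvl) : Cs → Z → Z → ℕ → ℕ
  | .lab σ i', _, z' => if (lv l σ).isZ = true then row z' σ i' else fun _ => 0
  | .col σ j' s', z, z' => phiCol (lv l σ) σ j' s' z z'
  | .br σ i', z, z' => if (lv l σ).isZ = true then fun _ => 0 else phiBr (lv l σ) σ i' z z'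

end Pool.Bc
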