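import Pool.Agent.Bc.Nodes
import Pool.Agent.Bc.Phi

/-!
# Project BC: the statements of the rows
-/

set_option autoImplicit false

open MeasureTheory

namespace Pool.Bc

/-- EP1: new `A`-nodes with prescribed colours to finitely many upper profiles. -/
def StEP1 : Prop := ∀ {X : Type} (S : TupSys X) (x : X) (l : Lvl) (e0 : List ℕ)
  (κ0 : List (ℕ × ℕ)) (U : Set (Set (Ty l) × List (ℕ × ℕ))), U.Finite →
  (∀ p ∈ U, p.1 ⊆ jp S x l []) → ∀ (β : Set (Ty l) × List (ℕ × ℕ) → ℕ) (w : List ℕ) (N : ℕ),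
  ∃ (c : List ℕ) (n : ℕ), N ≤ n ∧ n ≠ 0 ∧ (dec n).2.2 = w ∧ ∀ p ∈ U,
    col S l (tp S x l (e0 ++ c), κ0 ++ [((e0 ++ c).length, n)]) p.1 p.2 = β p

/-- EP2: new tree nodes with prescribed colours to finitely many lower nodes. -/
def StEP2 : Prop := ∀ {X : Type} (S : TupSys X) (x : X) (l : Lvl) (e0 : List ℕ)
  (κ0 : List (ℕ × ℕ)) (Y : Set (AN l)), Y.Finite → (∀ y ∈ Y, ∃ d, y.1 = tp S x l d) →
  ∀ (β : AN l → ℕ) (N : ℕ), ∃ (c : List ℕ) (n : ℕ), N ≤ n ∧ ∀ y ∈ Y,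
    col S l y (jp S x l (e0 ++ c)) (κ0 ++ [((e0 ++ c).length, n)]) = β y

/-- Mycielski map. -/
def StMyc : Prop := ∀ D : ℕ → Set ((ℕ → ℕ) × Z), (∀ n, IsOpen (D n)) → (∀ n, Dense (D n)) →
  ∃ ψ : (ℕ → Bool) → ℕ → ℕ, Continuous ψ ∧ MycOK D ψ ∧
    ∀ (w w' : List ℕ) (y y' : ℕ → Bool), y ≠ y' → appendL w (ψ y) ≠ appendL w' (ψ y')

/-- Analytic sets with countable sections are meagre. -/
def StKU : Prop := ∀ A : Set ((ℕ → ℕ) × Z), AnalyticSet A →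
  (∀ z : Z, {b : ℕ → ℕ | (b, z) ∈ A}.Countable) →
  ∃ D : ℕ → Set ((ℕ → ℕ) × Z), (∀ n, IsOpen (D n)) ∧ (∀ n, Dense (D n)) ∧
    ∀ w ∈ A, ∃ n, w ∉ D n

/-- Borel choice of an enumeration. -/
def StBorelEnum : Prop := ∀ {X : Type} [MeasurableSpace X] (S : TupSys X),
  (∀ (e : List ℕ) (n : ℕ), MeasurableSet {x | S.bt x e n = true}) → ∀ (l : Lvl), Mono S l →
  ∀ ψ : (ℕ → Bool) → ℕ → ℕ, Continuous ψ → ∃ E : X → Z, Measurable E ∧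
    ∀ x, ∃ ζ : Enum S l x, IsZ S l ψ ζ (E x)

/-- Points of enumerations of structures with the same types are isomorphic. -/
def StEnumIso : Prop := ∀ {X : Type} (S : TupSys X) (l : Lvl), Mono S l →
  ∀ (ψ : (ℕ → Bool) → ℕ → ℕ) (x x' : X) (ζ : Enum S l x) (ζ' : Enum S l x') (z z' : Z),
  IsZ S l ψ ζ z → IsZ S l ψ ζ' z' → (∀ l', jp S x l' [] = jp S x' l' []) → ZIso l z z'

/-- The transported rows are Borel. -/
def StPhiMeas : Prop := ∀ (l : Lvl) (c : Cs), Measurable (fun p : Z × Z => Phi l c p.1 p.2)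

/-- The transported rows only depend on the isomorphism type of `z'`. -/
def StPhiIso : Prop := ∀ (l : Lvl) (z' z'' : Z), ZIso l z' z'' → ∀ c : Cs, ∃ c' : Cs,
  ∀ z : Z, Phi l c z z' = Phi l c' z z''

/-- The transported row of an extra tree node is its row. -/
def StPhiCol : Prop := ∀ {X : Type} (S : TupSys X) (l : Lvl), Mono S l →
  ∀ (ψ : (ℕ → Bool) → ℕ → ℕ),
  (∀ (w w' : List ℕ) (y y' : ℕ → Bool), y ≠ y' → appendL w (ψ y) ≠ appendL w' (ψ y')) →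
  ∀ (x x' : X) (ζ : Enum S l x) (ζ' : Enum S l x') (z z' : Z),
  IsZ S l ψ ζ z → IsZ S l ψ ζ' z' → ∀ (σ : List ℕ) (j' : ℕ) (s' : List ℕ),
  (∀ μ, jp S x (lv l (μ ++ s'.length :: σ)) [] = jp S x' (lv l (μ ++ s'.length :: σ)) []) →
  ∀ i, Phi l (.col σ j' s') z z' i =
    col S (lv l (s'.length :: σ)) (ζ.a (s'.length :: σ) i) (ζ'.t σ (j' :: s') s'.length).1
      (keyT s'.length (ζ'.t σ (j' :: s')))

/-- The transported row of an extra branch is its row. -/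
def StPhiBr : Prop := ∀ {X : Type} (S : TupSys X) (l : Lvl), Mono S l →
  ∀ (ψ : (ℕ → Bool) → ℕ → ℕ),
  (∀ (w w' : List ℕ) (y y' : ℕ → Bool), y ≠ y' → appendL w (ψ y) ≠ appendL w' (ψ y')) →
  ∀ (x x' : X) (ζ : Enum S l x) (ζ' : Enum S l x') (z z' : Z),
  IsZ S l ψ ζ z → IsZ S l ψ ζ' z' → ∀ (σ : List ℕ) (i' : ℕ), (lv l σ).isZ = false →
  (∀ k μ, jp S x (lv l (μ ++ k :: σ)) [] = jp S x' (lv l (μ ++ k :: σ)) []) →
  (∀ k, pfx S (lv l σ) k (ζ'.a σ i') ∈ TNset S x (lv l σ) k) →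
  ∀ k, ζ.t σ (pre (Phi l (.br σ i') z z') (k + 1)) = pfx S (lv l σ) k (ζ'.a σ i')

/-- Density: generic enumerations. -/
def StDens : Prop := ∀ {X : Type} (S : TupSys X) (l : Lvl), Mono S l →
  ∀ (D : ℕ → Set ((ℕ → ℕ) × Z)), (∀ n, IsOpen (D n)) → (∀ n, Dense (D n)) →
  ∀ (ψ : (ℕ → Bool) → ℕ → ℕ), MycOK D ψ → ∀ (x : X) (ob : Ob l), ObOK S l x ob →
  ∃ (ζ : Enum S l x) (z : Z) (b : ℕ → ℕ), IsZ S l ψ ζ z ∧ ObRow S l ψ ζ ob b ∧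
    ∀ n, (b, z) ∈ D n

/-- The core theorem. -/
def StCore : Prop := ∀ {X : Type} [MeasurableSpace X] (S : TupSys X),
  (∀ (e : List ℕ) (n : ℕ), MeasurableSet {x | S.bt x e n = true}) → ∀ (l : Lvl), Mono S l →
  ∀ (G : ℕ → Set (Z × Z)), (∀ n, AnalyticSet (G n)) →
  (∀ n z z' z'', (z, z') ∈ G n → (z, z'') ∈ G n → ZIso l z' z'') →
  ∃ E : X → Z, Measurable E ∧
    (∀ x x', (∀ l', jp S x l' [] = jp S x' l' []) → ZIso l (E x) (E x')) ∧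
    (∀ x x', tp S x l [] ≠ tp S x' l [] → ∃ z z', ZIso l z (E x) ∧ ZIso l z' (E x') ∧
      ((∀ n, (z, z') ∉ G n) ∨ (∀ n, (z', z) ∉ G n)))

end Pool.Bc
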