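import Pool.Agent.Bc.Phase

/-!
# Project BC: the stages of the density argument
-/

set_option autoImplicit false

namespace Pool.Bc

variable {X : Type} {S : TupSys X} {l : Lvl} {x : X}

/-- The `A`-nodes (of levels `node s`) whose branches are followed. -/
def Old (p : PE S l x) (ob : Ob l) (σ : List ℕ) (a : AN (lv l σ)) : Prop :=
  (lv l σ).isZ = false ∧ ((∃ i, (σ, i) ∈ p.dA ∧ p.fA σ i = a) ∨ ob = .br σ a)

/-- The followed branches are assigned and separated up to length `K`; nothing else is longer. -/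
structure Ready (p : PE S l x) (ob : Ob l) (K : ℕ) : Prop where
  pos : 0 < K
  pT : ∀ σ a, Old p ob σ a → ∃ s : List ℕ, s.length = K ∧ (σ, s) ∈ p.dT ∧
    p.fT σ s = pfx S (lv l σ) (K - 1) a
  lenT : ∀ σ s, (σ, s) ∈ p.dT → s.length ≤ K
  lvA : ∀ σ k i, (k :: σ, i) ∈ p.dA → k < K
  sep : ∀ σ a a', Old p ob σ a → Old p ob σ a' → a ≠ a' →
    pfx S (lv l σ) (K - 1) a ≠ pfx S (lv l σ) (K - 1) a'

/-- The point `W` is compatible with the condition; branches are assigned up to length `K`. -/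
structure Good (ψ : (ℕ → Bool) → ℕ → ℕ) (p : PE S l x) (ob : Ob l) (K : ℕ)
    (W : (ℕ → ℕ) × Z) : Prop where
  cp : Cp p ob W
  lab : ∀ σ i, (σ, i) ∈ p.dA → (lv l σ).isZ = true → row W.2 σ i = lbl ψ σ (lv l σ) (p.fA σ i)
  obl : ∀ σ a, ob = .lab σ a → W.1 = lbl ψ σ (lv l σ) a
  br : ∀ σ i, (σ, i) ∈ p.dA → (lv l σ).isZ = false → (σ, pre (row W.2 σ i) K) ∈ p.dT ∧
    p.fT σ (pre (row W.2 σ i) K) = pfx S (lv l σ) (K - 1) (p.fA σ i)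
  obr : ∀ σ a, ob = .br σ a → (σ, pre W.1 K) ∈ p.dT ∧
    p.fT σ (pre W.1 K) = pfx S (lv l σ) (K - 1) a

/-- The coordinates in `C` are decided by `q` and agree with `W`. -/
structure Dc (ψ : (ℕ → Bool) → ℕ → ℕ) (q : PE S l x) (ob : Ob l) (W : (ℕ → ℕ) × Z)
    (C : Finset WC) : Prop where
  bit : ∀ σ j s i, (Sum.inr (Sum.inr (σ, j, s, i)) : WC) ∈ C →
    (σ, j :: s) ∈ q.dT ∧ (s.length :: σ, i) ∈ q.dA
  row : ∀ σ i t, (Sum.inr (Sum.inl (σ, i, t)) : WC) ∈ C →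
    (σ, i) ∈ q.dA ∧ RowOK ψ q W (t + 1) σ i
  obl : ∀ t, (Sum.inl t : WC) ∈ C → ∀ σ a, ob = .lab σ a → W.1 t = lbl ψ σ (lv l σ) a t
  obc : ∀ t, (Sum.inl t : WC) ∈ C → ∀ σ k Q κ, ob = .col σ k Q κ → (k :: σ, t) ∈ q.dA
  obr : ∀ t, (Sum.inl t : WC) ∈ C → ∀ σ a, ob = .br σ a → ∀ k ≤ t,
    (σ, pre W.1 (k + 1)) ∈ q.dT ∧ q.fT σ (pre W.1 (k + 1)) = pfx S (lv l σ) k a

/-- Stage 1: preparation. -/
def StPrep : Prop := ∀ {X : Type} (S : TupSys X) (l : Lvl), Mono S l → ∀ (x : X) (p : PE S l x)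
  (ob : Ob l), ObOK S l x ob → ∃ (q : PE S l x) (K : ℕ), PE.Le p q ∧ q.dA = p.dA ∧
    q.fA = p.fA ∧ Ready q ob K

/-- Stage 2: the Mycielski property gives a compatible point in `D n`. -/
def StCfg : Prop := ∀ {X : Type} (S : TupSys X) (l : Lvl), Mono S l →
  ∀ (D : ℕ → Set ((ℕ → ℕ) × Z)) (ψ : (ℕ → Bool) → ℕ → ℕ), MycOK D ψ → ∀ (x : X) (ob : Ob l),
  ObOK S l x ob → ∀ (p : PE S l x) (K : ℕ), Ready p ob K → ∀ n, ∃ W ∈ D n, Good ψ p ob K W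

/-- Stage 3: follow the branches one step further. -/
def StDetStep : Prop := ∀ {X : Type} (S : TupSys X) (l : Lvl), Mono S l →
  ∀ (ψ : (ℕ → Bool) → ℕ → ℕ) (x : X) (ob : Ob l), ObOK S l x ob → ∀ (p : PE S l x) (K : ℕ),
  Ready p ob K → ∀ W, Good ψ p ob K W → ∃ q : PE S l x, PE.Le p q ∧ q.dA = p.dA ∧
    q.fA = p.fA ∧ Ready q ob (K + 1) ∧ Good ψ q ob (K + 1) W

/-- Stage 4: decide finitely many coordinates. -/
def StExt : Prop := ∀ {X : Type} (S : TupSys X) (l : Lvl), Mono S l →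
  ∀ (ψ : (ℕ → Bool) → ℕ → ℕ) (x : X) (ob : Ob l), ObOK S l x ob → ∀ (p : PE S l x) (K : ℕ),
  Ready p ob K → ∀ W, Good ψ p ob K W → ∀ C : Finset WC, ∃ q : PE S l x, PE.Le p q ∧
    Cp q ob W ∧ Dc ψ q ob W C

/-- Stage 5: decided coordinates. -/
def StForce : Prop := ∀ {X : Type} (S : TupSys X) (l : Lvl), Mono S l →
  ∀ (ψ : (ℕ → Bool) → ℕ → ℕ) (x : X) (ob : Ob l), ObOK S l x ob → ∀ (q : PE S l x) W
  (C : Finset WC), Cp q ob W → Dc ψ q ob W C → ∀ (ζ : Enum S l x), PE.In q ζ → ∀ z b,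
  IsZ S l ψ ζ z → ObRow S l ψ ζ ob b → ∀ c ∈ C, wc (b, z) c = wc W c

end Pool.Bc
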