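import Pool.Agent.Bc.Inv

/-!
# Project BC: Borel isomorphism relations are given by the types of some level
-/

set_option autoImplicit false

open MeasureTheory

namespace Pool.Bc

theorem ivSIso_symm {L : FirstOrder.Language.{0, 0}} {M N : L.Structure ℕ} (h : SIso L M N) :
    SIso L N M := by
  obtain ⟨e⟩ := h
  exact ⟨@FirstOrder.Language.Equiv.symm L ℕ ℕ M N e⟩

theorem ivSIso_trans {L : FirstOrder.Language.{0, 0}} {M N P : L.Structure ℕ} (h : SIso L M N)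
    (h' : SIso L N P) : SIso L M P := by
  obtain ⟨e⟩ := h
  obtain ⟨e'⟩ := h'
  exact ⟨@FirstOrder.Language.Equiv.comp L ℕ ℕ M N ℕ P e' e⟩

theorem ivSiso_pull {L : FirstOrder.Language.{0, 0}} (M : L.Structure ℕ) (g : Equiv.Perm ℕ) :
    SIso L (pull L M g) M := by
  refine ⟨@FirstOrder.Language.Equiv.mk L ℕ ℕ (pull L M g) M g ?_ ?_⟩
  · intro n f x
    exact g.apply_symm_apply _
  · intro n R x
    exact Iff.rfl

theorem stVaught (h1 : StInv) (h2 : StGenPerm) : StVaught := by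
  intro L hL S enc hS K hK hinv
  obtain ⟨l, hl, h⟩ := h1 L hL S enc hS {p | p.1 ∈ K ∧ p.2 ∈ K ∧ SIso L p.1 p.2} hK
  refine ⟨l, hl, fun M hM N hN he => ?_⟩
  have h3 : Forces L M [] {M1 | (M, M1) ∈ {p : L.Structure ℕ × L.Structure ℕ |
      p.1 ∈ K ∧ p.2 ∈ K ∧ SIso L p.1 p.2}} := by
    refine ⟨fun _ => Set.univ, fun _ => ivDenseL_univ, fun g _ _ => ?_⟩
    have h4 : SIso L M (pull L M g) := ivSIso_symm (ivSiso_pull M g)
    exact ⟨hM, hinv M _ hM h4, h4⟩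
  obtain ⟨U, hU, h5⟩ := h M M N [] [] List.nodup_nil he h3
  obtain ⟨g, hg1, hg2⟩ := h2 U hU [] List.nodup_nil
  obtain ⟨_, _, h6⟩ := h5 g hg1 hg2
  exact ivSIso_trans h6 (ivSiso_pull N g)

end Pool.Bc
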